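import Pool.Agent.Helper9.SC9

/-!
# Small codimension: the systems of integer inequalities
-/

set_option autoImplicit false

namespace Pool.Agent.Helper9.SC

open Finset Polynomial

lemma sys8_8 (h2 h3 h4 h5 h6 h7 h8 r2 r3 r4 : ℤ)
    (e2 : h2 = 1 * r2 + (-36))
    (e3 : h3 = 9 * r2 + 1 * r3 + (-240))
    (e4 : h4 = 45 * r2 + 9 * r3 + 1 * r4 + (-990))
    (e5 : h5 = 165 * r2 + 46 * r3 + 9 * r4 + (-3168))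
    (e6 : h6 = 496 * r2 + 174 * r3 + 45 * r4 + (-8580))
    (e7 : h7 = 1296 * r2 + 540 * r3 + 165 * r4 + (-20601))
    (e8 : h8 = 3048 * r2 + 1452 * r3 + 495 * r4 + (-45125))
    (hl : 0 < 2 * r2 + 2 * r3 + 1 * r4 + (-16))
    (p2 : 0 ≤ h2) (p3 : 0 ≤ h3) (p4 : 0 ≤ h4) (p5 : 0 ≤ h5) (p6 : 0 ≤ h6) (p7 : 0 ≤ h7) (p8 : 0 ≤ h8)
    (g2 : h2 ≤ 8) (g3 : h3 ≤ 8) (g4 : h4 ≤ 8 + h2 * h2) (g5 : h5 ≤ 8 + h2 * h3)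
    (g6 : h6 ≤ 8 + (h2 * h4 + h3 * h3)) (g7 : h7 ≤ 8 + (h2 * h5 + h3 * h4))
    (g8 : h8 ≤ 8 + (h2 * h6 + h3 * h5 + (8 + h2 * h2) * h4)) : False := by
  interval_cases h2 <;> interval_cases h3 <;> omega

lemma sys9_8 (h2 h3 h4 h5 h6 h7 h8 r2 r3 r4 : ℤ)
    (e2 : h2 = 1 * r2 + (-45))
    (e3 : h3 = 10 * r2 + 1 * r3 + (-330))
    (e4 : h4 = 55 * r2 + 10 * r3 + 1 * r4 + (-1485))
    (e5 : h5 = 220 * r2 + 56 * r3 + 10 * r4 + (-5148))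
    (e6 : h6 = 716 * r2 + 230 * r3 + 55 * r4 + (-15015))
    (e7 : h7 = 2012 * r2 + 770 * r3 + 220 * r4 + (-38620))
    (e8 : h8 = 5060 * r2 + 2222 * r3 + 715 * r4 + (-90189))
    (hl : 0 < 2 * r2 + 2 * r3 + 1 * r4 + (-18))
    (p2 : 0 ≤ h2) (p3 : 0 ≤ h3) (p4 : 0 ≤ h4) (p5 : 0 ≤ h5) (p6 : 0 ≤ h6) (p7 : 0 ≤ h7) (p8 : 0 ≤ h8)
    (g2 : h2 ≤ 8) (g3 : h3 ≤ 8) (g4 : h4 ≤ 8 + h2 * h2) (g5 : h5 ≤ 8 + h2 * h3)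
    (g6 : h6 ≤ 8 + (h2 * h4 + h3 * h3)) (g7 : h7 ≤ 8 + (h2 * h5 + h3 * h4))
    (g8 : h8 ≤ 8 + (h2 * h6 + h3 * h5 + (8 + h2 * h2) * h4)) : False := by
  interval_cases h2 <;> interval_cases h3 <;> omega

lemma sys10_8 (h2 h3 h4 h5 h6 h7 h8 r2 r3 r4 : ℤ)
    (e2 : h2 = 1 * r2 + (-55))
    (e3 : h3 = 11 * r2 + 1 * r3 + (-440))
    (e4 : h4 = 66 * r2 + 11 * r3 + 1 * r4 + (-2145))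
    (e5 : h5 = 286 * r2 + 67 * r3 + 11 * r4 + (-8008))
    (e6 : h6 = 1002 * r2 + 297 * r3 + 66 * r4 + (-25025))
    (e7 : h7 = 3014 * r2 + 1067 * r3 + 286 * r4 + (-68651))
    (e8 : h8 = 8074 * r2 + 3289 * r3 + 1001 * r4 + (-170290))
    (hl : 0 < 2 * r2 + 2 * r3 + 1 * r4 + (-20))
    (p2 : 0 ≤ h2) (p3 : 0 ≤ h3) (p4 : 0 ≤ h4) (p5 : 0 ≤ h5) (p6 : 0 ≤ h6) (p7 : 0 ≤ h7) (p8 : 0 ≤ h8)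
    (g2 : h2 ≤ 8) (g3 : h3 ≤ 8) (g4 : h4 ≤ 8 + h2 * h2) (g5 : h5 ≤ 8 + h2 * h3)
    (g6 : h6 ≤ 8 + (h2 * h4 + h3 * h3)) (g7 : h7 ≤ 8 + (h2 * h5 + h3 * h4))
    (g8 : h8 ≤ 8 + (h2 * h6 + h3 * h5 + (8 + h2 * h2) * h4)) : False := by
  interval_cases h2 <;> interval_cases h3 <;> omega

lemma sys9_9 (h2 h3 h4 h5 h6 h7 h8 r2 r3 r4 : ℤ)
    (e2 : h2 = 1 * r2 + (-45))
    (e3 : h3 = 10 * r2 + 1 * r3 + (-330))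
    (e4 : h4 = 55 * r2 + 10 * r3 + 1 * r4 + (-1485))
    (e5 : h5 = 220 * r2 + 55 * r3 + 11 * r4 + (-5148))
    (e6 : h6 = 715 * r2 + 221 * r3 + 65 * r4 + (-15015))
    (e7 : h7 = 2003 * r2 + 725 * r3 + 275 * r4 + (-38610))
    (e8 : h8 = 5015 * r2 + 2057 * r3 + 935 * r4 + (-90100))
    (hl : 0 < 2 * r2 + 2 * r3 + 2 * r4 + (-18))
    (p2 : 0 ≤ h2) (p3 : 0 ≤ h3) (p4 : 0 ≤ h4) (p5 : 0 ≤ h5) (p6 : 0 ≤ h6) (p7 : 0 ≤ h7) (p8 : 0 ≤ h8)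
    (g2 : h2 ≤ 8) (g3 : h3 ≤ 8) (g4 : h4 ≤ 8 + h2 * h2) (g5 : h5 ≤ 8 + h2 * h3)
    (g6 : h6 ≤ 8 + (h2 * h4 + h3 * h3)) (g7 : h7 ≤ 8 + (h2 * h5 + h3 * h4))
    (g8 : h8 ≤ 8 + (h2 * h6 + h3 * h5 + (8 + h2 * h2) * h4)) : False := by
  interval_cases h2 <;> interval_cases h3 <;> omega

lemma sys10_9 (h2 h3 h4 h5 h6 h7 h8 r2 r3 r4 : ℤ)
    (e2 : h2 = 1 * r2 + (-55))
    (e3 : h3 = 11 * r2 + 1 * r3 + (-440))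
    (e4 : h4 = 66 * r2 + 11 * r3 + 1 * r4 + (-2145))
    (e5 : h5 = 286 * r2 + 66 * r3 + 12 * r4 + (-8008))
    (e6 : h6 = 1001 * r2 + 287 * r3 + 77 * r4 + (-25025))
    (e7 : h7 = 3004 * r2 + 1012 * r3 + 352 * r4 + (-68640))
    (e8 : h8 = 8019 * r2 + 3069 * r3 + 1287 * r4 + (-170181))
    (hl : 0 < 2 * r2 + 2 * r3 + 2 * r4 + (-20))
    (p2 : 0 ≤ h2) (p3 : 0 ≤ h3) (p4 : 0 ≤ h4) (p5 : 0 ≤ h5) (p6 : 0 ≤ h6) (p7 : 0 ≤ h7) (p8 : 0 ≤ h8)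
    (g2 : h2 ≤ 8) (g3 : h3 ≤ 8) (g4 : h4 ≤ 8 + h2 * h2) (g5 : h5 ≤ 8 + h2 * h3)
    (g6 : h6 ≤ 8 + (h2 * h4 + h3 * h3)) (g7 : h7 ≤ 8 + (h2 * h5 + h3 * h4))
    (g8 : h8 ≤ 8 + (h2 * h6 + h3 * h5 + (8 + h2 * h2) * h4)) : False := by
  interval_cases h2 <;> interval_cases h3 <;> omega

lemma sys10_10 (h2 h3 h4 h5 h6 h7 h8 r2 r3 r4 r5 : ℤ)
    (e2 : h2 = 1 * r2 + (-55))
    (e3 : h3 = 11 * r2 + 1 * r3 + (-440))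
    (e4 : h4 = 66 * r2 + 11 * r3 + 1 * r4 + (-2145))
    (e5 : h5 = 286 * r2 + 66 * r3 + 11 * r4 + 1 * r5 + (-8008))
    (e6 : h6 = 1001 * r2 + 286 * r3 + 67 * r4 + 11 * r5 + (-25025))
    (e7 : h7 = 3003 * r2 + 1002 * r3 + 297 * r4 + 66 * r5 + (-68640))
    (e8 : h8 = 8009 * r2 + 3014 * r3 + 1067 * r4 + 286 * r5 + (-170170))
    (hl : 0 < 2 * r2 + 2 * r3 + 2 * r4 + 1 * r5 + (-20))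
    (p2 : 0 ≤ h2) (p3 : 0 ≤ h3) (p4 : 0 ≤ h4) (p5 : 0 ≤ h5) (p6 : 0 ≤ h6) (p7 : 0 ≤ h7) (p8 : 0 ≤ h8)
    (g2 : h2 ≤ 8) (g3 : h3 ≤ 8) (g4 : h4 ≤ 8 + h2 * h2) (g5 : h5 ≤ 8 + h2 * h3)
    (g6 : h6 ≤ 8 + (h2 * h4 + h3 * h3)) (g7 : h7 ≤ 8 + (h2 * h5 + h3 * h4))
    (g8 : h8 ≤ 8 + (h2 * h6 + h3 * h5 + (8 + h2 * h2) * h4)) : False := by
  interval_cases h2 <;> interval_cases h3 <;> omega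

end Pool.Agent.Helper9.SC
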