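import Pool.Agent.Helper9.SC10

/-!
# The bounds for the generators
-/

set_option autoImplicit false

namespace Pool.Agent.Helper9.SC

open Finset Pool.Agent.Q86.GS

universe u

variable {k S : Type u} [Field k] [CommRing S] [Algebra k S] {𝒜 : ℕ → Submodule k S}
  [GradedAlgebra 𝒜] {N : ℕ} {x : Fin N → S} {w : Fin N → ℕ}

omit [GradedAlgebra 𝒜] in
/-- A choice of generators with few of degree one. -/
theorem exists_U (hx : ∀ i, x i ∈ 𝒜 (w i)) (hfin : Module.Finite k (𝒜 1)) :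
    ∃ U : Finset (Fin N), (∀ i ∈ U, x i ≠ 0) ∧
      (∀ i, x i ∈ idl x (U.filter fun j => w j = w i)) ∧
      (U.filter fun i => w i = 1).card ≤ Module.finrank k (𝒜 1) := by
  classical
  obtain ⟨b, hbt, -, hbs, hbi⟩ := exists_linearIndepOn_extension (K := k) (v := x)
    (s := (∅ : Set (Fin N))) (t := {i | w i = 1}) (linearIndepOn_empty k x) (Set.empty_subset _)
  set J : Finset (Fin N) := b.toFinite.toFinset with hJ
  have hmemJ : ∀ i, i ∈ J ↔ i ∈ b := fun i => by rw [hJ, Set.Finite.mem_toFinset]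
  refine ⟨(univ.filter fun i => x i ≠ 0 ∧ w i ≠ 1) ∪ J, ?_, ?_, ?_⟩
  · intro i hi
    rw [mem_union, mem_filter, hmemJ] at hi
    rcases hi with hi | hi
    · exact hi.2.1
    · exact hbi.ne_zero hi
  · intro i
    by_cases h0 : x i = 0
    · rw [h0]
      exact Ideal.zero_mem _
    by_cases h1 : w i = 1
    · have h2 : x i ∈ Submodule.span k (x '' b) := hbs ⟨i, h1, rfl⟩
      have h3 : Submodule.span k (x '' b) ≤ (idl x (((univ.filter fun i => x i ≠ 0 ∧ w i ≠ 1) ∪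
          J).filter fun j => w j = w i)).restrictScalars k := by
        rw [Submodule.span_le]
        rintro _ ⟨j, hj, rfl⟩
        refine Ideal.subset_span ⟨j, ?_, rfl⟩
        rw [coe_filter]
        exact ⟨mem_union_right _ ((hmemJ j).2 hj), by rw [h1]; exact hbt hj⟩
      exact h3 h2
    · refine Ideal.subset_span ⟨i, ?_, rfl⟩
      rw [coe_filter]
      exact ⟨mem_union_left _ (mem_filter.2 ⟨mem_univ i, h0, h1⟩), rfl⟩
  · have h2 : ((univ.filter fun i => x i ≠ 0 ∧ w i ≠ 1) ∪ J).filter (fun i => w i = 1) ⊆ J := by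
      intro i hi
      rw [mem_filter, mem_union, mem_filter] at hi
      rcases hi.1 with h | h
      · exact absurd hi.2 h.2.2
      · exact h
    refine (card_le_card h2).trans ?_
    have h3 : Submodule.span k (x '' b) ≤ 𝒜 1 := by
      rw [Submodule.span_le]
      rintro _ ⟨j, hj, rfl⟩
      have := hx j
      rwa [show w j = 1 from hbt hj] at this
    refine le_trans (le_of_eq ?_) (Submodule.finrank_mono h3)
    have h4 : Fintype b := Fintype.ofFinite b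
    have h5 := finrank_span_eq_card (R := k) (b := fun i : b => x i) hbi
    have h6 : Set.range (fun i : b => x i) = x '' b := by
      rw [Set.image_eq_range]
    rw [h6] at h5
    rw [h5, hJ, Set.Finite.card_toFinset]

omit [GradedAlgebra 𝒜] in
lemma idl_mono {T T' : Finset (Fin N)} (h : T ⊆ T') : idl x T ≤ idl x T' :=
  Ideal.span_mono (Set.image_mono (by exact_mod_cast h))

/-- The generators whose weight is not divisible by `p` have no common zero. -/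
theorem prime_ideal' (hx : ∀ i, x i ∈ 𝒜 (w i)) (hw : ∀ i, 0 < w i)
    (hgen : Algebra.adjoin k (Set.range x) = ⊤)
    (hL : ∀ 𝔭 : Ideal S, 𝔭.IsPrime → 𝔭.IsHomogeneous 𝒜 → (∃ n, 0 < n ∧ ∃ x ∈ 𝒜 n, x ∉ 𝔭) →
      ∃ n, (∃ x ∈ 𝒜 n, x ∉ 𝔭) ∧ ∃ y ∈ 𝒜 (n + 1), y ∉ 𝔭) {p : ℕ} (hp : 2 ≤ p)
    {T : Finset (Fin N)} (hT : ∀ i, ¬ p ∣ w i → x i ∈ idl x T) :
    ∃ n0, ∀ n, n0 ≤ n → ∀ y ∈ 𝒜 n, y ∈ idl x T := by
  refine radical_le hx hgen fun 𝔭 h𝔭 hh hle => ?_
  by_contra hcon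
  push Not at hcon
  obtain ⟨i, hi⟩ := hcon
  obtain ⟨n, ⟨y, hy, hy'⟩, z, hz, hz'⟩ := hL 𝔭 h𝔭 hh ⟨w i, hw i, x i, hx i, hi⟩
  have key : ∀ n, ¬ p ∣ n → ∀ y ∈ 𝒜 n, y ∈ 𝔭 := by
    intro n hn y hy
    refine le_of_mon hx hgen (fun m hm => ?_) hy
    have h1 : ∃ i, ¬ p ∣ m i * w i := by
      by_contra h
      push Not at h
      exact hn (hm ▸ Finset.dvd_sum fun i _ => h i)
    obtain ⟨i, hi⟩ := h1
    have h2 : ¬ p ∣ w i := fun h => hi (h.mul_left _)
    have h3 : m i ≠ 0 := by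
      intro h
      rw [h, zero_mul] at hi
      exact hi (dvd_zero p)
    refine mon_mem_ideal (i := i) (r := 1) ?_ (Nat.one_le_iff_ne_zero.2 h3)
    rw [pow_one]
    exact hle (hT i h2)
  by_cases hpn : p ∣ n
  · refine hz' (key (n + 1) (fun h => ?_) z hz)
    have h5 := (Nat.dvd_add_right hpn).1 h
    have h6 := Nat.le_of_dvd one_pos h5
    omega
  · exact hy' (key n hpn y hy)

/-- The Hilbert series is at most the one of the polynomial ring. -/
theorem G_le_prod' [IsDomain S] (hfin : ∀ n, Module.Finite k (𝒜 n)) (hconv : Conv 𝒜)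
    (h0 : Module.finrank k (𝒜 0) = 1)
    (hx : ∀ i, x i ∈ 𝒜 (w i)) (hgen : Algebra.adjoin k (Set.range x) = ⊤) {t : ℝ}
    (ht0 : 0 ≤ t) (ht : t < 1) {U : Finset (Fin N)} (hU : ∀ i ∈ U, x i ≠ 0)
    (hU' : ∀ i, x i ∈ idl x U) :
    G 𝒜 (⊥ : Ideal S) t * ∏ i ∈ U, (1 - t ^ w i) ≤ 1 := by
  refine (G_prod hfin hconv hx ht0 ht U hU).trans ?_
  unfold G
  rw [tsum_eq_single 0]
  · have h1 : hf 𝒜 (idl x U) 0 ≤ 1 := by
      have := hf_anti hfin (bot_le : (⊥ : Ideal S) ≤ idl x U) 0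
      rw [hf_bot, h0] at this
      exact_mod_cast this
    have h2 : (hf 𝒜 (idl x U) 0 : ℝ) ≤ 1 := by exact_mod_cast h1
    simpa using h2
  · intro n hn
    have h3 : hf 𝒜 (idl x U) n = 0 := by
      rw [hf_eq_zero hfin]
      intro y hy
      refine le_of_mon hx hgen (fun m hm => ?_) hy
      have h4 : ∃ i, m i ≠ 0 := by
        by_contra h
        push Not at h
        apply hn
        rw [← hm]
        unfold wt
        simp [h]
      obtain ⟨i, hi⟩ := h4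
      refine mon_mem_ideal (i := i) (r := 1) ?_ (Nat.one_le_iff_ne_zero.2 hi)
      rw [pow_one]
      exact hU' i
    rw [h3]
    simp

/-- Every prime divides at most `|U| - dim S` of the weights. -/
theorem card_dvd [IsDomain S] (hfin : ∀ n, Module.Finite k (𝒜 n)) {D : ℕ} {R : Polynomial ℤ}
    (h : (PowerSeries.mk (fun n => (Module.finrank k (𝒜 n) : ℤ)) : PowerSeries ℤ) *
      (1 - PowerSeries.X) ^ (D + 1) = (R : PowerSeries ℤ)) (hR : 0 < R.eval 1)
    (hx : ∀ i, x i ∈ 𝒜 (w i)) (hw : ∀ i, 0 < w i)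
    (hgen : Algebra.adjoin k (Set.range x) = ⊤)
    (hL : ∀ 𝔭 : Ideal S, 𝔭.IsPrime → 𝔭.IsHomogeneous 𝒜 → (∃ n, 0 < n ∧ ∃ x ∈ 𝒜 n, x ∉ 𝔭) →
      ∃ n, (∃ x ∈ 𝒜 n, x ∉ 𝔭) ∧ ∃ y ∈ 𝒜 (n + 1), y ∉ 𝔭) {U : Finset (Fin N)}
    (hU : ∀ i ∈ U, x i ≠ 0) (hU' : ∀ i, x i ∈ idl x (U.filter fun j => w j = w i))
    {p : ℕ} (hp : 2 ≤ p) : (U.filter fun i => p ∣ w i).card + (D + 1) ≤ U.card := by
  have h1 := prime_ideal' hx hw hgen hL hp (T := U.filter fun i => ¬ p ∣ w i) (fun i hi =>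
    idl_mono (fun j hj => by
      rw [mem_filter] at hj ⊢
      exact ⟨hj.1, by rw [hj.2]; exact hi⟩) (hU' i))
  obtain ⟨n0, hn0⟩ := h1
  have h2 := card_ge hfin h hR hx hw (T := U.filter fun i => ¬ p ∣ w i)
    (fun i hi => hU i (mem_filter.1 hi).1) hn0
  have h3 := card_filter_add_card_filter_not (s := U) (fun i => p ∣ w i)
  omega

end Pool.Agent.Helper9.SC
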