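import Pool.Agent.Helper9.SC11

/-!
# The linear bound
-/

set_option autoImplicit false

namespace Pool.Agent.Helper9.SC

open Finset Polynomial

/-- The product over the generators, if every prime divides at most `B` of the degrees and at most
`h` degrees are one. -/
theorem prod_ge1235 {ι : Type} (U : Finset ι) (w : ι → ℕ) (hw : ∀ i ∈ U, 0 < w i) {B d h : ℕ}
    (hBd : h + B ≤ d) (h1 : (U.filter fun i => w i = 1).card ≤ h)
    (h2 : (U.filter fun i => 2 ∣ w i).card ≤ B)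
    (h3 : (U.filter fun i => 3 ∣ w i).card ≤ B) (hU : U.card ≤ B + d) {t : ℝ} (ht0 : 0 ≤ t)
    (ht : t < 1) :
    (1 - t) ^ h * (((1 - t ^ 2) * (1 - t ^ 3)) ^ B * (1 - t ^ 5) ^ (d - B - h)) ≤
      ∏ i ∈ U, (1 - t ^ w i) := by
  classical
  have h0 : ∀ n : ℕ, 0 ≤ 1 - t ^ n := fun n => sub_nonneg.2 (pow_le_one₀ ht0 ht.le)
  set U1 := U.filter fun i => w i = 1 with hU1
  set U' := U.filter fun i => ¬ w i = 1 with hU'
  have hcard : U1.card + U'.card = U.card := by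
    rw [hU', hU1, card_filter_add_card_filter_not]
  have hprod : (∏ i ∈ U1, (1 - t ^ w i)) * (∏ i ∈ U', (1 - t ^ w i)) =
      ∏ i ∈ U, (1 - t ^ w i) := by
    rw [hU', hU1, prod_filter_mul_prod_filter_not]
  have e1 : ∏ i ∈ U1, (1 - t ^ w i) = (1 - t) ^ U1.card := by
    rw [← prod_const]
    refine prod_congr rfl fun i hi => ?_
    rw [(mem_filter.1 hi).2, pow_one]
  have e2 := prod_ge235 U' w (B := B) (d := d - U1.card) (t := t)
    (fun i hi => by
      have h5 := mem_filter.1 hi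
      have h6 := hw i h5.1
      have h7 : w i ≠ 1 := h5.2
      omega) (by omega)
    ((card_le_card (by
      intro i hi
      rw [mem_filter] at hi ⊢
      exact ⟨(mem_filter.1 hi.1).1, hi.2⟩)).trans h2)
    ((card_le_card (by
      intro i hi
      rw [mem_filter] at hi ⊢
      exact ⟨(mem_filter.1 hi.1).1, hi.2⟩)).trans h3) (by omega) ht0 ht
  have h1t : 0 ≤ 1 - t := by linarith
  have h15 : 1 - t ≤ 1 - t ^ 5 := by
    have : t ^ 5 ≤ t := pow_le_of_le_one ht0 ht.le (by norm_num)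
    linarith
  have hP : 0 ≤ ((1 - t ^ 2) * (1 - t ^ 3)) ^ B := pow_nonneg (mul_nonneg (h0 2) (h0 3)) _
  rw [← hprod, e1]
  refine le_trans ?_ (mul_le_mul_of_nonneg_left e2 (pow_nonneg h1t _))
  calc (1 - t) ^ h * (((1 - t ^ 2) * (1 - t ^ 3)) ^ B * (1 - t ^ 5) ^ (d - B - h)) =
      (1 - t) ^ U1.card * ((1 - t) ^ (h - U1.card) * (((1 - t ^ 2) * (1 - t ^ 3)) ^ B *
        (1 - t ^ 5) ^ (d - B - h))) := by
        rw [← mul_assoc ((1 - t) ^ U1.card), ← pow_add]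
        congr 2
        omega
    _ ≤ (1 - t) ^ U1.card * ((1 - t ^ 5) ^ (h - U1.card) * (((1 - t ^ 2) * (1 - t ^ 3)) ^ B *
        (1 - t ^ 5) ^ (d - B - h))) := by
        refine mul_le_mul_of_nonneg_left ?_ (pow_nonneg h1t _)
        refine mul_le_mul_of_nonneg_right (pow_le_pow_left₀ h1t h15 _) ?_
        exact mul_nonneg hP (pow_nonneg (h0 5) _)
    _ = (1 - t) ^ U1.card * (((1 - t ^ 2) * (1 - t ^ 3)) ^ B *
        ((1 - t ^ 5) ^ (h - U1.card) * (1 - t ^ 5) ^ (d - B - h))) := by ring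
    _ = (1 - t) ^ U1.card * (((1 - t ^ 2) * (1 - t ^ 3)) ^ B * (1 - t ^ 5) ^ (d - U1.card - B)) := by
        rw [← pow_add]
        congr 3
        omega

/-- **The linear bound.** -/
theorem linear {D B s h : ℕ} (hs : s ≤ D + 1) (hB : 10 * h + 9 * B ≤ 6 * (D + 1)) {g e : ℝ}
    (hg : 0 ≤ g) (he : 1 ≤ e)
    (h1 : e ^ 2 * mK (289 / 400) 6 ^ (2 * (D + 1)) * (289 / 400 : ℝ) ^ s ≤
      g ^ 2 * (1 + (289 / 400 : ℝ) ^ (4 * 6 + 1)) ^ (2 * (D + 1)))
    (h2 : g * ((1 - 289 / 400 : ℝ) ^ h *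
      (((1 - (289 / 400 : ℝ) ^ 2) * (1 - (289 / 400 : ℝ) ^ 3)) ^ B *
      (1 - (289 / 400 : ℝ) ^ 5) ^ (D + 1 - B - h))) ≤ 1) : False := by
  set r : ℝ := 289 / 400 with hr
  set P : ℝ := (1 - r ^ 2) * (1 - r ^ 3) with hP
  set Q : ℝ := 1 - r ^ 5 with hQ
  set A : ℝ := 1 - r with hA
  have hP0 : 29771 / 100000 ≤ P := by rw [hP, hr]; norm_num
  have hQ0 : 80312 / 100000 ≤ Q := by rw [hQ, hr]; norm_num
  have hPQ : P ≤ Q := by rw [hP, hQ, hr]; norm_num
  have hAP : P ^ 10 ≤ A ^ 9 * Q := by rw [hP, hQ, hA, hr]; norm_num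
  have hAp : 0 < A := by rw [hA, hr]; norm_num
  have hE : 1 + r ^ (4 * 6 + 1) ≤ 10003 / 10000 := by rw [hr]; norm_num
  have hPp : 0 < P := lt_of_lt_of_le (by norm_num) hP0
  have hQp : 0 < Q := lt_of_lt_of_le (by norm_num) hQ0
  have hr0 : 0 < r := by rw [hr]; norm_num
  have hr1 : r ≤ 1 := by rw [hr]; norm_num
  clear_value P Q A r
  have hm := mK_ge
  rw [← hr] at hm
  set d := D + 1 with hd
  have h8 : ((10003 / 10000 : ℝ) ^ 2) ^ 3 < ((16858 / 10000 : ℝ) ^ 4 * r) ^ 3 * (P ^ 4 * Q ^ 2) := by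
    calc ((10003 / 10000 : ℝ) ^ 2) ^ 3 <
        ((16858 / 10000 : ℝ) ^ 4 * r) ^ 3 * ((29771 / 100000) ^ 4 * (80312 / 100000) ^ 2) := by
          rw [hr]
          norm_num
      _ ≤ _ := by
          refine mul_le_mul_of_nonneg_left ?_ (by positivity)
          exact mul_le_mul (pow_le_pow_left₀ (by norm_num) hP0 4)
            (pow_le_pow_left₀ (by norm_num) hQ0 2) (by positivity) (by positivity)
  -- from the theta bound
  have h3 : ((16858 / 10000 : ℝ) ^ 4 * r) ^ d ≤ g ^ 2 * ((10003 / 10000 : ℝ) ^ 2) ^ d := by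
    calc ((16858 / 10000 : ℝ) ^ 4 * r) ^ d = ((16858 / 10000 : ℝ) ^ 2) ^ (2 * d) * r ^ d := by
          rw [mul_pow, ← pow_mul, ← pow_mul]
          congr 2
          ring
      _ ≤ mK r 6 ^ (2 * d) * r ^ s := by
          refine mul_le_mul (pow_le_pow_left₀ (by positivity) hm _)
            (pow_le_pow_of_le_one hr0.le hr1 hs) (by positivity) ?_
          exact pow_nonneg (le_trans (by positivity) hm) _
      _ ≤ e ^ 2 * mK r 6 ^ (2 * d) * r ^ s := by
          have h4 : 1 ≤ e ^ 2 := one_le_pow₀ he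
          have h5 : 0 ≤ mK r 6 ^ (2 * d) * r ^ s :=
            mul_nonneg (pow_nonneg (le_trans (by positivity) hm) _) (by positivity)
          rw [mul_assoc]
          exact le_mul_of_one_le_left h5 h4
      _ ≤ g ^ 2 * (1 + r ^ (4 * 6 + 1)) ^ (2 * d) := h1
      _ ≤ _ := by
          rw [← pow_mul]
          exact mul_le_mul_of_nonneg_left (pow_le_pow_left₀ (by positivity) hE _) (sq_nonneg _)
  generalize hC : (16858 / 10000 : ℝ) ^ 4 * r = C at h3 h8
  have hCp : 0 < C := by rw [← hC]; positivity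
  generalize hEE : (10003 / 10000 : ℝ) ^ 2 = E at h3 h8
  have hEp : 0 < E := by rw [← hEE]; positivity
  have h4 : (C ^ 9) ^ d ≤ g ^ 18 * (E ^ 9) ^ d := by
    have h5 := pow_le_pow_left₀ (by positivity) h3 9
    calc _ = (C ^ d) ^ 9 := by rw [← pow_mul, ← pow_mul, mul_comm 9]
      _ ≤ _ := h5
      _ = _ := by
        rw [mul_pow, ← pow_mul g, ← pow_mul, ← pow_mul, mul_comm d 9]
  have h5 : (P ^ 12 * Q ^ 6) ^ d ≤ (A ^ h * (P ^ B * Q ^ (d - B - h))) ^ 18 := by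
    have h6 : (P ^ 12 * Q ^ 6) ^ d =
        (P ^ 10) ^ (2 * h) * (P ^ (18 * B) * (P ^ (12 * d - 20 * h - 18 * B) * Q ^ (6 * d))) := by
      rw [← mul_assoc, ← mul_assoc, ← pow_mul, ← pow_add, ← pow_add, mul_pow, ← pow_mul, ← pow_mul]
      congr 2
      omega
    rw [h6]
    calc (P ^ 10) ^ (2 * h) * (P ^ (18 * B) * (P ^ (12 * d - 20 * h - 18 * B) * Q ^ (6 * d))) ≤
        (A ^ 9 * Q) ^ (2 * h) * (P ^ (18 * B) * (Q ^ (12 * d - 20 * h - 18 * B) * Q ^ (6 * d))) := by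
          refine mul_le_mul (pow_le_pow_left₀ (by positivity) hAP _) ?_ (by positivity)
            (by positivity)
          refine mul_le_mul_of_nonneg_left ?_ (by positivity)
          exact mul_le_mul_of_nonneg_right (pow_le_pow_left₀ hPp.le hPQ _) (by positivity)
      _ = A ^ (h * 18) * (P ^ (B * 18) * (Q ^ (2 * h) *
          (Q ^ (12 * d - 20 * h - 18 * B) * Q ^ (6 * d)))) := by
          rw [mul_pow, ← pow_mul, show 9 * (2 * h) = h * 18 by ring, mul_comm 18 B]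
          ring
      _ = A ^ (h * 18) * (P ^ (B * 18) * Q ^ ((d - B - h) * 18)) := by
          rw [← pow_add, ← pow_add]
          congr 3
          omega
      _ = _ := by rw [mul_pow, mul_pow, ← pow_mul, ← pow_mul, ← pow_mul]
  have h6 : g ^ 18 * (P ^ 12 * Q ^ 6) ^ d ≤ 1 := by
    calc g ^ 18 * (P ^ 12 * Q ^ 6) ^ d ≤ g ^ 18 * (A ^ h * (P ^ B * Q ^ (d - B - h))) ^ 18 :=
          mul_le_mul_of_nonneg_left h5 (by positivity)
      _ = (g * (A ^ h * (P ^ B * Q ^ (d - B - h)))) ^ 18 := by rw [mul_pow g]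
      _ ≤ 1 := pow_le_one₀ (by positivity) h2
  have h7 : (C ^ 9 * (P ^ 12 * Q ^ 6)) ^ d ≤ (E ^ 9) ^ d := by
    rw [mul_pow]
    calc _ ≤ g ^ 18 * (E ^ 9) ^ d * (P ^ 12 * Q ^ 6) ^ d :=
          mul_le_mul_of_nonneg_right h4 (by positivity)
      _ = g ^ 18 * (P ^ 12 * Q ^ 6) ^ d * (E ^ 9) ^ d := by ring
      _ ≤ 1 * _ := mul_le_mul_of_nonneg_right h6 (by positivity)
      _ = _ := one_mul _
  have h9 : E ^ 9 < C ^ 9 * (P ^ 12 * Q ^ 6) := by
    calc E ^ 9 = (E ^ 3) ^ 3 := by rw [← pow_mul]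
      _ < (C ^ 3 * (P ^ 4 * Q ^ 2)) ^ 3 := pow_lt_pow_left₀ h8 (by positivity) (by norm_num)
      _ = _ := by ring
  exact absurd h7 (not_le.2 (pow_lt_pow_left₀ h9 (by positivity) (by omega)))

end Pool.Agent.Helper9.SC
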