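import Pool.Agent.Helper9.SC12

/-!
# Low dimension: the systems of integer inequalities
-/

set_option autoImplicit false
set_option linter.unusedVariables false

namespace Pool.Agent.Helper9.SC

open Finset Polynomial

lemma low4_1 (h2 h3 h4 h5 h6 r2 c2 c3 c4 c5 c6 : ℤ)
    (e2 : h2 = 1 * r2 + (-10))
    (e3 : h3 = 5 * r2 + (-45))
    (e4 : h4 = 15 * r2 + (-129))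
    (e5 : h5 = 35 * r2 + (-294))
    (e6 : h6 = 70 * r2 + (-580))
    (hl : 0 < 1 * r2 + (-8))
    (p2 : 0 ≤ h2) (p3 : 0 ≤ h3) (p4 : 0 ≤ h4) (p5 : 0 ≤ h5) (p6 : 0 ≤ h6)
    (k2 : 0 ≤ c2) (k3 : 0 ≤ c3) (k4 : 0 ≤ c4) (k5 : 0 ≤ c5) (k6 : 0 ≤ c6)
    (m2 : c2 + c4 + c6 ≤ 85) (m3 : c3 + c6 ≤ 85) (m5 : c5 ≤ 85)
    (g2 : h2 ≤ c2) (g3 : h3 ≤ c3) (g4 : 2 * h4 ≤ 2 * c4 + h2 * (h2 + 1))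
    (g5 : h5 ≤ c5 + h2 * h3) (g6 : 2 * h6 ≤ 2 * c6 + 2 * (h2 * h4) + h3 * (h3 + 1)) : False := by
  have hX : h2 ≤ 16 := by omega
  have hr : r2 = h2 + 10 := by omega
  subst hr
  have h3' : h3 = 5 * h2 + 5 := by omega
  subst h3'
  interval_cases h2 <;> omega

lemma low4_2 (h2 h3 h4 h5 h6 r2 c2 c3 c4 c5 c6 : ℤ)
    (e2 : h2 = 1 * r2 + (-15))
    (e3 : h3 = 6 * r2 + (-76))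
    (e4 : h4 = 21 * r2 + (-245))
    (e5 : h5 = 56 * r2 + (-624))
    (e6 : h6 = 126 * r2 + (-1365))
    (hl : 0 < 1 * r2 + (-10))
    (p2 : 0 ≤ h2) (p3 : 0 ≤ h3) (p4 : 0 ≤ h4) (p5 : 0 ≤ h5) (p6 : 0 ≤ h6)
    (k2 : 0 ≤ c2) (k3 : 0 ≤ c3) (k4 : 0 ≤ c4) (k5 : 0 ≤ c5) (k6 : 0 ≤ c6)
    (m2 : c2 + c4 + c6 ≤ 85) (m3 : c3 + c6 ≤ 85) (m5 : c5 ≤ 85)
    (g2 : h2 ≤ c2) (g3 : h3 ≤ c3) (g4 : 2 * h4 ≤ 2 * c4 + h2 * (h2 + 1))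
    (g5 : h5 ≤ c5 + h2 * h3) (g6 : 2 * h6 ≤ 2 * c6 + 2 * (h2 * h4) + h3 * (h3 + 1)) : False := by
  have hX : h2 ≤ 11 := by omega
  interval_cases h2 <;> omega

lemma low4_3 (h2 h3 h4 h5 h6 r2 c2 c3 c4 c5 c6 : ℤ)
    (e2 : h2 = 1 * r2 + (-21))
    (e3 : h3 = 7 * r2 + (-119))
    (e4 : h4 = 28 * r2 + (-426))
    (e5 : h5 = 84 * r2 + (-1197))
    (e6 : h6 = 210 * r2 + (-2870))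
    (hl : 0 < 1 * r2 + (-12))
    (p2 : 0 ≤ h2) (p3 : 0 ≤ h3) (p4 : 0 ≤ h4) (p5 : 0 ≤ h5) (p6 : 0 ≤ h6)
    (k2 : 0 ≤ c2) (k3 : 0 ≤ c3) (k4 : 0 ≤ c4) (k5 : 0 ≤ c5) (k6 : 0 ≤ c6)
    (m2 : c2 + c4 + c6 ≤ 85) (m3 : c3 + c6 ≤ 85) (m5 : c5 ≤ 85)
    (g2 : h2 ≤ c2) (g3 : h3 ≤ c3) (g4 : 2 * h4 ≤ 2 * c4 + h2 * (h2 + 1))
    (g5 : h5 ≤ c5 + h2 * h3) (g6 : 2 * h6 ≤ 2 * c6 + 2 * (h2 * h4) + h3 * (h3 + 1)) : False := by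
  have hX : h2 ≤ 8 := by omega
  interval_cases h2 <;> omega

lemma low4_4 (h2 h3 h4 h5 h6 r2 c2 c3 c4 c5 c6 : ℤ)
    (e2 : h2 = 1 * r2 + (-28))
    (e3 : h3 = 8 * r2 + (-176))
    (e4 : h4 = 36 * r2 + (-693))
    (e5 : h5 = 120 * r2 + (-2128))
    (e6 : h6 = 330 * r2 + (-5544))
    (hl : 0 < 1 * r2 + (-14))
    (p2 : 0 ≤ h2) (p3 : 0 ≤ h3) (p4 : 0 ≤ h4) (p5 : 0 ≤ h5) (p6 : 0 ≤ h6)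
    (k2 : 0 ≤ c2) (k3 : 0 ≤ c3) (k4 : 0 ≤ c4) (k5 : 0 ≤ c5) (k6 : 0 ≤ c6)
    (m2 : c2 + c4 + c6 ≤ 85) (m3 : c3 + c6 ≤ 85) (m5 : c5 ≤ 85)
    (g2 : h2 ≤ c2) (g3 : h3 ≤ c3) (g4 : 2 * h4 ≤ 2 * c4 + h2 * (h2 + 1))
    (g5 : h5 ≤ c5 + h2 * h3) (g6 : 2 * h6 ≤ 2 * c6 + 2 * (h2 * h4) + h3 * (h3 + 1)) : False := by
  have hX : h2 ≤ 4 := by omega
  interval_cases h2 <;> omega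

lemma low4_5 (h2 h3 h4 h5 h6 r2 c2 c3 c4 c5 c6 : ℤ)
    (e2 : h2 = 1 * r2 + (-36))
    (e3 : h3 = 9 * r2 + (-249))
    (e4 : h4 = 45 * r2 + (-1070))
    (e5 : h5 = 165 * r2 + (-3564))
    (e6 : h6 = 495 * r2 + (-10020))
    (hl : 0 < 1 * r2 + (-16))
    (p2 : 0 ≤ h2) (p3 : 0 ≤ h3) (p4 : 0 ≤ h4) (p5 : 0 ≤ h5) (p6 : 0 ≤ h6)
    (k2 : 0 ≤ c2) (k3 : 0 ≤ c3) (k4 : 0 ≤ c4) (k5 : 0 ≤ c5) (k6 : 0 ≤ c6)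
    (m2 : c2 + c4 + c6 ≤ 85) (m3 : c3 + c6 ≤ 85) (m5 : c5 ≤ 85)
    (g2 : h2 ≤ c2) (g3 : h3 ≤ c3) (g4 : 2 * h4 ≤ 2 * c4 + h2 * (h2 + 1))
    (g5 : h5 ≤ c5 + h2 * h3) (g6 : 2 * h6 ≤ 2 * c6 + 2 * (h2 * h4) + h3 * (h3 + 1)) : False := by
  have hX : h2 ≤ 1 := by omega
  interval_cases h2 <;> omega

lemma low5_1 (h2 h3 h4 h5 h6 r2 c2 c3 c4 c5 c6 : ℤ)
    (e2 : h2 = 1 * r2 + (-15))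
    (e3 : h3 = 7 * r2 + (-70))
    (e4 : h4 = 27 * r2 + (-216))
    (e5 : h5 = 77 * r2 + (-539))
    (e6 : h6 = 182 * r2 + (-1170))
    (hl : 0 < 2 * r2 + (-10))
    (p2 : 0 ≤ h2) (p3 : 0 ≤ h3) (p4 : 0 ≤ h4) (p5 : 0 ≤ h5) (p6 : 0 ≤ h6)
    (k2 : 0 ≤ c2) (k3 : 0 ≤ c3) (k4 : 0 ≤ c4) (k5 : 0 ≤ c5) (k6 : 0 ≤ c6)
    (m2 : c2 + c4 + c6 ≤ 85) (m3 : c3 + c6 ≤ 85) (m5 : c5 ≤ 85)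
    (g2 : h2 ≤ c2) (g3 : h3 ≤ c3) (g4 : 2 * h4 ≤ 2 * c4 + h2 * (h2 + 1))
    (g5 : h5 ≤ c5 + h2 * h3) (g6 : 2 * h6 ≤ 2 * c6 + 2 * (h2 * h4) + h3 * (h3 + 1)) : False := by
  have hX : h2 ≤ 7 := by omega
  interval_cases h2 <;> omega

lemma low5_2 (h2 h3 h4 h5 h6 r2 c2 c3 c4 c5 c6 : ℤ)
    (e2 : h2 = 1 * r2 + (-21))
    (e3 : h3 = 8 * r2 + (-112))
    (e4 : h4 = 35 * r2 + (-385))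
    (e5 : h5 = 112 * r2 + (-1056))
    (e6 : h6 = 294 * r2 + (-2499))
    (hl : 0 < 2 * r2 + (-12))
    (p2 : 0 ≤ h2) (p3 : 0 ≤ h3) (p4 : 0 ≤ h4) (p5 : 0 ≤ h5) (p6 : 0 ≤ h6)
    (k2 : 0 ≤ c2) (k3 : 0 ≤ c3) (k4 : 0 ≤ c4) (k5 : 0 ≤ c5) (k6 : 0 ≤ c6)
    (m2 : c2 + c4 + c6 ≤ 85) (m3 : c3 + c6 ≤ 85) (m5 : c5 ≤ 85)
    (g2 : h2 ≤ c2) (g3 : h3 ≤ c3) (g4 : 2 * h4 ≤ 2 * c4 + h2 * (h2 + 1))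
    (g5 : h5 ≤ c5 + h2 * h3) (g6 : 2 * h6 ≤ 2 * c6 + 2 * (h2 * h4) + h3 * (h3 + 1)) : False := by
  have hX : h2 ≤ 3 := by omega
  interval_cases h2 <;> omega

lemma low5_3 (h2 h3 h4 h5 h6 r2 c2 c3 c4 c5 c6 : ℤ)
    (e2 : h2 = 1 * r2 + (-28))
    (e3 : h3 = 9 * r2 + (-168))
    (e4 : h4 = 44 * r2 + (-638))
    (e5 : h5 = 156 * r2 + (-1911))
    (e6 : h6 = 450 * r2 + (-4900))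
    (hl : 0 < 2 * r2 + (-14))
    (p2 : 0 ≤ h2) (p3 : 0 ≤ h3) (p4 : 0 ≤ h4) (p5 : 0 ≤ h5) (p6 : 0 ≤ h6)
    (k2 : 0 ≤ c2) (k3 : 0 ≤ c3) (k4 : 0 ≤ c4) (k5 : 0 ≤ c5) (k6 : 0 ≤ c6)
    (m2 : c2 + c4 + c6 ≤ 85) (m3 : c3 + c6 ≤ 85) (m5 : c5 ≤ 85)
    (g2 : h2 ≤ c2) (g3 : h3 ≤ c3) (g4 : 2 * h4 ≤ 2 * c4 + h2 * (h2 + 1))
    (g5 : h5 ≤ c5 + h2 * h3) (g6 : 2 * h6 ≤ 2 * c6 + 2 * (h2 * h4) + h3 * (h3 + 1)) : False := by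
  have hX : h2 ≤ 0 := by omega
  interval_cases h2 <;> omega

lemma low5_4 (h2 h3 h4 h5 h6 r2 c2 c3 c4 c5 c6 : ℤ)
    (e2 : h2 = 1 * r2 + (-36))
    (e3 : h3 = 10 * r2 + (-240))
    (e4 : h4 = 54 * r2 + (-999))
    (e5 : h5 = 210 * r2 + (-3248))
    (e6 : h6 = 660 * r2 + (-8976))
    (hl : 0 < 2 * r2 + (-16))
    (p2 : 0 ≤ h2) (p3 : 0 ≤ h3) (p4 : 0 ≤ h4) (p5 : 0 ≤ h5) (p6 : 0 ≤ h6)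
    (k2 : 0 ≤ c2) (k3 : 0 ≤ c3) (k4 : 0 ≤ c4) (k5 : 0 ≤ c5) (k6 : 0 ≤ c6)
    (m2 : c2 + c4 + c6 ≤ 85) (m3 : c3 + c6 ≤ 85) (m5 : c5 ≤ 85)
    (g2 : h2 ≤ c2) (g3 : h3 ≤ c3) (g4 : 2 * h4 ≤ 2 * c4 + h2 * (h2 + 1))
    (g5 : h5 ≤ c5 + h2 * h3) (g6 : 2 * h6 ≤ 2 * c6 + 2 * (h2 * h4) + h3 * (h3 + 1)) : False := by
  omega

lemma low5_5 (h2 h3 h4 h5 h6 r2 c2 c3 c4 c5 c6 : ℤ)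
    (e2 : h2 = 1 * r2 + (-45))
    (e3 : h3 = 11 * r2 + (-330))
    (e4 : h4 = 65 * r2 + (-1495))
    (e5 : h5 = 275 * r2 + (-5247))
    (e6 : h6 = 935 * r2 + (-15555))
    (hl : 0 < 2 * r2 + (-18))
    (p2 : 0 ≤ h2) (p3 : 0 ≤ h3) (p4 : 0 ≤ h4) (p5 : 0 ≤ h5) (p6 : 0 ≤ h6)
    (k2 : 0 ≤ c2) (k3 : 0 ≤ c3) (k4 : 0 ≤ c4) (k5 : 0 ≤ c5) (k6 : 0 ≤ c6)
    (m2 : c2 + c4 + c6 ≤ 85) (m3 : c3 + c6 ≤ 85) (m5 : c5 ≤ 85)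
    (g2 : h2 ≤ c2) (g3 : h3 ≤ c3) (g4 : 2 * h4 ≤ 2 * c4 + h2 * (h2 + 1))
    (g5 : h5 ≤ c5 + h2 * h3) (g6 : 2 * h6 ≤ 2 * c6 + 2 * (h2 * h4) + h3 * (h3 + 1)) : False := by
  omega

lemma low6_1 (h2 h3 h4 h5 h6 r2 r3 c2 c3 c4 c5 c6 : ℤ)
    (e2 : h2 = 1 * r2 + (-21))
    (e3 : h3 = 7 * r2 + 1 * r3 + (-112))
    (e4 : h4 = 29 * r2 + 7 * r3 + (-378))
    (e5 : h5 = 91 * r2 + 28 * r3 + (-1015))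
    (e6 : h6 = 238 * r2 + 84 * r3 + (-2358))
    (hl : 0 < 2 * r2 + 1 * r3 + (-12))
    (p2 : 0 ≤ h2) (p3 : 0 ≤ h3) (p4 : 0 ≤ h4) (p5 : 0 ≤ h5) (p6 : 0 ≤ h6)
    (k2 : 0 ≤ c2) (k3 : 0 ≤ c3) (k4 : 0 ≤ c4) (k5 : 0 ≤ c5) (k6 : 0 ≤ c6)
    (m2 : c2 + c4 + c6 ≤ 85) (m3 : c3 + c6 ≤ 85) (m5 : c5 ≤ 85)
    (g2 : h2 ≤ c2) (g3 : h3 ≤ c3) (g4 : 2 * h4 ≤ 2 * c4 + h2 * (h2 + 1))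
    (g5 : h5 ≤ c5 + h2 * h3) (g6 : 2 * h6 ≤ 2 * c6 + 2 * (h2 * h4) + h3 * (h3 + 1)) : False := by
  have hX : h2 ≤ 15 := by omega
  interval_cases h2 <;>
    first
    | omega
    | (obtain rfl : h3 = 6 := by omega
       omega)

lemma low6_2 (h2 h3 h4 h5 h6 r2 r3 c2 c3 c4 c5 c6 : ℤ)
    (e2 : h2 = 1 * r2 + (-28))
    (e3 : h3 = 8 * r2 + 1 * r3 + (-168))
    (e4 : h4 = 37 * r2 + 8 * r3 + (-630))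
    (e5 : h5 = 128 * r2 + 36 * r3 + (-1856))
    (e6 : h6 = 366 * r2 + 120 * r3 + (-4683))
    (hl : 0 < 2 * r2 + 1 * r3 + (-14))
    (p2 : 0 ≤ h2) (p3 : 0 ≤ h3) (p4 : 0 ≤ h4) (p5 : 0 ≤ h5) (p6 : 0 ≤ h6)
    (k2 : 0 ≤ c2) (k3 : 0 ≤ c3) (k4 : 0 ≤ c4) (k5 : 0 ≤ c5) (k6 : 0 ≤ c6)
    (m2 : c2 + c4 + c6 ≤ 85) (m3 : c3 + c6 ≤ 85) (m5 : c5 ≤ 85)
    (g2 : h2 ≤ c2) (g3 : h3 ≤ c3) (g4 : 2 * h4 ≤ 2 * c4 + h2 * (h2 + 1))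
    (g5 : h5 ≤ c5 + h2 * h3) (g6 : 2 * h6 ≤ 2 * c6 + 2 * (h2 * h4) + h3 * (h3 + 1)) : False := by
  have hX : h2 ≤ 11 := by omega
  interval_cases h2 <;> omega

lemma low6_3 (h2 h3 h4 h5 h6 r2 r3 c2 c3 c4 c5 c6 : ℤ)
    (e2 : h2 = 1 * r2 + (-36))
    (e3 : h3 = 9 * r2 + 1 * r3 + (-240))
    (e4 : h4 = 46 * r2 + 9 * r3 + (-990))
    (e5 : h5 = 174 * r2 + 45 * r3 + (-3177))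
    (e6 : h6 = 540 * r2 + 165 * r3 + (-8660))
    (hl : 0 < 2 * r2 + 1 * r3 + (-16))
    (p2 : 0 ≤ h2) (p3 : 0 ≤ h3) (p4 : 0 ≤ h4) (p5 : 0 ≤ h5) (p6 : 0 ≤ h6)
    (k2 : 0 ≤ c2) (k3 : 0 ≤ c3) (k4 : 0 ≤ c4) (k5 : 0 ≤ c5) (k6 : 0 ≤ c6)
    (m2 : c2 + c4 + c6 ≤ 85) (m3 : c3 + c6 ≤ 85) (m5 : c5 ≤ 85)
    (g2 : h2 ≤ c2) (g3 : h3 ≤ c3) (g4 : 2 * h4 ≤ 2 * c4 + h2 * (h2 + 1))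
    (g5 : h5 ≤ c5 + h2 * h3) (g6 : 2 * h6 ≤ 2 * c6 + 2 * (h2 * h4) + h3 * (h3 + 1)) : False := by
  have hX : h2 ≤ 8 := by omega
  interval_cases h2 <;> omega

lemma low6_4 (h2 h3 h4 h5 h6 r2 r3 c2 c3 c4 c5 c6 : ℤ)
    (e2 : h2 = 1 * r2 + (-45))
    (e3 : h3 = 10 * r2 + 1 * r3 + (-330))
    (e4 : h4 = 56 * r2 + 10 * r3 + (-1485))
    (e5 : h5 = 230 * r2 + 55 * r3 + (-5158))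
    (e6 : h6 = 770 * r2 + 220 * r3 + (-15114))
    (hl : 0 < 2 * r2 + 1 * r3 + (-18))
    (p2 : 0 ≤ h2) (p3 : 0 ≤ h3) (p4 : 0 ≤ h4) (p5 : 0 ≤ h5) (p6 : 0 ≤ h6)
    (k2 : 0 ≤ c2) (k3 : 0 ≤ c3) (k4 : 0 ≤ c4) (k5 : 0 ≤ c5) (k6 : 0 ≤ c6)
    (m2 : c2 + c4 + c6 ≤ 85) (m3 : c3 + c6 ≤ 85) (m5 : c5 ≤ 85)
    (g2 : h2 ≤ c2) (g3 : h3 ≤ c3) (g4 : 2 * h4 ≤ 2 * c4 + h2 * (h2 + 1))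
    (g5 : h5 ≤ c5 + h2 * h3) (g6 : 2 * h6 ≤ 2 * c6 + 2 * (h2 * h4) + h3 * (h3 + 1)) : False := by
  have hX : h2 ≤ 4 := by omega
  interval_cases h2 <;> omega

lemma low6_5 (h2 h3 h4 h5 h6 r2 r3 c2 c3 c4 c5 c6 : ℤ)
    (e2 : h2 = 1 * r2 + (-55))
    (e3 : h3 = 11 * r2 + 1 * r3 + (-440))
    (e4 : h4 = 67 * r2 + 11 * r3 + (-2145))
    (e5 : h5 = 297 * r2 + 66 * r3 + (-8019))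
    (e6 : h6 = 1067 * r2 + 286 * r3 + (-25145))
    (hl : 0 < 2 * r2 + 1 * r3 + (-20))
    (p2 : 0 ≤ h2) (p3 : 0 ≤ h3) (p4 : 0 ≤ h4) (p5 : 0 ≤ h5) (p6 : 0 ≤ h6)
    (k2 : 0 ≤ c2) (k3 : 0 ≤ c3) (k4 : 0 ≤ c4) (k5 : 0 ≤ c5) (k6 : 0 ≤ c6)
    (m2 : c2 + c4 + c6 ≤ 85) (m3 : c3 + c6 ≤ 85) (m5 : c5 ≤ 85)
    (g2 : h2 ≤ c2) (g3 : h3 ≤ c3) (g4 : 2 * h4 ≤ 2 * c4 + h2 * (h2 + 1))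
    (g5 : h5 ≤ c5 + h2 * h3) (g6 : 2 * h6 ≤ 2 * c6 + 2 * (h2 * h4) + h3 * (h3 + 1)) : False := by
  have hX : h2 ≤ 1 := by omega
  interval_cases h2 <;> omega

lemma low7_1 (h2 h3 h4 h5 h6 r2 r3 c2 c3 c4 c5 c6 : ℤ)
    (e2 : h2 = 1 * r2 + (-28))
    (e3 : h3 = 8 * r2 + 1 * r3 + (-168))
    (e4 : h4 = 36 * r2 + 9 * r3 + (-630))
    (e5 : h5 = 121 * r2 + 44 * r3 + (-1848))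
    (e6 : h6 = 338 * r2 + 156 * r3 + (-4628))
    (hl : 0 < 2 * r2 + 2 * r3 + (-14))
    (p2 : 0 ≤ h2) (p3 : 0 ≤ h3) (p4 : 0 ≤ h4) (p5 : 0 ≤ h5) (p6 : 0 ≤ h6)
    (k2 : 0 ≤ c2) (k3 : 0 ≤ c3) (k4 : 0 ≤ c4) (k5 : 0 ≤ c5) (k6 : 0 ≤ c6)
    (m2 : c2 + c4 + c6 ≤ 85) (m3 : c3 + c6 ≤ 85) (m5 : c5 ≤ 85)
    (g2 : h2 ≤ c2) (g3 : h3 ≤ c3) (g4 : 2 * h4 ≤ 2 * c4 + h2 * (h2 + 1))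
    (g5 : h5 ≤ c5 + h2 * h3) (g6 : 2 * h6 ≤ 2 * c6 + 2 * (h2 * h4) + h3 * (h3 + 1)) : False := by
  have hX : h2 ≤ 7 := by omega
  interval_cases h2 <;> omega

lemma low7_2 (h2 h3 h4 h5 h6 r2 r3 c2 c3 c4 c5 c6 : ℤ)
    (e2 : h2 = 1 * r2 + (-36))
    (e3 : h3 = 9 * r2 + 1 * r3 + (-240))
    (e4 : h4 = 45 * r2 + 10 * r3 + (-990))
    (e5 : h5 = 166 * r2 + 54 * r3 + (-3168))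
    (e6 : h6 = 504 * r2 + 210 * r3 + (-8589))
    (hl : 0 < 2 * r2 + 2 * r3 + (-16))
    (p2 : 0 ≤ h2) (p3 : 0 ≤ h3) (p4 : 0 ≤ h4) (p5 : 0 ≤ h5) (p6 : 0 ≤ h6)
    (k2 : 0 ≤ c2) (k3 : 0 ≤ c3) (k4 : 0 ≤ c4) (k5 : 0 ≤ c5) (k6 : 0 ≤ c6)
    (m2 : c2 + c4 + c6 ≤ 85) (m3 : c3 + c6 ≤ 85) (m5 : c5 ≤ 85)
    (g2 : h2 ≤ c2) (g3 : h3 ≤ c3) (g4 : 2 * h4 ≤ 2 * c4 + h2 * (h2 + 1))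
    (g5 : h5 ≤ c5 + h2 * h3) (g6 : 2 * h6 ≤ 2 * c6 + 2 * (h2 * h4) + h3 * (h3 + 1)) : False := by
  have hX : h2 ≤ 3 := by omega
  interval_cases h2 <;> omega

lemma low7_3 (h2 h3 h4 h5 h6 r2 r3 c2 c3 c4 c5 c6 : ℤ)
    (e2 : h2 = 1 * r2 + (-45))
    (e3 : h3 = 10 * r2 + 1 * r3 + (-330))
    (e4 : h4 = 55 * r2 + 11 * r3 + (-1485))
    (e5 : h5 = 221 * r2 + 65 * r3 + (-5148))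
    (e6 : h6 = 725 * r2 + 275 * r3 + (-15025))
    (hl : 0 < 2 * r2 + 2 * r3 + (-18))
    (p2 : 0 ≤ h2) (p3 : 0 ≤ h3) (p4 : 0 ≤ h4) (p5 : 0 ≤ h5) (p6 : 0 ≤ h6)
    (k2 : 0 ≤ c2) (k3 : 0 ≤ c3) (k4 : 0 ≤ c4) (k5 : 0 ≤ c5) (k6 : 0 ≤ c6)
    (m2 : c2 + c4 + c6 ≤ 85) (m3 : c3 + c6 ≤ 85) (m5 : c5 ≤ 85)
    (g2 : h2 ≤ c2) (g3 : h3 ≤ c3) (g4 : 2 * h4 ≤ 2 * c4 + h2 * (h2 + 1))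
    (g5 : h5 ≤ c5 + h2 * h3) (g6 : 2 * h6 ≤ 2 * c6 + 2 * (h2 * h4) + h3 * (h3 + 1)) : False := by
  have hX : h2 ≤ 0 := by omega
  interval_cases h2 <;> omega

lemma low7_4 (h2 h3 h4 h5 h6 r2 r3 c2 c3 c4 c5 c6 : ℤ)
    (e2 : h2 = 1 * r2 + (-55))
    (e3 : h3 = 11 * r2 + 1 * r3 + (-440))
    (e4 : h4 = 66 * r2 + 12 * r3 + (-2145))
    (e5 : h5 = 287 * r2 + 77 * r3 + (-8008))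
    (e6 : h6 = 1012 * r2 + 352 * r3 + (-25036))
    (hl : 0 < 2 * r2 + 2 * r3 + (-20))
    (p2 : 0 ≤ h2) (p3 : 0 ≤ h3) (p4 : 0 ≤ h4) (p5 : 0 ≤ h5) (p6 : 0 ≤ h6)
    (k2 : 0 ≤ c2) (k3 : 0 ≤ c3) (k4 : 0 ≤ c4) (k5 : 0 ≤ c5) (k6 : 0 ≤ c6)
    (m2 : c2 + c4 + c6 ≤ 85) (m3 : c3 + c6 ≤ 85) (m5 : c5 ≤ 85)
    (g2 : h2 ≤ c2) (g3 : h3 ≤ c3) (g4 : 2 * h4 ≤ 2 * c4 + h2 * (h2 + 1))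
    (g5 : h5 ≤ c5 + h2 * h3) (g6 : 2 * h6 ≤ 2 * c6 + 2 * (h2 * h4) + h3 * (h3 + 1)) : False := by
  omega

lemma low7_5 (h2 h3 h4 h5 h6 r2 r3 c2 c3 c4 c5 c6 : ℤ)
    (e2 : h2 = 1 * r2 + (-66))
    (e3 : h3 = 12 * r2 + 1 * r3 + (-572))
    (e4 : h4 = 78 * r2 + 13 * r3 + (-3003))
    (e5 : h5 = 365 * r2 + 90 * r3 + (-12012))
    (e6 : h6 = 1377 * r2 + 442 * r3 + (-40052))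
    (hl : 0 < 2 * r2 + 2 * r3 + (-22))
    (p2 : 0 ≤ h2) (p3 : 0 ≤ h3) (p4 : 0 ≤ h4) (p5 : 0 ≤ h5) (p6 : 0 ≤ h6)
    (k2 : 0 ≤ c2) (k3 : 0 ≤ c3) (k4 : 0 ≤ c4) (k5 : 0 ≤ c5) (k6 : 0 ≤ c6)
    (m2 : c2 + c4 + c6 ≤ 85) (m3 : c3 + c6 ≤ 85) (m5 : c5 ≤ 85)
    (g2 : h2 ≤ c2) (g3 : h3 ≤ c3) (g4 : 2 * h4 ≤ 2 * c4 + h2 * (h2 + 1))
    (g5 : h5 ≤ c5 + h2 * h3) (g6 : 2 * h6 ≤ 2 * c6 + 2 * (h2 * h4) + h3 * (h3 + 1)) : False := by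
  omega

end Pool.Agent.Helper9.SC
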