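import Pool.Agent.Helper9.SC12
import Pool.Graph.R_pool_sql_team_seeded_2aa45f1a.Q86.Gap3

/-!
# The numerator of the Hilbert series, and the linear bound for the number of sections
-/

set_option autoImplicit false

namespace Pool.Agent.Helper9.SC

open Finset Polynomial Pool.Agent.Q86.GS

universe u

/-- The numerator of the Hilbert series of a Gorenstein ring with invertible `O(1)`. -/
theorem setup (k S : Type u) [Field k] [CommRing S] [IsDomain S] [IsNoetherianRing S]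
    [Algebra k S] (𝒜 : ℕ → Submodule k S) [GradedAlgebra 𝒜]
    (h0 : Module.finrank k (𝒜 0) = 1) (hfin : ∀ n, Module.Finite k (𝒜 n))
    (hL : ∀ 𝔭 : Ideal S, 𝔭.IsPrime → 𝔭.IsHomogeneous 𝒜 → (∃ n, 0 < n ∧ ∃ x ∈ 𝒜 n, x ∉ 𝔭) →
      ∃ n, (∃ x ∈ 𝒜 n, x ∉ 𝔭) ∧ ∃ y ∈ 𝒜 (n + 1), y ∉ 𝔭)
    (d : ℕ) (e : Fin d → ℕ) (θ : Fin d → S) (σ : ℕ)
    (pos : ∀ j, 0 < e j) (mem : ∀ j, θ j ∈ 𝒜 (e j))
    (regular : ∀ (j : Fin d) (x : S), θ j * x ∈ Ideal.span (θ '' {i | i < j}) →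
      x ∈ Ideal.span (θ '' {i | i < j}))
    (parameters : ∃ N, ∀ n, N ≤ n → ∀ x ∈ 𝒜 n, x ∈ Ideal.span (Set.range θ))
    (socle : ∃ s ∈ 𝒜 σ, s ∉ Ideal.span (Set.range θ) ∧
      ∀ x, (∀ n, 0 < n → ∀ y ∈ 𝒜 n, x * y ∈ Ideal.span (Set.range θ)) ↔
        ∃ c : k, x - c • s ∈ Ideal.span (Set.range θ))
    (a : ℤ) (ha : a = σ - ∑ j, (e j : ℤ)) (ha0 : a < 0) :
    ∃ (D : ℕ) (R : ℤ[X]), d = D + 1 ∧
      (PowerSeries.mk (fun n => (Module.finrank k (𝒜 n) : ℤ)) : PowerSeries ℤ) *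
        (1 - PowerSeries.X) ^ (D + 1) = (R : PowerSeries ℤ) ∧ R.reverse = R ∧ 0 < R.eval 1 ∧
      (R.natDegree : ℤ) = a + d := by
  classical
  obtain ⟨N, hN⟩ := parameters
  obtain ⟨s, hs, hsI, hsoc⟩ := socle
  have hd : chain θ d = Ideal.span (Set.range θ) := by
    unfold chain
    have : {i : Fin d | (i : ℕ) < d} = Set.univ := by
      ext i
      simp
    rw [this, Set.image_univ]
  have hreg : ∀ (j : Fin d) (x : S), θ j * x ∈ chain θ j → x ∈ chain θ j := regular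
  have hθ0 : ∀ j, θ j ≠ 0 := by
    intro j hj
    apply hsI
    have h1 : (1 : S) ∈ chain θ j := hreg j 1 (by
      rw [hj, zero_mul]
      exact Ideal.zero_mem _)
    have h2 : chain θ j ≤ Ideal.span (Set.range θ) :=
      Ideal.span_mono (Set.image_subset_range _ _)
    have h3 := Ideal.mul_mem_left _ s (h2 h1)
    rwa [mul_one] at h3
  obtain ⟨P, N', hP⟩ := evPoly_hf hfin hL ⊥ (Ideal.IsHomogeneous.bot 𝒜)
  have hP' : ∀ n, N' ≤ n → (Module.finrank k (𝒜 n) : ℚ) = P.eval (n : ℚ) := by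
    intro n hn
    rw [← hP n hn, hf_bot, Int.cast_natCast]
  rw [← hd] at hN hsI hsoc
  obtain ⟨R, hR1, hR2, hR3, hR4⟩ := exists_numerator hfin h0 pos mem hθ0
    hreg hN hs hsI (fun x hx => (hsoc x).1 hx) P N' hP'
  have hc : (R.natDegree : ℤ) = a + d := by
    have h1 : (R.natDegree : ℤ) + ((∑ j, e j : ℕ) : ℤ) = σ + d := by exact_mod_cast hR4
    push_cast at h1
    linarith
  obtain ⟨D, rfl⟩ : ∃ D, d = D + 1 := ⟨d - 1, by omega⟩
  exact ⟨D, R, rfl, hR1, hR2, hR3, hc⟩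

/-- **The linear bound.** -/
theorem linear_bound {k S : Type u} [Field k] [CommRing S] [IsDomain S]
    [Algebra k S] {𝒜 : ℕ → Submodule k S} [GradedAlgebra 𝒜]
    (h0 : Module.finrank k (𝒜 0) = 1)
    (hL : ∀ 𝔭 : Ideal S, 𝔭.IsPrime → 𝔭.IsHomogeneous 𝒜 → (∃ n, 0 < n ∧ ∃ x ∈ 𝒜 n, x ∉ 𝔭) →
      ∃ n, (∃ x ∈ 𝒜 n, x ∉ 𝔭) ∧ ∃ y ∈ 𝒜 (n + 1), y ∉ 𝔭)
    {D : ℕ} {R : ℤ[X]}
    (hR1 : (PowerSeries.mk (fun n => (Module.finrank k (𝒜 n) : ℤ)) : PowerSeries ℤ) *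
        (1 - PowerSeries.X) ^ (D + 1) = (R : PowerSeries ℤ))
    (hR2 : R.reverse = R) (hR3 : 0 < R.eval 1) (hs : R.natDegree ≤ D + 1)
    {N : ℕ} {x : Fin N → S} {w : Fin N → ℕ} (hw : ∀ i, 0 < w i)
    (hx : ∀ i, x i ∈ 𝒜 (w i)) (hgen : Algebra.adjoin k (Set.range x) = ⊤) :
    6 * (D + 1) < 10 * Module.finrank k (𝒜 1) + 9 * (N - (D + 1)) ∧ D + 1 ≤ N := by
  classical
  have hfin := fun n => finite_deg hx hw hgen n
  have hconv := conv_of hR1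
  obtain ⟨U, hU0, hU', hU1⟩ := exists_U hx (hfin 1)
  have hUN : U.card ≤ N := by
    have := card_le_univ U
    rwa [Fintype.card_fin] at this
  have hp : ∀ {p : ℕ}, 2 ≤ p → (U.filter fun i => p ∣ w i).card + (D + 1) ≤ U.card :=
    fun hp => card_dvd hfin hR1 hR3 hx hw hgen hL hU0 hU' hp
  have hp2 := hp (p := 2) le_rfl
  have hp3 := hp (p := 3) (by norm_num)
  refine ⟨?_, by omega⟩
  by_contra hcon
  rw [not_lt] at hcon
  set h := Module.finrank k (𝒜 1) with hh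
  set B := N - (D + 1) with hB
  have hr0 : (0 : ℝ) ≤ 289 / 400 := by norm_num
  have hr1 : (289 / 400 : ℝ) < 1 := by norm_num
  have h1 := G_le_prod' hfin hconv h0 hx hgen hr0 hr1 hU0
    (fun i => idl_mono (filter_subset _ _) (hU' i))
  rw [G_bot hR1 hr0 hr1] at h1
  have h2 := prod_ge1235 U w (fun i _ => hw i) (B := B) (d := D + 1) (h := h) (by omega) hU1
    (by omega) (by omega) (by omega) hr0 hr1
  have h3 := theta_bound (H := fun n => (Module.finrank k (𝒜 n) : ℤ))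
    (fun n => Int.natCast_nonneg _) hR1 hR2 (r := 289 / 400) (by norm_num) hr1 6
  have hg : 0 ≤ aeval (289 / 400 : ℝ) R / (1 - 289 / 400) ^ (D + 1) := by
    rw [← G_bot hR1 hr0 hr1]
    unfold G
    refine tsum_nonneg fun n => ?_
    have : (0 : ℝ) ≤ hf 𝒜 (⊥ : Ideal S) n := by exact_mod_cast hf_nonneg hfin _ n
    positivity
  have he : (1 : ℝ) ≤ ((R.eval 1 : ℤ) : ℝ) := by exact_mod_cast hR3
  exact linear (s := R.natDegree) hs hcon hg he h3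
    ((mul_le_mul_of_nonneg_left h2 hg).trans h1)

end Pool.Agent.Helper9.SC
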