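import Pool.Agent.Helper9.SC14
import Pool.Agent.Helper9.SC13

/-!
# The integer inequalities of a ring without elements of degree one
-/

set_option autoImplicit false

namespace Pool.Agent.Helper9.SC

open Finset Polynomial Pool.Agent.Q86.GS

/-- The inequalities. -/
structure Data (B : ℤ) (h C : ℕ → ℤ) (F : ℕ → ℕ → ℤ) : Prop where
  hnn : ∀ n, 0 ≤ h n
  Cnn : ∀ n, 0 ≤ C n
  grow : ∀ n, 0 < n → h n ≤ C n + ∑ i ∈ Icc 2 (n / 2), F i (n - i)
  Fle : ∀ i j, F i j ≤ h i * h j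
  Fsq : ∀ i, 2 * F i i ≤ h i * (h i + 1)
  prime : ∀ p, 2 ≤ p → ∀ E : Finset ℕ, (∀ n ∈ E, p ∣ n) → ∑ n ∈ E, C n ≤ B

section ring

universe u

variable {k S : Type u} [Field k] [CommRing S] [Algebra k S] {𝒜 : ℕ → Submodule k S}
  [GradedAlgebra 𝒜] {N : ℕ} {x : Fin N → S} {w : Fin N → ℕ}

lemma sum_card_le {ι : Type} [DecidableEq ι] (U : Finset ι) (w : ι → ℕ) {p : ℕ} (E : Finset ℕ)
    (hE : ∀ n ∈ E, p ∣ n) :
    ∑ n ∈ E, (U.filter fun i => w i = n).card ≤ (U.filter fun i => p ∣ w i).card := by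
  rw [← card_biUnion]
  · refine card_le_card fun i hi => ?_
    rw [mem_biUnion] at hi
    obtain ⟨n, hn, hi⟩ := hi
    rw [mem_filter] at hi ⊢
    exact ⟨hi.1, hi.2 ▸ hE n hn⟩
  · intro m _ n _ hmn
    rw [Function.onFun, disjoint_left]
    intro i hi hi'
    rw [mem_filter] at hi hi'
    exact hmn (hi.2.symm.trans hi'.2)

theorem exists_data [IsDomain S] (h1 : 𝒜 1 = ⊥)
    (hL : ∀ 𝔭 : Ideal S, 𝔭.IsPrime → 𝔭.IsHomogeneous 𝒜 → (∃ n, 0 < n ∧ ∃ x ∈ 𝒜 n, x ∉ 𝔭) →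
      ∃ n, (∃ x ∈ 𝒜 n, x ∉ 𝔭) ∧ ∃ y ∈ 𝒜 (n + 1), y ∉ 𝔭)
    {D : ℕ} {R : ℤ[X]}
    (hR1 : (PowerSeries.mk (fun n => (Module.finrank k (𝒜 n) : ℤ)) : PowerSeries ℤ) *
        (1 - PowerSeries.X) ^ (D + 1) = (R : PowerSeries ℤ))
    (hR3 : 0 < R.eval 1) (hw : ∀ i, 0 < w i)
    (hx : ∀ i, x i ∈ 𝒜 (w i)) (hgen : Algebra.adjoin k (Set.range x) = ⊤) {B : ℕ}
    (hB : N ≤ B + (D + 1)) :
    ∃ (C : ℕ → ℤ) (F : ℕ → ℕ → ℤ), Data B (fun n => (Module.finrank k (𝒜 n) : ℤ)) C F := by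
  classical
  have hfin := fun n => finite_deg hx hw hgen n
  set U : Finset (Fin N) := univ.filter fun i => x i ≠ 0 with hU
  have hmem : ∀ i, i ∈ U ↔ x i ≠ 0 := fun i => by simp [hU]
  have hU' : ∀ i, x i ∈ idl x (U.filter fun j => w j = w i) := by
    intro i
    by_cases h0 : x i = 0
    · rw [h0]
      exact Ideal.zero_mem _
    · refine Ideal.subset_span ⟨i, ?_, rfl⟩
      rw [coe_filter]
      exact ⟨(hmem i).2 h0, rfl⟩
  have hUN : U.card ≤ N := by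
    have := card_le_univ U
    rwa [Fintype.card_fin] at this
  refine ⟨fun n => ((U.filter fun i => w i = n).card : ℤ),
    fun i j => (Module.finrank k (𝒜 i * 𝒜 j : Submodule k S) : ℤ), ?_, ?_, ?_, ?_, ?_, ?_⟩
  · exact fun n => Int.natCast_nonneg _
  · exact fun n => Int.natCast_nonneg _
  · intro n hn
    have := growth0 h1 hx hw hgen hmem hn
    exact_mod_cast this
  · intro i j
    have := hfin i
    have := hfin j
    exact_mod_cast finrank_mul_le (𝒜 i) (𝒜 j)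
  · intro i
    have := hfin i
    exact_mod_cast finrank_sq_le (𝒜 i)
  · intro p hp E hE
    have h2 := card_dvd hfin hR1 hR3 hx hw hgen hL (fun i hi => (hmem i).1 hi) hU' hp
    have h3 := sum_card_le U w E hE
    have h4 : ∑ n ∈ E, (U.filter fun i => w i = n).card ≤ B := by omega
    exact_mod_cast h4

end ring

section data

variable {B : ℤ} {h C : ℕ → ℤ} {F : ℕ → ℕ → ℤ}

lemma Data.raw2 (H : Data B h C F) : h 2 ≤ C 2 + (0) := by
  have h1 := H.grow 2 (by norm_num)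
  rw [show Icc 2 (2 / 2) = ∅ from by decide, sum_empty] at h1
  exact h1

lemma Data.raw3 (H : Data B h C F) : h 3 ≤ C 3 + (0) := by
  have h1 := H.grow 3 (by norm_num)
  rw [show Icc 2 (3 / 2) = ∅ from by decide, sum_empty] at h1
  exact h1

lemma Data.raw4 (H : Data B h C F) : h 4 ≤ C 4 + (F 2 2) := by
  have h1 := H.grow 4 (by norm_num)
  rw [show Icc 2 (4 / 2) = ({2} : Finset ℕ) from by decide, sum_singleton] at h1
  have h2 : h 4 ≤ C 4 + (F 2 2) := h1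
  linarith

lemma Data.raw5 (H : Data B h C F) : h 5 ≤ C 5 + (F 2 3) := by
  have h1 := H.grow 5 (by norm_num)
  rw [show Icc 2 (5 / 2) = ({2} : Finset ℕ) from by decide, sum_singleton] at h1
  have h2 : h 5 ≤ C 5 + (F 2 3) := h1
  linarith

lemma Data.raw6 (H : Data B h C F) : h 6 ≤ C 6 + (F 2 4 + F 3 3) := by
  have h1 := H.grow 6 (by norm_num)
  rw [show Icc 2 (6 / 2) = ({2, 3} : Finset ℕ) from by decide, sum_insert (by decide), sum_singleton] at h1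
  have h2 : h 6 ≤ C 6 + (F 2 4 + (F 3 3)) := h1
  linarith

lemma Data.raw7 (H : Data B h C F) : h 7 ≤ C 7 + (F 2 5 + F 3 4) := by
  have h1 := H.grow 7 (by norm_num)
  rw [show Icc 2 (7 / 2) = ({2, 3} : Finset ℕ) from by decide, sum_insert (by decide), sum_singleton] at h1
  have h2 : h 7 ≤ C 7 + (F 2 5 + (F 3 4)) := h1
  linarith

lemma Data.raw8 (H : Data B h C F) : h 8 ≤ C 8 + (F 2 6 + F 3 5 + F 4 4) := by
  have h1 := H.grow 8 (by norm_num)
  rw [show Icc 2 (8 / 2) = ({2, 3, 4} : Finset ℕ) from by decide, sum_insert (by decide), sum_insert (by decide), sum_singleton] at h1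
  have h2 : h 8 ≤ C 8 + (F 2 6 + (F 3 5 + (F 4 4))) := h1
  linarith

lemma Data.raw9 (H : Data B h C F) : h 9 ≤ C 9 + (F 2 7 + F 3 6 + F 4 5) := by
  have h1 := H.grow 9 (by norm_num)
  rw [show Icc 2 (9 / 2) = ({2, 3, 4} : Finset ℕ) from by decide, sum_insert (by decide), sum_insert (by decide), sum_singleton] at h1
  have h2 : h 9 ≤ C 9 + (F 2 7 + (F 3 6 + (F 4 5))) := h1
  linarith

lemma Data.raw10 (H : Data B h C F) : h 10 ≤ C 10 + (F 2 8 + F 3 7 + F 4 6 + F 5 5) := by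
  have h1 := H.grow 10 (by norm_num)
  rw [show Icc 2 (10 / 2) = ({2, 3, 4, 5} : Finset ℕ) from by decide, sum_insert (by decide), sum_insert (by decide), sum_insert (by decide), sum_singleton] at h1
  have h2 : h 10 ≤ C 10 + (F 2 8 + (F 3 7 + (F 4 6 + (F 5 5)))) := h1
  linarith

lemma Data.raw11 (H : Data B h C F) : h 11 ≤ C 11 + (F 2 9 + F 3 8 + F 4 7 + F 5 6) := by
  have h1 := H.grow 11 (by norm_num)
  rw [show Icc 2 (11 / 2) = ({2, 3, 4, 5} : Finset ℕ) from by decide, sum_insert (by decide), sum_insert (by decide), sum_insert (by decide), sum_singleton] at h1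
  have h2 : h 11 ≤ C 11 + (F 2 9 + (F 3 8 + (F 4 7 + (F 5 6)))) := h1
  linarith

lemma Data.raw12 (H : Data B h C F) : h 12 ≤ C 12 + (F 2 10 + F 3 9 + F 4 8 + F 5 7 + F 6 6) := by
  have h1 := H.grow 12 (by norm_num)
  rw [show Icc 2 (12 / 2) = ({2, 3, 4, 5, 6} : Finset ℕ) from by decide, sum_insert (by decide), sum_insert (by decide), sum_insert (by decide), sum_insert (by decide), sum_singleton] at h1
  have h2 : h 12 ≤ C 12 + (F 2 10 + (F 3 9 + (F 4 8 + (F 5 7 + (F 6 6))))) := h1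
  linarith

lemma Data.raw13 (H : Data B h C F) : h 13 ≤ C 13 + (F 2 11 + F 3 10 + F 4 9 + F 5 8 + F 6 7) := by
  have h1 := H.grow 13 (by norm_num)
  rw [show Icc 2 (13 / 2) = ({2, 3, 4, 5, 6} : Finset ℕ) from by decide, sum_insert (by decide), sum_insert (by decide), sum_insert (by decide), sum_insert (by decide), sum_singleton] at h1
  have h2 : h 13 ≤ C 13 + (F 2 11 + (F 3 10 + (F 4 9 + (F 5 8 + (F 6 7))))) := h1
  linarith

lemma Data.two (H : Data B h C F) : h 2 ≤ C 2 := by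
  have := H.raw2
  linarith

lemma Data.three (H : Data B h C F) : h 3 ≤ C 3 := by
  have := H.raw3
  linarith

lemma Data.bound4 (H : Data B h C F) : 2 * h 4 ≤ (2 * B - 2 * h 2 + h 2 * (h 2 + 1)) := by
  have h1 := H.raw4
  have h2 := H.Fsq 2
  have h3 := H.prime 2 le_rfl {2, 4} (by decide)
  have h4 := H.two
  rw [sum_insert (by decide), sum_singleton] at h3
  linarith

lemma Data.bound5 (H : Data B h C F) : h 5 ≤ (B + h 2 * h 3) := by
  have h1 := H.raw5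
  have h2 := H.Fle 2 3
  have h3 := H.prime 5 (by norm_num) {5} (by decide)
  rw [sum_singleton] at h3
  linarith

lemma Data.bound6 (H : Data B h C F) : 2 * h 6 ≤ (2 * B + (2 * B - 2 * h 2 + h 2 * (h 2 + 1)) * h 2 + h 3 * (h 3 + 1)) := by
  have h1 := H.raw6
  have h2 := H.Fle 2 4
  have h3 := H.Fsq 3
  have h4 := H.prime 2 (by norm_num) {6} (by decide)
  have h5 := H.bound4
  have h6 := mul_le_mul_of_nonneg_right h5 (H.hnn 2)
  rw [sum_singleton] at h4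
  nlinarith

lemma Data.g4 (H : Data B h C F) :
    4 * h 4 ≤ 4 * C 4 + (2 * (h 2 * (h 2 + 1))) := by
  have h1 := H.raw4
  have f2 := H.Fsq 2
  linarith

lemma Data.g5 (H : Data B h C F) :
    4 * h 5 ≤ 4 * C 5 + (4 * (h 2 * h 3)) := by
  have h1 := H.raw5
  have f2 := H.Fle 2 3
  linarith

lemma Data.g6 (H : Data B h C F) :
    4 * h 6 ≤ 4 * C 6 + (4 * (h 2 * h 4) + 2 * (h 3 * (h 3 + 1))) := by
  have h1 := H.raw6
  have f2 := H.Fle 2 4
  have f3 := H.Fsq 3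
  linarith

lemma Data.g7 (H : Data B h C F) :
    4 * h 7 ≤ 4 * C 7 + (4 * (h 2 * h 5) + 4 * (h 3 * h 4)) := by
  have h1 := H.raw7
  have f2 := H.Fle 2 5
  have f3 := H.Fle 3 4
  linarith

lemma Data.g8 (H : Data B h C F) :
    4 * h 8 ≤ 4 * C 8 + (4 * (h 2 * h 6) + 4 * (h 3 * h 5) + ((2 * B - 2 * h 2 + h 2 * (h 2 + 1)) + 2) * h 4) := by
  have h1 := H.raw8
  have b4 := H.bound4
  have f2 := H.Fle 2 6
  have f3 := H.Fle 3 5
  have f4 := H.Fsq 4
  have k4 := mul_le_mul_of_nonneg_right b4 (H.hnn 4)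
  linarith

lemma Data.g9 (H : Data B h C F) :
    4 * h 9 ≤ 4 * C 9 + (4 * (h 2 * h 7) + 4 * (h 3 * h 6) + 2 * ((2 * B - 2 * h 2 + h 2 * (h 2 + 1)) * h 5)) := by
  have h1 := H.raw9
  have b4 := H.bound4
  have f2 := H.Fle 2 7
  have f3 := H.Fle 3 6
  have f4 := H.Fle 4 5
  have k4 := mul_le_mul_of_nonneg_right b4 (H.hnn 5)
  linarith

lemma Data.g10 (H : Data B h C F) :
    4 * h 10 ≤ 4 * C 10 + (4 * (h 2 * h 8) + 4 * (h 3 * h 7) + 2 * ((2 * B - 2 * h 2 + h 2 * (h 2 + 1)) * h 6) + 2 * (((B + h 2 * h 3) + 1) * h 5)) := by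
  have h1 := H.raw10
  have b4 := H.bound4
  have b5 := H.bound5
  have f2 := H.Fle 2 8
  have f3 := H.Fle 3 7
  have f4 := H.Fle 4 6
  have k4 := mul_le_mul_of_nonneg_right b4 (H.hnn 6)
  have f5 := H.Fsq 5
  have k5 := mul_le_mul_of_nonneg_right b5 (H.hnn 5)
  linarith

lemma Data.g11 (H : Data B h C F) :
    4 * h 11 ≤ 4 * C 11 + (4 * (h 2 * h 9) + 4 * (h 3 * h 8) + 2 * ((2 * B - 2 * h 2 + h 2 * (h 2 + 1)) * h 7) + 4 * ((B + h 2 * h 3) * h 6)) := by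
  have h1 := H.raw11
  have b4 := H.bound4
  have b5 := H.bound5
  have f2 := H.Fle 2 9
  have f3 := H.Fle 3 8
  have f4 := H.Fle 4 7
  have k4 := mul_le_mul_of_nonneg_right b4 (H.hnn 7)
  have f5 := H.Fle 5 6
  have k5 := mul_le_mul_of_nonneg_right b5 (H.hnn 6)
  linarith

lemma Data.g12 (H : Data B h C F) :
    4 * h 12 ≤ 4 * C 12 + (4 * (h 2 * h 10) + 4 * (h 3 * h 9) + 2 * ((2 * B - 2 * h 2 + h 2 * (h 2 + 1)) * h 8) + 4 * ((B + h 2 * h 3) * h 7) + ((2 * B + (2 * B - 2 * h 2 + h 2 * (h 2 + 1)) * h 2 + h 3 * (h 3 + 1)) + 2) * h 6) := by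
  have h1 := H.raw12
  have b4 := H.bound4
  have b5 := H.bound5
  have b6 := H.bound6
  have f2 := H.Fle 2 10
  have f3 := H.Fle 3 9
  have f4 := H.Fle 4 8
  have k4 := mul_le_mul_of_nonneg_right b4 (H.hnn 8)
  have f5 := H.Fle 5 7
  have k5 := mul_le_mul_of_nonneg_right b5 (H.hnn 7)
  have f6 := H.Fsq 6
  have k6 := mul_le_mul_of_nonneg_right b6 (H.hnn 6)
  linarith

lemma Data.g13 (H : Data B h C F) :
    4 * h 13 ≤ 4 * C 13 + (4 * (h 2 * h 11) + 4 * (h 3 * h 10) + 2 * ((2 * B - 2 * h 2 + h 2 * (h 2 + 1)) * h 9) + 4 * ((B + h 2 * h 3) * h 8) + 2 * ((2 * B + (2 * B - 2 * h 2 + h 2 * (h 2 + 1)) * h 2 + h 3 * (h 3 + 1)) * h 7)) := by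
  have h1 := H.raw13
  have b4 := H.bound4
  have b5 := H.bound5
  have b6 := H.bound6
  have f2 := H.Fle 2 11
  have f3 := H.Fle 3 10
  have f4 := H.Fle 4 9
  have k4 := mul_le_mul_of_nonneg_right b4 (H.hnn 9)
  have f5 := H.Fle 5 8
  have k5 := mul_le_mul_of_nonneg_right b5 (H.hnn 8)
  have f6 := H.Fle 6 7
  have k6 := mul_le_mul_of_nonneg_right b6 (H.hnn 7)
  linarith

end data

end Pool.Agent.Helper9.SC
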