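import Pool.Agent.Helper9.SC15

/-!
# The coefficients of the Hilbert series in terms of the numerator
-/

set_option autoImplicit false

namespace Pool.Agent.Helper9.SC

open Finset Polynomial

variable {h : ℕ → ℤ} {R : ℤ[X]}

lemma ch4_0 : (((0 + 4).choose 4 : ℕ) : ℤ) = 1 := by
  rw [Nat.add_choose]; rfl

lemma ch4_1 : (((1 + 4).choose 4 : ℕ) : ℤ) = 5 := by
  rw [Nat.add_choose]; rfl

lemma ch4_2 : (((2 + 4).choose 4 : ℕ) : ℤ) = 15 := by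
  rw [Nat.add_choose]; rfl

lemma ch4_3 : (((3 + 4).choose 4 : ℕ) : ℤ) = 35 := by
  rw [Nat.add_choose]; rfl

lemma ch4_4 : (((4 + 4).choose 4 : ℕ) : ℤ) = 70 := by
  rw [Nat.add_choose]; rfl

lemma ch4_5 : (((5 + 4).choose 4 : ℕ) : ℤ) = 126 := by
  rw [Nat.add_choose]; rfl

lemma ch4_6 : (((6 + 4).choose 4 : ℕ) : ℤ) = 210 := by
  rw [Nat.add_choose]; rfl

lemma ch5_0 : (((0 + 5).choose 5 : ℕ) : ℤ) = 1 := by
  rw [Nat.add_choose]; rfl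

lemma ch5_1 : (((1 + 5).choose 5 : ℕ) : ℤ) = 6 := by
  rw [Nat.add_choose]; rfl

lemma ch5_2 : (((2 + 5).choose 5 : ℕ) : ℤ) = 21 := by
  rw [Nat.add_choose]; rfl

lemma ch5_3 : (((3 + 5).choose 5 : ℕ) : ℤ) = 56 := by
  rw [Nat.add_choose]; rfl

lemma ch5_4 : (((4 + 5).choose 5 : ℕ) : ℤ) = 126 := by
  rw [Nat.add_choose]; rfl

lemma ch5_5 : (((5 + 5).choose 5 : ℕ) : ℤ) = 252 := by
  rw [Nat.add_choose]; rfl

lemma ch5_6 : (((6 + 5).choose 5 : ℕ) : ℤ) = 462 := by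
  rw [Nat.add_choose]; rfl

lemma ch6_0 : (((0 + 6).choose 6 : ℕ) : ℤ) = 1 := by
  rw [Nat.add_choose]; rfl

lemma ch6_1 : (((1 + 6).choose 6 : ℕ) : ℤ) = 7 := by
  rw [Nat.add_choose]; rfl

lemma ch6_2 : (((2 + 6).choose 6 : ℕ) : ℤ) = 28 := by
  rw [Nat.add_choose]; rfl

lemma ch6_3 : (((3 + 6).choose 6 : ℕ) : ℤ) = 84 := by
  rw [Nat.add_choose]; rfl

lemma ch6_4 : (((4 + 6).choose 6 : ℕ) : ℤ) = 210 := by
  rw [Nat.add_choose]; rfl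

lemma ch6_5 : (((5 + 6).choose 6 : ℕ) : ℤ) = 462 := by
  rw [Nat.add_choose]; rfl

lemma ch6_6 : (((6 + 6).choose 6 : ℕ) : ℤ) = 924 := by
  rw [Nat.add_choose]; rfl

lemma ch7_0 : (((0 + 7).choose 7 : ℕ) : ℤ) = 1 := by
  rw [Nat.add_choose]; rfl

lemma ch7_1 : (((1 + 7).choose 7 : ℕ) : ℤ) = 8 := by
  rw [Nat.add_choose]; rfl

lemma ch7_2 : (((2 + 7).choose 7 : ℕ) : ℤ) = 36 := by
  rw [Nat.add_choose]; rfl

lemma ch7_3 : (((3 + 7).choose 7 : ℕ) : ℤ) = 120 := by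
  rw [Nat.add_choose]; rfl

lemma ch7_4 : (((4 + 7).choose 7 : ℕ) : ℤ) = 330 := by
  rw [Nat.add_choose]; rfl

lemma ch7_5 : (((5 + 7).choose 7 : ℕ) : ℤ) = 792 := by
  rw [Nat.add_choose]; rfl

lemma ch7_6 : (((6 + 7).choose 7 : ℕ) : ℤ) = 1716 := by
  rw [Nat.add_choose]; rfl

lemma ch8_0 : (((0 + 8).choose 8 : ℕ) : ℤ) = 1 := by
  rw [Nat.add_choose]; rfl

lemma ch8_1 : (((1 + 8).choose 8 : ℕ) : ℤ) = 9 := by
  rw [Nat.add_choose]; rfl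

lemma ch8_2 : (((2 + 8).choose 8 : ℕ) : ℤ) = 45 := by
  rw [Nat.add_choose]; rfl

lemma ch8_3 : (((3 + 8).choose 8 : ℕ) : ℤ) = 165 := by
  rw [Nat.add_choose]; rfl

lemma ch8_4 : (((4 + 8).choose 8 : ℕ) : ℤ) = 495 := by
  rw [Nat.add_choose]; rfl

lemma ch8_5 : (((5 + 8).choose 8 : ℕ) : ℤ) = 1287 := by
  rw [Nat.add_choose]; rfl

lemma ch8_6 : (((6 + 8).choose 8 : ℕ) : ℤ) = 3003 := by
  rw [Nat.add_choose]; rfl

lemma ch8_7 : (((7 + 8).choose 8 : ℕ) : ℤ) = 6435 := by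
  rw [Nat.add_choose]; rfl

lemma ch8_8 : (((8 + 8).choose 8 : ℕ) : ℤ) = 12870 := by
  rw [Nat.add_choose]; rfl

lemma ch8_9 : (((9 + 8).choose 8 : ℕ) : ℤ) = 24310 := by
  rw [Nat.add_choose]; rfl

lemma ch8_10 : (((10 + 8).choose 8 : ℕ) : ℤ) = 43758 := by
  rw [Nat.add_choose]; rfl

lemma ch8_11 : (((11 + 8).choose 8 : ℕ) : ℤ) = 75582 := by
  rw [Nat.add_choose]; rfl

lemma ch8_12 : (((12 + 8).choose 8 : ℕ) : ℤ) = 125970 := by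
  rw [Nat.add_choose]; rfl

lemma ch8_13 : (((13 + 8).choose 8 : ℕ) : ℤ) = 203490 := by
  rw [Nat.add_choose]; rfl

lemma ch9_0 : (((0 + 9).choose 9 : ℕ) : ℤ) = 1 := by
  rw [Nat.add_choose]; rfl

lemma ch9_1 : (((1 + 9).choose 9 : ℕ) : ℤ) = 10 := by
  rw [Nat.add_choose]; rfl

lemma ch9_2 : (((2 + 9).choose 9 : ℕ) : ℤ) = 55 := by
  rw [Nat.add_choose]; rfl

lemma ch9_3 : (((3 + 9).choose 9 : ℕ) : ℤ) = 220 := by
  rw [Nat.add_choose]; rfl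

lemma ch9_4 : (((4 + 9).choose 9 : ℕ) : ℤ) = 715 := by
  rw [Nat.add_choose]; rfl

lemma ch9_5 : (((5 + 9).choose 9 : ℕ) : ℤ) = 2002 := by
  rw [Nat.add_choose]; rfl

lemma ch9_6 : (((6 + 9).choose 9 : ℕ) : ℤ) = 5005 := by
  rw [Nat.add_choose]; rfl

lemma ch9_7 : (((7 + 9).choose 9 : ℕ) : ℤ) = 11440 := by
  rw [Nat.add_choose]; rfl

lemma ch9_8 : (((8 + 9).choose 9 : ℕ) : ℤ) = 24310 := by
  rw [Nat.add_choose]; rfl

lemma ch9_9 : (((9 + 9).choose 9 : ℕ) : ℤ) = 48620 := by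
  rw [Nat.add_choose]; rfl

lemma ch9_10 : (((10 + 9).choose 9 : ℕ) : ℤ) = 92378 := by
  rw [Nat.add_choose]; rfl

lemma ch9_11 : (((11 + 9).choose 9 : ℕ) : ℤ) = 167960 := by
  rw [Nat.add_choose]; rfl

lemma ch9_12 : (((12 + 9).choose 9 : ℕ) : ℤ) = 293930 := by
  rw [Nat.add_choose]; rfl

lemma ch9_13 : (((13 + 9).choose 9 : ℕ) : ℤ) = 497420 := by
  rw [Nat.add_choose]; rfl

lemma ch10_0 : (((0 + 10).choose 10 : ℕ) : ℤ) = 1 := by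
  rw [Nat.add_choose]; rfl

lemma ch10_1 : (((1 + 10).choose 10 : ℕ) : ℤ) = 11 := by
  rw [Nat.add_choose]; rfl

lemma ch10_2 : (((2 + 10).choose 10 : ℕ) : ℤ) = 66 := by
  rw [Nat.add_choose]; rfl

lemma ch10_3 : (((3 + 10).choose 10 : ℕ) : ℤ) = 286 := by
  rw [Nat.add_choose]; rfl

lemma ch10_4 : (((4 + 10).choose 10 : ℕ) : ℤ) = 1001 := by
  rw [Nat.add_choose]; rfl

lemma ch10_5 : (((5 + 10).choose 10 : ℕ) : ℤ) = 3003 := by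
  rw [Nat.add_choose]; rfl

lemma ch10_6 : (((6 + 10).choose 10 : ℕ) : ℤ) = 8008 := by
  rw [Nat.add_choose]; rfl

lemma ch10_7 : (((7 + 10).choose 10 : ℕ) : ℤ) = 19448 := by
  rw [Nat.add_choose]; rfl

lemma ch10_8 : (((8 + 10).choose 10 : ℕ) : ℤ) = 43758 := by
  rw [Nat.add_choose]; rfl

lemma ch10_9 : (((9 + 10).choose 10 : ℕ) : ℤ) = 92378 := by
  rw [Nat.add_choose]; rfl

lemma ch10_10 : (((10 + 10).choose 10 : ℕ) : ℤ) = 184756 := by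
  rw [Nat.add_choose]; rfl

lemma ch10_11 : (((11 + 10).choose 10 : ℕ) : ℤ) = 352716 := by
  rw [Nat.add_choose]; rfl

lemma ch10_12 : (((12 + 10).choose 10 : ℕ) : ℤ) = 646646 := by
  rw [Nat.add_choose]; rfl

lemma ch10_13 : (((13 + 10).choose 10 : ℕ) : ℤ) = 1144066 := by
  rw [Nat.add_choose]; rfl

lemma ch11_0 : (((0 + 11).choose 11 : ℕ) : ℤ) = 1 := by
  rw [Nat.add_choose]; rfl

lemma ch11_1 : (((1 + 11).choose 11 : ℕ) : ℤ) = 12 := by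
  rw [Nat.add_choose]; rfl

lemma ch11_2 : (((2 + 11).choose 11 : ℕ) : ℤ) = 78 := by
  rw [Nat.add_choose]; rfl

lemma ch11_3 : (((3 + 11).choose 11 : ℕ) : ℤ) = 364 := by
  rw [Nat.add_choose]; rfl

lemma ch11_4 : (((4 + 11).choose 11 : ℕ) : ℤ) = 1365 := by
  rw [Nat.add_choose]; rfl

lemma ch11_5 : (((5 + 11).choose 11 : ℕ) : ℤ) = 4368 := by
  rw [Nat.add_choose]; rfl

lemma ch11_6 : (((6 + 11).choose 11 : ℕ) : ℤ) = 12376 := by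
  rw [Nat.add_choose]; rfl

lemma ch11_7 : (((7 + 11).choose 11 : ℕ) : ℤ) = 31824 := by
  rw [Nat.add_choose]; rfl

lemma ch11_8 : (((8 + 11).choose 11 : ℕ) : ℤ) = 75582 := by
  rw [Nat.add_choose]; rfl

lemma ch11_9 : (((9 + 11).choose 11 : ℕ) : ℤ) = 167960 := by
  rw [Nat.add_choose]; rfl

lemma ch11_10 : (((10 + 11).choose 11 : ℕ) : ℤ) = 352716 := by
  rw [Nat.add_choose]; rfl

lemma ch11_11 : (((11 + 11).choose 11 : ℕ) : ℤ) = 705432 := by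
  rw [Nat.add_choose]; rfl

lemma ch11_12 : (((12 + 11).choose 11 : ℕ) : ℤ) = 1352078 := by
  rw [Nat.add_choose]; rfl

lemma ch11_13 : (((13 + 11).choose 11 : ℕ) : ℤ) = 2496144 := by
  rw [Nat.add_choose]; rfl

lemma ch12_0 : (((0 + 12).choose 12 : ℕ) : ℤ) = 1 := by
  rw [Nat.add_choose]; rfl

lemma ch12_1 : (((1 + 12).choose 12 : ℕ) : ℤ) = 13 := by
  rw [Nat.add_choose]; rfl

lemma ch12_2 : (((2 + 12).choose 12 : ℕ) : ℤ) = 91 := by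
  rw [Nat.add_choose]; rfl

lemma ch12_3 : (((3 + 12).choose 12 : ℕ) : ℤ) = 455 := by
  rw [Nat.add_choose]; rfl

lemma ch12_4 : (((4 + 12).choose 12 : ℕ) : ℤ) = 1820 := by
  rw [Nat.add_choose]; rfl

lemma ch12_5 : (((5 + 12).choose 12 : ℕ) : ℤ) = 6188 := by
  rw [Nat.add_choose]; rfl

lemma ch12_6 : (((6 + 12).choose 12 : ℕ) : ℤ) = 18564 := by
  rw [Nat.add_choose]; rfl

lemma ch12_7 : (((7 + 12).choose 12 : ℕ) : ℤ) = 50388 := by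
  rw [Nat.add_choose]; rfl

lemma ch12_8 : (((8 + 12).choose 12 : ℕ) : ℤ) = 125970 := by
  rw [Nat.add_choose]; rfl

lemma ch12_9 : (((9 + 12).choose 12 : ℕ) : ℤ) = 293930 := by
  rw [Nat.add_choose]; rfl

lemma ch12_10 : (((10 + 12).choose 12 : ℕ) : ℤ) = 646646 := by
  rw [Nat.add_choose]; rfl

lemma ch12_11 : (((11 + 12).choose 12 : ℕ) : ℤ) = 1352078 := by
  rw [Nat.add_choose]; rfl

lemma ch12_12 : (((12 + 12).choose 12 : ℕ) : ℤ) = 2704156 := by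
  rw [Nat.add_choose]; rfl

lemma ch12_13 : (((13 + 12).choose 12 : ℕ) : ℤ) = 5200300 := by
  rw [Nat.add_choose]; rfl

lemma ch13_0 : (((0 + 13).choose 13 : ℕ) : ℤ) = 1 := by
  rw [Nat.add_choose]; rfl

lemma ch13_1 : (((1 + 13).choose 13 : ℕ) : ℤ) = 14 := by
  rw [Nat.add_choose]; rfl

lemma ch13_2 : (((2 + 13).choose 13 : ℕ) : ℤ) = 105 := by
  rw [Nat.add_choose]; rfl

lemma ch13_3 : (((3 + 13).choose 13 : ℕ) : ℤ) = 560 := by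
  rw [Nat.add_choose]; rfl

lemma ch13_4 : (((4 + 13).choose 13 : ℕ) : ℤ) = 2380 := by
  rw [Nat.add_choose]; rfl

lemma ch13_5 : (((5 + 13).choose 13 : ℕ) : ℤ) = 8568 := by
  rw [Nat.add_choose]; rfl

lemma ch13_6 : (((6 + 13).choose 13 : ℕ) : ℤ) = 27132 := by
  rw [Nat.add_choose]; rfl

lemma ch13_7 : (((7 + 13).choose 13 : ℕ) : ℤ) = 77520 := by
  rw [Nat.add_choose]; rfl

lemma ch13_8 : (((8 + 13).choose 13 : ℕ) : ℤ) = 203490 := by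
  rw [Nat.add_choose]; rfl

lemma ch13_9 : (((9 + 13).choose 13 : ℕ) : ℤ) = 497420 := by
  rw [Nat.add_choose]; rfl

lemma ch13_10 : (((10 + 13).choose 13 : ℕ) : ℤ) = 1144066 := by
  rw [Nat.add_choose]; rfl

lemma ch13_11 : (((11 + 13).choose 13 : ℕ) : ℤ) = 2496144 := by
  rw [Nat.add_choose]; rfl

lemma ch13_12 : (((12 + 13).choose 13 : ℕ) : ℤ) = 5200300 := by
  rw [Nat.add_choose]; rfl

lemma ch13_13 : (((13 + 13).choose 13 : ℕ) : ℤ) = 10400600 := by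
  rw [Nat.add_choose]; rfl

lemma ch14_0 : (((0 + 14).choose 14 : ℕ) : ℤ) = 1 := by
  rw [Nat.add_choose]; rfl

lemma ch14_1 : (((1 + 14).choose 14 : ℕ) : ℤ) = 15 := by
  rw [Nat.add_choose]; rfl

lemma ch14_2 : (((2 + 14).choose 14 : ℕ) : ℤ) = 120 := by
  rw [Nat.add_choose]; rfl

lemma ch14_3 : (((3 + 14).choose 14 : ℕ) : ℤ) = 680 := by
  rw [Nat.add_choose]; rfl

lemma ch14_4 : (((4 + 14).choose 14 : ℕ) : ℤ) = 3060 := by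
  rw [Nat.add_choose]; rfl

lemma ch14_5 : (((5 + 14).choose 14 : ℕ) : ℤ) = 11628 := by
  rw [Nat.add_choose]; rfl

lemma ch14_6 : (((6 + 14).choose 14 : ℕ) : ℤ) = 38760 := by
  rw [Nat.add_choose]; rfl

lemma ch14_7 : (((7 + 14).choose 14 : ℕ) : ℤ) = 116280 := by
  rw [Nat.add_choose]; rfl

lemma ch14_8 : (((8 + 14).choose 14 : ℕ) : ℤ) = 319770 := by
  rw [Nat.add_choose]; rfl

lemma ch14_9 : (((9 + 14).choose 14 : ℕ) : ℤ) = 817190 := by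
  rw [Nat.add_choose]; rfl

lemma ch14_10 : (((10 + 14).choose 14 : ℕ) : ℤ) = 1961256 := by
  rw [Nat.add_choose]; rfl

lemma ch14_11 : (((11 + 14).choose 14 : ℕ) : ℤ) = 4457400 := by
  rw [Nat.add_choose]; rfl

lemma ch14_12 : (((12 + 14).choose 14 : ℕ) : ℤ) = 9657700 := by
  rw [Nat.add_choose]; rfl

lemma ch14_13 : (((13 + 14).choose 14 : ℕ) : ℤ) = 20058300 := by
  rw [Nat.add_choose]; rfl

lemma ch15_0 : (((0 + 15).choose 15 : ℕ) : ℤ) = 1 := by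
  rw [Nat.add_choose]; rfl

lemma ch15_1 : (((1 + 15).choose 15 : ℕ) : ℤ) = 16 := by
  rw [Nat.add_choose]; rfl

lemma ch15_2 : (((2 + 15).choose 15 : ℕ) : ℤ) = 136 := by
  rw [Nat.add_choose]; rfl

lemma ch15_3 : (((3 + 15).choose 15 : ℕ) : ℤ) = 816 := by
  rw [Nat.add_choose]; rfl

lemma ch15_4 : (((4 + 15).choose 15 : ℕ) : ℤ) = 3876 := by
  rw [Nat.add_choose]; rfl

lemma ch15_5 : (((5 + 15).choose 15 : ℕ) : ℤ) = 15504 := by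
  rw [Nat.add_choose]; rfl

lemma ch15_6 : (((6 + 15).choose 15 : ℕ) : ℤ) = 54264 := by
  rw [Nat.add_choose]; rfl

lemma ch15_7 : (((7 + 15).choose 15 : ℕ) : ℤ) = 170544 := by
  rw [Nat.add_choose]; rfl

lemma ch15_8 : (((8 + 15).choose 15 : ℕ) : ℤ) = 490314 := by
  rw [Nat.add_choose]; rfl

lemma ch15_9 : (((9 + 15).choose 15 : ℕ) : ℤ) = 1307504 := by
  rw [Nat.add_choose]; rfl

lemma ch15_10 : (((10 + 15).choose 15 : ℕ) : ℤ) = 3268760 := by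
  rw [Nat.add_choose]; rfl

lemma ch15_11 : (((11 + 15).choose 15 : ℕ) : ℤ) = 7726160 := by
  rw [Nat.add_choose]; rfl

lemma ch15_12 : (((12 + 15).choose 15 : ℕ) : ℤ) = 17383860 := by
  rw [Nat.add_choose]; rfl

lemma ch15_13 : (((13 + 15).choose 15 : ℕ) : ℤ) = 37442160 := by
  rw [Nat.add_choose]; rfl

lemma cf4_2
    (hR : (PowerSeries.mk h : PowerSeries ℤ) * (1 - PowerSeries.X) ^ (4 + 1) = (R : PowerSeries ℤ)) :
    h 2 = 15 * R.coeff 0 + 5 * R.coeff 1 + 1 * R.coeff 2 := by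
  have h1 := Pool.Agent.Q86.Gap.coeff_eq 4 h R hR 2
  simp only [sum_range_succ, sum_range_zero] at h1
  have h2 : h 2 = 0 + R.coeff 0 * ((2 + 4).choose 4 : ℕ) + R.coeff 1 * ((1 + 4).choose 4 : ℕ) + R.coeff 2 * ((0 + 4).choose 4 : ℕ) := h1
  rw [ch4_2, ch4_1, ch4_0] at h2
  linarith

lemma cf4_3
    (hR : (PowerSeries.mk h : PowerSeries ℤ) * (1 - PowerSeries.X) ^ (4 + 1) = (R : PowerSeries ℤ)) :
    h 3 = 35 * R.coeff 0 + 15 * R.coeff 1 + 5 * R.coeff 2 + 1 * R.coeff 3 := by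
  have h1 := Pool.Agent.Q86.Gap.coeff_eq 4 h R hR 3
  simp only [sum_range_succ, sum_range_zero] at h1
  have h2 : h 3 = 0 + R.coeff 0 * ((3 + 4).choose 4 : ℕ) + R.coeff 1 * ((2 + 4).choose 4 : ℕ) + R.coeff 2 * ((1 + 4).choose 4 : ℕ) + R.coeff 3 * ((0 + 4).choose 4 : ℕ) := h1
  rw [ch4_3, ch4_2, ch4_1, ch4_0] at h2
  linarith

lemma cf4_4
    (hR : (PowerSeries.mk h : PowerSeries ℤ) * (1 - PowerSeries.X) ^ (4 + 1) = (R : PowerSeries ℤ)) :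
    h 4 = 70 * R.coeff 0 + 35 * R.coeff 1 + 15 * R.coeff 2 + 5 * R.coeff 3 + 1 * R.coeff 4 := by
  have h1 := Pool.Agent.Q86.Gap.coeff_eq 4 h R hR 4
  simp only [sum_range_succ, sum_range_zero] at h1
  have h2 : h 4 = 0 + R.coeff 0 * ((4 + 4).choose 4 : ℕ) + R.coeff 1 * ((3 + 4).choose 4 : ℕ) + R.coeff 2 * ((2 + 4).choose 4 : ℕ) + R.coeff 3 * ((1 + 4).choose 4 : ℕ) + R.coeff 4 * ((0 + 4).choose 4 : ℕ) := h1
  rw [ch4_4, ch4_3, ch4_2, ch4_1, ch4_0] at h2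
  linarith

lemma cf4_5
    (hR : (PowerSeries.mk h : PowerSeries ℤ) * (1 - PowerSeries.X) ^ (4 + 1) = (R : PowerSeries ℤ)) :
    h 5 = 126 * R.coeff 0 + 70 * R.coeff 1 + 35 * R.coeff 2 + 15 * R.coeff 3 + 5 * R.coeff 4 + 1 * R.coeff 5 := by
  have h1 := Pool.Agent.Q86.Gap.coeff_eq 4 h R hR 5
  simp only [sum_range_succ, sum_range_zero] at h1
  have h2 : h 5 = 0 + R.coeff 0 * ((5 + 4).choose 4 : ℕ) + R.coeff 1 * ((4 + 4).choose 4 : ℕ) + R.coeff 2 * ((3 + 4).choose 4 : ℕ) + R.coeff 3 * ((2 + 4).choose 4 : ℕ) + R.coeff 4 * ((1 + 4).choose 4 : ℕ) + R.coeff 5 * ((0 + 4).choose 4 : ℕ) := h1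
  rw [ch4_5, ch4_4, ch4_3, ch4_2, ch4_1, ch4_0] at h2
  linarith

lemma cf4_6
    (hR : (PowerSeries.mk h : PowerSeries ℤ) * (1 - PowerSeries.X) ^ (4 + 1) = (R : PowerSeries ℤ)) :
    h 6 = 210 * R.coeff 0 + 126 * R.coeff 1 + 70 * R.coeff 2 + 35 * R.coeff 3 + 15 * R.coeff 4 + 5 * R.coeff 5 + 1 * R.coeff 6 := by
  have h1 := Pool.Agent.Q86.Gap.coeff_eq 4 h R hR 6
  simp only [sum_range_succ, sum_range_zero] at h1
  have h2 : h 6 = 0 + R.coeff 0 * ((6 + 4).choose 4 : ℕ) + R.coeff 1 * ((5 + 4).choose 4 : ℕ) + R.coeff 2 * ((4 + 4).choose 4 : ℕ) + R.coeff 3 * ((3 + 4).choose 4 : ℕ) + R.coeff 4 * ((2 + 4).choose 4 : ℕ) + R.coeff 5 * ((1 + 4).choose 4 : ℕ) + R.coeff 6 * ((0 + 4).choose 4 : ℕ) := h1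
  rw [ch4_6, ch4_5, ch4_4, ch4_3, ch4_2, ch4_1, ch4_0] at h2
  linarith

lemma cf5_2
    (hR : (PowerSeries.mk h : PowerSeries ℤ) * (1 - PowerSeries.X) ^ (5 + 1) = (R : PowerSeries ℤ)) :
    h 2 = 21 * R.coeff 0 + 6 * R.coeff 1 + 1 * R.coeff 2 := by
  have h1 := Pool.Agent.Q86.Gap.coeff_eq 5 h R hR 2
  simp only [sum_range_succ, sum_range_zero] at h1
  have h2 : h 2 = 0 + R.coeff 0 * ((2 + 5).choose 5 : ℕ) + R.coeff 1 * ((1 + 5).choose 5 : ℕ) + R.coeff 2 * ((0 + 5).choose 5 : ℕ) := h1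
  rw [ch5_2, ch5_1, ch5_0] at h2
  linarith

lemma cf5_3
    (hR : (PowerSeries.mk h : PowerSeries ℤ) * (1 - PowerSeries.X) ^ (5 + 1) = (R : PowerSeries ℤ)) :
    h 3 = 56 * R.coeff 0 + 21 * R.coeff 1 + 6 * R.coeff 2 + 1 * R.coeff 3 := by
  have h1 := Pool.Agent.Q86.Gap.coeff_eq 5 h R hR 3
  simp only [sum_range_succ, sum_range_zero] at h1
  have h2 : h 3 = 0 + R.coeff 0 * ((3 + 5).choose 5 : ℕ) + R.coeff 1 * ((2 + 5).choose 5 : ℕ) + R.coeff 2 * ((1 + 5).choose 5 : ℕ) + R.coeff 3 * ((0 + 5).choose 5 : ℕ) := h1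
  rw [ch5_3, ch5_2, ch5_1, ch5_0] at h2
  linarith

lemma cf5_4
    (hR : (PowerSeries.mk h : PowerSeries ℤ) * (1 - PowerSeries.X) ^ (5 + 1) = (R : PowerSeries ℤ)) :
    h 4 = 126 * R.coeff 0 + 56 * R.coeff 1 + 21 * R.coeff 2 + 6 * R.coeff 3 + 1 * R.coeff 4 := by
  have h1 := Pool.Agent.Q86.Gap.coeff_eq 5 h R hR 4
  simp only [sum_range_succ, sum_range_zero] at h1
  have h2 : h 4 = 0 + R.coeff 0 * ((4 + 5).choose 5 : ℕ) + R.coeff 1 * ((3 + 5).choose 5 : ℕ) + R.coeff 2 * ((2 + 5).choose 5 : ℕ) + R.coeff 3 * ((1 + 5).choose 5 : ℕ) + R.coeff 4 * ((0 + 5).choose 5 : ℕ) := h1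
  rw [ch5_4, ch5_3, ch5_2, ch5_1, ch5_0] at h2
  linarith

lemma cf5_5
    (hR : (PowerSeries.mk h : PowerSeries ℤ) * (1 - PowerSeries.X) ^ (5 + 1) = (R : PowerSeries ℤ)) :
    h 5 = 252 * R.coeff 0 + 126 * R.coeff 1 + 56 * R.coeff 2 + 21 * R.coeff 3 + 6 * R.coeff 4 + 1 * R.coeff 5 := by
  have h1 := Pool.Agent.Q86.Gap.coeff_eq 5 h R hR 5
  simp only [sum_range_succ, sum_range_zero] at h1
  have h2 : h 5 = 0 + R.coeff 0 * ((5 + 5).choose 5 : ℕ) + R.coeff 1 * ((4 + 5).choose 5 : ℕ) + R.coeff 2 * ((3 + 5).choose 5 : ℕ) + R.coeff 3 * ((2 + 5).choose 5 : ℕ) + R.coeff 4 * ((1 + 5).choose 5 : ℕ) + R.coeff 5 * ((0 + 5).choose 5 : ℕ) := h1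
  rw [ch5_5, ch5_4, ch5_3, ch5_2, ch5_1, ch5_0] at h2
  linarith

lemma cf5_6
    (hR : (PowerSeries.mk h : PowerSeries ℤ) * (1 - PowerSeries.X) ^ (5 + 1) = (R : PowerSeries ℤ)) :
    h 6 = 462 * R.coeff 0 + 252 * R.coeff 1 + 126 * R.coeff 2 + 56 * R.coeff 3 + 21 * R.coeff 4 + 6 * R.coeff 5 + 1 * R.coeff 6 := by
  have h1 := Pool.Agent.Q86.Gap.coeff_eq 5 h R hR 6
  simp only [sum_range_succ, sum_range_zero] at h1
  have h2 : h 6 = 0 + R.coeff 0 * ((6 + 5).choose 5 : ℕ) + R.coeff 1 * ((5 + 5).choose 5 : ℕ) + R.coeff 2 * ((4 + 5).choose 5 : ℕ) + R.coeff 3 * ((3 + 5).choose 5 : ℕ) + R.coeff 4 * ((2 + 5).choose 5 : ℕ) + R.coeff 5 * ((1 + 5).choose 5 : ℕ) + R.coeff 6 * ((0 + 5).choose 5 : ℕ) := h1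
  rw [ch5_6, ch5_5, ch5_4, ch5_3, ch5_2, ch5_1, ch5_0] at h2
  linarith

lemma cf6_2
    (hR : (PowerSeries.mk h : PowerSeries ℤ) * (1 - PowerSeries.X) ^ (6 + 1) = (R : PowerSeries ℤ)) :
    h 2 = 28 * R.coeff 0 + 7 * R.coeff 1 + 1 * R.coeff 2 := by
  have h1 := Pool.Agent.Q86.Gap.coeff_eq 6 h R hR 2
  simp only [sum_range_succ, sum_range_zero] at h1
  have h2 : h 2 = 0 + R.coeff 0 * ((2 + 6).choose 6 : ℕ) + R.coeff 1 * ((1 + 6).choose 6 : ℕ) + R.coeff 2 * ((0 + 6).choose 6 : ℕ) := h1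
  rw [ch6_2, ch6_1, ch6_0] at h2
  linarith

lemma cf6_3
    (hR : (PowerSeries.mk h : PowerSeries ℤ) * (1 - PowerSeries.X) ^ (6 + 1) = (R : PowerSeries ℤ)) :
    h 3 = 84 * R.coeff 0 + 28 * R.coeff 1 + 7 * R.coeff 2 + 1 * R.coeff 3 := by
  have h1 := Pool.Agent.Q86.Gap.coeff_eq 6 h R hR 3
  simp only [sum_range_succ, sum_range_zero] at h1
  have h2 : h 3 = 0 + R.coeff 0 * ((3 + 6).choose 6 : ℕ) + R.coeff 1 * ((2 + 6).choose 6 : ℕ) + R.coeff 2 * ((1 + 6).choose 6 : ℕ) + R.coeff 3 * ((0 + 6).choose 6 : ℕ) := h1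
  rw [ch6_3, ch6_2, ch6_1, ch6_0] at h2
  linarith

lemma cf6_4
    (hR : (PowerSeries.mk h : PowerSeries ℤ) * (1 - PowerSeries.X) ^ (6 + 1) = (R : PowerSeries ℤ)) :
    h 4 = 210 * R.coeff 0 + 84 * R.coeff 1 + 28 * R.coeff 2 + 7 * R.coeff 3 + 1 * R.coeff 4 := by
  have h1 := Pool.Agent.Q86.Gap.coeff_eq 6 h R hR 4
  simp only [sum_range_succ, sum_range_zero] at h1
  have h2 : h 4 = 0 + R.coeff 0 * ((4 + 6).choose 6 : ℕ) + R.coeff 1 * ((3 + 6).choose 6 : ℕ) + R.coeff 2 * ((2 + 6).choose 6 : ℕ) + R.coeff 3 * ((1 + 6).choose 6 : ℕ) + R.coeff 4 * ((0 + 6).choose 6 : ℕ) := h1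
  rw [ch6_4, ch6_3, ch6_2, ch6_1, ch6_0] at h2
  linarith

lemma cf6_5
    (hR : (PowerSeries.mk h : PowerSeries ℤ) * (1 - PowerSeries.X) ^ (6 + 1) = (R : PowerSeries ℤ)) :
    h 5 = 462 * R.coeff 0 + 210 * R.coeff 1 + 84 * R.coeff 2 + 28 * R.coeff 3 + 7 * R.coeff 4 + 1 * R.coeff 5 := by
  have h1 := Pool.Agent.Q86.Gap.coeff_eq 6 h R hR 5
  simp only [sum_range_succ, sum_range_zero] at h1
  have h2 : h 5 = 0 + R.coeff 0 * ((5 + 6).choose 6 : ℕ) + R.coeff 1 * ((4 + 6).choose 6 : ℕ) + R.coeff 2 * ((3 + 6).choose 6 : ℕ) + R.coeff 3 * ((2 + 6).choose 6 : ℕ) + R.coeff 4 * ((1 + 6).choose 6 : ℕ) + R.coeff 5 * ((0 + 6).choose 6 : ℕ) := h1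
  rw [ch6_5, ch6_4, ch6_3, ch6_2, ch6_1, ch6_0] at h2
  linarith

lemma cf6_6
    (hR : (PowerSeries.mk h : PowerSeries ℤ) * (1 - PowerSeries.X) ^ (6 + 1) = (R : PowerSeries ℤ)) :
    h 6 = 924 * R.coeff 0 + 462 * R.coeff 1 + 210 * R.coeff 2 + 84 * R.coeff 3 + 28 * R.coeff 4 + 7 * R.coeff 5 + 1 * R.coeff 6 := by
  have h1 := Pool.Agent.Q86.Gap.coeff_eq 6 h R hR 6
  simp only [sum_range_succ, sum_range_zero] at h1
  have h2 : h 6 = 0 + R.coeff 0 * ((6 + 6).choose 6 : ℕ) + R.coeff 1 * ((5 + 6).choose 6 : ℕ) + R.coeff 2 * ((4 + 6).choose 6 : ℕ) + R.coeff 3 * ((3 + 6).choose 6 : ℕ) + R.coeff 4 * ((2 + 6).choose 6 : ℕ) + R.coeff 5 * ((1 + 6).choose 6 : ℕ) + R.coeff 6 * ((0 + 6).choose 6 : ℕ) := h1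
  rw [ch6_6, ch6_5, ch6_4, ch6_3, ch6_2, ch6_1, ch6_0] at h2
  linarith

lemma cf7_2
    (hR : (PowerSeries.mk h : PowerSeries ℤ) * (1 - PowerSeries.X) ^ (7 + 1) = (R : PowerSeries ℤ)) :
    h 2 = 36 * R.coeff 0 + 8 * R.coeff 1 + 1 * R.coeff 2 := by
  have h1 := Pool.Agent.Q86.Gap.coeff_eq 7 h R hR 2
  simp only [sum_range_succ, sum_range_zero] at h1
  have h2 : h 2 = 0 + R.coeff 0 * ((2 + 7).choose 7 : ℕ) + R.coeff 1 * ((1 + 7).choose 7 : ℕ) + R.coeff 2 * ((0 + 7).choose 7 : ℕ) := h1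
  rw [ch7_2, ch7_1, ch7_0] at h2
  linarith

lemma cf7_3
    (hR : (PowerSeries.mk h : PowerSeries ℤ) * (1 - PowerSeries.X) ^ (7 + 1) = (R : PowerSeries ℤ)) :
    h 3 = 120 * R.coeff 0 + 36 * R.coeff 1 + 8 * R.coeff 2 + 1 * R.coeff 3 := by
  have h1 := Pool.Agent.Q86.Gap.coeff_eq 7 h R hR 3
  simp only [sum_range_succ, sum_range_zero] at h1
  have h2 : h 3 = 0 + R.coeff 0 * ((3 + 7).choose 7 : ℕ) + R.coeff 1 * ((2 + 7).choose 7 : ℕ) + R.coeff 2 * ((1 + 7).choose 7 : ℕ) + R.coeff 3 * ((0 + 7).choose 7 : ℕ) := h1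
  rw [ch7_3, ch7_2, ch7_1, ch7_0] at h2
  linarith

lemma cf7_4
    (hR : (PowerSeries.mk h : PowerSeries ℤ) * (1 - PowerSeries.X) ^ (7 + 1) = (R : PowerSeries ℤ)) :
    h 4 = 330 * R.coeff 0 + 120 * R.coeff 1 + 36 * R.coeff 2 + 8 * R.coeff 3 + 1 * R.coeff 4 := by
  have h1 := Pool.Agent.Q86.Gap.coeff_eq 7 h R hR 4
  simp only [sum_range_succ, sum_range_zero] at h1
  have h2 : h 4 = 0 + R.coeff 0 * ((4 + 7).choose 7 : ℕ) + R.coeff 1 * ((3 + 7).choose 7 : ℕ) + R.coeff 2 * ((2 + 7).choose 7 : ℕ) + R.coeff 3 * ((1 + 7).choose 7 : ℕ) + R.coeff 4 * ((0 + 7).choose 7 : ℕ) := h1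
  rw [ch7_4, ch7_3, ch7_2, ch7_1, ch7_0] at h2
  linarith

lemma cf7_5
    (hR : (PowerSeries.mk h : PowerSeries ℤ) * (1 - PowerSeries.X) ^ (7 + 1) = (R : PowerSeries ℤ)) :
    h 5 = 792 * R.coeff 0 + 330 * R.coeff 1 + 120 * R.coeff 2 + 36 * R.coeff 3 + 8 * R.coeff 4 + 1 * R.coeff 5 := by
  have h1 := Pool.Agent.Q86.Gap.coeff_eq 7 h R hR 5
  simp only [sum_range_succ, sum_range_zero] at h1
  have h2 : h 5 = 0 + R.coeff 0 * ((5 + 7).choose 7 : ℕ) + R.coeff 1 * ((4 + 7).choose 7 : ℕ) + R.coeff 2 * ((3 + 7).choose 7 : ℕ) + R.coeff 3 * ((2 + 7).choose 7 : ℕ) + R.coeff 4 * ((1 + 7).choose 7 : ℕ) + R.coeff 5 * ((0 + 7).choose 7 : ℕ) := h1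
  rw [ch7_5, ch7_4, ch7_3, ch7_2, ch7_1, ch7_0] at h2
  linarith

lemma cf7_6
    (hR : (PowerSeries.mk h : PowerSeries ℤ) * (1 - PowerSeries.X) ^ (7 + 1) = (R : PowerSeries ℤ)) :
    h 6 = 1716 * R.coeff 0 + 792 * R.coeff 1 + 330 * R.coeff 2 + 120 * R.coeff 3 + 36 * R.coeff 4 + 8 * R.coeff 5 + 1 * R.coeff 6 := by
  have h1 := Pool.Agent.Q86.Gap.coeff_eq 7 h R hR 6
  simp only [sum_range_succ, sum_range_zero] at h1
  have h2 : h 6 = 0 + R.coeff 0 * ((6 + 7).choose 7 : ℕ) + R.coeff 1 * ((5 + 7).choose 7 : ℕ) + R.coeff 2 * ((4 + 7).choose 7 : ℕ) + R.coeff 3 * ((3 + 7).choose 7 : ℕ) + R.coeff 4 * ((2 + 7).choose 7 : ℕ) + R.coeff 5 * ((1 + 7).choose 7 : ℕ) + R.coeff 6 * ((0 + 7).choose 7 : ℕ) := h1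
  rw [ch7_6, ch7_5, ch7_4, ch7_3, ch7_2, ch7_1, ch7_0] at h2
  linarith

lemma cf8_2
    (hR : (PowerSeries.mk h : PowerSeries ℤ) * (1 - PowerSeries.X) ^ (8 + 1) = (R : PowerSeries ℤ)) :
    h 2 = 45 * R.coeff 0 + 9 * R.coeff 1 + 1 * R.coeff 2 := by
  have h1 := Pool.Agent.Q86.Gap.coeff_eq 8 h R hR 2
  simp only [sum_range_succ, sum_range_zero] at h1
  have h2 : h 2 = 0 + R.coeff 0 * ((2 + 8).choose 8 : ℕ) + R.coeff 1 * ((1 + 8).choose 8 : ℕ) + R.coeff 2 * ((0 + 8).choose 8 : ℕ) := h1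
  rw [ch8_2, ch8_1, ch8_0] at h2
  linarith

lemma cf8_3
    (hR : (PowerSeries.mk h : PowerSeries ℤ) * (1 - PowerSeries.X) ^ (8 + 1) = (R : PowerSeries ℤ)) :
    h 3 = 165 * R.coeff 0 + 45 * R.coeff 1 + 9 * R.coeff 2 + 1 * R.coeff 3 := by
  have h1 := Pool.Agent.Q86.Gap.coeff_eq 8 h R hR 3
  simp only [sum_range_succ, sum_range_zero] at h1
  have h2 : h 3 = 0 + R.coeff 0 * ((3 + 8).choose 8 : ℕ) + R.coeff 1 * ((2 + 8).choose 8 : ℕ) + R.coeff 2 * ((1 + 8).choose 8 : ℕ) + R.coeff 3 * ((0 + 8).choose 8 : ℕ) := h1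
  rw [ch8_3, ch8_2, ch8_1, ch8_0] at h2
  linarith

lemma cf8_4
    (hR : (PowerSeries.mk h : PowerSeries ℤ) * (1 - PowerSeries.X) ^ (8 + 1) = (R : PowerSeries ℤ)) :
    h 4 = 495 * R.coeff 0 + 165 * R.coeff 1 + 45 * R.coeff 2 + 9 * R.coeff 3 + 1 * R.coeff 4 := by
  have h1 := Pool.Agent.Q86.Gap.coeff_eq 8 h R hR 4
  simp only [sum_range_succ, sum_range_zero] at h1
  have h2 : h 4 = 0 + R.coeff 0 * ((4 + 8).choose 8 : ℕ) + R.coeff 1 * ((3 + 8).choose 8 : ℕ) + R.coeff 2 * ((2 + 8).choose 8 : ℕ) + R.coeff 3 * ((1 + 8).choose 8 : ℕ) + R.coeff 4 * ((0 + 8).choose 8 : ℕ) := h1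
  rw [ch8_4, ch8_3, ch8_2, ch8_1, ch8_0] at h2
  linarith

lemma cf8_5
    (hR : (PowerSeries.mk h : PowerSeries ℤ) * (1 - PowerSeries.X) ^ (8 + 1) = (R : PowerSeries ℤ)) :
    h 5 = 1287 * R.coeff 0 + 495 * R.coeff 1 + 165 * R.coeff 2 + 45 * R.coeff 3 + 9 * R.coeff 4 + 1 * R.coeff 5 := by
  have h1 := Pool.Agent.Q86.Gap.coeff_eq 8 h R hR 5
  simp only [sum_range_succ, sum_range_zero] at h1
  have h2 : h 5 = 0 + R.coeff 0 * ((5 + 8).choose 8 : ℕ) + R.coeff 1 * ((4 + 8).choose 8 : ℕ) + R.coeff 2 * ((3 + 8).choose 8 : ℕ) + R.coeff 3 * ((2 + 8).choose 8 : ℕ) + R.coeff 4 * ((1 + 8).choose 8 : ℕ) + R.coeff 5 * ((0 + 8).choose 8 : ℕ) := h1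
  rw [ch8_5, ch8_4, ch8_3, ch8_2, ch8_1, ch8_0] at h2
  linarith

lemma cf8_6
    (hR : (PowerSeries.mk h : PowerSeries ℤ) * (1 - PowerSeries.X) ^ (8 + 1) = (R : PowerSeries ℤ)) :
    h 6 = 3003 * R.coeff 0 + 1287 * R.coeff 1 + 495 * R.coeff 2 + 165 * R.coeff 3 + 45 * R.coeff 4 + 9 * R.coeff 5 + 1 * R.coeff 6 := by
  have h1 := Pool.Agent.Q86.Gap.coeff_eq 8 h R hR 6
  simp only [sum_range_succ, sum_range_zero] at h1
  have h2 : h 6 = 0 + R.coeff 0 * ((6 + 8).choose 8 : ℕ) + R.coeff 1 * ((5 + 8).choose 8 : ℕ) + R.coeff 2 * ((4 + 8).choose 8 : ℕ) + R.coeff 3 * ((3 + 8).choose 8 : ℕ) + R.coeff 4 * ((2 + 8).choose 8 : ℕ) + R.coeff 5 * ((1 + 8).choose 8 : ℕ) + R.coeff 6 * ((0 + 8).choose 8 : ℕ) := h1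
  rw [ch8_6, ch8_5, ch8_4, ch8_3, ch8_2, ch8_1, ch8_0] at h2
  linarith

lemma cf8_7
    (hR : (PowerSeries.mk h : PowerSeries ℤ) * (1 - PowerSeries.X) ^ (8 + 1) = (R : PowerSeries ℤ)) :
    h 7 = 6435 * R.coeff 0 + 3003 * R.coeff 1 + 1287 * R.coeff 2 + 495 * R.coeff 3 + 165 * R.coeff 4 + 45 * R.coeff 5 + 9 * R.coeff 6 + 1 * R.coeff 7 := by
  have h1 := Pool.Agent.Q86.Gap.coeff_eq 8 h R hR 7
  simp only [sum_range_succ, sum_range_zero] at h1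
  have h2 : h 7 = 0 + R.coeff 0 * ((7 + 8).choose 8 : ℕ) + R.coeff 1 * ((6 + 8).choose 8 : ℕ) + R.coeff 2 * ((5 + 8).choose 8 : ℕ) + R.coeff 3 * ((4 + 8).choose 8 : ℕ) + R.coeff 4 * ((3 + 8).choose 8 : ℕ) + R.coeff 5 * ((2 + 8).choose 8 : ℕ) + R.coeff 6 * ((1 + 8).choose 8 : ℕ) + R.coeff 7 * ((0 + 8).choose 8 : ℕ) := h1
  rw [ch8_7, ch8_6, ch8_5, ch8_4, ch8_3, ch8_2, ch8_1, ch8_0] at h2
  linarith

lemma cf8_8
    (hR : (PowerSeries.mk h : PowerSeries ℤ) * (1 - PowerSeries.X) ^ (8 + 1) = (R : PowerSeries ℤ)) :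
    h 8 = 12870 * R.coeff 0 + 6435 * R.coeff 1 + 3003 * R.coeff 2 + 1287 * R.coeff 3 + 495 * R.coeff 4 + 165 * R.coeff 5 + 45 * R.coeff 6 + 9 * R.coeff 7 + 1 * R.coeff 8 := by
  have h1 := Pool.Agent.Q86.Gap.coeff_eq 8 h R hR 8
  simp only [sum_range_succ, sum_range_zero] at h1
  have h2 : h 8 = 0 + R.coeff 0 * ((8 + 8).choose 8 : ℕ) + R.coeff 1 * ((7 + 8).choose 8 : ℕ) + R.coeff 2 * ((6 + 8).choose 8 : ℕ) + R.coeff 3 * ((5 + 8).choose 8 : ℕ) + R.coeff 4 * ((4 + 8).choose 8 : ℕ) + R.coeff 5 * ((3 + 8).choose 8 : ℕ) + R.coeff 6 * ((2 + 8).choose 8 : ℕ) + R.coeff 7 * ((1 + 8).choose 8 : ℕ) + R.coeff 8 * ((0 + 8).choose 8 : ℕ) := h1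
  rw [ch8_8, ch8_7, ch8_6, ch8_5, ch8_4, ch8_3, ch8_2, ch8_1, ch8_0] at h2
  linarith

lemma cf8_9
    (hR : (PowerSeries.mk h : PowerSeries ℤ) * (1 - PowerSeries.X) ^ (8 + 1) = (R : PowerSeries ℤ)) :
    h 9 = 24310 * R.coeff 0 + 12870 * R.coeff 1 + 6435 * R.coeff 2 + 3003 * R.coeff 3 + 1287 * R.coeff 4 + 495 * R.coeff 5 + 165 * R.coeff 6 + 45 * R.coeff 7 + 9 * R.coeff 8 + 1 * R.coeff 9 := by
  have h1 := Pool.Agent.Q86.Gap.coeff_eq 8 h R hR 9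
  simp only [sum_range_succ, sum_range_zero] at h1
  have h2 : h 9 = 0 + R.coeff 0 * ((9 + 8).choose 8 : ℕ) + R.coeff 1 * ((8 + 8).choose 8 : ℕ) + R.coeff 2 * ((7 + 8).choose 8 : ℕ) + R.coeff 3 * ((6 + 8).choose 8 : ℕ) + R.coeff 4 * ((5 + 8).choose 8 : ℕ) + R.coeff 5 * ((4 + 8).choose 8 : ℕ) + R.coeff 6 * ((3 + 8).choose 8 : ℕ) + R.coeff 7 * ((2 + 8).choose 8 : ℕ) + R.coeff 8 * ((1 + 8).choose 8 : ℕ) + R.coeff 9 * ((0 + 8).choose 8 : ℕ) := h1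
  rw [ch8_9, ch8_8, ch8_7, ch8_6, ch8_5, ch8_4, ch8_3, ch8_2, ch8_1, ch8_0] at h2
  linarith

lemma cf8_10
    (hR : (PowerSeries.mk h : PowerSeries ℤ) * (1 - PowerSeries.X) ^ (8 + 1) = (R : PowerSeries ℤ)) :
    h 10 = 43758 * R.coeff 0 + 24310 * R.coeff 1 + 12870 * R.coeff 2 + 6435 * R.coeff 3 + 3003 * R.coeff 4 + 1287 * R.coeff 5 + 495 * R.coeff 6 + 165 * R.coeff 7 + 45 * R.coeff 8 + 9 * R.coeff 9 + 1 * R.coeff 10 := by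
  have h1 := Pool.Agent.Q86.Gap.coeff_eq 8 h R hR 10
  simp only [sum_range_succ, sum_range_zero] at h1
  have h2 : h 10 = 0 + R.coeff 0 * ((10 + 8).choose 8 : ℕ) + R.coeff 1 * ((9 + 8).choose 8 : ℕ) + R.coeff 2 * ((8 + 8).choose 8 : ℕ) + R.coeff 3 * ((7 + 8).choose 8 : ℕ) + R.coeff 4 * ((6 + 8).choose 8 : ℕ) + R.coeff 5 * ((5 + 8).choose 8 : ℕ) + R.coeff 6 * ((4 + 8).choose 8 : ℕ) + R.coeff 7 * ((3 + 8).choose 8 : ℕ) + R.coeff 8 * ((2 + 8).choose 8 : ℕ) + R.coeff 9 * ((1 + 8).choose 8 : ℕ) + R.coeff 10 * ((0 + 8).choose 8 : ℕ) := h1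
  rw [ch8_10, ch8_9, ch8_8, ch8_7, ch8_6, ch8_5, ch8_4, ch8_3, ch8_2, ch8_1, ch8_0] at h2
  linarith

lemma cf8_11
    (hR : (PowerSeries.mk h : PowerSeries ℤ) * (1 - PowerSeries.X) ^ (8 + 1) = (R : PowerSeries ℤ)) :
    h 11 = 75582 * R.coeff 0 + 43758 * R.coeff 1 + 24310 * R.coeff 2 + 12870 * R.coeff 3 + 6435 * R.coeff 4 + 3003 * R.coeff 5 + 1287 * R.coeff 6 + 495 * R.coeff 7 + 165 * R.coeff 8 + 45 * R.coeff 9 + 9 * R.coeff 10 + 1 * R.coeff 11 := by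
  have h1 := Pool.Agent.Q86.Gap.coeff_eq 8 h R hR 11
  simp only [sum_range_succ, sum_range_zero] at h1
  have h2 : h 11 = 0 + R.coeff 0 * ((11 + 8).choose 8 : ℕ) + R.coeff 1 * ((10 + 8).choose 8 : ℕ) + R.coeff 2 * ((9 + 8).choose 8 : ℕ) + R.coeff 3 * ((8 + 8).choose 8 : ℕ) + R.coeff 4 * ((7 + 8).choose 8 : ℕ) + R.coeff 5 * ((6 + 8).choose 8 : ℕ) + R.coeff 6 * ((5 + 8).choose 8 : ℕ) + R.coeff 7 * ((4 + 8).choose 8 : ℕ) + R.coeff 8 * ((3 + 8).choose 8 : ℕ) + R.coeff 9 * ((2 + 8).choose 8 : ℕ) + R.coeff 10 * ((1 + 8).choose 8 : ℕ) + R.coeff 11 * ((0 + 8).choose 8 : ℕ) := h1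
  rw [ch8_11, ch8_10, ch8_9, ch8_8, ch8_7, ch8_6, ch8_5, ch8_4, ch8_3, ch8_2, ch8_1, ch8_0] at h2
  linarith

lemma cf8_12
    (hR : (PowerSeries.mk h : PowerSeries ℤ) * (1 - PowerSeries.X) ^ (8 + 1) = (R : PowerSeries ℤ)) :
    h 12 = 125970 * R.coeff 0 + 75582 * R.coeff 1 + 43758 * R.coeff 2 + 24310 * R.coeff 3 + 12870 * R.coeff 4 + 6435 * R.coeff 5 + 3003 * R.coeff 6 + 1287 * R.coeff 7 + 495 * R.coeff 8 + 165 * R.coeff 9 + 45 * R.coeff 10 + 9 * R.coeff 11 + 1 * R.coeff 12 := by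
  have h1 := Pool.Agent.Q86.Gap.coeff_eq 8 h R hR 12
  simp only [sum_range_succ, sum_range_zero] at h1
  have h2 : h 12 = 0 + R.coeff 0 * ((12 + 8).choose 8 : ℕ) + R.coeff 1 * ((11 + 8).choose 8 : ℕ) + R.coeff 2 * ((10 + 8).choose 8 : ℕ) + R.coeff 3 * ((9 + 8).choose 8 : ℕ) + R.coeff 4 * ((8 + 8).choose 8 : ℕ) + R.coeff 5 * ((7 + 8).choose 8 : ℕ) + R.coeff 6 * ((6 + 8).choose 8 : ℕ) + R.coeff 7 * ((5 + 8).choose 8 : ℕ) + R.coeff 8 * ((4 + 8).choose 8 : ℕ) + R.coeff 9 * ((3 + 8).choose 8 : ℕ) + R.coeff 10 * ((2 + 8).choose 8 : ℕ) + R.coeff 11 * ((1 + 8).choose 8 : ℕ) + R.coeff 12 * ((0 + 8).choose 8 : ℕ) := h1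
  rw [ch8_12, ch8_11, ch8_10, ch8_9, ch8_8, ch8_7, ch8_6, ch8_5, ch8_4, ch8_3, ch8_2, ch8_1, ch8_0] at h2
  linarith

lemma cf8_13
    (hR : (PowerSeries.mk h : PowerSeries ℤ) * (1 - PowerSeries.X) ^ (8 + 1) = (R : PowerSeries ℤ)) :
    h 13 = 203490 * R.coeff 0 + 125970 * R.coeff 1 + 75582 * R.coeff 2 + 43758 * R.coeff 3 + 24310 * R.coeff 4 + 12870 * R.coeff 5 + 6435 * R.coeff 6 + 3003 * R.coeff 7 + 1287 * R.coeff 8 + 495 * R.coeff 9 + 165 * R.coeff 10 + 45 * R.coeff 11 + 9 * R.coeff 12 + 1 * R.coeff 13 := by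
  have h1 := Pool.Agent.Q86.Gap.coeff_eq 8 h R hR 13
  simp only [sum_range_succ, sum_range_zero] at h1
  have h2 : h 13 = 0 + R.coeff 0 * ((13 + 8).choose 8 : ℕ) + R.coeff 1 * ((12 + 8).choose 8 : ℕ) + R.coeff 2 * ((11 + 8).choose 8 : ℕ) + R.coeff 3 * ((10 + 8).choose 8 : ℕ) + R.coeff 4 * ((9 + 8).choose 8 : ℕ) + R.coeff 5 * ((8 + 8).choose 8 : ℕ) + R.coeff 6 * ((7 + 8).choose 8 : ℕ) + R.coeff 7 * ((6 + 8).choose 8 : ℕ) + R.coeff 8 * ((5 + 8).choose 8 : ℕ) + R.coeff 9 * ((4 + 8).choose 8 : ℕ) + R.coeff 10 * ((3 + 8).choose 8 : ℕ) + R.coeff 11 * ((2 + 8).choose 8 : ℕ) + R.coeff 12 * ((1 + 8).choose 8 : ℕ) + R.coeff 13 * ((0 + 8).choose 8 : ℕ) := h1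
  rw [ch8_13, ch8_12, ch8_11, ch8_10, ch8_9, ch8_8, ch8_7, ch8_6, ch8_5, ch8_4, ch8_3, ch8_2, ch8_1, ch8_0] at h2
  linarith

lemma cf9_2
    (hR : (PowerSeries.mk h : PowerSeries ℤ) * (1 - PowerSeries.X) ^ (9 + 1) = (R : PowerSeries ℤ)) :
    h 2 = 55 * R.coeff 0 + 10 * R.coeff 1 + 1 * R.coeff 2 := by
  have h1 := Pool.Agent.Q86.Gap.coeff_eq 9 h R hR 2
  simp only [sum_range_succ, sum_range_zero] at h1
  have h2 : h 2 = 0 + R.coeff 0 * ((2 + 9).choose 9 : ℕ) + R.coeff 1 * ((1 + 9).choose 9 : ℕ) + R.coeff 2 * ((0 + 9).choose 9 : ℕ) := h1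
  rw [ch9_2, ch9_1, ch9_0] at h2
  linarith

lemma cf9_3
    (hR : (PowerSeries.mk h : PowerSeries ℤ) * (1 - PowerSeries.X) ^ (9 + 1) = (R : PowerSeries ℤ)) :
    h 3 = 220 * R.coeff 0 + 55 * R.coeff 1 + 10 * R.coeff 2 + 1 * R.coeff 3 := by
  have h1 := Pool.Agent.Q86.Gap.coeff_eq 9 h R hR 3
  simp only [sum_range_succ, sum_range_zero] at h1
  have h2 : h 3 = 0 + R.coeff 0 * ((3 + 9).choose 9 : ℕ) + R.coeff 1 * ((2 + 9).choose 9 : ℕ) + R.coeff 2 * ((1 + 9).choose 9 : ℕ) + R.coeff 3 * ((0 + 9).choose 9 : ℕ) := h1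
  rw [ch9_3, ch9_2, ch9_1, ch9_0] at h2
  linarith

lemma cf9_4
    (hR : (PowerSeries.mk h : PowerSeries ℤ) * (1 - PowerSeries.X) ^ (9 + 1) = (R : PowerSeries ℤ)) :
    h 4 = 715 * R.coeff 0 + 220 * R.coeff 1 + 55 * R.coeff 2 + 10 * R.coeff 3 + 1 * R.coeff 4 := by
  have h1 := Pool.Agent.Q86.Gap.coeff_eq 9 h R hR 4
  simp only [sum_range_succ, sum_range_zero] at h1
  have h2 : h 4 = 0 + R.coeff 0 * ((4 + 9).choose 9 : ℕ) + R.coeff 1 * ((3 + 9).choose 9 : ℕ) + R.coeff 2 * ((2 + 9).choose 9 : ℕ) + R.coeff 3 * ((1 + 9).choose 9 : ℕ) + R.coeff 4 * ((0 + 9).choose 9 : ℕ) := h1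
  rw [ch9_4, ch9_3, ch9_2, ch9_1, ch9_0] at h2
  linarith

lemma cf9_5
    (hR : (PowerSeries.mk h : PowerSeries ℤ) * (1 - PowerSeries.X) ^ (9 + 1) = (R : PowerSeries ℤ)) :
    h 5 = 2002 * R.coeff 0 + 715 * R.coeff 1 + 220 * R.coeff 2 + 55 * R.coeff 3 + 10 * R.coeff 4 + 1 * R.coeff 5 := by
  have h1 := Pool.Agent.Q86.Gap.coeff_eq 9 h R hR 5
  simp only [sum_range_succ, sum_range_zero] at h1
  have h2 : h 5 = 0 + R.coeff 0 * ((5 + 9).choose 9 : ℕ) + R.coeff 1 * ((4 + 9).choose 9 : ℕ) + R.coeff 2 * ((3 + 9).choose 9 : ℕ) + R.coeff 3 * ((2 + 9).choose 9 : ℕ) + R.coeff 4 * ((1 + 9).choose 9 : ℕ) + R.coeff 5 * ((0 + 9).choose 9 : ℕ) := h1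
  rw [ch9_5, ch9_4, ch9_3, ch9_2, ch9_1, ch9_0] at h2
  linarith

lemma cf9_6
    (hR : (PowerSeries.mk h : PowerSeries ℤ) * (1 - PowerSeries.X) ^ (9 + 1) = (R : PowerSeries ℤ)) :
    h 6 = 5005 * R.coeff 0 + 2002 * R.coeff 1 + 715 * R.coeff 2 + 220 * R.coeff 3 + 55 * R.coeff 4 + 10 * R.coeff 5 + 1 * R.coeff 6 := by
  have h1 := Pool.Agent.Q86.Gap.coeff_eq 9 h R hR 6
  simp only [sum_range_succ, sum_range_zero] at h1
  have h2 : h 6 = 0 + R.coeff 0 * ((6 + 9).choose 9 : ℕ) + R.coeff 1 * ((5 + 9).choose 9 : ℕ) + R.coeff 2 * ((4 + 9).choose 9 : ℕ) + R.coeff 3 * ((3 + 9).choose 9 : ℕ) + R.coeff 4 * ((2 + 9).choose 9 : ℕ) + R.coeff 5 * ((1 + 9).choose 9 : ℕ) + R.coeff 6 * ((0 + 9).choose 9 : ℕ) := h1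
  rw [ch9_6, ch9_5, ch9_4, ch9_3, ch9_2, ch9_1, ch9_0] at h2
  linarith

lemma cf9_7
    (hR : (PowerSeries.mk h : PowerSeries ℤ) * (1 - PowerSeries.X) ^ (9 + 1) = (R : PowerSeries ℤ)) :
    h 7 = 11440 * R.coeff 0 + 5005 * R.coeff 1 + 2002 * R.coeff 2 + 715 * R.coeff 3 + 220 * R.coeff 4 + 55 * R.coeff 5 + 10 * R.coeff 6 + 1 * R.coeff 7 := by
  have h1 := Pool.Agent.Q86.Gap.coeff_eq 9 h R hR 7
  simp only [sum_range_succ, sum_range_zero] at h1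
  have h2 : h 7 = 0 + R.coeff 0 * ((7 + 9).choose 9 : ℕ) + R.coeff 1 * ((6 + 9).choose 9 : ℕ) + R.coeff 2 * ((5 + 9).choose 9 : ℕ) + R.coeff 3 * ((4 + 9).choose 9 : ℕ) + R.coeff 4 * ((3 + 9).choose 9 : ℕ) + R.coeff 5 * ((2 + 9).choose 9 : ℕ) + R.coeff 6 * ((1 + 9).choose 9 : ℕ) + R.coeff 7 * ((0 + 9).choose 9 : ℕ) := h1
  rw [ch9_7, ch9_6, ch9_5, ch9_4, ch9_3, ch9_2, ch9_1, ch9_0] at h2
  linarith

lemma cf9_8
    (hR : (PowerSeries.mk h : PowerSeries ℤ) * (1 - PowerSeries.X) ^ (9 + 1) = (R : PowerSeries ℤ)) :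
    h 8 = 24310 * R.coeff 0 + 11440 * R.coeff 1 + 5005 * R.coeff 2 + 2002 * R.coeff 3 + 715 * R.coeff 4 + 220 * R.coeff 5 + 55 * R.coeff 6 + 10 * R.coeff 7 + 1 * R.coeff 8 := by
  have h1 := Pool.Agent.Q86.Gap.coeff_eq 9 h R hR 8
  simp only [sum_range_succ, sum_range_zero] at h1
  have h2 : h 8 = 0 + R.coeff 0 * ((8 + 9).choose 9 : ℕ) + R.coeff 1 * ((7 + 9).choose 9 : ℕ) + R.coeff 2 * ((6 + 9).choose 9 : ℕ) + R.coeff 3 * ((5 + 9).choose 9 : ℕ) + R.coeff 4 * ((4 + 9).choose 9 : ℕ) + R.coeff 5 * ((3 + 9).choose 9 : ℕ) + R.coeff 6 * ((2 + 9).choose 9 : ℕ) + R.coeff 7 * ((1 + 9).choose 9 : ℕ) + R.coeff 8 * ((0 + 9).choose 9 : ℕ) := h1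
  rw [ch9_8, ch9_7, ch9_6, ch9_5, ch9_4, ch9_3, ch9_2, ch9_1, ch9_0] at h2
  linarith

lemma cf9_9
    (hR : (PowerSeries.mk h : PowerSeries ℤ) * (1 - PowerSeries.X) ^ (9 + 1) = (R : PowerSeries ℤ)) :
    h 9 = 48620 * R.coeff 0 + 24310 * R.coeff 1 + 11440 * R.coeff 2 + 5005 * R.coeff 3 + 2002 * R.coeff 4 + 715 * R.coeff 5 + 220 * R.coeff 6 + 55 * R.coeff 7 + 10 * R.coeff 8 + 1 * R.coeff 9 := by
  have h1 := Pool.Agent.Q86.Gap.coeff_eq 9 h R hR 9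
  simp only [sum_range_succ, sum_range_zero] at h1
  have h2 : h 9 = 0 + R.coeff 0 * ((9 + 9).choose 9 : ℕ) + R.coeff 1 * ((8 + 9).choose 9 : ℕ) + R.coeff 2 * ((7 + 9).choose 9 : ℕ) + R.coeff 3 * ((6 + 9).choose 9 : ℕ) + R.coeff 4 * ((5 + 9).choose 9 : ℕ) + R.coeff 5 * ((4 + 9).choose 9 : ℕ) + R.coeff 6 * ((3 + 9).choose 9 : ℕ) + R.coeff 7 * ((2 + 9).choose 9 : ℕ) + R.coeff 8 * ((1 + 9).choose 9 : ℕ) + R.coeff 9 * ((0 + 9).choose 9 : ℕ) := h1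
  rw [ch9_9, ch9_8, ch9_7, ch9_6, ch9_5, ch9_4, ch9_3, ch9_2, ch9_1, ch9_0] at h2
  linarith

lemma cf9_10
    (hR : (PowerSeries.mk h : PowerSeries ℤ) * (1 - PowerSeries.X) ^ (9 + 1) = (R : PowerSeries ℤ)) :
    h 10 = 92378 * R.coeff 0 + 48620 * R.coeff 1 + 24310 * R.coeff 2 + 11440 * R.coeff 3 + 5005 * R.coeff 4 + 2002 * R.coeff 5 + 715 * R.coeff 6 + 220 * R.coeff 7 + 55 * R.coeff 8 + 10 * R.coeff 9 + 1 * R.coeff 10 := by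
  have h1 := Pool.Agent.Q86.Gap.coeff_eq 9 h R hR 10
  simp only [sum_range_succ, sum_range_zero] at h1
  have h2 : h 10 = 0 + R.coeff 0 * ((10 + 9).choose 9 : ℕ) + R.coeff 1 * ((9 + 9).choose 9 : ℕ) + R.coeff 2 * ((8 + 9).choose 9 : ℕ) + R.coeff 3 * ((7 + 9).choose 9 : ℕ) + R.coeff 4 * ((6 + 9).choose 9 : ℕ) + R.coeff 5 * ((5 + 9).choose 9 : ℕ) + R.coeff 6 * ((4 + 9).choose 9 : ℕ) + R.coeff 7 * ((3 + 9).choose 9 : ℕ) + R.coeff 8 * ((2 + 9).choose 9 : ℕ) + R.coeff 9 * ((1 + 9).choose 9 : ℕ) + R.coeff 10 * ((0 + 9).choose 9 : ℕ) := h1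
  rw [ch9_10, ch9_9, ch9_8, ch9_7, ch9_6, ch9_5, ch9_4, ch9_3, ch9_2, ch9_1, ch9_0] at h2
  linarith

lemma cf9_11
    (hR : (PowerSeries.mk h : PowerSeries ℤ) * (1 - PowerSeries.X) ^ (9 + 1) = (R : PowerSeries ℤ)) :
    h 11 = 167960 * R.coeff 0 + 92378 * R.coeff 1 + 48620 * R.coeff 2 + 24310 * R.coeff 3 + 11440 * R.coeff 4 + 5005 * R.coeff 5 + 2002 * R.coeff 6 + 715 * R.coeff 7 + 220 * R.coeff 8 + 55 * R.coeff 9 + 10 * R.coeff 10 + 1 * R.coeff 11 := by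
  have h1 := Pool.Agent.Q86.Gap.coeff_eq 9 h R hR 11
  simp only [sum_range_succ, sum_range_zero] at h1
  have h2 : h 11 = 0 + R.coeff 0 * ((11 + 9).choose 9 : ℕ) + R.coeff 1 * ((10 + 9).choose 9 : ℕ) + R.coeff 2 * ((9 + 9).choose 9 : ℕ) + R.coeff 3 * ((8 + 9).choose 9 : ℕ) + R.coeff 4 * ((7 + 9).choose 9 : ℕ) + R.coeff 5 * ((6 + 9).choose 9 : ℕ) + R.coeff 6 * ((5 + 9).choose 9 : ℕ) + R.coeff 7 * ((4 + 9).choose 9 : ℕ) + R.coeff 8 * ((3 + 9).choose 9 : ℕ) + R.coeff 9 * ((2 + 9).choose 9 : ℕ) + R.coeff 10 * ((1 + 9).choose 9 : ℕ) + R.coeff 11 * ((0 + 9).choose 9 : ℕ) := h1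
  rw [ch9_11, ch9_10, ch9_9, ch9_8, ch9_7, ch9_6, ch9_5, ch9_4, ch9_3, ch9_2, ch9_1, ch9_0] at h2
  linarith

lemma cf9_12
    (hR : (PowerSeries.mk h : PowerSeries ℤ) * (1 - PowerSeries.X) ^ (9 + 1) = (R : PowerSeries ℤ)) :
    h 12 = 293930 * R.coeff 0 + 167960 * R.coeff 1 + 92378 * R.coeff 2 + 48620 * R.coeff 3 + 24310 * R.coeff 4 + 11440 * R.coeff 5 + 5005 * R.coeff 6 + 2002 * R.coeff 7 + 715 * R.coeff 8 + 220 * R.coeff 9 + 55 * R.coeff 10 + 10 * R.coeff 11 + 1 * R.coeff 12 := by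
  have h1 := Pool.Agent.Q86.Gap.coeff_eq 9 h R hR 12
  simp only [sum_range_succ, sum_range_zero] at h1
  have h2 : h 12 = 0 + R.coeff 0 * ((12 + 9).choose 9 : ℕ) + R.coeff 1 * ((11 + 9).choose 9 : ℕ) + R.coeff 2 * ((10 + 9).choose 9 : ℕ) + R.coeff 3 * ((9 + 9).choose 9 : ℕ) + R.coeff 4 * ((8 + 9).choose 9 : ℕ) + R.coeff 5 * ((7 + 9).choose 9 : ℕ) + R.coeff 6 * ((6 + 9).choose 9 : ℕ) + R.coeff 7 * ((5 + 9).choose 9 : ℕ) + R.coeff 8 * ((4 + 9).choose 9 : ℕ) + R.coeff 9 * ((3 + 9).choose 9 : ℕ) + R.coeff 10 * ((2 + 9).choose 9 : ℕ) + R.coeff 11 * ((1 + 9).choose 9 : ℕ) + R.coeff 12 * ((0 + 9).choose 9 : ℕ) := h1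
  rw [ch9_12, ch9_11, ch9_10, ch9_9, ch9_8, ch9_7, ch9_6, ch9_5, ch9_4, ch9_3, ch9_2, ch9_1, ch9_0] at h2
  linarith

lemma cf9_13
    (hR : (PowerSeries.mk h : PowerSeries ℤ) * (1 - PowerSeries.X) ^ (9 + 1) = (R : PowerSeries ℤ)) :
    h 13 = 497420 * R.coeff 0 + 293930 * R.coeff 1 + 167960 * R.coeff 2 + 92378 * R.coeff 3 + 48620 * R.coeff 4 + 24310 * R.coeff 5 + 11440 * R.coeff 6 + 5005 * R.coeff 7 + 2002 * R.coeff 8 + 715 * R.coeff 9 + 220 * R.coeff 10 + 55 * R.coeff 11 + 10 * R.coeff 12 + 1 * R.coeff 13 := by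
  have h1 := Pool.Agent.Q86.Gap.coeff_eq 9 h R hR 13
  simp only [sum_range_succ, sum_range_zero] at h1
  have h2 : h 13 = 0 + R.coeff 0 * ((13 + 9).choose 9 : ℕ) + R.coeff 1 * ((12 + 9).choose 9 : ℕ) + R.coeff 2 * ((11 + 9).choose 9 : ℕ) + R.coeff 3 * ((10 + 9).choose 9 : ℕ) + R.coeff 4 * ((9 + 9).choose 9 : ℕ) + R.coeff 5 * ((8 + 9).choose 9 : ℕ) + R.coeff 6 * ((7 + 9).choose 9 : ℕ) + R.coeff 7 * ((6 + 9).choose 9 : ℕ) + R.coeff 8 * ((5 + 9).choose 9 : ℕ) + R.coeff 9 * ((4 + 9).choose 9 : ℕ) + R.coeff 10 * ((3 + 9).choose 9 : ℕ) + R.coeff 11 * ((2 + 9).choose 9 : ℕ) + R.coeff 12 * ((1 + 9).choose 9 : ℕ) + R.coeff 13 * ((0 + 9).choose 9 : ℕ) := h1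
  rw [ch9_13, ch9_12, ch9_11, ch9_10, ch9_9, ch9_8, ch9_7, ch9_6, ch9_5, ch9_4, ch9_3, ch9_2, ch9_1, ch9_0] at h2
  linarith

lemma cf10_2
    (hR : (PowerSeries.mk h : PowerSeries ℤ) * (1 - PowerSeries.X) ^ (10 + 1) = (R : PowerSeries ℤ)) :
    h 2 = 66 * R.coeff 0 + 11 * R.coeff 1 + 1 * R.coeff 2 := by
  have h1 := Pool.Agent.Q86.Gap.coeff_eq 10 h R hR 2
  simp only [sum_range_succ, sum_range_zero] at h1
  have h2 : h 2 = 0 + R.coeff 0 * ((2 + 10).choose 10 : ℕ) + R.coeff 1 * ((1 + 10).choose 10 : ℕ) + R.coeff 2 * ((0 + 10).choose 10 : ℕ) := h1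
  rw [ch10_2, ch10_1, ch10_0] at h2
  linarith

lemma cf10_3
    (hR : (PowerSeries.mk h : PowerSeries ℤ) * (1 - PowerSeries.X) ^ (10 + 1) = (R : PowerSeries ℤ)) :
    h 3 = 286 * R.coeff 0 + 66 * R.coeff 1 + 11 * R.coeff 2 + 1 * R.coeff 3 := by
  have h1 := Pool.Agent.Q86.Gap.coeff_eq 10 h R hR 3
  simp only [sum_range_succ, sum_range_zero] at h1
  have h2 : h 3 = 0 + R.coeff 0 * ((3 + 10).choose 10 : ℕ) + R.coeff 1 * ((2 + 10).choose 10 : ℕ) + R.coeff 2 * ((1 + 10).choose 10 : ℕ) + R.coeff 3 * ((0 + 10).choose 10 : ℕ) := h1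
  rw [ch10_3, ch10_2, ch10_1, ch10_0] at h2
  linarith

lemma cf10_4
    (hR : (PowerSeries.mk h : PowerSeries ℤ) * (1 - PowerSeries.X) ^ (10 + 1) = (R : PowerSeries ℤ)) :
    h 4 = 1001 * R.coeff 0 + 286 * R.coeff 1 + 66 * R.coeff 2 + 11 * R.coeff 3 + 1 * R.coeff 4 := by
  have h1 := Pool.Agent.Q86.Gap.coeff_eq 10 h R hR 4
  simp only [sum_range_succ, sum_range_zero] at h1
  have h2 : h 4 = 0 + R.coeff 0 * ((4 + 10).choose 10 : ℕ) + R.coeff 1 * ((3 + 10).choose 10 : ℕ) + R.coeff 2 * ((2 + 10).choose 10 : ℕ) + R.coeff 3 * ((1 + 10).choose 10 : ℕ) + R.coeff 4 * ((0 + 10).choose 10 : ℕ) := h1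
  rw [ch10_4, ch10_3, ch10_2, ch10_1, ch10_0] at h2
  linarith

lemma cf10_5
    (hR : (PowerSeries.mk h : PowerSeries ℤ) * (1 - PowerSeries.X) ^ (10 + 1) = (R : PowerSeries ℤ)) :
    h 5 = 3003 * R.coeff 0 + 1001 * R.coeff 1 + 286 * R.coeff 2 + 66 * R.coeff 3 + 11 * R.coeff 4 + 1 * R.coeff 5 := by
  have h1 := Pool.Agent.Q86.Gap.coeff_eq 10 h R hR 5
  simp only [sum_range_succ, sum_range_zero] at h1
  have h2 : h 5 = 0 + R.coeff 0 * ((5 + 10).choose 10 : ℕ) + R.coeff 1 * ((4 + 10).choose 10 : ℕ) + R.coeff 2 * ((3 + 10).choose 10 : ℕ) + R.coeff 3 * ((2 + 10).choose 10 : ℕ) + R.coeff 4 * ((1 + 10).choose 10 : ℕ) + R.coeff 5 * ((0 + 10).choose 10 : ℕ) := h1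
  rw [ch10_5, ch10_4, ch10_3, ch10_2, ch10_1, ch10_0] at h2
  linarith

lemma cf10_6
    (hR : (PowerSeries.mk h : PowerSeries ℤ) * (1 - PowerSeries.X) ^ (10 + 1) = (R : PowerSeries ℤ)) :
    h 6 = 8008 * R.coeff 0 + 3003 * R.coeff 1 + 1001 * R.coeff 2 + 286 * R.coeff 3 + 66 * R.coeff 4 + 11 * R.coeff 5 + 1 * R.coeff 6 := by
  have h1 := Pool.Agent.Q86.Gap.coeff_eq 10 h R hR 6
  simp only [sum_range_succ, sum_range_zero] at h1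
  have h2 : h 6 = 0 + R.coeff 0 * ((6 + 10).choose 10 : ℕ) + R.coeff 1 * ((5 + 10).choose 10 : ℕ) + R.coeff 2 * ((4 + 10).choose 10 : ℕ) + R.coeff 3 * ((3 + 10).choose 10 : ℕ) + R.coeff 4 * ((2 + 10).choose 10 : ℕ) + R.coeff 5 * ((1 + 10).choose 10 : ℕ) + R.coeff 6 * ((0 + 10).choose 10 : ℕ) := h1
  rw [ch10_6, ch10_5, ch10_4, ch10_3, ch10_2, ch10_1, ch10_0] at h2
  linarith

lemma cf10_7
    (hR : (PowerSeries.mk h : PowerSeries ℤ) * (1 - PowerSeries.X) ^ (10 + 1) = (R : PowerSeries ℤ)) :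
    h 7 = 19448 * R.coeff 0 + 8008 * R.coeff 1 + 3003 * R.coeff 2 + 1001 * R.coeff 3 + 286 * R.coeff 4 + 66 * R.coeff 5 + 11 * R.coeff 6 + 1 * R.coeff 7 := by
  have h1 := Pool.Agent.Q86.Gap.coeff_eq 10 h R hR 7
  simp only [sum_range_succ, sum_range_zero] at h1
  have h2 : h 7 = 0 + R.coeff 0 * ((7 + 10).choose 10 : ℕ) + R.coeff 1 * ((6 + 10).choose 10 : ℕ) + R.coeff 2 * ((5 + 10).choose 10 : ℕ) + R.coeff 3 * ((4 + 10).choose 10 : ℕ) + R.coeff 4 * ((3 + 10).choose 10 : ℕ) + R.coeff 5 * ((2 + 10).choose 10 : ℕ) + R.coeff 6 * ((1 + 10).choose 10 : ℕ) + R.coeff 7 * ((0 + 10).choose 10 : ℕ) := h1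
  rw [ch10_7, ch10_6, ch10_5, ch10_4, ch10_3, ch10_2, ch10_1, ch10_0] at h2
  linarith

lemma cf10_8
    (hR : (PowerSeries.mk h : PowerSeries ℤ) * (1 - PowerSeries.X) ^ (10 + 1) = (R : PowerSeries ℤ)) :
    h 8 = 43758 * R.coeff 0 + 19448 * R.coeff 1 + 8008 * R.coeff 2 + 3003 * R.coeff 3 + 1001 * R.coeff 4 + 286 * R.coeff 5 + 66 * R.coeff 6 + 11 * R.coeff 7 + 1 * R.coeff 8 := by
  have h1 := Pool.Agent.Q86.Gap.coeff_eq 10 h R hR 8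
  simp only [sum_range_succ, sum_range_zero] at h1
  have h2 : h 8 = 0 + R.coeff 0 * ((8 + 10).choose 10 : ℕ) + R.coeff 1 * ((7 + 10).choose 10 : ℕ) + R.coeff 2 * ((6 + 10).choose 10 : ℕ) + R.coeff 3 * ((5 + 10).choose 10 : ℕ) + R.coeff 4 * ((4 + 10).choose 10 : ℕ) + R.coeff 5 * ((3 + 10).choose 10 : ℕ) + R.coeff 6 * ((2 + 10).choose 10 : ℕ) + R.coeff 7 * ((1 + 10).choose 10 : ℕ) + R.coeff 8 * ((0 + 10).choose 10 : ℕ) := h1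
  rw [ch10_8, ch10_7, ch10_6, ch10_5, ch10_4, ch10_3, ch10_2, ch10_1, ch10_0] at h2
  linarith

lemma cf10_9
    (hR : (PowerSeries.mk h : PowerSeries ℤ) * (1 - PowerSeries.X) ^ (10 + 1) = (R : PowerSeries ℤ)) :
    h 9 = 92378 * R.coeff 0 + 43758 * R.coeff 1 + 19448 * R.coeff 2 + 8008 * R.coeff 3 + 3003 * R.coeff 4 + 1001 * R.coeff 5 + 286 * R.coeff 6 + 66 * R.coeff 7 + 11 * R.coeff 8 + 1 * R.coeff 9 := by
  have h1 := Pool.Agent.Q86.Gap.coeff_eq 10 h R hR 9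
  simp only [sum_range_succ, sum_range_zero] at h1
  have h2 : h 9 = 0 + R.coeff 0 * ((9 + 10).choose 10 : ℕ) + R.coeff 1 * ((8 + 10).choose 10 : ℕ) + R.coeff 2 * ((7 + 10).choose 10 : ℕ) + R.coeff 3 * ((6 + 10).choose 10 : ℕ) + R.coeff 4 * ((5 + 10).choose 10 : ℕ) + R.coeff 5 * ((4 + 10).choose 10 : ℕ) + R.coeff 6 * ((3 + 10).choose 10 : ℕ) + R.coeff 7 * ((2 + 10).choose 10 : ℕ) + R.coeff 8 * ((1 + 10).choose 10 : ℕ) + R.coeff 9 * ((0 + 10).choose 10 : ℕ) := h1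
  rw [ch10_9, ch10_8, ch10_7, ch10_6, ch10_5, ch10_4, ch10_3, ch10_2, ch10_1, ch10_0] at h2
  linarith

lemma cf10_10
    (hR : (PowerSeries.mk h : PowerSeries ℤ) * (1 - PowerSeries.X) ^ (10 + 1) = (R : PowerSeries ℤ)) :
    h 10 = 184756 * R.coeff 0 + 92378 * R.coeff 1 + 43758 * R.coeff 2 + 19448 * R.coeff 3 + 8008 * R.coeff 4 + 3003 * R.coeff 5 + 1001 * R.coeff 6 + 286 * R.coeff 7 + 66 * R.coeff 8 + 11 * R.coeff 9 + 1 * R.coeff 10 := by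
  have h1 := Pool.Agent.Q86.Gap.coeff_eq 10 h R hR 10
  simp only [sum_range_succ, sum_range_zero] at h1
  have h2 : h 10 = 0 + R.coeff 0 * ((10 + 10).choose 10 : ℕ) + R.coeff 1 * ((9 + 10).choose 10 : ℕ) + R.coeff 2 * ((8 + 10).choose 10 : ℕ) + R.coeff 3 * ((7 + 10).choose 10 : ℕ) + R.coeff 4 * ((6 + 10).choose 10 : ℕ) + R.coeff 5 * ((5 + 10).choose 10 : ℕ) + R.coeff 6 * ((4 + 10).choose 10 : ℕ) + R.coeff 7 * ((3 + 10).choose 10 : ℕ) + R.coeff 8 * ((2 + 10).choose 10 : ℕ) + R.coeff 9 * ((1 + 10).choose 10 : ℕ) + R.coeff 10 * ((0 + 10).choose 10 : ℕ) := h1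
  rw [ch10_10, ch10_9, ch10_8, ch10_7, ch10_6, ch10_5, ch10_4, ch10_3, ch10_2, ch10_1, ch10_0] at h2
  linarith

lemma cf10_11
    (hR : (PowerSeries.mk h : PowerSeries ℤ) * (1 - PowerSeries.X) ^ (10 + 1) = (R : PowerSeries ℤ)) :
    h 11 = 352716 * R.coeff 0 + 184756 * R.coeff 1 + 92378 * R.coeff 2 + 43758 * R.coeff 3 + 19448 * R.coeff 4 + 8008 * R.coeff 5 + 3003 * R.coeff 6 + 1001 * R.coeff 7 + 286 * R.coeff 8 + 66 * R.coeff 9 + 11 * R.coeff 10 + 1 * R.coeff 11 := by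
  have h1 := Pool.Agent.Q86.Gap.coeff_eq 10 h R hR 11
  simp only [sum_range_succ, sum_range_zero] at h1
  have h2 : h 11 = 0 + R.coeff 0 * ((11 + 10).choose 10 : ℕ) + R.coeff 1 * ((10 + 10).choose 10 : ℕ) + R.coeff 2 * ((9 + 10).choose 10 : ℕ) + R.coeff 3 * ((8 + 10).choose 10 : ℕ) + R.coeff 4 * ((7 + 10).choose 10 : ℕ) + R.coeff 5 * ((6 + 10).choose 10 : ℕ) + R.coeff 6 * ((5 + 10).choose 10 : ℕ) + R.coeff 7 * ((4 + 10).choose 10 : ℕ) + R.coeff 8 * ((3 + 10).choose 10 : ℕ) + R.coeff 9 * ((2 + 10).choose 10 : ℕ) + R.coeff 10 * ((1 + 10).choose 10 : ℕ) + R.coeff 11 * ((0 + 10).choose 10 : ℕ) := h1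
  rw [ch10_11, ch10_10, ch10_9, ch10_8, ch10_7, ch10_6, ch10_5, ch10_4, ch10_3, ch10_2, ch10_1, ch10_0] at h2
  linarith

lemma cf10_12
    (hR : (PowerSeries.mk h : PowerSeries ℤ) * (1 - PowerSeries.X) ^ (10 + 1) = (R : PowerSeries ℤ)) :
    h 12 = 646646 * R.coeff 0 + 352716 * R.coeff 1 + 184756 * R.coeff 2 + 92378 * R.coeff 3 + 43758 * R.coeff 4 + 19448 * R.coeff 5 + 8008 * R.coeff 6 + 3003 * R.coeff 7 + 1001 * R.coeff 8 + 286 * R.coeff 9 + 66 * R.coeff 10 + 11 * R.coeff 11 + 1 * R.coeff 12 := by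
  have h1 := Pool.Agent.Q86.Gap.coeff_eq 10 h R hR 12
  simp only [sum_range_succ, sum_range_zero] at h1
  have h2 : h 12 = 0 + R.coeff 0 * ((12 + 10).choose 10 : ℕ) + R.coeff 1 * ((11 + 10).choose 10 : ℕ) + R.coeff 2 * ((10 + 10).choose 10 : ℕ) + R.coeff 3 * ((9 + 10).choose 10 : ℕ) + R.coeff 4 * ((8 + 10).choose 10 : ℕ) + R.coeff 5 * ((7 + 10).choose 10 : ℕ) + R.coeff 6 * ((6 + 10).choose 10 : ℕ) + R.coeff 7 * ((5 + 10).choose 10 : ℕ) + R.coeff 8 * ((4 + 10).choose 10 : ℕ) + R.coeff 9 * ((3 + 10).choose 10 : ℕ) + R.coeff 10 * ((2 + 10).choose 10 : ℕ) + R.coeff 11 * ((1 + 10).choose 10 : ℕ) + R.coeff 12 * ((0 + 10).choose 10 : ℕ) := h1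
  rw [ch10_12, ch10_11, ch10_10, ch10_9, ch10_8, ch10_7, ch10_6, ch10_5, ch10_4, ch10_3, ch10_2, ch10_1, ch10_0] at h2
  linarith

lemma cf10_13
    (hR : (PowerSeries.mk h : PowerSeries ℤ) * (1 - PowerSeries.X) ^ (10 + 1) = (R : PowerSeries ℤ)) :
    h 13 = 1144066 * R.coeff 0 + 646646 * R.coeff 1 + 352716 * R.coeff 2 + 184756 * R.coeff 3 + 92378 * R.coeff 4 + 43758 * R.coeff 5 + 19448 * R.coeff 6 + 8008 * R.coeff 7 + 3003 * R.coeff 8 + 1001 * R.coeff 9 + 286 * R.coeff 10 + 66 * R.coeff 11 + 11 * R.coeff 12 + 1 * R.coeff 13 := by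
  have h1 := Pool.Agent.Q86.Gap.coeff_eq 10 h R hR 13
  simp only [sum_range_succ, sum_range_zero] at h1
  have h2 : h 13 = 0 + R.coeff 0 * ((13 + 10).choose 10 : ℕ) + R.coeff 1 * ((12 + 10).choose 10 : ℕ) + R.coeff 2 * ((11 + 10).choose 10 : ℕ) + R.coeff 3 * ((10 + 10).choose 10 : ℕ) + R.coeff 4 * ((9 + 10).choose 10 : ℕ) + R.coeff 5 * ((8 + 10).choose 10 : ℕ) + R.coeff 6 * ((7 + 10).choose 10 : ℕ) + R.coeff 7 * ((6 + 10).choose 10 : ℕ) + R.coeff 8 * ((5 + 10).choose 10 : ℕ) + R.coeff 9 * ((4 + 10).choose 10 : ℕ) + R.coeff 10 * ((3 + 10).choose 10 : ℕ) + R.coeff 11 * ((2 + 10).choose 10 : ℕ) + R.coeff 12 * ((1 + 10).choose 10 : ℕ) + R.coeff 13 * ((0 + 10).choose 10 : ℕ) := h1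
  rw [ch10_13, ch10_12, ch10_11, ch10_10, ch10_9, ch10_8, ch10_7, ch10_6, ch10_5, ch10_4, ch10_3, ch10_2, ch10_1, ch10_0] at h2
  linarith

lemma cf11_2
    (hR : (PowerSeries.mk h : PowerSeries ℤ) * (1 - PowerSeries.X) ^ (11 + 1) = (R : PowerSeries ℤ)) :
    h 2 = 78 * R.coeff 0 + 12 * R.coeff 1 + 1 * R.coeff 2 := by
  have h1 := Pool.Agent.Q86.Gap.coeff_eq 11 h R hR 2
  simp only [sum_range_succ, sum_range_zero] at h1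
  have h2 : h 2 = 0 + R.coeff 0 * ((2 + 11).choose 11 : ℕ) + R.coeff 1 * ((1 + 11).choose 11 : ℕ) + R.coeff 2 * ((0 + 11).choose 11 : ℕ) := h1
  rw [ch11_2, ch11_1, ch11_0] at h2
  linarith

lemma cf11_3
    (hR : (PowerSeries.mk h : PowerSeries ℤ) * (1 - PowerSeries.X) ^ (11 + 1) = (R : PowerSeries ℤ)) :
    h 3 = 364 * R.coeff 0 + 78 * R.coeff 1 + 12 * R.coeff 2 + 1 * R.coeff 3 := by
  have h1 := Pool.Agent.Q86.Gap.coeff_eq 11 h R hR 3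
  simp only [sum_range_succ, sum_range_zero] at h1
  have h2 : h 3 = 0 + R.coeff 0 * ((3 + 11).choose 11 : ℕ) + R.coeff 1 * ((2 + 11).choose 11 : ℕ) + R.coeff 2 * ((1 + 11).choose 11 : ℕ) + R.coeff 3 * ((0 + 11).choose 11 : ℕ) := h1
  rw [ch11_3, ch11_2, ch11_1, ch11_0] at h2
  linarith

lemma cf11_4
    (hR : (PowerSeries.mk h : PowerSeries ℤ) * (1 - PowerSeries.X) ^ (11 + 1) = (R : PowerSeries ℤ)) :
    h 4 = 1365 * R.coeff 0 + 364 * R.coeff 1 + 78 * R.coeff 2 + 12 * R.coeff 3 + 1 * R.coeff 4 := by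
  have h1 := Pool.Agent.Q86.Gap.coeff_eq 11 h R hR 4
  simp only [sum_range_succ, sum_range_zero] at h1
  have h2 : h 4 = 0 + R.coeff 0 * ((4 + 11).choose 11 : ℕ) + R.coeff 1 * ((3 + 11).choose 11 : ℕ) + R.coeff 2 * ((2 + 11).choose 11 : ℕ) + R.coeff 3 * ((1 + 11).choose 11 : ℕ) + R.coeff 4 * ((0 + 11).choose 11 : ℕ) := h1
  rw [ch11_4, ch11_3, ch11_2, ch11_1, ch11_0] at h2
  linarith

lemma cf11_5
    (hR : (PowerSeries.mk h : PowerSeries ℤ) * (1 - PowerSeries.X) ^ (11 + 1) = (R : PowerSeries ℤ)) :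
    h 5 = 4368 * R.coeff 0 + 1365 * R.coeff 1 + 364 * R.coeff 2 + 78 * R.coeff 3 + 12 * R.coeff 4 + 1 * R.coeff 5 := by
  have h1 := Pool.Agent.Q86.Gap.coeff_eq 11 h R hR 5
  simp only [sum_range_succ, sum_range_zero] at h1
  have h2 : h 5 = 0 + R.coeff 0 * ((5 + 11).choose 11 : ℕ) + R.coeff 1 * ((4 + 11).choose 11 : ℕ) + R.coeff 2 * ((3 + 11).choose 11 : ℕ) + R.coeff 3 * ((2 + 11).choose 11 : ℕ) + R.coeff 4 * ((1 + 11).choose 11 : ℕ) + R.coeff 5 * ((0 + 11).choose 11 : ℕ) := h1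
  rw [ch11_5, ch11_4, ch11_3, ch11_2, ch11_1, ch11_0] at h2
  linarith

lemma cf11_6
    (hR : (PowerSeries.mk h : PowerSeries ℤ) * (1 - PowerSeries.X) ^ (11 + 1) = (R : PowerSeries ℤ)) :
    h 6 = 12376 * R.coeff 0 + 4368 * R.coeff 1 + 1365 * R.coeff 2 + 364 * R.coeff 3 + 78 * R.coeff 4 + 12 * R.coeff 5 + 1 * R.coeff 6 := by
  have h1 := Pool.Agent.Q86.Gap.coeff_eq 11 h R hR 6
  simp only [sum_range_succ, sum_range_zero] at h1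
  have h2 : h 6 = 0 + R.coeff 0 * ((6 + 11).choose 11 : ℕ) + R.coeff 1 * ((5 + 11).choose 11 : ℕ) + R.coeff 2 * ((4 + 11).choose 11 : ℕ) + R.coeff 3 * ((3 + 11).choose 11 : ℕ) + R.coeff 4 * ((2 + 11).choose 11 : ℕ) + R.coeff 5 * ((1 + 11).choose 11 : ℕ) + R.coeff 6 * ((0 + 11).choose 11 : ℕ) := h1
  rw [ch11_6, ch11_5, ch11_4, ch11_3, ch11_2, ch11_1, ch11_0] at h2
  linarith

lemma cf11_7
    (hR : (PowerSeries.mk h : PowerSeries ℤ) * (1 - PowerSeries.X) ^ (11 + 1) = (R : PowerSeries ℤ)) :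
    h 7 = 31824 * R.coeff 0 + 12376 * R.coeff 1 + 4368 * R.coeff 2 + 1365 * R.coeff 3 + 364 * R.coeff 4 + 78 * R.coeff 5 + 12 * R.coeff 6 + 1 * R.coeff 7 := by
  have h1 := Pool.Agent.Q86.Gap.coeff_eq 11 h R hR 7
  simp only [sum_range_succ, sum_range_zero] at h1
  have h2 : h 7 = 0 + R.coeff 0 * ((7 + 11).choose 11 : ℕ) + R.coeff 1 * ((6 + 11).choose 11 : ℕ) + R.coeff 2 * ((5 + 11).choose 11 : ℕ) + R.coeff 3 * ((4 + 11).choose 11 : ℕ) + R.coeff 4 * ((3 + 11).choose 11 : ℕ) + R.coeff 5 * ((2 + 11).choose 11 : ℕ) + R.coeff 6 * ((1 + 11).choose 11 : ℕ) + R.coeff 7 * ((0 + 11).choose 11 : ℕ) := h1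
  rw [ch11_7, ch11_6, ch11_5, ch11_4, ch11_3, ch11_2, ch11_1, ch11_0] at h2
  linarith

lemma cf11_8
    (hR : (PowerSeries.mk h : PowerSeries ℤ) * (1 - PowerSeries.X) ^ (11 + 1) = (R : PowerSeries ℤ)) :
    h 8 = 75582 * R.coeff 0 + 31824 * R.coeff 1 + 12376 * R.coeff 2 + 4368 * R.coeff 3 + 1365 * R.coeff 4 + 364 * R.coeff 5 + 78 * R.coeff 6 + 12 * R.coeff 7 + 1 * R.coeff 8 := by
  have h1 := Pool.Agent.Q86.Gap.coeff_eq 11 h R hR 8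
  simp only [sum_range_succ, sum_range_zero] at h1
  have h2 : h 8 = 0 + R.coeff 0 * ((8 + 11).choose 11 : ℕ) + R.coeff 1 * ((7 + 11).choose 11 : ℕ) + R.coeff 2 * ((6 + 11).choose 11 : ℕ) + R.coeff 3 * ((5 + 11).choose 11 : ℕ) + R.coeff 4 * ((4 + 11).choose 11 : ℕ) + R.coeff 5 * ((3 + 11).choose 11 : ℕ) + R.coeff 6 * ((2 + 11).choose 11 : ℕ) + R.coeff 7 * ((1 + 11).choose 11 : ℕ) + R.coeff 8 * ((0 + 11).choose 11 : ℕ) := h1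
  rw [ch11_8, ch11_7, ch11_6, ch11_5, ch11_4, ch11_3, ch11_2, ch11_1, ch11_0] at h2
  linarith

lemma cf11_9
    (hR : (PowerSeries.mk h : PowerSeries ℤ) * (1 - PowerSeries.X) ^ (11 + 1) = (R : PowerSeries ℤ)) :
    h 9 = 167960 * R.coeff 0 + 75582 * R.coeff 1 + 31824 * R.coeff 2 + 12376 * R.coeff 3 + 4368 * R.coeff 4 + 1365 * R.coeff 5 + 364 * R.coeff 6 + 78 * R.coeff 7 + 12 * R.coeff 8 + 1 * R.coeff 9 := by
  have h1 := Pool.Agent.Q86.Gap.coeff_eq 11 h R hR 9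
  simp only [sum_range_succ, sum_range_zero] at h1
  have h2 : h 9 = 0 + R.coeff 0 * ((9 + 11).choose 11 : ℕ) + R.coeff 1 * ((8 + 11).choose 11 : ℕ) + R.coeff 2 * ((7 + 11).choose 11 : ℕ) + R.coeff 3 * ((6 + 11).choose 11 : ℕ) + R.coeff 4 * ((5 + 11).choose 11 : ℕ) + R.coeff 5 * ((4 + 11).choose 11 : ℕ) + R.coeff 6 * ((3 + 11).choose 11 : ℕ) + R.coeff 7 * ((2 + 11).choose 11 : ℕ) + R.coeff 8 * ((1 + 11).choose 11 : ℕ) + R.coeff 9 * ((0 + 11).choose 11 : ℕ) := h1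
  rw [ch11_9, ch11_8, ch11_7, ch11_6, ch11_5, ch11_4, ch11_3, ch11_2, ch11_1, ch11_0] at h2
  linarith

lemma cf11_10
    (hR : (PowerSeries.mk h : PowerSeries ℤ) * (1 - PowerSeries.X) ^ (11 + 1) = (R : PowerSeries ℤ)) :
    h 10 = 352716 * R.coeff 0 + 167960 * R.coeff 1 + 75582 * R.coeff 2 + 31824 * R.coeff 3 + 12376 * R.coeff 4 + 4368 * R.coeff 5 + 1365 * R.coeff 6 + 364 * R.coeff 7 + 78 * R.coeff 8 + 12 * R.coeff 9 + 1 * R.coeff 10 := by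
  have h1 := Pool.Agent.Q86.Gap.coeff_eq 11 h R hR 10
  simp only [sum_range_succ, sum_range_zero] at h1
  have h2 : h 10 = 0 + R.coeff 0 * ((10 + 11).choose 11 : ℕ) + R.coeff 1 * ((9 + 11).choose 11 : ℕ) + R.coeff 2 * ((8 + 11).choose 11 : ℕ) + R.coeff 3 * ((7 + 11).choose 11 : ℕ) + R.coeff 4 * ((6 + 11).choose 11 : ℕ) + R.coeff 5 * ((5 + 11).choose 11 : ℕ) + R.coeff 6 * ((4 + 11).choose 11 : ℕ) + R.coeff 7 * ((3 + 11).choose 11 : ℕ) + R.coeff 8 * ((2 + 11).choose 11 : ℕ) + R.coeff 9 * ((1 + 11).choose 11 : ℕ) + R.coeff 10 * ((0 + 11).choose 11 : ℕ) := h1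
  rw [ch11_10, ch11_9, ch11_8, ch11_7, ch11_6, ch11_5, ch11_4, ch11_3, ch11_2, ch11_1, ch11_0] at h2
  linarith

lemma cf11_11
    (hR : (PowerSeries.mk h : PowerSeries ℤ) * (1 - PowerSeries.X) ^ (11 + 1) = (R : PowerSeries ℤ)) :
    h 11 = 705432 * R.coeff 0 + 352716 * R.coeff 1 + 167960 * R.coeff 2 + 75582 * R.coeff 3 + 31824 * R.coeff 4 + 12376 * R.coeff 5 + 4368 * R.coeff 6 + 1365 * R.coeff 7 + 364 * R.coeff 8 + 78 * R.coeff 9 + 12 * R.coeff 10 + 1 * R.coeff 11 := by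
  have h1 := Pool.Agent.Q86.Gap.coeff_eq 11 h R hR 11
  simp only [sum_range_succ, sum_range_zero] at h1
  have h2 : h 11 = 0 + R.coeff 0 * ((11 + 11).choose 11 : ℕ) + R.coeff 1 * ((10 + 11).choose 11 : ℕ) + R.coeff 2 * ((9 + 11).choose 11 : ℕ) + R.coeff 3 * ((8 + 11).choose 11 : ℕ) + R.coeff 4 * ((7 + 11).choose 11 : ℕ) + R.coeff 5 * ((6 + 11).choose 11 : ℕ) + R.coeff 6 * ((5 + 11).choose 11 : ℕ) + R.coeff 7 * ((4 + 11).choose 11 : ℕ) + R.coeff 8 * ((3 + 11).choose 11 : ℕ) + R.coeff 9 * ((2 + 11).choose 11 : ℕ) + R.coeff 10 * ((1 + 11).choose 11 : ℕ) + R.coeff 11 * ((0 + 11).choose 11 : ℕ) := h1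
  rw [ch11_11, ch11_10, ch11_9, ch11_8, ch11_7, ch11_6, ch11_5, ch11_4, ch11_3, ch11_2, ch11_1, ch11_0] at h2
  linarith

lemma cf11_12
    (hR : (PowerSeries.mk h : PowerSeries ℤ) * (1 - PowerSeries.X) ^ (11 + 1) = (R : PowerSeries ℤ)) :
    h 12 = 1352078 * R.coeff 0 + 705432 * R.coeff 1 + 352716 * R.coeff 2 + 167960 * R.coeff 3 + 75582 * R.coeff 4 + 31824 * R.coeff 5 + 12376 * R.coeff 6 + 4368 * R.coeff 7 + 1365 * R.coeff 8 + 364 * R.coeff 9 + 78 * R.coeff 10 + 12 * R.coeff 11 + 1 * R.coeff 12 := by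
  have h1 := Pool.Agent.Q86.Gap.coeff_eq 11 h R hR 12
  simp only [sum_range_succ, sum_range_zero] at h1
  have h2 : h 12 = 0 + R.coeff 0 * ((12 + 11).choose 11 : ℕ) + R.coeff 1 * ((11 + 11).choose 11 : ℕ) + R.coeff 2 * ((10 + 11).choose 11 : ℕ) + R.coeff 3 * ((9 + 11).choose 11 : ℕ) + R.coeff 4 * ((8 + 11).choose 11 : ℕ) + R.coeff 5 * ((7 + 11).choose 11 : ℕ) + R.coeff 6 * ((6 + 11).choose 11 : ℕ) + R.coeff 7 * ((5 + 11).choose 11 : ℕ) + R.coeff 8 * ((4 + 11).choose 11 : ℕ) + R.coeff 9 * ((3 + 11).choose 11 : ℕ) + R.coeff 10 * ((2 + 11).choose 11 : ℕ) + R.coeff 11 * ((1 + 11).choose 11 : ℕ) + R.coeff 12 * ((0 + 11).choose 11 : ℕ) := h1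
  rw [ch11_12, ch11_11, ch11_10, ch11_9, ch11_8, ch11_7, ch11_6, ch11_5, ch11_4, ch11_3, ch11_2, ch11_1, ch11_0] at h2
  linarith

lemma cf11_13
    (hR : (PowerSeries.mk h : PowerSeries ℤ) * (1 - PowerSeries.X) ^ (11 + 1) = (R : PowerSeries ℤ)) :
    h 13 = 2496144 * R.coeff 0 + 1352078 * R.coeff 1 + 705432 * R.coeff 2 + 352716 * R.coeff 3 + 167960 * R.coeff 4 + 75582 * R.coeff 5 + 31824 * R.coeff 6 + 12376 * R.coeff 7 + 4368 * R.coeff 8 + 1365 * R.coeff 9 + 364 * R.coeff 10 + 78 * R.coeff 11 + 12 * R.coeff 12 + 1 * R.coeff 13 := by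
  have h1 := Pool.Agent.Q86.Gap.coeff_eq 11 h R hR 13
  simp only [sum_range_succ, sum_range_zero] at h1
  have h2 : h 13 = 0 + R.coeff 0 * ((13 + 11).choose 11 : ℕ) + R.coeff 1 * ((12 + 11).choose 11 : ℕ) + R.coeff 2 * ((11 + 11).choose 11 : ℕ) + R.coeff 3 * ((10 + 11).choose 11 : ℕ) + R.coeff 4 * ((9 + 11).choose 11 : ℕ) + R.coeff 5 * ((8 + 11).choose 11 : ℕ) + R.coeff 6 * ((7 + 11).choose 11 : ℕ) + R.coeff 7 * ((6 + 11).choose 11 : ℕ) + R.coeff 8 * ((5 + 11).choose 11 : ℕ) + R.coeff 9 * ((4 + 11).choose 11 : ℕ) + R.coeff 10 * ((3 + 11).choose 11 : ℕ) + R.coeff 11 * ((2 + 11).choose 11 : ℕ) + R.coeff 12 * ((1 + 11).choose 11 : ℕ) + R.coeff 13 * ((0 + 11).choose 11 : ℕ) := h1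
  rw [ch11_13, ch11_12, ch11_11, ch11_10, ch11_9, ch11_8, ch11_7, ch11_6, ch11_5, ch11_4, ch11_3, ch11_2, ch11_1, ch11_0] at h2
  linarith

lemma cf12_2
    (hR : (PowerSeries.mk h : PowerSeries ℤ) * (1 - PowerSeries.X) ^ (12 + 1) = (R : PowerSeries ℤ)) :
    h 2 = 91 * R.coeff 0 + 13 * R.coeff 1 + 1 * R.coeff 2 := by
  have h1 := Pool.Agent.Q86.Gap.coeff_eq 12 h R hR 2
  simp only [sum_range_succ, sum_range_zero] at h1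
  have h2 : h 2 = 0 + R.coeff 0 * ((2 + 12).choose 12 : ℕ) + R.coeff 1 * ((1 + 12).choose 12 : ℕ) + R.coeff 2 * ((0 + 12).choose 12 : ℕ) := h1
  rw [ch12_2, ch12_1, ch12_0] at h2
  linarith

lemma cf12_3
    (hR : (PowerSeries.mk h : PowerSeries ℤ) * (1 - PowerSeries.X) ^ (12 + 1) = (R : PowerSeries ℤ)) :
    h 3 = 455 * R.coeff 0 + 91 * R.coeff 1 + 13 * R.coeff 2 + 1 * R.coeff 3 := by
  have h1 := Pool.Agent.Q86.Gap.coeff_eq 12 h R hR 3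
  simp only [sum_range_succ, sum_range_zero] at h1
  have h2 : h 3 = 0 + R.coeff 0 * ((3 + 12).choose 12 : ℕ) + R.coeff 1 * ((2 + 12).choose 12 : ℕ) + R.coeff 2 * ((1 + 12).choose 12 : ℕ) + R.coeff 3 * ((0 + 12).choose 12 : ℕ) := h1
  rw [ch12_3, ch12_2, ch12_1, ch12_0] at h2
  linarith

lemma cf12_4
    (hR : (PowerSeries.mk h : PowerSeries ℤ) * (1 - PowerSeries.X) ^ (12 + 1) = (R : PowerSeries ℤ)) :
    h 4 = 1820 * R.coeff 0 + 455 * R.coeff 1 + 91 * R.coeff 2 + 13 * R.coeff 3 + 1 * R.coeff 4 := by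
  have h1 := Pool.Agent.Q86.Gap.coeff_eq 12 h R hR 4
  simp only [sum_range_succ, sum_range_zero] at h1
  have h2 : h 4 = 0 + R.coeff 0 * ((4 + 12).choose 12 : ℕ) + R.coeff 1 * ((3 + 12).choose 12 : ℕ) + R.coeff 2 * ((2 + 12).choose 12 : ℕ) + R.coeff 3 * ((1 + 12).choose 12 : ℕ) + R.coeff 4 * ((0 + 12).choose 12 : ℕ) := h1
  rw [ch12_4, ch12_3, ch12_2, ch12_1, ch12_0] at h2
  linarith

lemma cf12_5
    (hR : (PowerSeries.mk h : PowerSeries ℤ) * (1 - PowerSeries.X) ^ (12 + 1) = (R : PowerSeries ℤ)) :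
    h 5 = 6188 * R.coeff 0 + 1820 * R.coeff 1 + 455 * R.coeff 2 + 91 * R.coeff 3 + 13 * R.coeff 4 + 1 * R.coeff 5 := by
  have h1 := Pool.Agent.Q86.Gap.coeff_eq 12 h R hR 5
  simp only [sum_range_succ, sum_range_zero] at h1
  have h2 : h 5 = 0 + R.coeff 0 * ((5 + 12).choose 12 : ℕ) + R.coeff 1 * ((4 + 12).choose 12 : ℕ) + R.coeff 2 * ((3 + 12).choose 12 : ℕ) + R.coeff 3 * ((2 + 12).choose 12 : ℕ) + R.coeff 4 * ((1 + 12).choose 12 : ℕ) + R.coeff 5 * ((0 + 12).choose 12 : ℕ) := h1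
  rw [ch12_5, ch12_4, ch12_3, ch12_2, ch12_1, ch12_0] at h2
  linarith

lemma cf12_6
    (hR : (PowerSeries.mk h : PowerSeries ℤ) * (1 - PowerSeries.X) ^ (12 + 1) = (R : PowerSeries ℤ)) :
    h 6 = 18564 * R.coeff 0 + 6188 * R.coeff 1 + 1820 * R.coeff 2 + 455 * R.coeff 3 + 91 * R.coeff 4 + 13 * R.coeff 5 + 1 * R.coeff 6 := by
  have h1 := Pool.Agent.Q86.Gap.coeff_eq 12 h R hR 6
  simp only [sum_range_succ, sum_range_zero] at h1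
  have h2 : h 6 = 0 + R.coeff 0 * ((6 + 12).choose 12 : ℕ) + R.coeff 1 * ((5 + 12).choose 12 : ℕ) + R.coeff 2 * ((4 + 12).choose 12 : ℕ) + R.coeff 3 * ((3 + 12).choose 12 : ℕ) + R.coeff 4 * ((2 + 12).choose 12 : ℕ) + R.coeff 5 * ((1 + 12).choose 12 : ℕ) + R.coeff 6 * ((0 + 12).choose 12 : ℕ) := h1
  rw [ch12_6, ch12_5, ch12_4, ch12_3, ch12_2, ch12_1, ch12_0] at h2
  linarith

lemma cf12_7
    (hR : (PowerSeries.mk h : PowerSeries ℤ) * (1 - PowerSeries.X) ^ (12 + 1) = (R : PowerSeries ℤ)) :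
    h 7 = 50388 * R.coeff 0 + 18564 * R.coeff 1 + 6188 * R.coeff 2 + 1820 * R.coeff 3 + 455 * R.coeff 4 + 91 * R.coeff 5 + 13 * R.coeff 6 + 1 * R.coeff 7 := by
  have h1 := Pool.Agent.Q86.Gap.coeff_eq 12 h R hR 7
  simp only [sum_range_succ, sum_range_zero] at h1
  have h2 : h 7 = 0 + R.coeff 0 * ((7 + 12).choose 12 : ℕ) + R.coeff 1 * ((6 + 12).choose 12 : ℕ) + R.coeff 2 * ((5 + 12).choose 12 : ℕ) + R.coeff 3 * ((4 + 12).choose 12 : ℕ) + R.coeff 4 * ((3 + 12).choose 12 : ℕ) + R.coeff 5 * ((2 + 12).choose 12 : ℕ) + R.coeff 6 * ((1 + 12).choose 12 : ℕ) + R.coeff 7 * ((0 + 12).choose 12 : ℕ) := h1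
  rw [ch12_7, ch12_6, ch12_5, ch12_4, ch12_3, ch12_2, ch12_1, ch12_0] at h2
  linarith

lemma cf12_8
    (hR : (PowerSeries.mk h : PowerSeries ℤ) * (1 - PowerSeries.X) ^ (12 + 1) = (R : PowerSeries ℤ)) :
    h 8 = 125970 * R.coeff 0 + 50388 * R.coeff 1 + 18564 * R.coeff 2 + 6188 * R.coeff 3 + 1820 * R.coeff 4 + 455 * R.coeff 5 + 91 * R.coeff 6 + 13 * R.coeff 7 + 1 * R.coeff 8 := by
  have h1 := Pool.Agent.Q86.Gap.coeff_eq 12 h R hR 8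
  simp only [sum_range_succ, sum_range_zero] at h1
  have h2 : h 8 = 0 + R.coeff 0 * ((8 + 12).choose 12 : ℕ) + R.coeff 1 * ((7 + 12).choose 12 : ℕ) + R.coeff 2 * ((6 + 12).choose 12 : ℕ) + R.coeff 3 * ((5 + 12).choose 12 : ℕ) + R.coeff 4 * ((4 + 12).choose 12 : ℕ) + R.coeff 5 * ((3 + 12).choose 12 : ℕ) + R.coeff 6 * ((2 + 12).choose 12 : ℕ) + R.coeff 7 * ((1 + 12).choose 12 : ℕ) + R.coeff 8 * ((0 + 12).choose 12 : ℕ) := h1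
  rw [ch12_8, ch12_7, ch12_6, ch12_5, ch12_4, ch12_3, ch12_2, ch12_1, ch12_0] at h2
  linarith

lemma cf12_9
    (hR : (PowerSeries.mk h : PowerSeries ℤ) * (1 - PowerSeries.X) ^ (12 + 1) = (R : PowerSeries ℤ)) :
    h 9 = 293930 * R.coeff 0 + 125970 * R.coeff 1 + 50388 * R.coeff 2 + 18564 * R.coeff 3 + 6188 * R.coeff 4 + 1820 * R.coeff 5 + 455 * R.coeff 6 + 91 * R.coeff 7 + 13 * R.coeff 8 + 1 * R.coeff 9 := by
  have h1 := Pool.Agent.Q86.Gap.coeff_eq 12 h R hR 9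
  simp only [sum_range_succ, sum_range_zero] at h1
  have h2 : h 9 = 0 + R.coeff 0 * ((9 + 12).choose 12 : ℕ) + R.coeff 1 * ((8 + 12).choose 12 : ℕ) + R.coeff 2 * ((7 + 12).choose 12 : ℕ) + R.coeff 3 * ((6 + 12).choose 12 : ℕ) + R.coeff 4 * ((5 + 12).choose 12 : ℕ) + R.coeff 5 * ((4 + 12).choose 12 : ℕ) + R.coeff 6 * ((3 + 12).choose 12 : ℕ) + R.coeff 7 * ((2 + 12).choose 12 : ℕ) + R.coeff 8 * ((1 + 12).choose 12 : ℕ) + R.coeff 9 * ((0 + 12).choose 12 : ℕ) := h1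
  rw [ch12_9, ch12_8, ch12_7, ch12_6, ch12_5, ch12_4, ch12_3, ch12_2, ch12_1, ch12_0] at h2
  linarith

lemma cf12_10
    (hR : (PowerSeries.mk h : PowerSeries ℤ) * (1 - PowerSeries.X) ^ (12 + 1) = (R : PowerSeries ℤ)) :
    h 10 = 646646 * R.coeff 0 + 293930 * R.coeff 1 + 125970 * R.coeff 2 + 50388 * R.coeff 3 + 18564 * R.coeff 4 + 6188 * R.coeff 5 + 1820 * R.coeff 6 + 455 * R.coeff 7 + 91 * R.coeff 8 + 13 * R.coeff 9 + 1 * R.coeff 10 := by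
  have h1 := Pool.Agent.Q86.Gap.coeff_eq 12 h R hR 10
  simp only [sum_range_succ, sum_range_zero] at h1
  have h2 : h 10 = 0 + R.coeff 0 * ((10 + 12).choose 12 : ℕ) + R.coeff 1 * ((9 + 12).choose 12 : ℕ) + R.coeff 2 * ((8 + 12).choose 12 : ℕ) + R.coeff 3 * ((7 + 12).choose 12 : ℕ) + R.coeff 4 * ((6 + 12).choose 12 : ℕ) + R.coeff 5 * ((5 + 12).choose 12 : ℕ) + R.coeff 6 * ((4 + 12).choose 12 : ℕ) + R.coeff 7 * ((3 + 12).choose 12 : ℕ) + R.coeff 8 * ((2 + 12).choose 12 : ℕ) + R.coeff 9 * ((1 + 12).choose 12 : ℕ) + R.coeff 10 * ((0 + 12).choose 12 : ℕ) := h1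
  rw [ch12_10, ch12_9, ch12_8, ch12_7, ch12_6, ch12_5, ch12_4, ch12_3, ch12_2, ch12_1, ch12_0] at h2
  linarith

lemma cf12_11
    (hR : (PowerSeries.mk h : PowerSeries ℤ) * (1 - PowerSeries.X) ^ (12 + 1) = (R : PowerSeries ℤ)) :
    h 11 = 1352078 * R.coeff 0 + 646646 * R.coeff 1 + 293930 * R.coeff 2 + 125970 * R.coeff 3 + 50388 * R.coeff 4 + 18564 * R.coeff 5 + 6188 * R.coeff 6 + 1820 * R.coeff 7 + 455 * R.coeff 8 + 91 * R.coeff 9 + 13 * R.coeff 10 + 1 * R.coeff 11 := by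
  have h1 := Pool.Agent.Q86.Gap.coeff_eq 12 h R hR 11
  simp only [sum_range_succ, sum_range_zero] at h1
  have h2 : h 11 = 0 + R.coeff 0 * ((11 + 12).choose 12 : ℕ) + R.coeff 1 * ((10 + 12).choose 12 : ℕ) + R.coeff 2 * ((9 + 12).choose 12 : ℕ) + R.coeff 3 * ((8 + 12).choose 12 : ℕ) + R.coeff 4 * ((7 + 12).choose 12 : ℕ) + R.coeff 5 * ((6 + 12).choose 12 : ℕ) + R.coeff 6 * ((5 + 12).choose 12 : ℕ) + R.coeff 7 * ((4 + 12).choose 12 : ℕ) + R.coeff 8 * ((3 + 12).choose 12 : ℕ) + R.coeff 9 * ((2 + 12).choose 12 : ℕ) + R.coeff 10 * ((1 + 12).choose 12 : ℕ) + R.coeff 11 * ((0 + 12).choose 12 : ℕ) := h1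
  rw [ch12_11, ch12_10, ch12_9, ch12_8, ch12_7, ch12_6, ch12_5, ch12_4, ch12_3, ch12_2, ch12_1, ch12_0] at h2
  linarith

lemma cf12_12
    (hR : (PowerSeries.mk h : PowerSeries ℤ) * (1 - PowerSeries.X) ^ (12 + 1) = (R : PowerSeries ℤ)) :
    h 12 = 2704156 * R.coeff 0 + 1352078 * R.coeff 1 + 646646 * R.coeff 2 + 293930 * R.coeff 3 + 125970 * R.coeff 4 + 50388 * R.coeff 5 + 18564 * R.coeff 6 + 6188 * R.coeff 7 + 1820 * R.coeff 8 + 455 * R.coeff 9 + 91 * R.coeff 10 + 13 * R.coeff 11 + 1 * R.coeff 12 := by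
  have h1 := Pool.Agent.Q86.Gap.coeff_eq 12 h R hR 12
  simp only [sum_range_succ, sum_range_zero] at h1
  have h2 : h 12 = 0 + R.coeff 0 * ((12 + 12).choose 12 : ℕ) + R.coeff 1 * ((11 + 12).choose 12 : ℕ) + R.coeff 2 * ((10 + 12).choose 12 : ℕ) + R.coeff 3 * ((9 + 12).choose 12 : ℕ) + R.coeff 4 * ((8 + 12).choose 12 : ℕ) + R.coeff 5 * ((7 + 12).choose 12 : ℕ) + R.coeff 6 * ((6 + 12).choose 12 : ℕ) + R.coeff 7 * ((5 + 12).choose 12 : ℕ) + R.coeff 8 * ((4 + 12).choose 12 : ℕ) + R.coeff 9 * ((3 + 12).choose 12 : ℕ) + R.coeff 10 * ((2 + 12).choose 12 : ℕ) + R.coeff 11 * ((1 + 12).choose 12 : ℕ) + R.coeff 12 * ((0 + 12).choose 12 : ℕ) := h1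
  rw [ch12_12, ch12_11, ch12_10, ch12_9, ch12_8, ch12_7, ch12_6, ch12_5, ch12_4, ch12_3, ch12_2, ch12_1, ch12_0] at h2
  linarith

lemma cf12_13
    (hR : (PowerSeries.mk h : PowerSeries ℤ) * (1 - PowerSeries.X) ^ (12 + 1) = (R : PowerSeries ℤ)) :
    h 13 = 5200300 * R.coeff 0 + 2704156 * R.coeff 1 + 1352078 * R.coeff 2 + 646646 * R.coeff 3 + 293930 * R.coeff 4 + 125970 * R.coeff 5 + 50388 * R.coeff 6 + 18564 * R.coeff 7 + 6188 * R.coeff 8 + 1820 * R.coeff 9 + 455 * R.coeff 10 + 91 * R.coeff 11 + 13 * R.coeff 12 + 1 * R.coeff 13 := by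
  have h1 := Pool.Agent.Q86.Gap.coeff_eq 12 h R hR 13
  simp only [sum_range_succ, sum_range_zero] at h1
  have h2 : h 13 = 0 + R.coeff 0 * ((13 + 12).choose 12 : ℕ) + R.coeff 1 * ((12 + 12).choose 12 : ℕ) + R.coeff 2 * ((11 + 12).choose 12 : ℕ) + R.coeff 3 * ((10 + 12).choose 12 : ℕ) + R.coeff 4 * ((9 + 12).choose 12 : ℕ) + R.coeff 5 * ((8 + 12).choose 12 : ℕ) + R.coeff 6 * ((7 + 12).choose 12 : ℕ) + R.coeff 7 * ((6 + 12).choose 12 : ℕ) + R.coeff 8 * ((5 + 12).choose 12 : ℕ) + R.coeff 9 * ((4 + 12).choose 12 : ℕ) + R.coeff 10 * ((3 + 12).choose 12 : ℕ) + R.coeff 11 * ((2 + 12).choose 12 : ℕ) + R.coeff 12 * ((1 + 12).choose 12 : ℕ) + R.coeff 13 * ((0 + 12).choose 12 : ℕ) := h1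
  rw [ch12_13, ch12_12, ch12_11, ch12_10, ch12_9, ch12_8, ch12_7, ch12_6, ch12_5, ch12_4, ch12_3, ch12_2, ch12_1, ch12_0] at h2
  linarith

lemma cf13_2
    (hR : (PowerSeries.mk h : PowerSeries ℤ) * (1 - PowerSeries.X) ^ (13 + 1) = (R : PowerSeries ℤ)) :
    h 2 = 105 * R.coeff 0 + 14 * R.coeff 1 + 1 * R.coeff 2 := by
  have h1 := Pool.Agent.Q86.Gap.coeff_eq 13 h R hR 2
  simp only [sum_range_succ, sum_range_zero] at h1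
  have h2 : h 2 = 0 + R.coeff 0 * ((2 + 13).choose 13 : ℕ) + R.coeff 1 * ((1 + 13).choose 13 : ℕ) + R.coeff 2 * ((0 + 13).choose 13 : ℕ) := h1
  rw [ch13_2, ch13_1, ch13_0] at h2
  linarith

lemma cf13_3
    (hR : (PowerSeries.mk h : PowerSeries ℤ) * (1 - PowerSeries.X) ^ (13 + 1) = (R : PowerSeries ℤ)) :
    h 3 = 560 * R.coeff 0 + 105 * R.coeff 1 + 14 * R.coeff 2 + 1 * R.coeff 3 := by
  have h1 := Pool.Agent.Q86.Gap.coeff_eq 13 h R hR 3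
  simp only [sum_range_succ, sum_range_zero] at h1
  have h2 : h 3 = 0 + R.coeff 0 * ((3 + 13).choose 13 : ℕ) + R.coeff 1 * ((2 + 13).choose 13 : ℕ) + R.coeff 2 * ((1 + 13).choose 13 : ℕ) + R.coeff 3 * ((0 + 13).choose 13 : ℕ) := h1
  rw [ch13_3, ch13_2, ch13_1, ch13_0] at h2
  linarith

lemma cf13_4
    (hR : (PowerSeries.mk h : PowerSeries ℤ) * (1 - PowerSeries.X) ^ (13 + 1) = (R : PowerSeries ℤ)) :
    h 4 = 2380 * R.coeff 0 + 560 * R.coeff 1 + 105 * R.coeff 2 + 14 * R.coeff 3 + 1 * R.coeff 4 := by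
  have h1 := Pool.Agent.Q86.Gap.coeff_eq 13 h R hR 4
  simp only [sum_range_succ, sum_range_zero] at h1
  have h2 : h 4 = 0 + R.coeff 0 * ((4 + 13).choose 13 : ℕ) + R.coeff 1 * ((3 + 13).choose 13 : ℕ) + R.coeff 2 * ((2 + 13).choose 13 : ℕ) + R.coeff 3 * ((1 + 13).choose 13 : ℕ) + R.coeff 4 * ((0 + 13).choose 13 : ℕ) := h1
  rw [ch13_4, ch13_3, ch13_2, ch13_1, ch13_0] at h2
  linarith

lemma cf13_5
    (hR : (PowerSeries.mk h : PowerSeries ℤ) * (1 - PowerSeries.X) ^ (13 + 1) = (R : PowerSeries ℤ)) :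
    h 5 = 8568 * R.coeff 0 + 2380 * R.coeff 1 + 560 * R.coeff 2 + 105 * R.coeff 3 + 14 * R.coeff 4 + 1 * R.coeff 5 := by
  have h1 := Pool.Agent.Q86.Gap.coeff_eq 13 h R hR 5
  simp only [sum_range_succ, sum_range_zero] at h1
  have h2 : h 5 = 0 + R.coeff 0 * ((5 + 13).choose 13 : ℕ) + R.coeff 1 * ((4 + 13).choose 13 : ℕ) + R.coeff 2 * ((3 + 13).choose 13 : ℕ) + R.coeff 3 * ((2 + 13).choose 13 : ℕ) + R.coeff 4 * ((1 + 13).choose 13 : ℕ) + R.coeff 5 * ((0 + 13).choose 13 : ℕ) := h1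
  rw [ch13_5, ch13_4, ch13_3, ch13_2, ch13_1, ch13_0] at h2
  linarith

lemma cf13_6
    (hR : (PowerSeries.mk h : PowerSeries ℤ) * (1 - PowerSeries.X) ^ (13 + 1) = (R : PowerSeries ℤ)) :
    h 6 = 27132 * R.coeff 0 + 8568 * R.coeff 1 + 2380 * R.coeff 2 + 560 * R.coeff 3 + 105 * R.coeff 4 + 14 * R.coeff 5 + 1 * R.coeff 6 := by
  have h1 := Pool.Agent.Q86.Gap.coeff_eq 13 h R hR 6
  simp only [sum_range_succ, sum_range_zero] at h1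
  have h2 : h 6 = 0 + R.coeff 0 * ((6 + 13).choose 13 : ℕ) + R.coeff 1 * ((5 + 13).choose 13 : ℕ) + R.coeff 2 * ((4 + 13).choose 13 : ℕ) + R.coeff 3 * ((3 + 13).choose 13 : ℕ) + R.coeff 4 * ((2 + 13).choose 13 : ℕ) + R.coeff 5 * ((1 + 13).choose 13 : ℕ) + R.coeff 6 * ((0 + 13).choose 13 : ℕ) := h1
  rw [ch13_6, ch13_5, ch13_4, ch13_3, ch13_2, ch13_1, ch13_0] at h2
  linarith

lemma cf13_7
    (hR : (PowerSeries.mk h : PowerSeries ℤ) * (1 - PowerSeries.X) ^ (13 + 1) = (R : PowerSeries ℤ)) :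
    h 7 = 77520 * R.coeff 0 + 27132 * R.coeff 1 + 8568 * R.coeff 2 + 2380 * R.coeff 3 + 560 * R.coeff 4 + 105 * R.coeff 5 + 14 * R.coeff 6 + 1 * R.coeff 7 := by
  have h1 := Pool.Agent.Q86.Gap.coeff_eq 13 h R hR 7
  simp only [sum_range_succ, sum_range_zero] at h1
  have h2 : h 7 = 0 + R.coeff 0 * ((7 + 13).choose 13 : ℕ) + R.coeff 1 * ((6 + 13).choose 13 : ℕ) + R.coeff 2 * ((5 + 13).choose 13 : ℕ) + R.coeff 3 * ((4 + 13).choose 13 : ℕ) + R.coeff 4 * ((3 + 13).choose 13 : ℕ) + R.coeff 5 * ((2 + 13).choose 13 : ℕ) + R.coeff 6 * ((1 + 13).choose 13 : ℕ) + R.coeff 7 * ((0 + 13).choose 13 : ℕ) := h1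
  rw [ch13_7, ch13_6, ch13_5, ch13_4, ch13_3, ch13_2, ch13_1, ch13_0] at h2
  linarith

lemma cf13_8
    (hR : (PowerSeries.mk h : PowerSeries ℤ) * (1 - PowerSeries.X) ^ (13 + 1) = (R : PowerSeries ℤ)) :
    h 8 = 203490 * R.coeff 0 + 77520 * R.coeff 1 + 27132 * R.coeff 2 + 8568 * R.coeff 3 + 2380 * R.coeff 4 + 560 * R.coeff 5 + 105 * R.coeff 6 + 14 * R.coeff 7 + 1 * R.coeff 8 := by
  have h1 := Pool.Agent.Q86.Gap.coeff_eq 13 h R hR 8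
  simp only [sum_range_succ, sum_range_zero] at h1
  have h2 : h 8 = 0 + R.coeff 0 * ((8 + 13).choose 13 : ℕ) + R.coeff 1 * ((7 + 13).choose 13 : ℕ) + R.coeff 2 * ((6 + 13).choose 13 : ℕ) + R.coeff 3 * ((5 + 13).choose 13 : ℕ) + R.coeff 4 * ((4 + 13).choose 13 : ℕ) + R.coeff 5 * ((3 + 13).choose 13 : ℕ) + R.coeff 6 * ((2 + 13).choose 13 : ℕ) + R.coeff 7 * ((1 + 13).choose 13 : ℕ) + R.coeff 8 * ((0 + 13).choose 13 : ℕ) := h1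
  rw [ch13_8, ch13_7, ch13_6, ch13_5, ch13_4, ch13_3, ch13_2, ch13_1, ch13_0] at h2
  linarith

lemma cf13_9
    (hR : (PowerSeries.mk h : PowerSeries ℤ) * (1 - PowerSeries.X) ^ (13 + 1) = (R : PowerSeries ℤ)) :
    h 9 = 497420 * R.coeff 0 + 203490 * R.coeff 1 + 77520 * R.coeff 2 + 27132 * R.coeff 3 + 8568 * R.coeff 4 + 2380 * R.coeff 5 + 560 * R.coeff 6 + 105 * R.coeff 7 + 14 * R.coeff 8 + 1 * R.coeff 9 := by
  have h1 := Pool.Agent.Q86.Gap.coeff_eq 13 h R hR 9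
  simp only [sum_range_succ, sum_range_zero] at h1
  have h2 : h 9 = 0 + R.coeff 0 * ((9 + 13).choose 13 : ℕ) + R.coeff 1 * ((8 + 13).choose 13 : ℕ) + R.coeff 2 * ((7 + 13).choose 13 : ℕ) + R.coeff 3 * ((6 + 13).choose 13 : ℕ) + R.coeff 4 * ((5 + 13).choose 13 : ℕ) + R.coeff 5 * ((4 + 13).choose 13 : ℕ) + R.coeff 6 * ((3 + 13).choose 13 : ℕ) + R.coeff 7 * ((2 + 13).choose 13 : ℕ) + R.coeff 8 * ((1 + 13).choose 13 : ℕ) + R.coeff 9 * ((0 + 13).choose 13 : ℕ) := h1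
  rw [ch13_9, ch13_8, ch13_7, ch13_6, ch13_5, ch13_4, ch13_3, ch13_2, ch13_1, ch13_0] at h2
  linarith

lemma cf13_10
    (hR : (PowerSeries.mk h : PowerSeries ℤ) * (1 - PowerSeries.X) ^ (13 + 1) = (R : PowerSeries ℤ)) :
    h 10 = 1144066 * R.coeff 0 + 497420 * R.coeff 1 + 203490 * R.coeff 2 + 77520 * R.coeff 3 + 27132 * R.coeff 4 + 8568 * R.coeff 5 + 2380 * R.coeff 6 + 560 * R.coeff 7 + 105 * R.coeff 8 + 14 * R.coeff 9 + 1 * R.coeff 10 := by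
  have h1 := Pool.Agent.Q86.Gap.coeff_eq 13 h R hR 10
  simp only [sum_range_succ, sum_range_zero] at h1
  have h2 : h 10 = 0 + R.coeff 0 * ((10 + 13).choose 13 : ℕ) + R.coeff 1 * ((9 + 13).choose 13 : ℕ) + R.coeff 2 * ((8 + 13).choose 13 : ℕ) + R.coeff 3 * ((7 + 13).choose 13 : ℕ) + R.coeff 4 * ((6 + 13).choose 13 : ℕ) + R.coeff 5 * ((5 + 13).choose 13 : ℕ) + R.coeff 6 * ((4 + 13).choose 13 : ℕ) + R.coeff 7 * ((3 + 13).choose 13 : ℕ) + R.coeff 8 * ((2 + 13).choose 13 : ℕ) + R.coeff 9 * ((1 + 13).choose 13 : ℕ) + R.coeff 10 * ((0 + 13).choose 13 : ℕ) := h1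
  rw [ch13_10, ch13_9, ch13_8, ch13_7, ch13_6, ch13_5, ch13_4, ch13_3, ch13_2, ch13_1, ch13_0] at h2
  linarith

lemma cf13_11
    (hR : (PowerSeries.mk h : PowerSeries ℤ) * (1 - PowerSeries.X) ^ (13 + 1) = (R : PowerSeries ℤ)) :
    h 11 = 2496144 * R.coeff 0 + 1144066 * R.coeff 1 + 497420 * R.coeff 2 + 203490 * R.coeff 3 + 77520 * R.coeff 4 + 27132 * R.coeff 5 + 8568 * R.coeff 6 + 2380 * R.coeff 7 + 560 * R.coeff 8 + 105 * R.coeff 9 + 14 * R.coeff 10 + 1 * R.coeff 11 := by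
  have h1 := Pool.Agent.Q86.Gap.coeff_eq 13 h R hR 11
  simp only [sum_range_succ, sum_range_zero] at h1
  have h2 : h 11 = 0 + R.coeff 0 * ((11 + 13).choose 13 : ℕ) + R.coeff 1 * ((10 + 13).choose 13 : ℕ) + R.coeff 2 * ((9 + 13).choose 13 : ℕ) + R.coeff 3 * ((8 + 13).choose 13 : ℕ) + R.coeff 4 * ((7 + 13).choose 13 : ℕ) + R.coeff 5 * ((6 + 13).choose 13 : ℕ) + R.coeff 6 * ((5 + 13).choose 13 : ℕ) + R.coeff 7 * ((4 + 13).choose 13 : ℕ) + R.coeff 8 * ((3 + 13).choose 13 : ℕ) + R.coeff 9 * ((2 + 13).choose 13 : ℕ) + R.coeff 10 * ((1 + 13).choose 13 : ℕ) + R.coeff 11 * ((0 + 13).choose 13 : ℕ) := h1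
  rw [ch13_11, ch13_10, ch13_9, ch13_8, ch13_7, ch13_6, ch13_5, ch13_4, ch13_3, ch13_2, ch13_1, ch13_0] at h2
  linarith

lemma cf13_12
    (hR : (PowerSeries.mk h : PowerSeries ℤ) * (1 - PowerSeries.X) ^ (13 + 1) = (R : PowerSeries ℤ)) :
    h 12 = 5200300 * R.coeff 0 + 2496144 * R.coeff 1 + 1144066 * R.coeff 2 + 497420 * R.coeff 3 + 203490 * R.coeff 4 + 77520 * R.coeff 5 + 27132 * R.coeff 6 + 8568 * R.coeff 7 + 2380 * R.coeff 8 + 560 * R.coeff 9 + 105 * R.coeff 10 + 14 * R.coeff 11 + 1 * R.coeff 12 := by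
  have h1 := Pool.Agent.Q86.Gap.coeff_eq 13 h R hR 12
  simp only [sum_range_succ, sum_range_zero] at h1
  have h2 : h 12 = 0 + R.coeff 0 * ((12 + 13).choose 13 : ℕ) + R.coeff 1 * ((11 + 13).choose 13 : ℕ) + R.coeff 2 * ((10 + 13).choose 13 : ℕ) + R.coeff 3 * ((9 + 13).choose 13 : ℕ) + R.coeff 4 * ((8 + 13).choose 13 : ℕ) + R.coeff 5 * ((7 + 13).choose 13 : ℕ) + R.coeff 6 * ((6 + 13).choose 13 : ℕ) + R.coeff 7 * ((5 + 13).choose 13 : ℕ) + R.coeff 8 * ((4 + 13).choose 13 : ℕ) + R.coeff 9 * ((3 + 13).choose 13 : ℕ) + R.coeff 10 * ((2 + 13).choose 13 : ℕ) + R.coeff 11 * ((1 + 13).choose 13 : ℕ) + R.coeff 12 * ((0 + 13).choose 13 : ℕ) := h1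
  rw [ch13_12, ch13_11, ch13_10, ch13_9, ch13_8, ch13_7, ch13_6, ch13_5, ch13_4, ch13_3, ch13_2, ch13_1, ch13_0] at h2
  linarith

lemma cf13_13
    (hR : (PowerSeries.mk h : PowerSeries ℤ) * (1 - PowerSeries.X) ^ (13 + 1) = (R : PowerSeries ℤ)) :
    h 13 = 10400600 * R.coeff 0 + 5200300 * R.coeff 1 + 2496144 * R.coeff 2 + 1144066 * R.coeff 3 + 497420 * R.coeff 4 + 203490 * R.coeff 5 + 77520 * R.coeff 6 + 27132 * R.coeff 7 + 8568 * R.coeff 8 + 2380 * R.coeff 9 + 560 * R.coeff 10 + 105 * R.coeff 11 + 14 * R.coeff 12 + 1 * R.coeff 13 := by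
  have h1 := Pool.Agent.Q86.Gap.coeff_eq 13 h R hR 13
  simp only [sum_range_succ, sum_range_zero] at h1
  have h2 : h 13 = 0 + R.coeff 0 * ((13 + 13).choose 13 : ℕ) + R.coeff 1 * ((12 + 13).choose 13 : ℕ) + R.coeff 2 * ((11 + 13).choose 13 : ℕ) + R.coeff 3 * ((10 + 13).choose 13 : ℕ) + R.coeff 4 * ((9 + 13).choose 13 : ℕ) + R.coeff 5 * ((8 + 13).choose 13 : ℕ) + R.coeff 6 * ((7 + 13).choose 13 : ℕ) + R.coeff 7 * ((6 + 13).choose 13 : ℕ) + R.coeff 8 * ((5 + 13).choose 13 : ℕ) + R.coeff 9 * ((4 + 13).choose 13 : ℕ) + R.coeff 10 * ((3 + 13).choose 13 : ℕ) + R.coeff 11 * ((2 + 13).choose 13 : ℕ) + R.coeff 12 * ((1 + 13).choose 13 : ℕ) + R.coeff 13 * ((0 + 13).choose 13 : ℕ) := h1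
  rw [ch13_13, ch13_12, ch13_11, ch13_10, ch13_9, ch13_8, ch13_7, ch13_6, ch13_5, ch13_4, ch13_3, ch13_2, ch13_1, ch13_0] at h2
  linarith

lemma cf14_2
    (hR : (PowerSeries.mk h : PowerSeries ℤ) * (1 - PowerSeries.X) ^ (14 + 1) = (R : PowerSeries ℤ)) :
    h 2 = 120 * R.coeff 0 + 15 * R.coeff 1 + 1 * R.coeff 2 := by
  have h1 := Pool.Agent.Q86.Gap.coeff_eq 14 h R hR 2
  simp only [sum_range_succ, sum_range_zero] at h1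
  have h2 : h 2 = 0 + R.coeff 0 * ((2 + 14).choose 14 : ℕ) + R.coeff 1 * ((1 + 14).choose 14 : ℕ) + R.coeff 2 * ((0 + 14).choose 14 : ℕ) := h1
  rw [ch14_2, ch14_1, ch14_0] at h2
  linarith

lemma cf14_3
    (hR : (PowerSeries.mk h : PowerSeries ℤ) * (1 - PowerSeries.X) ^ (14 + 1) = (R : PowerSeries ℤ)) :
    h 3 = 680 * R.coeff 0 + 120 * R.coeff 1 + 15 * R.coeff 2 + 1 * R.coeff 3 := by
  have h1 := Pool.Agent.Q86.Gap.coeff_eq 14 h R hR 3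
  simp only [sum_range_succ, sum_range_zero] at h1
  have h2 : h 3 = 0 + R.coeff 0 * ((3 + 14).choose 14 : ℕ) + R.coeff 1 * ((2 + 14).choose 14 : ℕ) + R.coeff 2 * ((1 + 14).choose 14 : ℕ) + R.coeff 3 * ((0 + 14).choose 14 : ℕ) := h1
  rw [ch14_3, ch14_2, ch14_1, ch14_0] at h2
  linarith

lemma cf14_4
    (hR : (PowerSeries.mk h : PowerSeries ℤ) * (1 - PowerSeries.X) ^ (14 + 1) = (R : PowerSeries ℤ)) :
    h 4 = 3060 * R.coeff 0 + 680 * R.coeff 1 + 120 * R.coeff 2 + 15 * R.coeff 3 + 1 * R.coeff 4 := by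
  have h1 := Pool.Agent.Q86.Gap.coeff_eq 14 h R hR 4
  simp only [sum_range_succ, sum_range_zero] at h1
  have h2 : h 4 = 0 + R.coeff 0 * ((4 + 14).choose 14 : ℕ) + R.coeff 1 * ((3 + 14).choose 14 : ℕ) + R.coeff 2 * ((2 + 14).choose 14 : ℕ) + R.coeff 3 * ((1 + 14).choose 14 : ℕ) + R.coeff 4 * ((0 + 14).choose 14 : ℕ) := h1
  rw [ch14_4, ch14_3, ch14_2, ch14_1, ch14_0] at h2
  linarith

lemma cf14_5
    (hR : (PowerSeries.mk h : PowerSeries ℤ) * (1 - PowerSeries.X) ^ (14 + 1) = (R : PowerSeries ℤ)) :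
    h 5 = 11628 * R.coeff 0 + 3060 * R.coeff 1 + 680 * R.coeff 2 + 120 * R.coeff 3 + 15 * R.coeff 4 + 1 * R.coeff 5 := by
  have h1 := Pool.Agent.Q86.Gap.coeff_eq 14 h R hR 5
  simp only [sum_range_succ, sum_range_zero] at h1
  have h2 : h 5 = 0 + R.coeff 0 * ((5 + 14).choose 14 : ℕ) + R.coeff 1 * ((4 + 14).choose 14 : ℕ) + R.coeff 2 * ((3 + 14).choose 14 : ℕ) + R.coeff 3 * ((2 + 14).choose 14 : ℕ) + R.coeff 4 * ((1 + 14).choose 14 : ℕ) + R.coeff 5 * ((0 + 14).choose 14 : ℕ) := h1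
  rw [ch14_5, ch14_4, ch14_3, ch14_2, ch14_1, ch14_0] at h2
  linarith

lemma cf14_6
    (hR : (PowerSeries.mk h : PowerSeries ℤ) * (1 - PowerSeries.X) ^ (14 + 1) = (R : PowerSeries ℤ)) :
    h 6 = 38760 * R.coeff 0 + 11628 * R.coeff 1 + 3060 * R.coeff 2 + 680 * R.coeff 3 + 120 * R.coeff 4 + 15 * R.coeff 5 + 1 * R.coeff 6 := by
  have h1 := Pool.Agent.Q86.Gap.coeff_eq 14 h R hR 6
  simp only [sum_range_succ, sum_range_zero] at h1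
  have h2 : h 6 = 0 + R.coeff 0 * ((6 + 14).choose 14 : ℕ) + R.coeff 1 * ((5 + 14).choose 14 : ℕ) + R.coeff 2 * ((4 + 14).choose 14 : ℕ) + R.coeff 3 * ((3 + 14).choose 14 : ℕ) + R.coeff 4 * ((2 + 14).choose 14 : ℕ) + R.coeff 5 * ((1 + 14).choose 14 : ℕ) + R.coeff 6 * ((0 + 14).choose 14 : ℕ) := h1
  rw [ch14_6, ch14_5, ch14_4, ch14_3, ch14_2, ch14_1, ch14_0] at h2
  linarith

lemma cf14_7
    (hR : (PowerSeries.mk h : PowerSeries ℤ) * (1 - PowerSeries.X) ^ (14 + 1) = (R : PowerSeries ℤ)) :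
    h 7 = 116280 * R.coeff 0 + 38760 * R.coeff 1 + 11628 * R.coeff 2 + 3060 * R.coeff 3 + 680 * R.coeff 4 + 120 * R.coeff 5 + 15 * R.coeff 6 + 1 * R.coeff 7 := by
  have h1 := Pool.Agent.Q86.Gap.coeff_eq 14 h R hR 7
  simp only [sum_range_succ, sum_range_zero] at h1
  have h2 : h 7 = 0 + R.coeff 0 * ((7 + 14).choose 14 : ℕ) + R.coeff 1 * ((6 + 14).choose 14 : ℕ) + R.coeff 2 * ((5 + 14).choose 14 : ℕ) + R.coeff 3 * ((4 + 14).choose 14 : ℕ) + R.coeff 4 * ((3 + 14).choose 14 : ℕ) + R.coeff 5 * ((2 + 14).choose 14 : ℕ) + R.coeff 6 * ((1 + 14).choose 14 : ℕ) + R.coeff 7 * ((0 + 14).choose 14 : ℕ) := h1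
  rw [ch14_7, ch14_6, ch14_5, ch14_4, ch14_3, ch14_2, ch14_1, ch14_0] at h2
  linarith

lemma cf14_8
    (hR : (PowerSeries.mk h : PowerSeries ℤ) * (1 - PowerSeries.X) ^ (14 + 1) = (R : PowerSeries ℤ)) :
    h 8 = 319770 * R.coeff 0 + 116280 * R.coeff 1 + 38760 * R.coeff 2 + 11628 * R.coeff 3 + 3060 * R.coeff 4 + 680 * R.coeff 5 + 120 * R.coeff 6 + 15 * R.coeff 7 + 1 * R.coeff 8 := by
  have h1 := Pool.Agent.Q86.Gap.coeff_eq 14 h R hR 8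
  simp only [sum_range_succ, sum_range_zero] at h1
  have h2 : h 8 = 0 + R.coeff 0 * ((8 + 14).choose 14 : ℕ) + R.coeff 1 * ((7 + 14).choose 14 : ℕ) + R.coeff 2 * ((6 + 14).choose 14 : ℕ) + R.coeff 3 * ((5 + 14).choose 14 : ℕ) + R.coeff 4 * ((4 + 14).choose 14 : ℕ) + R.coeff 5 * ((3 + 14).choose 14 : ℕ) + R.coeff 6 * ((2 + 14).choose 14 : ℕ) + R.coeff 7 * ((1 + 14).choose 14 : ℕ) + R.coeff 8 * ((0 + 14).choose 14 : ℕ) := h1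
  rw [ch14_8, ch14_7, ch14_6, ch14_5, ch14_4, ch14_3, ch14_2, ch14_1, ch14_0] at h2
  linarith

lemma cf14_9
    (hR : (PowerSeries.mk h : PowerSeries ℤ) * (1 - PowerSeries.X) ^ (14 + 1) = (R : PowerSeries ℤ)) :
    h 9 = 817190 * R.coeff 0 + 319770 * R.coeff 1 + 116280 * R.coeff 2 + 38760 * R.coeff 3 + 11628 * R.coeff 4 + 3060 * R.coeff 5 + 680 * R.coeff 6 + 120 * R.coeff 7 + 15 * R.coeff 8 + 1 * R.coeff 9 := by
  have h1 := Pool.Agent.Q86.Gap.coeff_eq 14 h R hR 9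
  simp only [sum_range_succ, sum_range_zero] at h1
  have h2 : h 9 = 0 + R.coeff 0 * ((9 + 14).choose 14 : ℕ) + R.coeff 1 * ((8 + 14).choose 14 : ℕ) + R.coeff 2 * ((7 + 14).choose 14 : ℕ) + R.coeff 3 * ((6 + 14).choose 14 : ℕ) + R.coeff 4 * ((5 + 14).choose 14 : ℕ) + R.coeff 5 * ((4 + 14).choose 14 : ℕ) + R.coeff 6 * ((3 + 14).choose 14 : ℕ) + R.coeff 7 * ((2 + 14).choose 14 : ℕ) + R.coeff 8 * ((1 + 14).choose 14 : ℕ) + R.coeff 9 * ((0 + 14).choose 14 : ℕ) := h1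
  rw [ch14_9, ch14_8, ch14_7, ch14_6, ch14_5, ch14_4, ch14_3, ch14_2, ch14_1, ch14_0] at h2
  linarith

lemma cf14_10
    (hR : (PowerSeries.mk h : PowerSeries ℤ) * (1 - PowerSeries.X) ^ (14 + 1) = (R : PowerSeries ℤ)) :
    h 10 = 1961256 * R.coeff 0 + 817190 * R.coeff 1 + 319770 * R.coeff 2 + 116280 * R.coeff 3 + 38760 * R.coeff 4 + 11628 * R.coeff 5 + 3060 * R.coeff 6 + 680 * R.coeff 7 + 120 * R.coeff 8 + 15 * R.coeff 9 + 1 * R.coeff 10 := by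
  have h1 := Pool.Agent.Q86.Gap.coeff_eq 14 h R hR 10
  simp only [sum_range_succ, sum_range_zero] at h1
  have h2 : h 10 = 0 + R.coeff 0 * ((10 + 14).choose 14 : ℕ) + R.coeff 1 * ((9 + 14).choose 14 : ℕ) + R.coeff 2 * ((8 + 14).choose 14 : ℕ) + R.coeff 3 * ((7 + 14).choose 14 : ℕ) + R.coeff 4 * ((6 + 14).choose 14 : ℕ) + R.coeff 5 * ((5 + 14).choose 14 : ℕ) + R.coeff 6 * ((4 + 14).choose 14 : ℕ) + R.coeff 7 * ((3 + 14).choose 14 : ℕ) + R.coeff 8 * ((2 + 14).choose 14 : ℕ) + R.coeff 9 * ((1 + 14).choose 14 : ℕ) + R.coeff 10 * ((0 + 14).choose 14 : ℕ) := h1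
  rw [ch14_10, ch14_9, ch14_8, ch14_7, ch14_6, ch14_5, ch14_4, ch14_3, ch14_2, ch14_1, ch14_0] at h2
  linarith

lemma cf14_11
    (hR : (PowerSeries.mk h : PowerSeries ℤ) * (1 - PowerSeries.X) ^ (14 + 1) = (R : PowerSeries ℤ)) :
    h 11 = 4457400 * R.coeff 0 + 1961256 * R.coeff 1 + 817190 * R.coeff 2 + 319770 * R.coeff 3 + 116280 * R.coeff 4 + 38760 * R.coeff 5 + 11628 * R.coeff 6 + 3060 * R.coeff 7 + 680 * R.coeff 8 + 120 * R.coeff 9 + 15 * R.coeff 10 + 1 * R.coeff 11 := by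
  have h1 := Pool.Agent.Q86.Gap.coeff_eq 14 h R hR 11
  simp only [sum_range_succ, sum_range_zero] at h1
  have h2 : h 11 = 0 + R.coeff 0 * ((11 + 14).choose 14 : ℕ) + R.coeff 1 * ((10 + 14).choose 14 : ℕ) + R.coeff 2 * ((9 + 14).choose 14 : ℕ) + R.coeff 3 * ((8 + 14).choose 14 : ℕ) + R.coeff 4 * ((7 + 14).choose 14 : ℕ) + R.coeff 5 * ((6 + 14).choose 14 : ℕ) + R.coeff 6 * ((5 + 14).choose 14 : ℕ) + R.coeff 7 * ((4 + 14).choose 14 : ℕ) + R.coeff 8 * ((3 + 14).choose 14 : ℕ) + R.coeff 9 * ((2 + 14).choose 14 : ℕ) + R.coeff 10 * ((1 + 14).choose 14 : ℕ) + R.coeff 11 * ((0 + 14).choose 14 : ℕ) := h1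
  rw [ch14_11, ch14_10, ch14_9, ch14_8, ch14_7, ch14_6, ch14_5, ch14_4, ch14_3, ch14_2, ch14_1, ch14_0] at h2
  linarith

lemma cf14_12
    (hR : (PowerSeries.mk h : PowerSeries ℤ) * (1 - PowerSeries.X) ^ (14 + 1) = (R : PowerSeries ℤ)) :
    h 12 = 9657700 * R.coeff 0 + 4457400 * R.coeff 1 + 1961256 * R.coeff 2 + 817190 * R.coeff 3 + 319770 * R.coeff 4 + 116280 * R.coeff 5 + 38760 * R.coeff 6 + 11628 * R.coeff 7 + 3060 * R.coeff 8 + 680 * R.coeff 9 + 120 * R.coeff 10 + 15 * R.coeff 11 + 1 * R.coeff 12 := by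
  have h1 := Pool.Agent.Q86.Gap.coeff_eq 14 h R hR 12
  simp only [sum_range_succ, sum_range_zero] at h1
  have h2 : h 12 = 0 + R.coeff 0 * ((12 + 14).choose 14 : ℕ) + R.coeff 1 * ((11 + 14).choose 14 : ℕ) + R.coeff 2 * ((10 + 14).choose 14 : ℕ) + R.coeff 3 * ((9 + 14).choose 14 : ℕ) + R.coeff 4 * ((8 + 14).choose 14 : ℕ) + R.coeff 5 * ((7 + 14).choose 14 : ℕ) + R.coeff 6 * ((6 + 14).choose 14 : ℕ) + R.coeff 7 * ((5 + 14).choose 14 : ℕ) + R.coeff 8 * ((4 + 14).choose 14 : ℕ) + R.coeff 9 * ((3 + 14).choose 14 : ℕ) + R.coeff 10 * ((2 + 14).choose 14 : ℕ) + R.coeff 11 * ((1 + 14).choose 14 : ℕ) + R.coeff 12 * ((0 + 14).choose 14 : ℕ) := h1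
  rw [ch14_12, ch14_11, ch14_10, ch14_9, ch14_8, ch14_7, ch14_6, ch14_5, ch14_4, ch14_3, ch14_2, ch14_1, ch14_0] at h2
  linarith

lemma cf14_13
    (hR : (PowerSeries.mk h : PowerSeries ℤ) * (1 - PowerSeries.X) ^ (14 + 1) = (R : PowerSeries ℤ)) :
    h 13 = 20058300 * R.coeff 0 + 9657700 * R.coeff 1 + 4457400 * R.coeff 2 + 1961256 * R.coeff 3 + 817190 * R.coeff 4 + 319770 * R.coeff 5 + 116280 * R.coeff 6 + 38760 * R.coeff 7 + 11628 * R.coeff 8 + 3060 * R.coeff 9 + 680 * R.coeff 10 + 120 * R.coeff 11 + 15 * R.coeff 12 + 1 * R.coeff 13 := by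
  have h1 := Pool.Agent.Q86.Gap.coeff_eq 14 h R hR 13
  simp only [sum_range_succ, sum_range_zero] at h1
  have h2 : h 13 = 0 + R.coeff 0 * ((13 + 14).choose 14 : ℕ) + R.coeff 1 * ((12 + 14).choose 14 : ℕ) + R.coeff 2 * ((11 + 14).choose 14 : ℕ) + R.coeff 3 * ((10 + 14).choose 14 : ℕ) + R.coeff 4 * ((9 + 14).choose 14 : ℕ) + R.coeff 5 * ((8 + 14).choose 14 : ℕ) + R.coeff 6 * ((7 + 14).choose 14 : ℕ) + R.coeff 7 * ((6 + 14).choose 14 : ℕ) + R.coeff 8 * ((5 + 14).choose 14 : ℕ) + R.coeff 9 * ((4 + 14).choose 14 : ℕ) + R.coeff 10 * ((3 + 14).choose 14 : ℕ) + R.coeff 11 * ((2 + 14).choose 14 : ℕ) + R.coeff 12 * ((1 + 14).choose 14 : ℕ) + R.coeff 13 * ((0 + 14).choose 14 : ℕ) := h1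
  rw [ch14_13, ch14_12, ch14_11, ch14_10, ch14_9, ch14_8, ch14_7, ch14_6, ch14_5, ch14_4, ch14_3, ch14_2, ch14_1, ch14_0] at h2
  linarith

lemma cf15_2
    (hR : (PowerSeries.mk h : PowerSeries ℤ) * (1 - PowerSeries.X) ^ (15 + 1) = (R : PowerSeries ℤ)) :
    h 2 = 136 * R.coeff 0 + 16 * R.coeff 1 + 1 * R.coeff 2 := by
  have h1 := Pool.Agent.Q86.Gap.coeff_eq 15 h R hR 2
  simp only [sum_range_succ, sum_range_zero] at h1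
  have h2 : h 2 = 0 + R.coeff 0 * ((2 + 15).choose 15 : ℕ) + R.coeff 1 * ((1 + 15).choose 15 : ℕ) + R.coeff 2 * ((0 + 15).choose 15 : ℕ) := h1
  rw [ch15_2, ch15_1, ch15_0] at h2
  linarith

lemma cf15_3
    (hR : (PowerSeries.mk h : PowerSeries ℤ) * (1 - PowerSeries.X) ^ (15 + 1) = (R : PowerSeries ℤ)) :
    h 3 = 816 * R.coeff 0 + 136 * R.coeff 1 + 16 * R.coeff 2 + 1 * R.coeff 3 := by
  have h1 := Pool.Agent.Q86.Gap.coeff_eq 15 h R hR 3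
  simp only [sum_range_succ, sum_range_zero] at h1
  have h2 : h 3 = 0 + R.coeff 0 * ((3 + 15).choose 15 : ℕ) + R.coeff 1 * ((2 + 15).choose 15 : ℕ) + R.coeff 2 * ((1 + 15).choose 15 : ℕ) + R.coeff 3 * ((0 + 15).choose 15 : ℕ) := h1
  rw [ch15_3, ch15_2, ch15_1, ch15_0] at h2
  linarith

lemma cf15_4
    (hR : (PowerSeries.mk h : PowerSeries ℤ) * (1 - PowerSeries.X) ^ (15 + 1) = (R : PowerSeries ℤ)) :
    h 4 = 3876 * R.coeff 0 + 816 * R.coeff 1 + 136 * R.coeff 2 + 16 * R.coeff 3 + 1 * R.coeff 4 := by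
  have h1 := Pool.Agent.Q86.Gap.coeff_eq 15 h R hR 4
  simp only [sum_range_succ, sum_range_zero] at h1
  have h2 : h 4 = 0 + R.coeff 0 * ((4 + 15).choose 15 : ℕ) + R.coeff 1 * ((3 + 15).choose 15 : ℕ) + R.coeff 2 * ((2 + 15).choose 15 : ℕ) + R.coeff 3 * ((1 + 15).choose 15 : ℕ) + R.coeff 4 * ((0 + 15).choose 15 : ℕ) := h1
  rw [ch15_4, ch15_3, ch15_2, ch15_1, ch15_0] at h2
  linarith

lemma cf15_5
    (hR : (PowerSeries.mk h : PowerSeries ℤ) * (1 - PowerSeries.X) ^ (15 + 1) = (R : PowerSeries ℤ)) :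
    h 5 = 15504 * R.coeff 0 + 3876 * R.coeff 1 + 816 * R.coeff 2 + 136 * R.coeff 3 + 16 * R.coeff 4 + 1 * R.coeff 5 := by
  have h1 := Pool.Agent.Q86.Gap.coeff_eq 15 h R hR 5
  simp only [sum_range_succ, sum_range_zero] at h1
  have h2 : h 5 = 0 + R.coeff 0 * ((5 + 15).choose 15 : ℕ) + R.coeff 1 * ((4 + 15).choose 15 : ℕ) + R.coeff 2 * ((3 + 15).choose 15 : ℕ) + R.coeff 3 * ((2 + 15).choose 15 : ℕ) + R.coeff 4 * ((1 + 15).choose 15 : ℕ) + R.coeff 5 * ((0 + 15).choose 15 : ℕ) := h1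
  rw [ch15_5, ch15_4, ch15_3, ch15_2, ch15_1, ch15_0] at h2
  linarith

lemma cf15_6
    (hR : (PowerSeries.mk h : PowerSeries ℤ) * (1 - PowerSeries.X) ^ (15 + 1) = (R : PowerSeries ℤ)) :
    h 6 = 54264 * R.coeff 0 + 15504 * R.coeff 1 + 3876 * R.coeff 2 + 816 * R.coeff 3 + 136 * R.coeff 4 + 16 * R.coeff 5 + 1 * R.coeff 6 := by
  have h1 := Pool.Agent.Q86.Gap.coeff_eq 15 h R hR 6
  simp only [sum_range_succ, sum_range_zero] at h1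
  have h2 : h 6 = 0 + R.coeff 0 * ((6 + 15).choose 15 : ℕ) + R.coeff 1 * ((5 + 15).choose 15 : ℕ) + R.coeff 2 * ((4 + 15).choose 15 : ℕ) + R.coeff 3 * ((3 + 15).choose 15 : ℕ) + R.coeff 4 * ((2 + 15).choose 15 : ℕ) + R.coeff 5 * ((1 + 15).choose 15 : ℕ) + R.coeff 6 * ((0 + 15).choose 15 : ℕ) := h1
  rw [ch15_6, ch15_5, ch15_4, ch15_3, ch15_2, ch15_1, ch15_0] at h2
  linarith

lemma cf15_7
    (hR : (PowerSeries.mk h : PowerSeries ℤ) * (1 - PowerSeries.X) ^ (15 + 1) = (R : PowerSeries ℤ)) :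
    h 7 = 170544 * R.coeff 0 + 54264 * R.coeff 1 + 15504 * R.coeff 2 + 3876 * R.coeff 3 + 816 * R.coeff 4 + 136 * R.coeff 5 + 16 * R.coeff 6 + 1 * R.coeff 7 := by
  have h1 := Pool.Agent.Q86.Gap.coeff_eq 15 h R hR 7
  simp only [sum_range_succ, sum_range_zero] at h1
  have h2 : h 7 = 0 + R.coeff 0 * ((7 + 15).choose 15 : ℕ) + R.coeff 1 * ((6 + 15).choose 15 : ℕ) + R.coeff 2 * ((5 + 15).choose 15 : ℕ) + R.coeff 3 * ((4 + 15).choose 15 : ℕ) + R.coeff 4 * ((3 + 15).choose 15 : ℕ) + R.coeff 5 * ((2 + 15).choose 15 : ℕ) + R.coeff 6 * ((1 + 15).choose 15 : ℕ) + R.coeff 7 * ((0 + 15).choose 15 : ℕ) := h1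
  rw [ch15_7, ch15_6, ch15_5, ch15_4, ch15_3, ch15_2, ch15_1, ch15_0] at h2
  linarith

lemma cf15_8
    (hR : (PowerSeries.mk h : PowerSeries ℤ) * (1 - PowerSeries.X) ^ (15 + 1) = (R : PowerSeries ℤ)) :
    h 8 = 490314 * R.coeff 0 + 170544 * R.coeff 1 + 54264 * R.coeff 2 + 15504 * R.coeff 3 + 3876 * R.coeff 4 + 816 * R.coeff 5 + 136 * R.coeff 6 + 16 * R.coeff 7 + 1 * R.coeff 8 := by
  have h1 := Pool.Agent.Q86.Gap.coeff_eq 15 h R hR 8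
  simp only [sum_range_succ, sum_range_zero] at h1
  have h2 : h 8 = 0 + R.coeff 0 * ((8 + 15).choose 15 : ℕ) + R.coeff 1 * ((7 + 15).choose 15 : ℕ) + R.coeff 2 * ((6 + 15).choose 15 : ℕ) + R.coeff 3 * ((5 + 15).choose 15 : ℕ) + R.coeff 4 * ((4 + 15).choose 15 : ℕ) + R.coeff 5 * ((3 + 15).choose 15 : ℕ) + R.coeff 6 * ((2 + 15).choose 15 : ℕ) + R.coeff 7 * ((1 + 15).choose 15 : ℕ) + R.coeff 8 * ((0 + 15).choose 15 : ℕ) := h1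
  rw [ch15_8, ch15_7, ch15_6, ch15_5, ch15_4, ch15_3, ch15_2, ch15_1, ch15_0] at h2
  linarith

lemma cf15_9
    (hR : (PowerSeries.mk h : PowerSeries ℤ) * (1 - PowerSeries.X) ^ (15 + 1) = (R : PowerSeries ℤ)) :
    h 9 = 1307504 * R.coeff 0 + 490314 * R.coeff 1 + 170544 * R.coeff 2 + 54264 * R.coeff 3 + 15504 * R.coeff 4 + 3876 * R.coeff 5 + 816 * R.coeff 6 + 136 * R.coeff 7 + 16 * R.coeff 8 + 1 * R.coeff 9 := by
  have h1 := Pool.Agent.Q86.Gap.coeff_eq 15 h R hR 9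
  simp only [sum_range_succ, sum_range_zero] at h1
  have h2 : h 9 = 0 + R.coeff 0 * ((9 + 15).choose 15 : ℕ) + R.coeff 1 * ((8 + 15).choose 15 : ℕ) + R.coeff 2 * ((7 + 15).choose 15 : ℕ) + R.coeff 3 * ((6 + 15).choose 15 : ℕ) + R.coeff 4 * ((5 + 15).choose 15 : ℕ) + R.coeff 5 * ((4 + 15).choose 15 : ℕ) + R.coeff 6 * ((3 + 15).choose 15 : ℕ) + R.coeff 7 * ((2 + 15).choose 15 : ℕ) + R.coeff 8 * ((1 + 15).choose 15 : ℕ) + R.coeff 9 * ((0 + 15).choose 15 : ℕ) := h1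
  rw [ch15_9, ch15_8, ch15_7, ch15_6, ch15_5, ch15_4, ch15_3, ch15_2, ch15_1, ch15_0] at h2
  linarith

lemma cf15_10
    (hR : (PowerSeries.mk h : PowerSeries ℤ) * (1 - PowerSeries.X) ^ (15 + 1) = (R : PowerSeries ℤ)) :
    h 10 = 3268760 * R.coeff 0 + 1307504 * R.coeff 1 + 490314 * R.coeff 2 + 170544 * R.coeff 3 + 54264 * R.coeff 4 + 15504 * R.coeff 5 + 3876 * R.coeff 6 + 816 * R.coeff 7 + 136 * R.coeff 8 + 16 * R.coeff 9 + 1 * R.coeff 10 := by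
  have h1 := Pool.Agent.Q86.Gap.coeff_eq 15 h R hR 10
  simp only [sum_range_succ, sum_range_zero] at h1
  have h2 : h 10 = 0 + R.coeff 0 * ((10 + 15).choose 15 : ℕ) + R.coeff 1 * ((9 + 15).choose 15 : ℕ) + R.coeff 2 * ((8 + 15).choose 15 : ℕ) + R.coeff 3 * ((7 + 15).choose 15 : ℕ) + R.coeff 4 * ((6 + 15).choose 15 : ℕ) + R.coeff 5 * ((5 + 15).choose 15 : ℕ) + R.coeff 6 * ((4 + 15).choose 15 : ℕ) + R.coeff 7 * ((3 + 15).choose 15 : ℕ) + R.coeff 8 * ((2 + 15).choose 15 : ℕ) + R.coeff 9 * ((1 + 15).choose 15 : ℕ) + R.coeff 10 * ((0 + 15).choose 15 : ℕ) := h1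
  rw [ch15_10, ch15_9, ch15_8, ch15_7, ch15_6, ch15_5, ch15_4, ch15_3, ch15_2, ch15_1, ch15_0] at h2
  linarith

lemma cf15_11
    (hR : (PowerSeries.mk h : PowerSeries ℤ) * (1 - PowerSeries.X) ^ (15 + 1) = (R : PowerSeries ℤ)) :
    h 11 = 7726160 * R.coeff 0 + 3268760 * R.coeff 1 + 1307504 * R.coeff 2 + 490314 * R.coeff 3 + 170544 * R.coeff 4 + 54264 * R.coeff 5 + 15504 * R.coeff 6 + 3876 * R.coeff 7 + 816 * R.coeff 8 + 136 * R.coeff 9 + 16 * R.coeff 10 + 1 * R.coeff 11 := by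
  have h1 := Pool.Agent.Q86.Gap.coeff_eq 15 h R hR 11
  simp only [sum_range_succ, sum_range_zero] at h1
  have h2 : h 11 = 0 + R.coeff 0 * ((11 + 15).choose 15 : ℕ) + R.coeff 1 * ((10 + 15).choose 15 : ℕ) + R.coeff 2 * ((9 + 15).choose 15 : ℕ) + R.coeff 3 * ((8 + 15).choose 15 : ℕ) + R.coeff 4 * ((7 + 15).choose 15 : ℕ) + R.coeff 5 * ((6 + 15).choose 15 : ℕ) + R.coeff 6 * ((5 + 15).choose 15 : ℕ) + R.coeff 7 * ((4 + 15).choose 15 : ℕ) + R.coeff 8 * ((3 + 15).choose 15 : ℕ) + R.coeff 9 * ((2 + 15).choose 15 : ℕ) + R.coeff 10 * ((1 + 15).choose 15 : ℕ) + R.coeff 11 * ((0 + 15).choose 15 : ℕ) := h1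
  rw [ch15_11, ch15_10, ch15_9, ch15_8, ch15_7, ch15_6, ch15_5, ch15_4, ch15_3, ch15_2, ch15_1, ch15_0] at h2
  linarith

lemma cf15_12
    (hR : (PowerSeries.mk h : PowerSeries ℤ) * (1 - PowerSeries.X) ^ (15 + 1) = (R : PowerSeries ℤ)) :
    h 12 = 17383860 * R.coeff 0 + 7726160 * R.coeff 1 + 3268760 * R.coeff 2 + 1307504 * R.coeff 3 + 490314 * R.coeff 4 + 170544 * R.coeff 5 + 54264 * R.coeff 6 + 15504 * R.coeff 7 + 3876 * R.coeff 8 + 816 * R.coeff 9 + 136 * R.coeff 10 + 16 * R.coeff 11 + 1 * R.coeff 12 := by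
  have h1 := Pool.Agent.Q86.Gap.coeff_eq 15 h R hR 12
  simp only [sum_range_succ, sum_range_zero] at h1
  have h2 : h 12 = 0 + R.coeff 0 * ((12 + 15).choose 15 : ℕ) + R.coeff 1 * ((11 + 15).choose 15 : ℕ) + R.coeff 2 * ((10 + 15).choose 15 : ℕ) + R.coeff 3 * ((9 + 15).choose 15 : ℕ) + R.coeff 4 * ((8 + 15).choose 15 : ℕ) + R.coeff 5 * ((7 + 15).choose 15 : ℕ) + R.coeff 6 * ((6 + 15).choose 15 : ℕ) + R.coeff 7 * ((5 + 15).choose 15 : ℕ) + R.coeff 8 * ((4 + 15).choose 15 : ℕ) + R.coeff 9 * ((3 + 15).choose 15 : ℕ) + R.coeff 10 * ((2 + 15).choose 15 : ℕ) + R.coeff 11 * ((1 + 15).choose 15 : ℕ) + R.coeff 12 * ((0 + 15).choose 15 : ℕ) := h1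
  rw [ch15_12, ch15_11, ch15_10, ch15_9, ch15_8, ch15_7, ch15_6, ch15_5, ch15_4, ch15_3, ch15_2, ch15_1, ch15_0] at h2
  linarith

lemma cf15_13
    (hR : (PowerSeries.mk h : PowerSeries ℤ) * (1 - PowerSeries.X) ^ (15 + 1) = (R : PowerSeries ℤ)) :
    h 13 = 37442160 * R.coeff 0 + 17383860 * R.coeff 1 + 7726160 * R.coeff 2 + 3268760 * R.coeff 3 + 1307504 * R.coeff 4 + 490314 * R.coeff 5 + 170544 * R.coeff 6 + 54264 * R.coeff 7 + 15504 * R.coeff 8 + 3876 * R.coeff 9 + 816 * R.coeff 10 + 136 * R.coeff 11 + 16 * R.coeff 12 + 1 * R.coeff 13 := by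
  have h1 := Pool.Agent.Q86.Gap.coeff_eq 15 h R hR 13
  simp only [sum_range_succ, sum_range_zero] at h1
  have h2 : h 13 = 0 + R.coeff 0 * ((13 + 15).choose 15 : ℕ) + R.coeff 1 * ((12 + 15).choose 15 : ℕ) + R.coeff 2 * ((11 + 15).choose 15 : ℕ) + R.coeff 3 * ((10 + 15).choose 15 : ℕ) + R.coeff 4 * ((9 + 15).choose 15 : ℕ) + R.coeff 5 * ((8 + 15).choose 15 : ℕ) + R.coeff 6 * ((7 + 15).choose 15 : ℕ) + R.coeff 7 * ((6 + 15).choose 15 : ℕ) + R.coeff 8 * ((5 + 15).choose 15 : ℕ) + R.coeff 9 * ((4 + 15).choose 15 : ℕ) + R.coeff 10 * ((3 + 15).choose 15 : ℕ) + R.coeff 11 * ((2 + 15).choose 15 : ℕ) + R.coeff 12 * ((1 + 15).choose 15 : ℕ) + R.coeff 13 * ((0 + 15).choose 15 : ℕ) := h1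
  rw [ch15_13, ch15_12, ch15_11, ch15_10, ch15_9, ch15_8, ch15_7, ch15_6, ch15_5, ch15_4, ch15_3, ch15_2, ch15_1, ch15_0] at h2
  linarith

end Pool.Agent.Helper9.SC
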