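import Pool.Agent.Helper9.SC16

/-!
# Low dimension
-/

set_option autoImplicit false
set_option linter.unusedVariables false

namespace Pool.Agent.Helper9.SC

open Finset Polynomial

theorem L4_1 {h C : ℕ → ℤ} {F : ℕ → ℕ → ℤ} (H : Data 85 h C F) (hh0 : h 0 = 1) (hh1 : h 1 = 0)
    {R : ℤ[X]} (hR : (PowerSeries.mk h : PowerSeries ℤ) * (1 - PowerSeries.X) ^ (4 + 1) = (R : PowerSeries ℤ))
    (hr : R.reverse = R) (hR1 : 0 < R.eval 1) (hs : R.natDegree = 4) : False := by
  obtain ⟨r0, r1, -, -⟩ := coeffs hR hh0 hh1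
  push_cast at r1
  have y0 : R.coeff 0 = R.coeff 4 := by
    have := sym hr 0 (by omega)
    rwa [hs] at this
  have y1 : R.coeff 1 = R.coeff 3 := by
    have := sym hr 1 (by omega)
    rwa [hs] at this
  have z5 : R.coeff 5 = 0 := coeff_eq_zero_of_natDegree_lt (by omega)
  have z6 : R.coeff 6 = 0 := coeff_eq_zero_of_natDegree_lt (by omega)
  have e2 := cf4_2 hR
  have e3 := cf4_3 hR
  have e4 := cf4_4 hR
  have e5 := cf4_5 hR
  have e6 := cf4_6 hR
  rw [eval_one, hs] at hR1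
  simp only [sum_range_succ, sum_range_zero] at hR1
  have g4 := H.raw4
  have g5 := H.raw5
  have g6 := H.raw6
  have f1 := H.Fsq 2
  have f2 := H.Fle 2 3
  have f3 := H.Fle 2 4
  have f4 := H.Fsq 3
  have q2 := H.prime 2 (by norm_num) {2, 4, 6} (by decide)
  rw [sum_insert (by decide), sum_insert (by decide), sum_singleton] at q2
  have q3 := H.prime 3 (by norm_num) {3, 6} (by decide)
  rw [sum_insert (by decide), sum_singleton] at q3
  have q5 := H.prime 5 (by norm_num) {5} (by decide)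
  rw [sum_singleton] at q5
  exact low4_1 (h 2) (h 3) (h 4) (h 5) (h 6) (R.coeff 2) (C 2) (C 3) (C 4) (C 5) (C 6) (by linarith) (by linarith) (by linarith) (by linarith) (by linarith) (by linarith) (H.hnn 2) (H.hnn 3) (H.hnn 4) (H.hnn 5) (H.hnn 6) (H.Cnn 2) (H.Cnn 3) (H.Cnn 4) (H.Cnn 5) (H.Cnn 6) (by linarith) (by linarith) (by linarith) H.two H.three (by linarith) (by linarith) (by linarith)

theorem L4_2 {h C : ℕ → ℤ} {F : ℕ → ℕ → ℤ} (H : Data 85 h C F) (hh0 : h 0 = 1) (hh1 : h 1 = 0)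
    {R : ℤ[X]} (hR : (PowerSeries.mk h : PowerSeries ℤ) * (1 - PowerSeries.X) ^ (5 + 1) = (R : PowerSeries ℤ))
    (hr : R.reverse = R) (hR1 : 0 < R.eval 1) (hs : R.natDegree = 4) : False := by
  obtain ⟨r0, r1, -, -⟩ := coeffs hR hh0 hh1
  push_cast at r1
  have y0 : R.coeff 0 = R.coeff 4 := by
    have := sym hr 0 (by omega)
    rwa [hs] at this
  have y1 : R.coeff 1 = R.coeff 3 := by
    have := sym hr 1 (by omega)
    rwa [hs] at this
  have z5 : R.coeff 5 = 0 := coeff_eq_zero_of_natDegree_lt (by omega)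
  have z6 : R.coeff 6 = 0 := coeff_eq_zero_of_natDegree_lt (by omega)
  have e2 := cf5_2 hR
  have e3 := cf5_3 hR
  have e4 := cf5_4 hR
  have e5 := cf5_5 hR
  have e6 := cf5_6 hR
  rw [eval_one, hs] at hR1
  simp only [sum_range_succ, sum_range_zero] at hR1
  have g4 := H.raw4
  have g5 := H.raw5
  have g6 := H.raw6
  have f1 := H.Fsq 2
  have f2 := H.Fle 2 3
  have f3 := H.Fle 2 4
  have f4 := H.Fsq 3
  have q2 := H.prime 2 (by norm_num) {2, 4, 6} (by decide)
  rw [sum_insert (by decide), sum_insert (by decide), sum_singleton] at q2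
  have q3 := H.prime 3 (by norm_num) {3, 6} (by decide)
  rw [sum_insert (by decide), sum_singleton] at q3
  have q5 := H.prime 5 (by norm_num) {5} (by decide)
  rw [sum_singleton] at q5
  exact low4_2 (h 2) (h 3) (h 4) (h 5) (h 6) (R.coeff 2) (C 2) (C 3) (C 4) (C 5) (C 6) (by linarith) (by linarith) (by linarith) (by linarith) (by linarith) (by linarith) (H.hnn 2) (H.hnn 3) (H.hnn 4) (H.hnn 5) (H.hnn 6) (H.Cnn 2) (H.Cnn 3) (H.Cnn 4) (H.Cnn 5) (H.Cnn 6) (by linarith) (by linarith) (by linarith) H.two H.three (by linarith) (by linarith) (by linarith)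

theorem L4_3 {h C : ℕ → ℤ} {F : ℕ → ℕ → ℤ} (H : Data 85 h C F) (hh0 : h 0 = 1) (hh1 : h 1 = 0)
    {R : ℤ[X]} (hR : (PowerSeries.mk h : PowerSeries ℤ) * (1 - PowerSeries.X) ^ (6 + 1) = (R : PowerSeries ℤ))
    (hr : R.reverse = R) (hR1 : 0 < R.eval 1) (hs : R.natDegree = 4) : False := by
  obtain ⟨r0, r1, -, -⟩ := coeffs hR hh0 hh1
  push_cast at r1
  have y0 : R.coeff 0 = R.coeff 4 := by
    have := sym hr 0 (by omega)
    rwa [hs] at this
  have y1 : R.coeff 1 = R.coeff 3 := by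
    have := sym hr 1 (by omega)
    rwa [hs] at this
  have z5 : R.coeff 5 = 0 := coeff_eq_zero_of_natDegree_lt (by omega)
  have z6 : R.coeff 6 = 0 := coeff_eq_zero_of_natDegree_lt (by omega)
  have e2 := cf6_2 hR
  have e3 := cf6_3 hR
  have e4 := cf6_4 hR
  have e5 := cf6_5 hR
  have e6 := cf6_6 hR
  rw [eval_one, hs] at hR1
  simp only [sum_range_succ, sum_range_zero] at hR1
  have g4 := H.raw4
  have g5 := H.raw5
  have g6 := H.raw6
  have f1 := H.Fsq 2
  have f2 := H.Fle 2 3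
  have f3 := H.Fle 2 4
  have f4 := H.Fsq 3
  have q2 := H.prime 2 (by norm_num) {2, 4, 6} (by decide)
  rw [sum_insert (by decide), sum_insert (by decide), sum_singleton] at q2
  have q3 := H.prime 3 (by norm_num) {3, 6} (by decide)
  rw [sum_insert (by decide), sum_singleton] at q3
  have q5 := H.prime 5 (by norm_num) {5} (by decide)
  rw [sum_singleton] at q5
  exact low4_3 (h 2) (h 3) (h 4) (h 5) (h 6) (R.coeff 2) (C 2) (C 3) (C 4) (C 5) (C 6) (by linarith) (by linarith) (by linarith) (by linarith) (by linarith) (by linarith) (H.hnn 2) (H.hnn 3) (H.hnn 4) (H.hnn 5) (H.hnn 6) (H.Cnn 2) (H.Cnn 3) (H.Cnn 4) (H.Cnn 5) (H.Cnn 6) (by linarith) (by linarith) (by linarith) H.two H.three (by linarith) (by linarith) (by linarith)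

theorem L4_4 {h C : ℕ → ℤ} {F : ℕ → ℕ → ℤ} (H : Data 85 h C F) (hh0 : h 0 = 1) (hh1 : h 1 = 0)
    {R : ℤ[X]} (hR : (PowerSeries.mk h : PowerSeries ℤ) * (1 - PowerSeries.X) ^ (7 + 1) = (R : PowerSeries ℤ))
    (hr : R.reverse = R) (hR1 : 0 < R.eval 1) (hs : R.natDegree = 4) : False := by
  obtain ⟨r0, r1, -, -⟩ := coeffs hR hh0 hh1
  push_cast at r1
  have y0 : R.coeff 0 = R.coeff 4 := by
    have := sym hr 0 (by omega)
    rwa [hs] at this
  have y1 : R.coeff 1 = R.coeff 3 := by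
    have := sym hr 1 (by omega)
    rwa [hs] at this
  have z5 : R.coeff 5 = 0 := coeff_eq_zero_of_natDegree_lt (by omega)
  have z6 : R.coeff 6 = 0 := coeff_eq_zero_of_natDegree_lt (by omega)
  have e2 := cf7_2 hR
  have e3 := cf7_3 hR
  have e4 := cf7_4 hR
  have e5 := cf7_5 hR
  have e6 := cf7_6 hR
  rw [eval_one, hs] at hR1
  simp only [sum_range_succ, sum_range_zero] at hR1
  have g4 := H.raw4
  have g5 := H.raw5
  have g6 := H.raw6
  have f1 := H.Fsq 2
  have f2 := H.Fle 2 3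
  have f3 := H.Fle 2 4
  have f4 := H.Fsq 3
  have q2 := H.prime 2 (by norm_num) {2, 4, 6} (by decide)
  rw [sum_insert (by decide), sum_insert (by decide), sum_singleton] at q2
  have q3 := H.prime 3 (by norm_num) {3, 6} (by decide)
  rw [sum_insert (by decide), sum_singleton] at q3
  have q5 := H.prime 5 (by norm_num) {5} (by decide)
  rw [sum_singleton] at q5
  exact low4_4 (h 2) (h 3) (h 4) (h 5) (h 6) (R.coeff 2) (C 2) (C 3) (C 4) (C 5) (C 6) (by linarith) (by linarith) (by linarith) (by linarith) (by linarith) (by linarith) (H.hnn 2) (H.hnn 3) (H.hnn 4) (H.hnn 5) (H.hnn 6) (H.Cnn 2) (H.Cnn 3) (H.Cnn 4) (H.Cnn 5) (H.Cnn 6) (by linarith) (by linarith) (by linarith) H.two H.three (by linarith) (by linarith) (by linarith)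

theorem L4_5 {h C : ℕ → ℤ} {F : ℕ → ℕ → ℤ} (H : Data 85 h C F) (hh0 : h 0 = 1) (hh1 : h 1 = 0)
    {R : ℤ[X]} (hR : (PowerSeries.mk h : PowerSeries ℤ) * (1 - PowerSeries.X) ^ (8 + 1) = (R : PowerSeries ℤ))
    (hr : R.reverse = R) (hR1 : 0 < R.eval 1) (hs : R.natDegree = 4) : False := by
  obtain ⟨r0, r1, -, -⟩ := coeffs hR hh0 hh1
  push_cast at r1
  have y0 : R.coeff 0 = R.coeff 4 := by
    have := sym hr 0 (by omega)
    rwa [hs] at this
  have y1 : R.coeff 1 = R.coeff 3 := by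
    have := sym hr 1 (by omega)
    rwa [hs] at this
  have z5 : R.coeff 5 = 0 := coeff_eq_zero_of_natDegree_lt (by omega)
  have z6 : R.coeff 6 = 0 := coeff_eq_zero_of_natDegree_lt (by omega)
  have e2 := cf8_2 hR
  have e3 := cf8_3 hR
  have e4 := cf8_4 hR
  have e5 := cf8_5 hR
  have e6 := cf8_6 hR
  rw [eval_one, hs] at hR1
  simp only [sum_range_succ, sum_range_zero] at hR1
  have g4 := H.raw4
  have g5 := H.raw5
  have g6 := H.raw6
  have f1 := H.Fsq 2
  have f2 := H.Fle 2 3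
  have f3 := H.Fle 2 4
  have f4 := H.Fsq 3
  have q2 := H.prime 2 (by norm_num) {2, 4, 6} (by decide)
  rw [sum_insert (by decide), sum_insert (by decide), sum_singleton] at q2
  have q3 := H.prime 3 (by norm_num) {3, 6} (by decide)
  rw [sum_insert (by decide), sum_singleton] at q3
  have q5 := H.prime 5 (by norm_num) {5} (by decide)
  rw [sum_singleton] at q5
  exact low4_5 (h 2) (h 3) (h 4) (h 5) (h 6) (R.coeff 2) (C 2) (C 3) (C 4) (C 5) (C 6) (by linarith) (by linarith) (by linarith) (by linarith) (by linarith) (by linarith) (H.hnn 2) (H.hnn 3) (H.hnn 4) (H.hnn 5) (H.hnn 6) (H.Cnn 2) (H.Cnn 3) (H.Cnn 4) (H.Cnn 5) (H.Cnn 6) (by linarith) (by linarith) (by linarith) H.two H.three (by linarith) (by linarith) (by linarith)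

theorem L5_1 {h C : ℕ → ℤ} {F : ℕ → ℕ → ℤ} (H : Data 85 h C F) (hh0 : h 0 = 1) (hh1 : h 1 = 0)
    {R : ℤ[X]} (hR : (PowerSeries.mk h : PowerSeries ℤ) * (1 - PowerSeries.X) ^ (5 + 1) = (R : PowerSeries ℤ))
    (hr : R.reverse = R) (hR1 : 0 < R.eval 1) (hs : R.natDegree = 5) : False := by
  obtain ⟨r0, r1, -, -⟩ := coeffs hR hh0 hh1
  push_cast at r1
  have y0 : R.coeff 0 = R.coeff 5 := by
    have := sym hr 0 (by omega)
    rwa [hs] at this
  have y1 : R.coeff 1 = R.coeff 4 := by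
    have := sym hr 1 (by omega)
    rwa [hs] at this
  have y2 : R.coeff 2 = R.coeff 3 := by
    have := sym hr 2 (by omega)
    rwa [hs] at this
  have z6 : R.coeff 6 = 0 := coeff_eq_zero_of_natDegree_lt (by omega)
  have e2 := cf5_2 hR
  have e3 := cf5_3 hR
  have e4 := cf5_4 hR
  have e5 := cf5_5 hR
  have e6 := cf5_6 hR
  rw [eval_one, hs] at hR1
  simp only [sum_range_succ, sum_range_zero] at hR1
  have g4 := H.raw4
  have g5 := H.raw5
  have g6 := H.raw6
  have f1 := H.Fsq 2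
  have f2 := H.Fle 2 3
  have f3 := H.Fle 2 4
  have f4 := H.Fsq 3
  have q2 := H.prime 2 (by norm_num) {2, 4, 6} (by decide)
  rw [sum_insert (by decide), sum_insert (by decide), sum_singleton] at q2
  have q3 := H.prime 3 (by norm_num) {3, 6} (by decide)
  rw [sum_insert (by decide), sum_singleton] at q3
  have q5 := H.prime 5 (by norm_num) {5} (by decide)
  rw [sum_singleton] at q5
  exact low5_1 (h 2) (h 3) (h 4) (h 5) (h 6) (R.coeff 2) (C 2) (C 3) (C 4) (C 5) (C 6) (by linarith) (by linarith) (by linarith) (by linarith) (by linarith) (by linarith) (H.hnn 2) (H.hnn 3) (H.hnn 4) (H.hnn 5) (H.hnn 6) (H.Cnn 2) (H.Cnn 3) (H.Cnn 4) (H.Cnn 5) (H.Cnn 6) (by linarith) (by linarith) (by linarith) H.two H.three (by linarith) (by linarith) (by linarith)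

theorem L5_2 {h C : ℕ → ℤ} {F : ℕ → ℕ → ℤ} (H : Data 85 h C F) (hh0 : h 0 = 1) (hh1 : h 1 = 0)
    {R : ℤ[X]} (hR : (PowerSeries.mk h : PowerSeries ℤ) * (1 - PowerSeries.X) ^ (6 + 1) = (R : PowerSeries ℤ))
    (hr : R.reverse = R) (hR1 : 0 < R.eval 1) (hs : R.natDegree = 5) : False := by
  obtain ⟨r0, r1, -, -⟩ := coeffs hR hh0 hh1
  push_cast at r1
  have y0 : R.coeff 0 = R.coeff 5 := by
    have := sym hr 0 (by omega)
    rwa [hs] at this
  have y1 : R.coeff 1 = R.coeff 4 := by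
    have := sym hr 1 (by omega)
    rwa [hs] at this
  have y2 : R.coeff 2 = R.coeff 3 := by
    have := sym hr 2 (by omega)
    rwa [hs] at this
  have z6 : R.coeff 6 = 0 := coeff_eq_zero_of_natDegree_lt (by omega)
  have e2 := cf6_2 hR
  have e3 := cf6_3 hR
  have e4 := cf6_4 hR
  have e5 := cf6_5 hR
  have e6 := cf6_6 hR
  rw [eval_one, hs] at hR1
  simp only [sum_range_succ, sum_range_zero] at hR1
  have g4 := H.raw4
  have g5 := H.raw5
  have g6 := H.raw6
  have f1 := H.Fsq 2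
  have f2 := H.Fle 2 3
  have f3 := H.Fle 2 4
  have f4 := H.Fsq 3
  have q2 := H.prime 2 (by norm_num) {2, 4, 6} (by decide)
  rw [sum_insert (by decide), sum_insert (by decide), sum_singleton] at q2
  have q3 := H.prime 3 (by norm_num) {3, 6} (by decide)
  rw [sum_insert (by decide), sum_singleton] at q3
  have q5 := H.prime 5 (by norm_num) {5} (by decide)
  rw [sum_singleton] at q5
  exact low5_2 (h 2) (h 3) (h 4) (h 5) (h 6) (R.coeff 2) (C 2) (C 3) (C 4) (C 5) (C 6) (by linarith) (by linarith) (by linarith) (by linarith) (by linarith) (by linarith) (H.hnn 2) (H.hnn 3) (H.hnn 4) (H.hnn 5) (H.hnn 6) (H.Cnn 2) (H.Cnn 3) (H.Cnn 4) (H.Cnn 5) (H.Cnn 6) (by linarith) (by linarith) (by linarith) H.two H.three (by linarith) (by linarith) (by linarith)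

theorem L5_3 {h C : ℕ → ℤ} {F : ℕ → ℕ → ℤ} (H : Data 85 h C F) (hh0 : h 0 = 1) (hh1 : h 1 = 0)
    {R : ℤ[X]} (hR : (PowerSeries.mk h : PowerSeries ℤ) * (1 - PowerSeries.X) ^ (7 + 1) = (R : PowerSeries ℤ))
    (hr : R.reverse = R) (hR1 : 0 < R.eval 1) (hs : R.natDegree = 5) : False := by
  obtain ⟨r0, r1, -, -⟩ := coeffs hR hh0 hh1
  push_cast at r1
  have y0 : R.coeff 0 = R.coeff 5 := by
    have := sym hr 0 (by omega)
    rwa [hs] at this
  have y1 : R.coeff 1 = R.coeff 4 := by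
    have := sym hr 1 (by omega)
    rwa [hs] at this
  have y2 : R.coeff 2 = R.coeff 3 := by
    have := sym hr 2 (by omega)
    rwa [hs] at this
  have z6 : R.coeff 6 = 0 := coeff_eq_zero_of_natDegree_lt (by omega)
  have e2 := cf7_2 hR
  have e3 := cf7_3 hR
  have e4 := cf7_4 hR
  have e5 := cf7_5 hR
  have e6 := cf7_6 hR
  rw [eval_one, hs] at hR1
  simp only [sum_range_succ, sum_range_zero] at hR1
  have g4 := H.raw4
  have g5 := H.raw5
  have g6 := H.raw6
  have f1 := H.Fsq 2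
  have f2 := H.Fle 2 3
  have f3 := H.Fle 2 4
  have f4 := H.Fsq 3
  have q2 := H.prime 2 (by norm_num) {2, 4, 6} (by decide)
  rw [sum_insert (by decide), sum_insert (by decide), sum_singleton] at q2
  have q3 := H.prime 3 (by norm_num) {3, 6} (by decide)
  rw [sum_insert (by decide), sum_singleton] at q3
  have q5 := H.prime 5 (by norm_num) {5} (by decide)
  rw [sum_singleton] at q5
  exact low5_3 (h 2) (h 3) (h 4) (h 5) (h 6) (R.coeff 2) (C 2) (C 3) (C 4) (C 5) (C 6) (by linarith) (by linarith) (by linarith) (by linarith) (by linarith) (by linarith) (H.hnn 2) (H.hnn 3) (H.hnn 4) (H.hnn 5) (H.hnn 6) (H.Cnn 2) (H.Cnn 3) (H.Cnn 4) (H.Cnn 5) (H.Cnn 6) (by linarith) (by linarith) (by linarith) H.two H.three (by linarith) (by linarith) (by linarith)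

theorem L5_4 {h C : ℕ → ℤ} {F : ℕ → ℕ → ℤ} (H : Data 85 h C F) (hh0 : h 0 = 1) (hh1 : h 1 = 0)
    {R : ℤ[X]} (hR : (PowerSeries.mk h : PowerSeries ℤ) * (1 - PowerSeries.X) ^ (8 + 1) = (R : PowerSeries ℤ))
    (hr : R.reverse = R) (hR1 : 0 < R.eval 1) (hs : R.natDegree = 5) : False := by
  obtain ⟨r0, r1, -, -⟩ := coeffs hR hh0 hh1
  push_cast at r1
  have y0 : R.coeff 0 = R.coeff 5 := by
    have := sym hr 0 (by omega)
    rwa [hs] at this
  have y1 : R.coeff 1 = R.coeff 4 := by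
    have := sym hr 1 (by omega)
    rwa [hs] at this
  have y2 : R.coeff 2 = R.coeff 3 := by
    have := sym hr 2 (by omega)
    rwa [hs] at this
  have z6 : R.coeff 6 = 0 := coeff_eq_zero_of_natDegree_lt (by omega)
  have e2 := cf8_2 hR
  have e3 := cf8_3 hR
  have e4 := cf8_4 hR
  have e5 := cf8_5 hR
  have e6 := cf8_6 hR
  rw [eval_one, hs] at hR1
  simp only [sum_range_succ, sum_range_zero] at hR1
  have g4 := H.raw4
  have g5 := H.raw5
  have g6 := H.raw6
  have f1 := H.Fsq 2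
  have f2 := H.Fle 2 3
  have f3 := H.Fle 2 4
  have f4 := H.Fsq 3
  have q2 := H.prime 2 (by norm_num) {2, 4, 6} (by decide)
  rw [sum_insert (by decide), sum_insert (by decide), sum_singleton] at q2
  have q3 := H.prime 3 (by norm_num) {3, 6} (by decide)
  rw [sum_insert (by decide), sum_singleton] at q3
  have q5 := H.prime 5 (by norm_num) {5} (by decide)
  rw [sum_singleton] at q5
  exact low5_4 (h 2) (h 3) (h 4) (h 5) (h 6) (R.coeff 2) (C 2) (C 3) (C 4) (C 5) (C 6) (by linarith) (by linarith) (by linarith) (by linarith) (by linarith) (by linarith) (H.hnn 2) (H.hnn 3) (H.hnn 4) (H.hnn 5) (H.hnn 6) (H.Cnn 2) (H.Cnn 3) (H.Cnn 4) (H.Cnn 5) (H.Cnn 6) (by linarith) (by linarith) (by linarith) H.two H.three (by linarith) (by linarith) (by linarith)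

theorem L5_5 {h C : ℕ → ℤ} {F : ℕ → ℕ → ℤ} (H : Data 85 h C F) (hh0 : h 0 = 1) (hh1 : h 1 = 0)
    {R : ℤ[X]} (hR : (PowerSeries.mk h : PowerSeries ℤ) * (1 - PowerSeries.X) ^ (9 + 1) = (R : PowerSeries ℤ))
    (hr : R.reverse = R) (hR1 : 0 < R.eval 1) (hs : R.natDegree = 5) : False := by
  obtain ⟨r0, r1, -, -⟩ := coeffs hR hh0 hh1
  push_cast at r1
  have y0 : R.coeff 0 = R.coeff 5 := by
    have := sym hr 0 (by omega)
    rwa [hs] at this
  have y1 : R.coeff 1 = R.coeff 4 := by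
    have := sym hr 1 (by omega)
    rwa [hs] at this
  have y2 : R.coeff 2 = R.coeff 3 := by
    have := sym hr 2 (by omega)
    rwa [hs] at this
  have z6 : R.coeff 6 = 0 := coeff_eq_zero_of_natDegree_lt (by omega)
  have e2 := cf9_2 hR
  have e3 := cf9_3 hR
  have e4 := cf9_4 hR
  have e5 := cf9_5 hR
  have e6 := cf9_6 hR
  rw [eval_one, hs] at hR1
  simp only [sum_range_succ, sum_range_zero] at hR1
  have g4 := H.raw4
  have g5 := H.raw5
  have g6 := H.raw6
  have f1 := H.Fsq 2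
  have f2 := H.Fle 2 3
  have f3 := H.Fle 2 4
  have f4 := H.Fsq 3
  have q2 := H.prime 2 (by norm_num) {2, 4, 6} (by decide)
  rw [sum_insert (by decide), sum_insert (by decide), sum_singleton] at q2
  have q3 := H.prime 3 (by norm_num) {3, 6} (by decide)
  rw [sum_insert (by decide), sum_singleton] at q3
  have q5 := H.prime 5 (by norm_num) {5} (by decide)
  rw [sum_singleton] at q5
  exact low5_5 (h 2) (h 3) (h 4) (h 5) (h 6) (R.coeff 2) (C 2) (C 3) (C 4) (C 5) (C 6) (by linarith) (by linarith) (by linarith) (by linarith) (by linarith) (by linarith) (H.hnn 2) (H.hnn 3) (H.hnn 4) (H.hnn 5) (H.hnn 6) (H.Cnn 2) (H.Cnn 3) (H.Cnn 4) (H.Cnn 5) (H.Cnn 6) (by linarith) (by linarith) (by linarith) H.two H.three (by linarith) (by linarith) (by linarith)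

theorem L6_1 {h C : ℕ → ℤ} {F : ℕ → ℕ → ℤ} (H : Data 85 h C F) (hh0 : h 0 = 1) (hh1 : h 1 = 0)
    {R : ℤ[X]} (hR : (PowerSeries.mk h : PowerSeries ℤ) * (1 - PowerSeries.X) ^ (6 + 1) = (R : PowerSeries ℤ))
    (hr : R.reverse = R) (hR1 : 0 < R.eval 1) (hs : R.natDegree = 6) : False := by
  obtain ⟨r0, r1, -, -⟩ := coeffs hR hh0 hh1
  push_cast at r1
  have y0 : R.coeff 0 = R.coeff 6 := by
    have := sym hr 0 (by omega)
    rwa [hs] at this
  have y1 : R.coeff 1 = R.coeff 5 := by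
    have := sym hr 1 (by omega)
    rwa [hs] at this
  have y2 : R.coeff 2 = R.coeff 4 := by
    have := sym hr 2 (by omega)
    rwa [hs] at this
  have e2 := cf6_2 hR
  have e3 := cf6_3 hR
  have e4 := cf6_4 hR
  have e5 := cf6_5 hR
  have e6 := cf6_6 hR
  rw [eval_one, hs] at hR1
  simp only [sum_range_succ, sum_range_zero] at hR1
  have g4 := H.raw4
  have g5 := H.raw5
  have g6 := H.raw6
  have f1 := H.Fsq 2
  have f2 := H.Fle 2 3
  have f3 := H.Fle 2 4
  have f4 := H.Fsq 3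
  have q2 := H.prime 2 (by norm_num) {2, 4, 6} (by decide)
  rw [sum_insert (by decide), sum_insert (by decide), sum_singleton] at q2
  have q3 := H.prime 3 (by norm_num) {3, 6} (by decide)
  rw [sum_insert (by decide), sum_singleton] at q3
  have q5 := H.prime 5 (by norm_num) {5} (by decide)
  rw [sum_singleton] at q5
  exact low6_1 (h 2) (h 3) (h 4) (h 5) (h 6) (R.coeff 2) (R.coeff 3) (C 2) (C 3) (C 4) (C 5) (C 6) (by linarith) (by linarith) (by linarith) (by linarith) (by linarith) (by linarith) (H.hnn 2) (H.hnn 3) (H.hnn 4) (H.hnn 5) (H.hnn 6) (H.Cnn 2) (H.Cnn 3) (H.Cnn 4) (H.Cnn 5) (H.Cnn 6) (by linarith) (by linarith) (by linarith) H.two H.three (by linarith) (by linarith) (by linarith)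

theorem L6_2 {h C : ℕ → ℤ} {F : ℕ → ℕ → ℤ} (H : Data 85 h C F) (hh0 : h 0 = 1) (hh1 : h 1 = 0)
    {R : ℤ[X]} (hR : (PowerSeries.mk h : PowerSeries ℤ) * (1 - PowerSeries.X) ^ (7 + 1) = (R : PowerSeries ℤ))
    (hr : R.reverse = R) (hR1 : 0 < R.eval 1) (hs : R.natDegree = 6) : False := by
  obtain ⟨r0, r1, -, -⟩ := coeffs hR hh0 hh1
  push_cast at r1
  have y0 : R.coeff 0 = R.coeff 6 := by
    have := sym hr 0 (by omega)
    rwa [hs] at this
  have y1 : R.coeff 1 = R.coeff 5 := by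
    have := sym hr 1 (by omega)
    rwa [hs] at this
  have y2 : R.coeff 2 = R.coeff 4 := by
    have := sym hr 2 (by omega)
    rwa [hs] at this
  have e2 := cf7_2 hR
  have e3 := cf7_3 hR
  have e4 := cf7_4 hR
  have e5 := cf7_5 hR
  have e6 := cf7_6 hR
  rw [eval_one, hs] at hR1
  simp only [sum_range_succ, sum_range_zero] at hR1
  have g4 := H.raw4
  have g5 := H.raw5
  have g6 := H.raw6
  have f1 := H.Fsq 2
  have f2 := H.Fle 2 3
  have f3 := H.Fle 2 4
  have f4 := H.Fsq 3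
  have q2 := H.prime 2 (by norm_num) {2, 4, 6} (by decide)
  rw [sum_insert (by decide), sum_insert (by decide), sum_singleton] at q2
  have q3 := H.prime 3 (by norm_num) {3, 6} (by decide)
  rw [sum_insert (by decide), sum_singleton] at q3
  have q5 := H.prime 5 (by norm_num) {5} (by decide)
  rw [sum_singleton] at q5
  exact low6_2 (h 2) (h 3) (h 4) (h 5) (h 6) (R.coeff 2) (R.coeff 3) (C 2) (C 3) (C 4) (C 5) (C 6) (by linarith) (by linarith) (by linarith) (by linarith) (by linarith) (by linarith) (H.hnn 2) (H.hnn 3) (H.hnn 4) (H.hnn 5) (H.hnn 6) (H.Cnn 2) (H.Cnn 3) (H.Cnn 4) (H.Cnn 5) (H.Cnn 6) (by linarith) (by linarith) (by linarith) H.two H.three (by linarith) (by linarith) (by linarith)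

theorem L6_3 {h C : ℕ → ℤ} {F : ℕ → ℕ → ℤ} (H : Data 85 h C F) (hh0 : h 0 = 1) (hh1 : h 1 = 0)
    {R : ℤ[X]} (hR : (PowerSeries.mk h : PowerSeries ℤ) * (1 - PowerSeries.X) ^ (8 + 1) = (R : PowerSeries ℤ))
    (hr : R.reverse = R) (hR1 : 0 < R.eval 1) (hs : R.natDegree = 6) : False := by
  obtain ⟨r0, r1, -, -⟩ := coeffs hR hh0 hh1
  push_cast at r1
  have y0 : R.coeff 0 = R.coeff 6 := by
    have := sym hr 0 (by omega)
    rwa [hs] at this
  have y1 : R.coeff 1 = R.coeff 5 := by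
    have := sym hr 1 (by omega)
    rwa [hs] at this
  have y2 : R.coeff 2 = R.coeff 4 := by
    have := sym hr 2 (by omega)
    rwa [hs] at this
  have e2 := cf8_2 hR
  have e3 := cf8_3 hR
  have e4 := cf8_4 hR
  have e5 := cf8_5 hR
  have e6 := cf8_6 hR
  rw [eval_one, hs] at hR1
  simp only [sum_range_succ, sum_range_zero] at hR1
  have g4 := H.raw4
  have g5 := H.raw5
  have g6 := H.raw6
  have f1 := H.Fsq 2
  have f2 := H.Fle 2 3
  have f3 := H.Fle 2 4
  have f4 := H.Fsq 3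
  have q2 := H.prime 2 (by norm_num) {2, 4, 6} (by decide)
  rw [sum_insert (by decide), sum_insert (by decide), sum_singleton] at q2
  have q3 := H.prime 3 (by norm_num) {3, 6} (by decide)
  rw [sum_insert (by decide), sum_singleton] at q3
  have q5 := H.prime 5 (by norm_num) {5} (by decide)
  rw [sum_singleton] at q5
  exact low6_3 (h 2) (h 3) (h 4) (h 5) (h 6) (R.coeff 2) (R.coeff 3) (C 2) (C 3) (C 4) (C 5) (C 6) (by linarith) (by linarith) (by linarith) (by linarith) (by linarith) (by linarith) (H.hnn 2) (H.hnn 3) (H.hnn 4) (H.hnn 5) (H.hnn 6) (H.Cnn 2) (H.Cnn 3) (H.Cnn 4) (H.Cnn 5) (H.Cnn 6) (by linarith) (by linarith) (by linarith) H.two H.three (by linarith) (by linarith) (by linarith)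

theorem L6_4 {h C : ℕ → ℤ} {F : ℕ → ℕ → ℤ} (H : Data 85 h C F) (hh0 : h 0 = 1) (hh1 : h 1 = 0)
    {R : ℤ[X]} (hR : (PowerSeries.mk h : PowerSeries ℤ) * (1 - PowerSeries.X) ^ (9 + 1) = (R : PowerSeries ℤ))
    (hr : R.reverse = R) (hR1 : 0 < R.eval 1) (hs : R.natDegree = 6) : False := by
  obtain ⟨r0, r1, -, -⟩ := coeffs hR hh0 hh1
  push_cast at r1
  have y0 : R.coeff 0 = R.coeff 6 := by
    have := sym hr 0 (by omega)
    rwa [hs] at this
  have y1 : R.coeff 1 = R.coeff 5 := by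
    have := sym hr 1 (by omega)
    rwa [hs] at this
  have y2 : R.coeff 2 = R.coeff 4 := by
    have := sym hr 2 (by omega)
    rwa [hs] at this
  have e2 := cf9_2 hR
  have e3 := cf9_3 hR
  have e4 := cf9_4 hR
  have e5 := cf9_5 hR
  have e6 := cf9_6 hR
  rw [eval_one, hs] at hR1
  simp only [sum_range_succ, sum_range_zero] at hR1
  have g4 := H.raw4
  have g5 := H.raw5
  have g6 := H.raw6
  have f1 := H.Fsq 2
  have f2 := H.Fle 2 3
  have f3 := H.Fle 2 4
  have f4 := H.Fsq 3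
  have q2 := H.prime 2 (by norm_num) {2, 4, 6} (by decide)
  rw [sum_insert (by decide), sum_insert (by decide), sum_singleton] at q2
  have q3 := H.prime 3 (by norm_num) {3, 6} (by decide)
  rw [sum_insert (by decide), sum_singleton] at q3
  have q5 := H.prime 5 (by norm_num) {5} (by decide)
  rw [sum_singleton] at q5
  exact low6_4 (h 2) (h 3) (h 4) (h 5) (h 6) (R.coeff 2) (R.coeff 3) (C 2) (C 3) (C 4) (C 5) (C 6) (by linarith) (by linarith) (by linarith) (by linarith) (by linarith) (by linarith) (H.hnn 2) (H.hnn 3) (H.hnn 4) (H.hnn 5) (H.hnn 6) (H.Cnn 2) (H.Cnn 3) (H.Cnn 4) (H.Cnn 5) (H.Cnn 6) (by linarith) (by linarith) (by linarith) H.two H.three (by linarith) (by linarith) (by linarith)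

theorem L6_5 {h C : ℕ → ℤ} {F : ℕ → ℕ → ℤ} (H : Data 85 h C F) (hh0 : h 0 = 1) (hh1 : h 1 = 0)
    {R : ℤ[X]} (hR : (PowerSeries.mk h : PowerSeries ℤ) * (1 - PowerSeries.X) ^ (10 + 1) = (R : PowerSeries ℤ))
    (hr : R.reverse = R) (hR1 : 0 < R.eval 1) (hs : R.natDegree = 6) : False := by
  obtain ⟨r0, r1, -, -⟩ := coeffs hR hh0 hh1
  push_cast at r1
  have y0 : R.coeff 0 = R.coeff 6 := by
    have := sym hr 0 (by omega)
    rwa [hs] at this
  have y1 : R.coeff 1 = R.coeff 5 := by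
    have := sym hr 1 (by omega)
    rwa [hs] at this
  have y2 : R.coeff 2 = R.coeff 4 := by
    have := sym hr 2 (by omega)
    rwa [hs] at this
  have e2 := cf10_2 hR
  have e3 := cf10_3 hR
  have e4 := cf10_4 hR
  have e5 := cf10_5 hR
  have e6 := cf10_6 hR
  rw [eval_one, hs] at hR1
  simp only [sum_range_succ, sum_range_zero] at hR1
  have g4 := H.raw4
  have g5 := H.raw5
  have g6 := H.raw6
  have f1 := H.Fsq 2
  have f2 := H.Fle 2 3
  have f3 := H.Fle 2 4
  have f4 := H.Fsq 3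
  have q2 := H.prime 2 (by norm_num) {2, 4, 6} (by decide)
  rw [sum_insert (by decide), sum_insert (by decide), sum_singleton] at q2
  have q3 := H.prime 3 (by norm_num) {3, 6} (by decide)
  rw [sum_insert (by decide), sum_singleton] at q3
  have q5 := H.prime 5 (by norm_num) {5} (by decide)
  rw [sum_singleton] at q5
  exact low6_5 (h 2) (h 3) (h 4) (h 5) (h 6) (R.coeff 2) (R.coeff 3) (C 2) (C 3) (C 4) (C 5) (C 6) (by linarith) (by linarith) (by linarith) (by linarith) (by linarith) (by linarith) (H.hnn 2) (H.hnn 3) (H.hnn 4) (H.hnn 5) (H.hnn 6) (H.Cnn 2) (H.Cnn 3) (H.Cnn 4) (H.Cnn 5) (H.Cnn 6) (by linarith) (by linarith) (by linarith) H.two H.three (by linarith) (by linarith) (by linarith)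

theorem L7_1 {h C : ℕ → ℤ} {F : ℕ → ℕ → ℤ} (H : Data 85 h C F) (hh0 : h 0 = 1) (hh1 : h 1 = 0)
    {R : ℤ[X]} (hR : (PowerSeries.mk h : PowerSeries ℤ) * (1 - PowerSeries.X) ^ (7 + 1) = (R : PowerSeries ℤ))
    (hr : R.reverse = R) (hR1 : 0 < R.eval 1) (hs : R.natDegree = 7) : False := by
  obtain ⟨r0, r1, -, -⟩ := coeffs hR hh0 hh1
  push_cast at r1
  have y0 : R.coeff 0 = R.coeff 7 := by
    have := sym hr 0 (by omega)
    rwa [hs] at this
  have y1 : R.coeff 1 = R.coeff 6 := by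
    have := sym hr 1 (by omega)
    rwa [hs] at this
  have y2 : R.coeff 2 = R.coeff 5 := by
    have := sym hr 2 (by omega)
    rwa [hs] at this
  have y3 : R.coeff 3 = R.coeff 4 := by
    have := sym hr 3 (by omega)
    rwa [hs] at this
  have e2 := cf7_2 hR
  have e3 := cf7_3 hR
  have e4 := cf7_4 hR
  have e5 := cf7_5 hR
  have e6 := cf7_6 hR
  rw [eval_one, hs] at hR1
  simp only [sum_range_succ, sum_range_zero] at hR1
  have g4 := H.raw4
  have g5 := H.raw5
  have g6 := H.raw6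
  have f1 := H.Fsq 2
  have f2 := H.Fle 2 3
  have f3 := H.Fle 2 4
  have f4 := H.Fsq 3
  have q2 := H.prime 2 (by norm_num) {2, 4, 6} (by decide)
  rw [sum_insert (by decide), sum_insert (by decide), sum_singleton] at q2
  have q3 := H.prime 3 (by norm_num) {3, 6} (by decide)
  rw [sum_insert (by decide), sum_singleton] at q3
  have q5 := H.prime 5 (by norm_num) {5} (by decide)
  rw [sum_singleton] at q5
  exact low7_1 (h 2) (h 3) (h 4) (h 5) (h 6) (R.coeff 2) (R.coeff 3) (C 2) (C 3) (C 4) (C 5) (C 6) (by linarith) (by linarith) (by linarith) (by linarith) (by linarith) (by linarith) (H.hnn 2) (H.hnn 3) (H.hnn 4) (H.hnn 5) (H.hnn 6) (H.Cnn 2) (H.Cnn 3) (H.Cnn 4) (H.Cnn 5) (H.Cnn 6) (by linarith) (by linarith) (by linarith) H.two H.three (by linarith) (by linarith) (by linarith)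

theorem L7_2 {h C : ℕ → ℤ} {F : ℕ → ℕ → ℤ} (H : Data 85 h C F) (hh0 : h 0 = 1) (hh1 : h 1 = 0)
    {R : ℤ[X]} (hR : (PowerSeries.mk h : PowerSeries ℤ) * (1 - PowerSeries.X) ^ (8 + 1) = (R : PowerSeries ℤ))
    (hr : R.reverse = R) (hR1 : 0 < R.eval 1) (hs : R.natDegree = 7) : False := by
  obtain ⟨r0, r1, -, -⟩ := coeffs hR hh0 hh1
  push_cast at r1
  have y0 : R.coeff 0 = R.coeff 7 := by
    have := sym hr 0 (by omega)
    rwa [hs] at this
  have y1 : R.coeff 1 = R.coeff 6 := by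
    have := sym hr 1 (by omega)
    rwa [hs] at this
  have y2 : R.coeff 2 = R.coeff 5 := by
    have := sym hr 2 (by omega)
    rwa [hs] at this
  have y3 : R.coeff 3 = R.coeff 4 := by
    have := sym hr 3 (by omega)
    rwa [hs] at this
  have e2 := cf8_2 hR
  have e3 := cf8_3 hR
  have e4 := cf8_4 hR
  have e5 := cf8_5 hR
  have e6 := cf8_6 hR
  rw [eval_one, hs] at hR1
  simp only [sum_range_succ, sum_range_zero] at hR1
  have g4 := H.raw4
  have g5 := H.raw5
  have g6 := H.raw6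
  have f1 := H.Fsq 2
  have f2 := H.Fle 2 3
  have f3 := H.Fle 2 4
  have f4 := H.Fsq 3
  have q2 := H.prime 2 (by norm_num) {2, 4, 6} (by decide)
  rw [sum_insert (by decide), sum_insert (by decide), sum_singleton] at q2
  have q3 := H.prime 3 (by norm_num) {3, 6} (by decide)
  rw [sum_insert (by decide), sum_singleton] at q3
  have q5 := H.prime 5 (by norm_num) {5} (by decide)
  rw [sum_singleton] at q5
  exact low7_2 (h 2) (h 3) (h 4) (h 5) (h 6) (R.coeff 2) (R.coeff 3) (C 2) (C 3) (C 4) (C 5) (C 6) (by linarith) (by linarith) (by linarith) (by linarith) (by linarith) (by linarith) (H.hnn 2) (H.hnn 3) (H.hnn 4) (H.hnn 5) (H.hnn 6) (H.Cnn 2) (H.Cnn 3) (H.Cnn 4) (H.Cnn 5) (H.Cnn 6) (by linarith) (by linarith) (by linarith) H.two H.three (by linarith) (by linarith) (by linarith)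

theorem L7_3 {h C : ℕ → ℤ} {F : ℕ → ℕ → ℤ} (H : Data 85 h C F) (hh0 : h 0 = 1) (hh1 : h 1 = 0)
    {R : ℤ[X]} (hR : (PowerSeries.mk h : PowerSeries ℤ) * (1 - PowerSeries.X) ^ (9 + 1) = (R : PowerSeries ℤ))
    (hr : R.reverse = R) (hR1 : 0 < R.eval 1) (hs : R.natDegree = 7) : False := by
  obtain ⟨r0, r1, -, -⟩ := coeffs hR hh0 hh1
  push_cast at r1
  have y0 : R.coeff 0 = R.coeff 7 := by
    have := sym hr 0 (by omega)
    rwa [hs] at this
  have y1 : R.coeff 1 = R.coeff 6 := by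
    have := sym hr 1 (by omega)
    rwa [hs] at this
  have y2 : R.coeff 2 = R.coeff 5 := by
    have := sym hr 2 (by omega)
    rwa [hs] at this
  have y3 : R.coeff 3 = R.coeff 4 := by
    have := sym hr 3 (by omega)
    rwa [hs] at this
  have e2 := cf9_2 hR
  have e3 := cf9_3 hR
  have e4 := cf9_4 hR
  have e5 := cf9_5 hR
  have e6 := cf9_6 hR
  rw [eval_one, hs] at hR1
  simp only [sum_range_succ, sum_range_zero] at hR1
  have g4 := H.raw4
  have g5 := H.raw5
  have g6 := H.raw6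
  have f1 := H.Fsq 2
  have f2 := H.Fle 2 3
  have f3 := H.Fle 2 4
  have f4 := H.Fsq 3
  have q2 := H.prime 2 (by norm_num) {2, 4, 6} (by decide)
  rw [sum_insert (by decide), sum_insert (by decide), sum_singleton] at q2
  have q3 := H.prime 3 (by norm_num) {3, 6} (by decide)
  rw [sum_insert (by decide), sum_singleton] at q3
  have q5 := H.prime 5 (by norm_num) {5} (by decide)
  rw [sum_singleton] at q5
  exact low7_3 (h 2) (h 3) (h 4) (h 5) (h 6) (R.coeff 2) (R.coeff 3) (C 2) (C 3) (C 4) (C 5) (C 6) (by linarith) (by linarith) (by linarith) (by linarith) (by linarith) (by linarith) (H.hnn 2) (H.hnn 3) (H.hnn 4) (H.hnn 5) (H.hnn 6) (H.Cnn 2) (H.Cnn 3) (H.Cnn 4) (H.Cnn 5) (H.Cnn 6) (by linarith) (by linarith) (by linarith) H.two H.three (by linarith) (by linarith) (by linarith)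

theorem L7_4 {h C : ℕ → ℤ} {F : ℕ → ℕ → ℤ} (H : Data 85 h C F) (hh0 : h 0 = 1) (hh1 : h 1 = 0)
    {R : ℤ[X]} (hR : (PowerSeries.mk h : PowerSeries ℤ) * (1 - PowerSeries.X) ^ (10 + 1) = (R : PowerSeries ℤ))
    (hr : R.reverse = R) (hR1 : 0 < R.eval 1) (hs : R.natDegree = 7) : False := by
  obtain ⟨r0, r1, -, -⟩ := coeffs hR hh0 hh1
  push_cast at r1
  have y0 : R.coeff 0 = R.coeff 7 := by
    have := sym hr 0 (by omega)
    rwa [hs] at this
  have y1 : R.coeff 1 = R.coeff 6 := by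
    have := sym hr 1 (by omega)
    rwa [hs] at this
  have y2 : R.coeff 2 = R.coeff 5 := by
    have := sym hr 2 (by omega)
    rwa [hs] at this
  have y3 : R.coeff 3 = R.coeff 4 := by
    have := sym hr 3 (by omega)
    rwa [hs] at this
  have e2 := cf10_2 hR
  have e3 := cf10_3 hR
  have e4 := cf10_4 hR
  have e5 := cf10_5 hR
  have e6 := cf10_6 hR
  rw [eval_one, hs] at hR1
  simp only [sum_range_succ, sum_range_zero] at hR1
  have g4 := H.raw4
  have g5 := H.raw5
  have g6 := H.raw6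
  have f1 := H.Fsq 2
  have f2 := H.Fle 2 3
  have f3 := H.Fle 2 4
  have f4 := H.Fsq 3
  have q2 := H.prime 2 (by norm_num) {2, 4, 6} (by decide)
  rw [sum_insert (by decide), sum_insert (by decide), sum_singleton] at q2
  have q3 := H.prime 3 (by norm_num) {3, 6} (by decide)
  rw [sum_insert (by decide), sum_singleton] at q3
  have q5 := H.prime 5 (by norm_num) {5} (by decide)
  rw [sum_singleton] at q5
  exact low7_4 (h 2) (h 3) (h 4) (h 5) (h 6) (R.coeff 2) (R.coeff 3) (C 2) (C 3) (C 4) (C 5) (C 6) (by linarith) (by linarith) (by linarith) (by linarith) (by linarith) (by linarith) (H.hnn 2) (H.hnn 3) (H.hnn 4) (H.hnn 5) (H.hnn 6) (H.Cnn 2) (H.Cnn 3) (H.Cnn 4) (H.Cnn 5) (H.Cnn 6) (by linarith) (by linarith) (by linarith) H.two H.three (by linarith) (by linarith) (by linarith)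

theorem L7_5 {h C : ℕ → ℤ} {F : ℕ → ℕ → ℤ} (H : Data 85 h C F) (hh0 : h 0 = 1) (hh1 : h 1 = 0)
    {R : ℤ[X]} (hR : (PowerSeries.mk h : PowerSeries ℤ) * (1 - PowerSeries.X) ^ (11 + 1) = (R : PowerSeries ℤ))
    (hr : R.reverse = R) (hR1 : 0 < R.eval 1) (hs : R.natDegree = 7) : False := by
  obtain ⟨r0, r1, -, -⟩ := coeffs hR hh0 hh1
  push_cast at r1
  have y0 : R.coeff 0 = R.coeff 7 := by
    have := sym hr 0 (by omega)
    rwa [hs] at this
  have y1 : R.coeff 1 = R.coeff 6 := by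
    have := sym hr 1 (by omega)
    rwa [hs] at this
  have y2 : R.coeff 2 = R.coeff 5 := by
    have := sym hr 2 (by omega)
    rwa [hs] at this
  have y3 : R.coeff 3 = R.coeff 4 := by
    have := sym hr 3 (by omega)
    rwa [hs] at this
  have e2 := cf11_2 hR
  have e3 := cf11_3 hR
  have e4 := cf11_4 hR
  have e5 := cf11_5 hR
  have e6 := cf11_6 hR
  rw [eval_one, hs] at hR1
  simp only [sum_range_succ, sum_range_zero] at hR1
  have g4 := H.raw4
  have g5 := H.raw5
  have g6 := H.raw6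
  have f1 := H.Fsq 2
  have f2 := H.Fle 2 3
  have f3 := H.Fle 2 4
  have f4 := H.Fsq 3
  have q2 := H.prime 2 (by norm_num) {2, 4, 6} (by decide)
  rw [sum_insert (by decide), sum_insert (by decide), sum_singleton] at q2
  have q3 := H.prime 3 (by norm_num) {3, 6} (by decide)
  rw [sum_insert (by decide), sum_singleton] at q3
  have q5 := H.prime 5 (by norm_num) {5} (by decide)
  rw [sum_singleton] at q5
  exact low7_5 (h 2) (h 3) (h 4) (h 5) (h 6) (R.coeff 2) (R.coeff 3) (C 2) (C 3) (C 4) (C 5) (C 6) (by linarith) (by linarith) (by linarith) (by linarith) (by linarith) (by linarith) (H.hnn 2) (H.hnn 3) (H.hnn 4) (H.hnn 5) (H.hnn 6) (H.Cnn 2) (H.Cnn 3) (H.Cnn 4) (H.Cnn 5) (H.Cnn 6) (by linarith) (by linarith) (by linarith) H.two H.three (by linarith) (by linarith) (by linarith)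

end Pool.Agent.Helper9.SC
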