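import Pool.Agent.Helper9.SC16

/-!
# Small codimension
-/

set_option autoImplicit false
set_option linter.unusedVariables false

namespace Pool.Agent.Helper9.SC

open Finset Polynomial

set_option maxHeartbeats 4000000

lemma t9_8 (h2 h3 h4 h5 h6 h7 r2 r3 r4 c4 c5 c6 c7 : ℤ)
    (e2 : h2 = 1 * r2 + (-36))
    (e3 : h3 = 9 * r2 + 1 * r3 + (-240))
    (e4 : h4 = 45 * r2 + 9 * r3 + 1 * r4 + (-990))
    (e5 : h5 = 165 * r2 + 46 * r3 + 9 * r4 + (-3168))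
    (e6 : h6 = 496 * r2 + 174 * r3 + 45 * r4 + (-8580))
    (e7 : h7 = 1296 * r2 + 540 * r3 + 165 * r4 + (-20601))
    (hl : 0 < 2 * r2 + 2 * r3 + 1 * r4 + (-16))
    (p2 : 0 ≤ h2) (p3 : 0 ≤ h3) (p4 : 0 ≤ h4) (p5 : 0 ≤ h5) (p6 : 0 ≤ h6) (p7 : 0 ≤ h7)
    (k4 : 0 ≤ c4) (k5 : 0 ≤ c5) (k6 : 0 ≤ c6) (k7 : 0 ≤ c7)
    (m2 : h2 + c4 + c6 ≤ 11)
    (m3 : h3 + c6 ≤ 11)
    (m5 : c5 ≤ 11)
    (m7 : c7 ≤ 11)
    (g4 : 4 * h4 ≤ 4 * c4 + (2 * (h2 * (h2 + 1))))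
    (g5 : 4 * h5 ≤ 4 * c5 + (4 * (h2 * h3)))
    (g6 : 4 * h6 ≤ 4 * c6 + (4 * (h2 * h4) + 2 * (h3 * (h3 + 1))))
    (g7 : 4 * h7 ≤ 4 * c7 + (4 * (h2 * h5) + 4 * (h3 * h4)))
    : False := by
  have hb2 : h2 ≤ 11 := by omega
  have hb3 : h3 ≤ 11 := by omega
  have q1 : h3 * (h3 + 1) ≤ h3 * 12 := mul_le_mul_of_nonneg_left (by omega) p3
  have q4 : h3 * h4 ≤ 11 * h4 := mul_le_mul_of_nonneg_right hb3 p4
  have q5 : h3 * h5 ≤ 11 * h5 := mul_le_mul_of_nonneg_right hb3 p5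
  interval_cases h2 <;> first | omega | (interval_cases h3 <;> omega)

theorem S9_8 {h C : ℕ → ℤ} {F : ℕ → ℕ → ℤ} (H : Data 11 h C F) (hh0 : h 0 = 1) (hh1 : h 1 = 0)
    {R : ℤ[X]} (hR : (PowerSeries.mk h : PowerSeries ℤ) * (1 - PowerSeries.X) ^ (8 + 1) = (R : PowerSeries ℤ))
    (hr : R.reverse = R) (hR1 : 0 < R.eval 1) (hs : R.natDegree = 8) : False := by
  obtain ⟨r0, r1, -, -⟩ := coeffs hR hh0 hh1
  push_cast at r1
  have y0 : R.coeff 0 = R.coeff 8 := by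
    have := sym hr 0 (by omega)
    rwa [hs] at this
  have y1 : R.coeff 1 = R.coeff 7 := by
    have := sym hr 1 (by omega)
    rwa [hs] at this
  have y2 : R.coeff 2 = R.coeff 6 := by
    have := sym hr 2 (by omega)
    rwa [hs] at this
  have y3 : R.coeff 3 = R.coeff 5 := by
    have := sym hr 3 (by omega)
    rwa [hs] at this
  have e2 := cf8_2 hR
  have e3 := cf8_3 hR
  have e4 := cf8_4 hR
  have e5 := cf8_5 hR
  have e6 := cf8_6 hR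
  have e7 := cf8_7 hR
  rw [eval_one, hs] at hR1
  simp only [sum_range_succ, sum_range_zero] at hR1
  have v2 := H.two
  have v3 := H.three
  have q2 := H.prime 2 (by norm_num) {2, 4, 6} (by decide)
  rw [sum_insert (by decide), sum_insert (by decide), sum_singleton] at q2
  have q3 := H.prime 3 (by norm_num) {3, 6} (by decide)
  rw [sum_insert (by decide), sum_singleton] at q3
  have q5 := H.prime 5 (by norm_num) {5} (by decide)
  rw [sum_singleton] at q5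
  have q7 := H.prime 7 (by norm_num) {7} (by decide)
  rw [sum_singleton] at q7
  exact t9_8 (h 2) (h 3) (h 4) (h 5) (h 6) (h 7) (R.coeff 2) (R.coeff 3) (R.coeff 4) (C 4) (C 5) (C 6) (C 7) (by linarith) (by linarith) (by linarith) (by linarith) (by linarith) (by linarith) (by linarith) (H.hnn 2) (H.hnn 3) (H.hnn 4) (H.hnn 5) (H.hnn 6) (H.hnn 7) (H.Cnn 4) (H.Cnn 5) (H.Cnn 6) (H.Cnn 7) (by linarith) (by linarith) (by linarith) (by linarith) H.g4 H.g5 H.g6 H.g7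

lemma t10_8 (h2 h3 h4 h5 h6 r2 r3 r4 c4 c5 c6 : ℤ)
    (e2 : h2 = 1 * r2 + (-45))
    (e3 : h3 = 10 * r2 + 1 * r3 + (-330))
    (e4 : h4 = 55 * r2 + 10 * r3 + 1 * r4 + (-1485))
    (e5 : h5 = 220 * r2 + 56 * r3 + 10 * r4 + (-5148))
    (e6 : h6 = 716 * r2 + 230 * r3 + 55 * r4 + (-15015))
    (hl : 0 < 2 * r2 + 2 * r3 + 1 * r4 + (-18))
    (p2 : 0 ≤ h2) (p3 : 0 ≤ h3) (p4 : 0 ≤ h4) (p5 : 0 ≤ h5) (p6 : 0 ≤ h6)
    (k4 : 0 ≤ c4) (k5 : 0 ≤ c5) (k6 : 0 ≤ c6)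
    (m2 : h2 + c4 + c6 ≤ 11)
    (m3 : h3 + c6 ≤ 11)
    (m5 : c5 ≤ 11)
    (g4 : 4 * h4 ≤ 4 * c4 + (2 * (h2 * (h2 + 1))))
    (g5 : 4 * h5 ≤ 4 * c5 + (4 * (h2 * h3)))
    (g6 : 4 * h6 ≤ 4 * c6 + (4 * (h2 * h4) + 2 * (h3 * (h3 + 1))))
    : False := by
  have hb2 : h2 ≤ 11 := by omega
  have hb3 : h3 ≤ 11 := by omega
  have q1 : h3 * (h3 + 1) ≤ h3 * 12 := mul_le_mul_of_nonneg_left (by omega) p3
  have q4 : h3 * h4 ≤ 11 * h4 := mul_le_mul_of_nonneg_right hb3 p4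
  interval_cases h2 <;> first | omega | (interval_cases h3 <;> omega)

theorem S10_8 {h C : ℕ → ℤ} {F : ℕ → ℕ → ℤ} (H : Data 11 h C F) (hh0 : h 0 = 1) (hh1 : h 1 = 0)
    {R : ℤ[X]} (hR : (PowerSeries.mk h : PowerSeries ℤ) * (1 - PowerSeries.X) ^ (9 + 1) = (R : PowerSeries ℤ))
    (hr : R.reverse = R) (hR1 : 0 < R.eval 1) (hs : R.natDegree = 8) : False := by
  obtain ⟨r0, r1, -, -⟩ := coeffs hR hh0 hh1
  push_cast at r1
  have y0 : R.coeff 0 = R.coeff 8 := by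
    have := sym hr 0 (by omega)
    rwa [hs] at this
  have y1 : R.coeff 1 = R.coeff 7 := by
    have := sym hr 1 (by omega)
    rwa [hs] at this
  have y2 : R.coeff 2 = R.coeff 6 := by
    have := sym hr 2 (by omega)
    rwa [hs] at this
  have y3 : R.coeff 3 = R.coeff 5 := by
    have := sym hr 3 (by omega)
    rwa [hs] at this
  have e2 := cf9_2 hR
  have e3 := cf9_3 hR
  have e4 := cf9_4 hR
  have e5 := cf9_5 hR
  have e6 := cf9_6 hR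
  rw [eval_one, hs] at hR1
  simp only [sum_range_succ, sum_range_zero] at hR1
  have v2 := H.two
  have v3 := H.three
  have q2 := H.prime 2 (by norm_num) {2, 4, 6} (by decide)
  rw [sum_insert (by decide), sum_insert (by decide), sum_singleton] at q2
  have q3 := H.prime 3 (by norm_num) {3, 6} (by decide)
  rw [sum_insert (by decide), sum_singleton] at q3
  have q5 := H.prime 5 (by norm_num) {5} (by decide)
  rw [sum_singleton] at q5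
  exact t10_8 (h 2) (h 3) (h 4) (h 5) (h 6) (R.coeff 2) (R.coeff 3) (R.coeff 4) (C 4) (C 5) (C 6) (by linarith) (by linarith) (by linarith) (by linarith) (by linarith) (by linarith) (H.hnn 2) (H.hnn 3) (H.hnn 4) (H.hnn 5) (H.hnn 6) (H.Cnn 4) (H.Cnn 5) (H.Cnn 6) (by linarith) (by linarith) (by linarith) H.g4 H.g5 H.g6

lemma t10_9 (h2 h3 h4 h5 h6 r2 r3 r4 c4 c5 c6 : ℤ)
    (e2 : h2 = 1 * r2 + (-45))
    (e3 : h3 = 10 * r2 + 1 * r3 + (-330))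
    (e4 : h4 = 55 * r2 + 10 * r3 + 1 * r4 + (-1485))
    (e5 : h5 = 220 * r2 + 55 * r3 + 11 * r4 + (-5148))
    (e6 : h6 = 715 * r2 + 221 * r3 + 65 * r4 + (-15015))
    (hl : 0 < 2 * r2 + 2 * r3 + 2 * r4 + (-18))
    (p2 : 0 ≤ h2) (p3 : 0 ≤ h3) (p4 : 0 ≤ h4) (p5 : 0 ≤ h5) (p6 : 0 ≤ h6)
    (k4 : 0 ≤ c4) (k5 : 0 ≤ c5) (k6 : 0 ≤ c6)
    (m2 : h2 + c4 + c6 ≤ 11)
    (m3 : h3 + c6 ≤ 11)
    (m5 : c5 ≤ 11)
    (g4 : 4 * h4 ≤ 4 * c4 + (2 * (h2 * (h2 + 1))))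
    (g5 : 4 * h5 ≤ 4 * c5 + (4 * (h2 * h3)))
    (g6 : 4 * h6 ≤ 4 * c6 + (4 * (h2 * h4) + 2 * (h3 * (h3 + 1))))
    : False := by
  have hb2 : h2 ≤ 11 := by omega
  have hb3 : h3 ≤ 11 := by omega
  have q1 : h3 * (h3 + 1) ≤ h3 * 12 := mul_le_mul_of_nonneg_left (by omega) p3
  have q4 : h3 * h4 ≤ 11 * h4 := mul_le_mul_of_nonneg_right hb3 p4
  interval_cases h2 <;> first | omega | (interval_cases h3 <;> omega)

theorem S10_9 {h C : ℕ → ℤ} {F : ℕ → ℕ → ℤ} (H : Data 11 h C F) (hh0 : h 0 = 1) (hh1 : h 1 = 0)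
    {R : ℤ[X]} (hR : (PowerSeries.mk h : PowerSeries ℤ) * (1 - PowerSeries.X) ^ (9 + 1) = (R : PowerSeries ℤ))
    (hr : R.reverse = R) (hR1 : 0 < R.eval 1) (hs : R.natDegree = 9) : False := by
  obtain ⟨r0, r1, -, -⟩ := coeffs hR hh0 hh1
  push_cast at r1
  have y0 : R.coeff 0 = R.coeff 9 := by
    have := sym hr 0 (by omega)
    rwa [hs] at this
  have y1 : R.coeff 1 = R.coeff 8 := by
    have := sym hr 1 (by omega)
    rwa [hs] at this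
  have y2 : R.coeff 2 = R.coeff 7 := by
    have := sym hr 2 (by omega)
    rwa [hs] at this
  have y3 : R.coeff 3 = R.coeff 6 := by
    have := sym hr 3 (by omega)
    rwa [hs] at this
  have y4 : R.coeff 4 = R.coeff 5 := by
    have := sym hr 4 (by omega)
    rwa [hs] at this
  have e2 := cf9_2 hR
  have e3 := cf9_3 hR
  have e4 := cf9_4 hR
  have e5 := cf9_5 hR
  have e6 := cf9_6 hR
  rw [eval_one, hs] at hR1
  simp only [sum_range_succ, sum_range_zero] at hR1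
  have v2 := H.two
  have v3 := H.three
  have q2 := H.prime 2 (by norm_num) {2, 4, 6} (by decide)
  rw [sum_insert (by decide), sum_insert (by decide), sum_singleton] at q2
  have q3 := H.prime 3 (by norm_num) {3, 6} (by decide)
  rw [sum_insert (by decide), sum_singleton] at q3
  have q5 := H.prime 5 (by norm_num) {5} (by decide)
  rw [sum_singleton] at q5
  exact t10_9 (h 2) (h 3) (h 4) (h 5) (h 6) (R.coeff 2) (R.coeff 3) (R.coeff 4) (C 4) (C 5) (C 6) (by linarith) (by linarith) (by linarith) (by linarith) (by linarith) (by linarith) (H.hnn 2) (H.hnn 3) (H.hnn 4) (H.hnn 5) (H.hnn 6) (H.Cnn 4) (H.Cnn 5) (H.Cnn 6) (by linarith) (by linarith) (by linarith) H.g4 H.g5 H.g6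

lemma t11_8 (h2 h3 h4 h5 h6 r2 r3 r4 c4 c5 c6 : ℤ)
    (e2 : h2 = 1 * r2 + (-55))
    (e3 : h3 = 11 * r2 + 1 * r3 + (-440))
    (e4 : h4 = 66 * r2 + 11 * r3 + 1 * r4 + (-2145))
    (e5 : h5 = 286 * r2 + 67 * r3 + 11 * r4 + (-8008))
    (e6 : h6 = 1002 * r2 + 297 * r3 + 66 * r4 + (-25025))
    (hl : 0 < 2 * r2 + 2 * r3 + 1 * r4 + (-20))
    (p2 : 0 ≤ h2) (p3 : 0 ≤ h3) (p4 : 0 ≤ h4) (p5 : 0 ≤ h5) (p6 : 0 ≤ h6)
    (k4 : 0 ≤ c4) (k5 : 0 ≤ c5) (k6 : 0 ≤ c6)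
    (m2 : h2 + c4 + c6 ≤ 11)
    (m3 : h3 + c6 ≤ 11)
    (m5 : c5 ≤ 11)
    (g4 : 4 * h4 ≤ 4 * c4 + (2 * (h2 * (h2 + 1))))
    (g5 : 4 * h5 ≤ 4 * c5 + (4 * (h2 * h3)))
    (g6 : 4 * h6 ≤ 4 * c6 + (4 * (h2 * h4) + 2 * (h3 * (h3 + 1))))
    : False := by
  have hb2 : h2 ≤ 11 := by omega
  have hb3 : h3 ≤ 11 := by omega
  have q1 : h3 * (h3 + 1) ≤ h3 * 12 := mul_le_mul_of_nonneg_left (by omega) p3
  have q4 : h3 * h4 ≤ 11 * h4 := mul_le_mul_of_nonneg_right hb3 p4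
  interval_cases h2 <;> first | omega | (interval_cases h3 <;> omega)

theorem S11_8 {h C : ℕ → ℤ} {F : ℕ → ℕ → ℤ} (H : Data 11 h C F) (hh0 : h 0 = 1) (hh1 : h 1 = 0)
    {R : ℤ[X]} (hR : (PowerSeries.mk h : PowerSeries ℤ) * (1 - PowerSeries.X) ^ (10 + 1) = (R : PowerSeries ℤ))
    (hr : R.reverse = R) (hR1 : 0 < R.eval 1) (hs : R.natDegree = 8) : False := by
  obtain ⟨r0, r1, -, -⟩ := coeffs hR hh0 hh1
  push_cast at r1
  have y0 : R.coeff 0 = R.coeff 8 := by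
    have := sym hr 0 (by omega)
    rwa [hs] at this
  have y1 : R.coeff 1 = R.coeff 7 := by
    have := sym hr 1 (by omega)
    rwa [hs] at this
  have y2 : R.coeff 2 = R.coeff 6 := by
    have := sym hr 2 (by omega)
    rwa [hs] at this
  have y3 : R.coeff 3 = R.coeff 5 := by
    have := sym hr 3 (by omega)
    rwa [hs] at this
  have e2 := cf10_2 hR
  have e3 := cf10_3 hR
  have e4 := cf10_4 hR
  have e5 := cf10_5 hR
  have e6 := cf10_6 hR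
  rw [eval_one, hs] at hR1
  simp only [sum_range_succ, sum_range_zero] at hR1
  have v2 := H.two
  have v3 := H.three
  have q2 := H.prime 2 (by norm_num) {2, 4, 6} (by decide)
  rw [sum_insert (by decide), sum_insert (by decide), sum_singleton] at q2
  have q3 := H.prime 3 (by norm_num) {3, 6} (by decide)
  rw [sum_insert (by decide), sum_singleton] at q3
  have q5 := H.prime 5 (by norm_num) {5} (by decide)
  rw [sum_singleton] at q5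
  exact t11_8 (h 2) (h 3) (h 4) (h 5) (h 6) (R.coeff 2) (R.coeff 3) (R.coeff 4) (C 4) (C 5) (C 6) (by linarith) (by linarith) (by linarith) (by linarith) (by linarith) (by linarith) (H.hnn 2) (H.hnn 3) (H.hnn 4) (H.hnn 5) (H.hnn 6) (H.Cnn 4) (H.Cnn 5) (H.Cnn 6) (by linarith) (by linarith) (by linarith) H.g4 H.g5 H.g6

lemma t11_9 (h2 h3 h4 h5 h6 r2 r3 r4 c4 c5 c6 : ℤ)
    (e2 : h2 = 1 * r2 + (-55))
    (e3 : h3 = 11 * r2 + 1 * r3 + (-440))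
    (e4 : h4 = 66 * r2 + 11 * r3 + 1 * r4 + (-2145))
    (e5 : h5 = 286 * r2 + 66 * r3 + 12 * r4 + (-8008))
    (e6 : h6 = 1001 * r2 + 287 * r3 + 77 * r4 + (-25025))
    (hl : 0 < 2 * r2 + 2 * r3 + 2 * r4 + (-20))
    (p2 : 0 ≤ h2) (p3 : 0 ≤ h3) (p4 : 0 ≤ h4) (p5 : 0 ≤ h5) (p6 : 0 ≤ h6)
    (k4 : 0 ≤ c4) (k5 : 0 ≤ c5) (k6 : 0 ≤ c6)
    (m2 : h2 + c4 + c6 ≤ 11)
    (m3 : h3 + c6 ≤ 11)
    (m5 : c5 ≤ 11)
    (g4 : 4 * h4 ≤ 4 * c4 + (2 * (h2 * (h2 + 1))))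
    (g5 : 4 * h5 ≤ 4 * c5 + (4 * (h2 * h3)))
    (g6 : 4 * h6 ≤ 4 * c6 + (4 * (h2 * h4) + 2 * (h3 * (h3 + 1))))
    : False := by
  have hb2 : h2 ≤ 11 := by omega
  have hb3 : h3 ≤ 11 := by omega
  have q1 : h3 * (h3 + 1) ≤ h3 * 12 := mul_le_mul_of_nonneg_left (by omega) p3
  have q4 : h3 * h4 ≤ 11 * h4 := mul_le_mul_of_nonneg_right hb3 p4
  interval_cases h2 <;> first | omega | (interval_cases h3 <;> omega)

theorem S11_9 {h C : ℕ → ℤ} {F : ℕ → ℕ → ℤ} (H : Data 11 h C F) (hh0 : h 0 = 1) (hh1 : h 1 = 0)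
    {R : ℤ[X]} (hR : (PowerSeries.mk h : PowerSeries ℤ) * (1 - PowerSeries.X) ^ (10 + 1) = (R : PowerSeries ℤ))
    (hr : R.reverse = R) (hR1 : 0 < R.eval 1) (hs : R.natDegree = 9) : False := by
  obtain ⟨r0, r1, -, -⟩ := coeffs hR hh0 hh1
  push_cast at r1
  have y0 : R.coeff 0 = R.coeff 9 := by
    have := sym hr 0 (by omega)
    rwa [hs] at this
  have y1 : R.coeff 1 = R.coeff 8 := by
    have := sym hr 1 (by omega)
    rwa [hs] at this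
  have y2 : R.coeff 2 = R.coeff 7 := by
    have := sym hr 2 (by omega)
    rwa [hs] at this
  have y3 : R.coeff 3 = R.coeff 6 := by
    have := sym hr 3 (by omega)
    rwa [hs] at this
  have y4 : R.coeff 4 = R.coeff 5 := by
    have := sym hr 4 (by omega)
    rwa [hs] at this
  have e2 := cf10_2 hR
  have e3 := cf10_3 hR
  have e4 := cf10_4 hR
  have e5 := cf10_5 hR
  have e6 := cf10_6 hR
  rw [eval_one, hs] at hR1
  simp only [sum_range_succ, sum_range_zero] at hR1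
  have v2 := H.two
  have v3 := H.three
  have q2 := H.prime 2 (by norm_num) {2, 4, 6} (by decide)
  rw [sum_insert (by decide), sum_insert (by decide), sum_singleton] at q2
  have q3 := H.prime 3 (by norm_num) {3, 6} (by decide)
  rw [sum_insert (by decide), sum_singleton] at q3
  have q5 := H.prime 5 (by norm_num) {5} (by decide)
  rw [sum_singleton] at q5
  exact t11_9 (h 2) (h 3) (h 4) (h 5) (h 6) (R.coeff 2) (R.coeff 3) (R.coeff 4) (C 4) (C 5) (C 6) (by linarith) (by linarith) (by linarith) (by linarith) (by linarith) (by linarith) (H.hnn 2) (H.hnn 3) (H.hnn 4) (H.hnn 5) (H.hnn 6) (H.Cnn 4) (H.Cnn 5) (H.Cnn 6) (by linarith) (by linarith) (by linarith) H.g4 H.g5 H.g6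

lemma t11_10 (h2 h3 h4 h5 h6 h7 h8 r2 r3 r4 r5 c4 c5 c6 c7 c8 : ℤ)
    (e2 : h2 = 1 * r2 + (-55))
    (e3 : h3 = 11 * r2 + 1 * r3 + (-440))
    (e4 : h4 = 66 * r2 + 11 * r3 + 1 * r4 + (-2145))
    (e5 : h5 = 286 * r2 + 66 * r3 + 11 * r4 + 1 * r5 + (-8008))
    (e6 : h6 = 1001 * r2 + 286 * r3 + 67 * r4 + 11 * r5 + (-25025))
    (e7 : h7 = 3003 * r2 + 1002 * r3 + 297 * r4 + 66 * r5 + (-68640))
    (e8 : h8 = 8009 * r2 + 3014 * r3 + 1067 * r4 + 286 * r5 + (-170170))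
    (hl : 0 < 2 * r2 + 2 * r3 + 2 * r4 + 1 * r5 + (-20))
    (p2 : 0 ≤ h2) (p3 : 0 ≤ h3) (p4 : 0 ≤ h4) (p5 : 0 ≤ h5) (p6 : 0 ≤ h6) (p7 : 0 ≤ h7) (p8 : 0 ≤ h8)
    (k4 : 0 ≤ c4) (k5 : 0 ≤ c5) (k6 : 0 ≤ c6) (k7 : 0 ≤ c7) (k8 : 0 ≤ c8)
    (m2 : h2 + c4 + c6 + c8 ≤ 11)
    (m3 : h3 + c6 ≤ 11)
    (m5 : c5 ≤ 11)
    (m7 : c7 ≤ 11)
    (g4 : 4 * h4 ≤ 4 * c4 + (2 * (h2 * (h2 + 1))))
    (g5 : 4 * h5 ≤ 4 * c5 + (4 * (h2 * h3)))
    (g6 : 4 * h6 ≤ 4 * c6 + (4 * (h2 * h4) + 2 * (h3 * (h3 + 1))))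
    (g7 : 4 * h7 ≤ 4 * c7 + (4 * (h2 * h5) + 4 * (h3 * h4)))
    (g8 : 4 * h8 ≤ 4 * c8 + (4 * (h2 * h6) + 4 * (h3 * h5) + ((22 - 2 * h2 + h2 * (h2 + 1)) + 2) * h4))
    : False := by
  have hb2 : h2 ≤ 11 := by omega
  have hb3 : h3 ≤ 11 := by omega
  have q1 : h3 * (h3 + 1) ≤ h3 * 12 := mul_le_mul_of_nonneg_left (by omega) p3
  have q4 : h3 * h4 ≤ 11 * h4 := mul_le_mul_of_nonneg_right hb3 p4
  have q5 : h3 * h5 ≤ 11 * h5 := mul_le_mul_of_nonneg_right hb3 p5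
  have q6 : h3 * h6 ≤ 11 * h6 := mul_le_mul_of_nonneg_right hb3 p6
  interval_cases h2 <;> first | omega | (interval_cases h3 <;> omega)

theorem S11_10 {h C : ℕ → ℤ} {F : ℕ → ℕ → ℤ} (H : Data 11 h C F) (hh0 : h 0 = 1) (hh1 : h 1 = 0)
    {R : ℤ[X]} (hR : (PowerSeries.mk h : PowerSeries ℤ) * (1 - PowerSeries.X) ^ (10 + 1) = (R : PowerSeries ℤ))
    (hr : R.reverse = R) (hR1 : 0 < R.eval 1) (hs : R.natDegree = 10) : False := by
  obtain ⟨r0, r1, -, -⟩ := coeffs hR hh0 hh1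
  push_cast at r1
  have y0 : R.coeff 0 = R.coeff 10 := by
    have := sym hr 0 (by omega)
    rwa [hs] at this
  have y1 : R.coeff 1 = R.coeff 9 := by
    have := sym hr 1 (by omega)
    rwa [hs] at this
  have y2 : R.coeff 2 = R.coeff 8 := by
    have := sym hr 2 (by omega)
    rwa [hs] at this
  have y3 : R.coeff 3 = R.coeff 7 := by
    have := sym hr 3 (by omega)
    rwa [hs] at this
  have y4 : R.coeff 4 = R.coeff 6 := by
    have := sym hr 4 (by omega)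
    rwa [hs] at this
  have e2 := cf10_2 hR
  have e3 := cf10_3 hR
  have e4 := cf10_4 hR
  have e5 := cf10_5 hR
  have e6 := cf10_6 hR
  have e7 := cf10_7 hR
  have e8 := cf10_8 hR
  rw [eval_one, hs] at hR1
  simp only [sum_range_succ, sum_range_zero] at hR1
  have v2 := H.two
  have v3 := H.three
  have q2 := H.prime 2 (by norm_num) {2, 4, 6, 8} (by decide)
  rw [sum_insert (by decide), sum_insert (by decide), sum_insert (by decide), sum_singleton] at q2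
  have q3 := H.prime 3 (by norm_num) {3, 6} (by decide)
  rw [sum_insert (by decide), sum_singleton] at q3
  have q5 := H.prime 5 (by norm_num) {5} (by decide)
  rw [sum_singleton] at q5
  have q7 := H.prime 7 (by norm_num) {7} (by decide)
  rw [sum_singleton] at q7
  exact t11_10 (h 2) (h 3) (h 4) (h 5) (h 6) (h 7) (h 8) (R.coeff 2) (R.coeff 3) (R.coeff 4) (R.coeff 5) (C 4) (C 5) (C 6) (C 7) (C 8) (by linarith) (by linarith) (by linarith) (by linarith) (by linarith) (by linarith) (by linarith) (by linarith) (H.hnn 2) (H.hnn 3) (H.hnn 4) (H.hnn 5) (H.hnn 6) (H.hnn 7) (H.hnn 8) (H.Cnn 4) (H.Cnn 5) (H.Cnn 6) (H.Cnn 7) (H.Cnn 8) (by linarith) (by linarith) (by linarith) (by linarith) H.g4 H.g5 H.g6 H.g7 H.g8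

end Pool.Agent.Helper9.SC
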