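import Pool.Agent.Helper9.SC16

/-!
# Small codimension
-/

set_option autoImplicit false
set_option linter.unusedVariables false

namespace Pool.Agent.Helper9.SC

open Finset Polynomial

set_option maxHeartbeats 4000000

lemma t12_8 (h2 h3 h4 h5 h6 r2 r3 r4 c4 c5 c6 : ℤ)
    (e2 : h2 = 1 * r2 + (-66))
    (e3 : h3 = 12 * r2 + 1 * r3 + (-572))
    (e4 : h4 = 78 * r2 + 12 * r3 + 1 * r4 + (-3003))
    (e5 : h5 = 364 * r2 + 79 * r3 + 12 * r4 + (-12012))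
    (e6 : h6 = 1366 * r2 + 376 * r3 + 78 * r4 + (-40040))
    (hl : 0 < 2 * r2 + 2 * r3 + 1 * r4 + (-22))
    (p2 : 0 ≤ h2) (p3 : 0 ≤ h3) (p4 : 0 ≤ h4) (p5 : 0 ≤ h5) (p6 : 0 ≤ h6)
    (k4 : 0 ≤ c4) (k5 : 0 ≤ c5) (k6 : 0 ≤ c6)
    (m2 : h2 + c4 + c6 ≤ 11)
    (m3 : h3 + c6 ≤ 11)
    (m5 : c5 ≤ 11)
    (g4 : 4 * h4 ≤ 4 * c4 + (2 * (h2 * (h2 + 1))))
    (g5 : 4 * h5 ≤ 4 * c5 + (4 * (h2 * h3)))
    (g6 : 4 * h6 ≤ 4 * c6 + (4 * (h2 * h4) + 2 * (h3 * (h3 + 1))))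
    : False := by
  have hb2 : h2 ≤ 11 := by omega
  have hb3 : h3 ≤ 11 := by omega
  have q1 : h3 * (h3 + 1) ≤ h3 * 12 := mul_le_mul_of_nonneg_left (by omega) p3
  have q4 : h3 * h4 ≤ 11 * h4 := mul_le_mul_of_nonneg_right hb3 p4
  interval_cases h2 <;> first | omega | (interval_cases h3 <;> omega)

theorem S12_8 {h C : ℕ → ℤ} {F : ℕ → ℕ → ℤ} (H : Data 11 h C F) (hh0 : h 0 = 1) (hh1 : h 1 = 0)
    {R : ℤ[X]} (hR : (PowerSeries.mk h : PowerSeries ℤ) * (1 - PowerSeries.X) ^ (11 + 1) = (R : PowerSeries ℤ))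
    (hr : R.reverse = R) (hR1 : 0 < R.eval 1) (hs : R.natDegree = 8) : False := by
  obtain ⟨r0, r1, -, -⟩ := coeffs hR hh0 hh1
  push_cast at r1
  have y0 : R.coeff 0 = R.coeff 8 := by
    have := sym hr 0 (by omega)
    rwa [hs] at this
  have y1 : R.coeff 1 = R.coeff 7 := by
    have := sym hr 1 (by omega)
    rwa [hs] at this
  have y2 : R.coeff 2 = R.coeff 6 := by
    have := sym hr 2 (by omega)
    rwa [hs] at this
  have y3 : R.coeff 3 = R.coeff 5 := by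
    have := sym hr 3 (by omega)
    rwa [hs] at this
  have e2 := cf11_2 hR
  have e3 := cf11_3 hR
  have e4 := cf11_4 hR
  have e5 := cf11_5 hR
  have e6 := cf11_6 hR
  rw [eval_one, hs] at hR1
  simp only [sum_range_succ, sum_range_zero] at hR1
  have v2 := H.two
  have v3 := H.three
  have q2 := H.prime 2 (by norm_num) {2, 4, 6} (by decide)
  rw [sum_insert (by decide), sum_insert (by decide), sum_singleton] at q2
  have q3 := H.prime 3 (by norm_num) {3, 6} (by decide)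
  rw [sum_insert (by decide), sum_singleton] at q3
  have q5 := H.prime 5 (by norm_num) {5} (by decide)
  rw [sum_singleton] at q5
  exact t12_8 (h 2) (h 3) (h 4) (h 5) (h 6) (R.coeff 2) (R.coeff 3) (R.coeff 4) (C 4) (C 5) (C 6) (by linarith) (by linarith) (by linarith) (by linarith) (by linarith) (by linarith) (H.hnn 2) (H.hnn 3) (H.hnn 4) (H.hnn 5) (H.hnn 6) (H.Cnn 4) (H.Cnn 5) (H.Cnn 6) (by linarith) (by linarith) (by linarith) H.g4 H.g5 H.g6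

lemma t12_9 (h2 h3 h4 h5 h6 r2 r3 r4 c4 c5 c6 : ℤ)
    (e2 : h2 = 1 * r2 + (-66))
    (e3 : h3 = 12 * r2 + 1 * r3 + (-572))
    (e4 : h4 = 78 * r2 + 12 * r3 + 1 * r4 + (-3003))
    (e5 : h5 = 364 * r2 + 78 * r3 + 13 * r4 + (-12012))
    (e6 : h6 = 1365 * r2 + 365 * r3 + 90 * r4 + (-40040))
    (hl : 0 < 2 * r2 + 2 * r3 + 2 * r4 + (-22))
    (p2 : 0 ≤ h2) (p3 : 0 ≤ h3) (p4 : 0 ≤ h4) (p5 : 0 ≤ h5) (p6 : 0 ≤ h6)
    (k4 : 0 ≤ c4) (k5 : 0 ≤ c5) (k6 : 0 ≤ c6)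
    (m2 : h2 + c4 + c6 ≤ 11)
    (m3 : h3 + c6 ≤ 11)
    (m5 : c5 ≤ 11)
    (g4 : 4 * h4 ≤ 4 * c4 + (2 * (h2 * (h2 + 1))))
    (g5 : 4 * h5 ≤ 4 * c5 + (4 * (h2 * h3)))
    (g6 : 4 * h6 ≤ 4 * c6 + (4 * (h2 * h4) + 2 * (h3 * (h3 + 1))))
    : False := by
  have hb2 : h2 ≤ 11 := by omega
  have hb3 : h3 ≤ 11 := by omega
  have q1 : h3 * (h3 + 1) ≤ h3 * 12 := mul_le_mul_of_nonneg_left (by omega) p3
  have q4 : h3 * h4 ≤ 11 * h4 := mul_le_mul_of_nonneg_right hb3 p4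
  interval_cases h2 <;> first | omega | (interval_cases h3 <;> omega)

theorem S12_9 {h C : ℕ → ℤ} {F : ℕ → ℕ → ℤ} (H : Data 11 h C F) (hh0 : h 0 = 1) (hh1 : h 1 = 0)
    {R : ℤ[X]} (hR : (PowerSeries.mk h : PowerSeries ℤ) * (1 - PowerSeries.X) ^ (11 + 1) = (R : PowerSeries ℤ))
    (hr : R.reverse = R) (hR1 : 0 < R.eval 1) (hs : R.natDegree = 9) : False := by
  obtain ⟨r0, r1, -, -⟩ := coeffs hR hh0 hh1
  push_cast at r1
  have y0 : R.coeff 0 = R.coeff 9 := by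
    have := sym hr 0 (by omega)
    rwa [hs] at this
  have y1 : R.coeff 1 = R.coeff 8 := by
    have := sym hr 1 (by omega)
    rwa [hs] at this
  have y2 : R.coeff 2 = R.coeff 7 := by
    have := sym hr 2 (by omega)
    rwa [hs] at this
  have y3 : R.coeff 3 = R.coeff 6 := by
    have := sym hr 3 (by omega)
    rwa [hs] at this
  have y4 : R.coeff 4 = R.coeff 5 := by
    have := sym hr 4 (by omega)
    rwa [hs] at this
  have e2 := cf11_2 hR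
  have e3 := cf11_3 hR
  have e4 := cf11_4 hR
  have e5 := cf11_5 hR
  have e6 := cf11_6 hR
  rw [eval_one, hs] at hR1
  simp only [sum_range_succ, sum_range_zero] at hR1
  have v2 := H.two
  have v3 := H.three
  have q2 := H.prime 2 (by norm_num) {2, 4, 6} (by decide)
  rw [sum_insert (by decide), sum_insert (by decide), sum_singleton] at q2
  have q3 := H.prime 3 (by norm_num) {3, 6} (by decide)
  rw [sum_insert (by decide), sum_singleton] at q3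
  have q5 := H.prime 5 (by norm_num) {5} (by decide)
  rw [sum_singleton] at q5
  exact t12_9 (h 2) (h 3) (h 4) (h 5) (h 6) (R.coeff 2) (R.coeff 3) (R.coeff 4) (C 4) (C 5) (C 6) (by linarith) (by linarith) (by linarith) (by linarith) (by linarith) (by linarith) (H.hnn 2) (H.hnn 3) (H.hnn 4) (H.hnn 5) (H.hnn 6) (H.Cnn 4) (H.Cnn 5) (H.Cnn 6) (by linarith) (by linarith) (by linarith) H.g4 H.g5 H.g6

lemma t12_10 (h2 h3 h4 h5 h6 r2 r3 r4 r5 c4 c5 c6 : ℤ)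
    (e2 : h2 = 1 * r2 + (-66))
    (e3 : h3 = 12 * r2 + 1 * r3 + (-572))
    (e4 : h4 = 78 * r2 + 12 * r3 + 1 * r4 + (-3003))
    (e5 : h5 = 364 * r2 + 78 * r3 + 12 * r4 + 1 * r5 + (-12012))
    (e6 : h6 = 1365 * r2 + 364 * r3 + 79 * r4 + 12 * r5 + (-40040))
    (hl : 0 < 2 * r2 + 2 * r3 + 2 * r4 + 1 * r5 + (-22))
    (p2 : 0 ≤ h2) (p3 : 0 ≤ h3) (p4 : 0 ≤ h4) (p5 : 0 ≤ h5) (p6 : 0 ≤ h6)
    (k4 : 0 ≤ c4) (k5 : 0 ≤ c5) (k6 : 0 ≤ c6)
    (m2 : h2 + c4 + c6 ≤ 11)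
    (m3 : h3 + c6 ≤ 11)
    (m5 : c5 ≤ 11)
    (g4 : 4 * h4 ≤ 4 * c4 + (2 * (h2 * (h2 + 1))))
    (g5 : 4 * h5 ≤ 4 * c5 + (4 * (h2 * h3)))
    (g6 : 4 * h6 ≤ 4 * c6 + (4 * (h2 * h4) + 2 * (h3 * (h3 + 1))))
    : False := by
  have hb2 : h2 ≤ 11 := by omega
  have hb3 : h3 ≤ 11 := by omega
  have q1 : h3 * (h3 + 1) ≤ h3 * 12 := mul_le_mul_of_nonneg_left (by omega) p3
  have q4 : h3 * h4 ≤ 11 * h4 := mul_le_mul_of_nonneg_right hb3 p4
  interval_cases h2 <;> first | omega | (interval_cases h3 <;> omega)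

theorem S12_10 {h C : ℕ → ℤ} {F : ℕ → ℕ → ℤ} (H : Data 11 h C F) (hh0 : h 0 = 1) (hh1 : h 1 = 0)
    {R : ℤ[X]} (hR : (PowerSeries.mk h : PowerSeries ℤ) * (1 - PowerSeries.X) ^ (11 + 1) = (R : PowerSeries ℤ))
    (hr : R.reverse = R) (hR1 : 0 < R.eval 1) (hs : R.natDegree = 10) : False := by
  obtain ⟨r0, r1, -, -⟩ := coeffs hR hh0 hh1
  push_cast at r1
  have y0 : R.coeff 0 = R.coeff 10 := by
    have := sym hr 0 (by omega)
    rwa [hs] at this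
  have y1 : R.coeff 1 = R.coeff 9 := by
    have := sym hr 1 (by omega)
    rwa [hs] at this
  have y2 : R.coeff 2 = R.coeff 8 := by
    have := sym hr 2 (by omega)
    rwa [hs] at this
  have y3 : R.coeff 3 = R.coeff 7 := by
    have := sym hr 3 (by omega)
    rwa [hs] at this
  have y4 : R.coeff 4 = R.coeff 6 := by
    have := sym hr 4 (by omega)
    rwa [hs] at this
  have e2 := cf11_2 hR
  have e3 := cf11_3 hR
  have e4 := cf11_4 hR
  have e5 := cf11_5 hR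
  have e6 := cf11_6 hR
  rw [eval_one, hs] at hR1
  simp only [sum_range_succ, sum_range_zero] at hR1
  have v2 := H.two
  have v3 := H.three
  have q2 := H.prime 2 (by norm_num) {2, 4, 6} (by decide)
  rw [sum_insert (by decide), sum_insert (by decide), sum_singleton] at q2
  have q3 := H.prime 3 (by norm_num) {3, 6} (by decide)
  rw [sum_insert (by decide), sum_singleton] at q3
  have q5 := H.prime 5 (by norm_num) {5} (by decide)
  rw [sum_singleton] at q5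
  exact t12_10 (h 2) (h 3) (h 4) (h 5) (h 6) (R.coeff 2) (R.coeff 3) (R.coeff 4) (R.coeff 5) (C 4) (C 5) (C 6) (by linarith) (by linarith) (by linarith) (by linarith) (by linarith) (by linarith) (H.hnn 2) (H.hnn 3) (H.hnn 4) (H.hnn 5) (H.hnn 6) (H.Cnn 4) (H.Cnn 5) (H.Cnn 6) (by linarith) (by linarith) (by linarith) H.g4 H.g5 H.g6

lemma t12_11 (h2 h3 h4 h5 h6 r2 r3 r4 r5 c4 c5 c6 : ℤ)
    (e2 : h2 = 1 * r2 + (-66))
    (e3 : h3 = 12 * r2 + 1 * r3 + (-572))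
    (e4 : h4 = 78 * r2 + 12 * r3 + 1 * r4 + (-3003))
    (e5 : h5 = 364 * r2 + 78 * r3 + 12 * r4 + 1 * r5 + (-12012))
    (e6 : h6 = 1365 * r2 + 364 * r3 + 78 * r4 + 13 * r5 + (-40040))
    (hl : 0 < 2 * r2 + 2 * r3 + 2 * r4 + 2 * r5 + (-22))
    (p2 : 0 ≤ h2) (p3 : 0 ≤ h3) (p4 : 0 ≤ h4) (p5 : 0 ≤ h5) (p6 : 0 ≤ h6)
    (k4 : 0 ≤ c4) (k5 : 0 ≤ c5) (k6 : 0 ≤ c6)
    (m2 : h2 + c4 + c6 ≤ 11)
    (m3 : h3 + c6 ≤ 11)
    (m5 : c5 ≤ 11)
    (g4 : 4 * h4 ≤ 4 * c4 + (2 * (h2 * (h2 + 1))))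
    (g5 : 4 * h5 ≤ 4 * c5 + (4 * (h2 * h3)))
    (g6 : 4 * h6 ≤ 4 * c6 + (4 * (h2 * h4) + 2 * (h3 * (h3 + 1))))
    : False := by
  have hb2 : h2 ≤ 11 := by omega
  have hb3 : h3 ≤ 11 := by omega
  have q1 : h3 * (h3 + 1) ≤ h3 * 12 := mul_le_mul_of_nonneg_left (by omega) p3
  have q4 : h3 * h4 ≤ 11 * h4 := mul_le_mul_of_nonneg_right hb3 p4
  interval_cases h2 <;> first | omega | (interval_cases h3 <;> omega)

theorem S12_11 {h C : ℕ → ℤ} {F : ℕ → ℕ → ℤ} (H : Data 11 h C F) (hh0 : h 0 = 1) (hh1 : h 1 = 0)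
    {R : ℤ[X]} (hR : (PowerSeries.mk h : PowerSeries ℤ) * (1 - PowerSeries.X) ^ (11 + 1) = (R : PowerSeries ℤ))
    (hr : R.reverse = R) (hR1 : 0 < R.eval 1) (hs : R.natDegree = 11) : False := by
  obtain ⟨r0, r1, -, -⟩ := coeffs hR hh0 hh1
  push_cast at r1
  have y0 : R.coeff 0 = R.coeff 11 := by
    have := sym hr 0 (by omega)
    rwa [hs] at this
  have y1 : R.coeff 1 = R.coeff 10 := by
    have := sym hr 1 (by omega)
    rwa [hs] at this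
  have y2 : R.coeff 2 = R.coeff 9 := by
    have := sym hr 2 (by omega)
    rwa [hs] at this
  have y3 : R.coeff 3 = R.coeff 8 := by
    have := sym hr 3 (by omega)
    rwa [hs] at this
  have y4 : R.coeff 4 = R.coeff 7 := by
    have := sym hr 4 (by omega)
    rwa [hs] at this
  have y5 : R.coeff 5 = R.coeff 6 := by
    have := sym hr 5 (by omega)
    rwa [hs] at this
  have e2 := cf11_2 hR
  have e3 := cf11_3 hR
  have e4 := cf11_4 hR
  have e5 := cf11_5 hR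
  have e6 := cf11_6 hR
  rw [eval_one, hs] at hR1
  simp only [sum_range_succ, sum_range_zero] at hR1
  have v2 := H.two
  have v3 := H.three
  have q2 := H.prime 2 (by norm_num) {2, 4, 6} (by decide)
  rw [sum_insert (by decide), sum_insert (by decide), sum_singleton] at q2
  have q3 := H.prime 3 (by norm_num) {3, 6} (by decide)
  rw [sum_insert (by decide), sum_singleton] at q3
  have q5 := H.prime 5 (by norm_num) {5} (by decide)
  rw [sum_singleton] at q5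
  exact t12_11 (h 2) (h 3) (h 4) (h 5) (h 6) (R.coeff 2) (R.coeff 3) (R.coeff 4) (R.coeff 5) (C 4) (C 5) (C 6) (by linarith) (by linarith) (by linarith) (by linarith) (by linarith) (by linarith) (H.hnn 2) (H.hnn 3) (H.hnn 4) (H.hnn 5) (H.hnn 6) (H.Cnn 4) (H.Cnn 5) (H.Cnn 6) (by linarith) (by linarith) (by linarith) H.g4 H.g5 H.g6

end Pool.Agent.Helper9.SC
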