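import Pool.Agent.Helper9.SC16

/-!
# Small codimension
-/

set_option autoImplicit false
set_option linter.unusedVariables false

namespace Pool.Agent.Helper9.SC

open Finset Polynomial

set_option maxHeartbeats 4000000

lemma t13_12 (h2 h3 h4 h5 h6 h7 h8 h9 h10 h11 h12 h13 r2 r3 r4 r5 r6 c4 c5 c6 c7 c8 c9 c10 c11 c12 c13 : ℤ)
    (e2 : h2 = 1 * r2 + (-78))
    (e3 : h3 = 13 * r2 + 1 * r3 + (-728))
    (e4 : h4 = 91 * r2 + 13 * r3 + 1 * r4 + (-4095))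
    (e5 : h5 = 455 * r2 + 91 * r3 + 13 * r4 + 1 * r5 + (-17472))
    (e6 : h6 = 1820 * r2 + 455 * r3 + 91 * r4 + 13 * r5 + 1 * r6 + (-61880))
    (e7 : h7 = 6188 * r2 + 1820 * r3 + 455 * r4 + 92 * r5 + 13 * r6 + (-190944))
    (e8 : h8 = 18564 * r2 + 6188 * r3 + 1821 * r4 + 468 * r5 + 91 * r6 + (-529074))
    (e9 : h9 = 50388 * r2 + 18565 * r3 + 6201 * r4 + 1911 * r5 + 455 * r6 + (-1343680))
    (e10 : h10 = 125971 * r2 + 50401 * r3 + 18655 * r4 + 6643 * r5 + 1820 * r6 + (-3174444))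
    (e11 : h11 = 293943 * r2 + 126061 * r3 + 50843 * r4 + 20384 * r5 + 6188 * r6 + (-7054333))
    (e12 : h12 = 646737 * r2 + 294385 * r3 + 127790 * r4 + 56576 * r5 + 18564 * r6 + (-14873026))
    (e13 : h13 = 1352533 * r2 + 648466 * r3 + 300118 * r4 + 144534 * r5 + 50388 * r6 + (-29954898))
    (hl : 0 < 2 * r2 + 2 * r3 + 2 * r4 + 2 * r5 + 1 * r6 + (-24))
    (p2 : 0 ≤ h2) (p3 : 0 ≤ h3) (p4 : 0 ≤ h4) (p5 : 0 ≤ h5) (p6 : 0 ≤ h6) (p7 : 0 ≤ h7) (p8 : 0 ≤ h8) (p9 : 0 ≤ h9) (p10 : 0 ≤ h10) (p11 : 0 ≤ h11) (p12 : 0 ≤ h12) (p13 : 0 ≤ h13)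
    (k4 : 0 ≤ c4) (k5 : 0 ≤ c5) (k6 : 0 ≤ c6) (k7 : 0 ≤ c7) (k8 : 0 ≤ c8) (k9 : 0 ≤ c9) (k10 : 0 ≤ c10) (k11 : 0 ≤ c11) (k12 : 0 ≤ c12) (k13 : 0 ≤ c13)
    (m2 : h2 + c4 + c6 + c8 + c10 + c12 ≤ 11)
    (m3 : h3 + c6 + c9 + c12 ≤ 11)
    (m5 : c5 + c10 ≤ 11)
    (m7 : c7 ≤ 11)
    (m11 : c11 ≤ 11)
    (m13 : c13 ≤ 11)
    (g4 : 4 * h4 ≤ 4 * c4 + (2 * (h2 * (h2 + 1))))
    (g5 : 4 * h5 ≤ 4 * c5 + (4 * (h2 * h3)))
    (g6 : 4 * h6 ≤ 4 * c6 + (4 * (h2 * h4) + 2 * (h3 * (h3 + 1))))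
    (g7 : 4 * h7 ≤ 4 * c7 + (4 * (h2 * h5) + 4 * (h3 * h4)))
    (g8 : 4 * h8 ≤ 4 * c8 + (4 * (h2 * h6) + 4 * (h3 * h5) + ((22 - 2 * h2 + h2 * (h2 + 1)) + 2) * h4))
    (g9 : 4 * h9 ≤ 4 * c9 + (4 * (h2 * h7) + 4 * (h3 * h6) + 2 * ((22 - 2 * h2 + h2 * (h2 + 1)) * h5)))
    (g10 : 4 * h10 ≤ 4 * c10 + (4 * (h2 * h8) + 4 * (h3 * h7) + 2 * ((22 - 2 * h2 + h2 * (h2 + 1)) * h6) + 2 * (((11 + h2 * h3) + 1) * h5)))
    (g11 : 4 * h11 ≤ 4 * c11 + (4 * (h2 * h9) + 4 * (h3 * h8) + 2 * ((22 - 2 * h2 + h2 * (h2 + 1)) * h7) + 4 * ((11 + h2 * h3) * h6)))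
    (g12 : 4 * h12 ≤ 4 * c12 + (4 * (h2 * h10) + 4 * (h3 * h9) + 2 * ((22 - 2 * h2 + h2 * (h2 + 1)) * h8) + 4 * ((11 + h2 * h3) * h7) + (2 * 11 + (22 - 2 * h2 + h2 * (h2 + 1)) * h2 + h3 * (h3 + 1) + 2) * h6))
    (g13 : 4 * h13 ≤ 4 * c13 + (4 * (h2 * h11) + 4 * (h3 * h10) + 2 * ((22 - 2 * h2 + h2 * (h2 + 1)) * h9) + 4 * ((11 + h2 * h3) * h8) + 2 * ((2 * 11 + (22 - 2 * h2 + h2 * (h2 + 1)) * h2 + h3 * (h3 + 1)) * h7)))
    : False := by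
  have hb2 : h2 ≤ 11 := by omega
  have hb3 : h3 ≤ 11 := by omega
  rcases le_or_gt h2 5 with hs | hs
  · interval_cases h2 <;> interval_cases h3 <;> omega
  · have q1 : h3 * (h3 + 1) ≤ h3 * 12 := mul_le_mul_of_nonneg_left (by omega) p3
    have q4 : h3 * h4 ≤ 11 * h4 := mul_le_mul_of_nonneg_right hb3 p4
    have q5 : h3 * h5 ≤ 11 * h5 := mul_le_mul_of_nonneg_right hb3 p5
    have q6 : h3 * h6 ≤ 11 * h6 := mul_le_mul_of_nonneg_right hb3 p6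
    have q7 : h3 * h7 ≤ 11 * h7 := mul_le_mul_of_nonneg_right hb3 p7
    have q8 : h3 * h8 ≤ 11 * h8 := mul_le_mul_of_nonneg_right hb3 p8
    have q9 : h3 * h9 ≤ 11 * h9 := mul_le_mul_of_nonneg_right hb3 p9
    have q10 : h3 * h10 ≤ 11 * h10 := mul_le_mul_of_nonneg_right hb3 p10
    have q11 : h3 * h11 ≤ 11 * h11 := mul_le_mul_of_nonneg_right hb3 p11
    interval_cases h2 <;> omega

theorem S13_12 {h C : ℕ → ℤ} {F : ℕ → ℕ → ℤ} (H : Data 11 h C F) (hh0 : h 0 = 1) (hh1 : h 1 = 0)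
    {R : ℤ[X]} (hR : (PowerSeries.mk h : PowerSeries ℤ) * (1 - PowerSeries.X) ^ (12 + 1) = (R : PowerSeries ℤ))
    (hr : R.reverse = R) (hR1 : 0 < R.eval 1) (hs : R.natDegree = 12) : False := by
  obtain ⟨r0, r1, -, -⟩ := coeffs hR hh0 hh1
  push_cast at r1
  have y0 : R.coeff 0 = R.coeff 12 := by
    have := sym hr 0 (by omega)
    rwa [hs] at this
  have y1 : R.coeff 1 = R.coeff 11 := by
    have := sym hr 1 (by omega)
    rwa [hs] at this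
  have y2 : R.coeff 2 = R.coeff 10 := by
    have := sym hr 2 (by omega)
    rwa [hs] at this
  have y3 : R.coeff 3 = R.coeff 9 := by
    have := sym hr 3 (by omega)
    rwa [hs] at this
  have y4 : R.coeff 4 = R.coeff 8 := by
    have := sym hr 4 (by omega)
    rwa [hs] at this
  have y5 : R.coeff 5 = R.coeff 7 := by
    have := sym hr 5 (by omega)
    rwa [hs] at this
  have z13 : R.coeff 13 = 0 := coeff_eq_zero_of_natDegree_lt (by omega)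
  have e2 := cf12_2 hR
  have e3 := cf12_3 hR
  have e4 := cf12_4 hR
  have e5 := cf12_5 hR
  have e6 := cf12_6 hR
  have e7 := cf12_7 hR
  have e8 := cf12_8 hR
  have e9 := cf12_9 hR
  have e10 := cf12_10 hR
  have e11 := cf12_11 hR
  have e12 := cf12_12 hR
  have e13 := cf12_13 hR
  rw [eval_one, hs] at hR1
  simp only [sum_range_succ, sum_range_zero] at hR1
  have v2 := H.two
  have v3 := H.three
  have q2 := H.prime 2 (by norm_num) {2, 4, 6, 8, 10, 12} (by decide)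
  rw [sum_insert (by decide), sum_insert (by decide), sum_insert (by decide), sum_insert (by decide), sum_insert (by decide), sum_singleton] at q2
  have q3 := H.prime 3 (by norm_num) {3, 6, 9, 12} (by decide)
  rw [sum_insert (by decide), sum_insert (by decide), sum_insert (by decide), sum_singleton] at q3
  have q5 := H.prime 5 (by norm_num) {5, 10} (by decide)
  rw [sum_insert (by decide), sum_singleton] at q5
  have q7 := H.prime 7 (by norm_num) {7} (by decide)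
  rw [sum_singleton] at q7
  have q11 := H.prime 11 (by norm_num) {11} (by decide)
  rw [sum_singleton] at q11
  have q13 := H.prime 13 (by norm_num) {13} (by decide)
  rw [sum_singleton] at q13
  exact t13_12 (h 2) (h 3) (h 4) (h 5) (h 6) (h 7) (h 8) (h 9) (h 10) (h 11) (h 12) (h 13) (R.coeff 2) (R.coeff 3) (R.coeff 4) (R.coeff 5) (R.coeff 6) (C 4) (C 5) (C 6) (C 7) (C 8) (C 9) (C 10) (C 11) (C 12) (C 13) (by linarith) (by linarith) (by linarith) (by linarith) (by linarith) (by linarith) (by linarith) (by linarith) (by linarith) (by linarith) (by linarith) (by linarith) (by linarith) (H.hnn 2) (H.hnn 3) (H.hnn 4) (H.hnn 5) (H.hnn 6) (H.hnn 7) (H.hnn 8) (H.hnn 9) (H.hnn 10) (H.hnn 11) (H.hnn 12) (H.hnn 13) (H.Cnn 4) (H.Cnn 5) (H.Cnn 6) (H.Cnn 7) (H.Cnn 8) (H.Cnn 9) (H.Cnn 10) (H.Cnn 11) (H.Cnn 12) (H.Cnn 13) (by linarith) (by linarith) (by linarith) (by linarith)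 (by linarith) (by linarith) H.g4 H.g5 H.g6 H.g7 H.g8 H.g9 H.g10 H.g11 H.g12 H.g13

end Pool.Agent.Helper9.SC
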