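import Pool.Agent.Helper9.SC16

/-!
# Small codimension
-/

set_option autoImplicit false
set_option linter.unusedVariables false

namespace Pool.Agent.Helper9.SC

open Finset Polynomial

set_option maxHeartbeats 4000000

lemma t14_12 (h2 h3 h4 h5 h6 h7 h8 h9 h10 h11 r2 r3 r4 r5 r6 c4 c5 c6 c7 c8 c9 c10 c11 : ℤ)
    (e2 : h2 = 1 * r2 + (-91))
    (e3 : h3 = 14 * r2 + 1 * r3 + (-910))
    (e4 : h4 = 105 * r2 + 14 * r3 + 1 * r4 + (-5460))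
    (e5 : h5 = 560 * r2 + 105 * r3 + 14 * r4 + 1 * r5 + (-24752))
    (e6 : h6 = 2380 * r2 + 560 * r3 + 105 * r4 + 14 * r5 + 1 * r6 + (-92820))
    (e7 : h7 = 8568 * r2 + 2380 * r3 + 560 * r4 + 106 * r5 + 14 * r6 + (-302328))
    (e8 : h8 = 27132 * r2 + 8568 * r3 + 2381 * r4 + 574 * r5 + 105 * r6 + (-881790))
    (e9 : h9 = 77520 * r2 + 27133 * r3 + 8582 * r4 + 2485 * r5 + 560 * r6 + (-2351440))
    (e10 : h10 = 203491 * r2 + 77534 * r3 + 27237 * r4 + 9128 * r5 + 2380 * r6 + (-5819814))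
    (e11 : h11 = 497434 * r2 + 203595 * r3 + 78080 * r4 + 29512 * r5 + 8568 * r6 + (-13520794))
    (hl : 0 < 2 * r2 + 2 * r3 + 2 * r4 + 2 * r5 + 1 * r6 + (-26))
    (p2 : 0 ≤ h2) (p3 : 0 ≤ h3) (p4 : 0 ≤ h4) (p5 : 0 ≤ h5) (p6 : 0 ≤ h6) (p7 : 0 ≤ h7) (p8 : 0 ≤ h8) (p9 : 0 ≤ h9) (p10 : 0 ≤ h10) (p11 : 0 ≤ h11)
    (k4 : 0 ≤ c4) (k5 : 0 ≤ c5) (k6 : 0 ≤ c6) (k7 : 0 ≤ c7) (k8 : 0 ≤ c8) (k9 : 0 ≤ c9) (k10 : 0 ≤ c10) (k11 : 0 ≤ c11)
    (m2 : h2 + c4 + c6 + c8 + c10 ≤ 11)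
    (m3 : h3 + c6 + c9 ≤ 11)
    (m5 : c5 + c10 ≤ 11)
    (m7 : c7 ≤ 11)
    (m11 : c11 ≤ 11)
    (g4 : 4 * h4 ≤ 4 * c4 + (2 * (h2 * (h2 + 1))))
    (g5 : 4 * h5 ≤ 4 * c5 + (4 * (h2 * h3)))
    (g6 : 4 * h6 ≤ 4 * c6 + (4 * (h2 * h4) + 2 * (h3 * (h3 + 1))))
    (g7 : 4 * h7 ≤ 4 * c7 + (4 * (h2 * h5) + 4 * (h3 * h4)))
    (g8 : 4 * h8 ≤ 4 * c8 + (4 * (h2 * h6) + 4 * (h3 * h5) + ((22 - 2 * h2 + h2 * (h2 + 1)) + 2) * h4))
    (g9 : 4 * h9 ≤ 4 * c9 + (4 * (h2 * h7) + 4 * (h3 * h6) + 2 * ((22 - 2 * h2 + h2 * (h2 + 1)) * h5)))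
    (g10 : 4 * h10 ≤ 4 * c10 + (4 * (h2 * h8) + 4 * (h3 * h7) + 2 * ((22 - 2 * h2 + h2 * (h2 + 1)) * h6) + 2 * (((11 + h2 * h3) + 1) * h5)))
    (g11 : 4 * h11 ≤ 4 * c11 + (4 * (h2 * h9) + 4 * (h3 * h8) + 2 * ((22 - 2 * h2 + h2 * (h2 + 1)) * h7) + 4 * ((11 + h2 * h3) * h6)))
    : False := by
  have hb2 : h2 ≤ 11 := by omega
  have hb3 : h3 ≤ 11 := by omega
  rcases le_or_gt h2 3 with hs | hs
  · interval_cases h2 <;> interval_cases h3 <;> omega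
  · have q1 : h3 * (h3 + 1) ≤ h3 * 12 := mul_le_mul_of_nonneg_left (by omega) p3
    have q4 : h3 * h4 ≤ 11 * h4 := mul_le_mul_of_nonneg_right hb3 p4
    have q5 : h3 * h5 ≤ 11 * h5 := mul_le_mul_of_nonneg_right hb3 p5
    have q6 : h3 * h6 ≤ 11 * h6 := mul_le_mul_of_nonneg_right hb3 p6
    have q7 : h3 * h7 ≤ 11 * h7 := mul_le_mul_of_nonneg_right hb3 p7
    have q8 : h3 * h8 ≤ 11 * h8 := mul_le_mul_of_nonneg_right hb3 p8
    have q9 : h3 * h9 ≤ 11 * h9 := mul_le_mul_of_nonneg_right hb3 p9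
    interval_cases h2 <;> omega

theorem S14_12 {h C : ℕ → ℤ} {F : ℕ → ℕ → ℤ} (H : Data 11 h C F) (hh0 : h 0 = 1) (hh1 : h 1 = 0)
    {R : ℤ[X]} (hR : (PowerSeries.mk h : PowerSeries ℤ) * (1 - PowerSeries.X) ^ (13 + 1) = (R : PowerSeries ℤ))
    (hr : R.reverse = R) (hR1 : 0 < R.eval 1) (hs : R.natDegree = 12) : False := by
  obtain ⟨r0, r1, -, -⟩ := coeffs hR hh0 hh1
  push_cast at r1
  have y0 : R.coeff 0 = R.coeff 12 := by
    have := sym hr 0 (by omega)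
    rwa [hs] at this
  have y1 : R.coeff 1 = R.coeff 11 := by
    have := sym hr 1 (by omega)
    rwa [hs] at this
  have y2 : R.coeff 2 = R.coeff 10 := by
    have := sym hr 2 (by omega)
    rwa [hs] at this
  have y3 : R.coeff 3 = R.coeff 9 := by
    have := sym hr 3 (by omega)
    rwa [hs] at this
  have y4 : R.coeff 4 = R.coeff 8 := by
    have := sym hr 4 (by omega)
    rwa [hs] at this
  have y5 : R.coeff 5 = R.coeff 7 := by
    have := sym hr 5 (by omega)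
    rwa [hs] at this
  have e2 := cf13_2 hR
  have e3 := cf13_3 hR
  have e4 := cf13_4 hR
  have e5 := cf13_5 hR
  have e6 := cf13_6 hR
  have e7 := cf13_7 hR
  have e8 := cf13_8 hR
  have e9 := cf13_9 hR
  have e10 := cf13_10 hR
  have e11 := cf13_11 hR
  rw [eval_one, hs] at hR1
  simp only [sum_range_succ, sum_range_zero] at hR1
  have v2 := H.two
  have v3 := H.three
  have q2 := H.prime 2 (by norm_num) {2, 4, 6, 8, 10} (by decide)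
  rw [sum_insert (by decide), sum_insert (by decide), sum_insert (by decide), sum_insert (by decide), sum_singleton] at q2
  have q3 := H.prime 3 (by norm_num) {3, 6, 9} (by decide)
  rw [sum_insert (by decide), sum_insert (by decide), sum_singleton] at q3
  have q5 := H.prime 5 (by norm_num) {5, 10} (by decide)
  rw [sum_insert (by decide), sum_singleton] at q5
  have q7 := H.prime 7 (by norm_num) {7} (by decide)
  rw [sum_singleton] at q7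
  have q11 := H.prime 11 (by norm_num) {11} (by decide)
  rw [sum_singleton] at q11
  exact t14_12 (h 2) (h 3) (h 4) (h 5) (h 6) (h 7) (h 8) (h 9) (h 10) (h 11) (R.coeff 2) (R.coeff 3) (R.coeff 4) (R.coeff 5) (R.coeff 6) (C 4) (C 5) (C 6) (C 7) (C 8) (C 9) (C 10) (C 11) (by linarith) (by linarith) (by linarith) (by linarith) (by linarith) (by linarith) (by linarith) (by linarith) (by linarith) (by linarith) (by linarith) (H.hnn 2) (H.hnn 3) (H.hnn 4) (H.hnn 5) (H.hnn 6) (H.hnn 7) (H.hnn 8) (H.hnn 9) (H.hnn 10) (H.hnn 11) (H.Cnn 4) (H.Cnn 5) (H.Cnn 6) (H.Cnn 7) (H.Cnn 8) (H.Cnn 9) (H.Cnn 10) (H.Cnn 11) (by linarith) (by linarith) (by linarith) (by linarith) (by linarith) H.g4 H.g5 H.g6 H.g7 H.g8 H.g9 H.g10 H.g11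

end Pool.Agent.Helper9.SC
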