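import Pool.Agent.Helper9.SC16

/-!
# Small codimension
-/

set_option autoImplicit false
set_option linter.unusedVariables false

namespace Pool.Agent.Helper9.SC

open Finset Polynomial

set_option maxHeartbeats 4000000

lemma t14_13 (h2 h3 h4 h5 h6 h7 h8 h9 r2 r3 r4 r5 r6 c4 c5 c6 c7 c8 c9 : ℤ)
    (e2 : h2 = 1 * r2 + (-91))
    (e3 : h3 = 14 * r2 + 1 * r3 + (-910))
    (e4 : h4 = 105 * r2 + 14 * r3 + 1 * r4 + (-5460))
    (e5 : h5 = 560 * r2 + 105 * r3 + 14 * r4 + 1 * r5 + (-24752))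
    (e6 : h6 = 2380 * r2 + 560 * r3 + 105 * r4 + 14 * r5 + 1 * r6 + (-92820))
    (e7 : h7 = 8568 * r2 + 2380 * r3 + 560 * r4 + 105 * r5 + 15 * r6 + (-302328))
    (e8 : h8 = 27132 * r2 + 8568 * r3 + 2380 * r4 + 561 * r5 + 119 * r6 + (-881790))
    (e9 : h9 = 77520 * r2 + 27132 * r3 + 8569 * r4 + 2394 * r5 + 665 * r6 + (-2351440))
    (hl : 0 < 2 * r2 + 2 * r3 + 2 * r4 + 2 * r5 + 2 * r6 + (-26))
    (p2 : 0 ≤ h2) (p3 : 0 ≤ h3) (p4 : 0 ≤ h4) (p5 : 0 ≤ h5) (p6 : 0 ≤ h6) (p7 : 0 ≤ h7) (p8 : 0 ≤ h8) (p9 : 0 ≤ h9)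
    (k4 : 0 ≤ c4) (k5 : 0 ≤ c5) (k6 : 0 ≤ c6) (k7 : 0 ≤ c7) (k8 : 0 ≤ c8) (k9 : 0 ≤ c9)
    (m2 : h2 + c4 + c6 + c8 ≤ 11)
    (m3 : h3 + c6 + c9 ≤ 11)
    (m5 : c5 ≤ 11)
    (m7 : c7 ≤ 11)
    (g4 : 4 * h4 ≤ 4 * c4 + (2 * (h2 * (h2 + 1))))
    (g5 : 4 * h5 ≤ 4 * c5 + (4 * (h2 * h3)))
    (g6 : 4 * h6 ≤ 4 * c6 + (4 * (h2 * h4) + 2 * (h3 * (h3 + 1))))
    (g7 : 4 * h7 ≤ 4 * c7 + (4 * (h2 * h5) + 4 * (h3 * h4)))
    (g8 : 4 * h8 ≤ 4 * c8 + (4 * (h2 * h6) + 4 * (h3 * h5) + ((22 - 2 * h2 + h2 * (h2 + 1)) + 2) * h4))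
    (g9 : 4 * h9 ≤ 4 * c9 + (4 * (h2 * h7) + 4 * (h3 * h6) + 2 * ((22 - 2 * h2 + h2 * (h2 + 1)) * h5)))
    : False := by
  have hb2 : h2 ≤ 11 := by omega
  have hb3 : h3 ≤ 11 := by omega
  have q1 : h3 * (h3 + 1) ≤ h3 * 12 := mul_le_mul_of_nonneg_left (by omega) p3
  have q4 : h3 * h4 ≤ 11 * h4 := mul_le_mul_of_nonneg_right hb3 p4
  have q5 : h3 * h5 ≤ 11 * h5 := mul_le_mul_of_nonneg_right hb3 p5
  have q6 : h3 * h6 ≤ 11 * h6 := mul_le_mul_of_nonneg_right hb3 p6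
  have q7 : h3 * h7 ≤ 11 * h7 := mul_le_mul_of_nonneg_right hb3 p7
  interval_cases h2 <;> first | omega | (interval_cases h3 <;> omega)

theorem S14_13 {h C : ℕ → ℤ} {F : ℕ → ℕ → ℤ} (H : Data 11 h C F) (hh0 : h 0 = 1) (hh1 : h 1 = 0)
    {R : ℤ[X]} (hR : (PowerSeries.mk h : PowerSeries ℤ) * (1 - PowerSeries.X) ^ (13 + 1) = (R : PowerSeries ℤ))
    (hr : R.reverse = R) (hR1 : 0 < R.eval 1) (hs : R.natDegree = 13) : False := by
  obtain ⟨r0, r1, -, -⟩ := coeffs hR hh0 hh1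
  push_cast at r1
  have y0 : R.coeff 0 = R.coeff 13 := by
    have := sym hr 0 (by omega)
    rwa [hs] at this
  have y1 : R.coeff 1 = R.coeff 12 := by
    have := sym hr 1 (by omega)
    rwa [hs] at this
  have y2 : R.coeff 2 = R.coeff 11 := by
    have := sym hr 2 (by omega)
    rwa [hs] at this
  have y3 : R.coeff 3 = R.coeff 10 := by
    have := sym hr 3 (by omega)
    rwa [hs] at this
  have y4 : R.coeff 4 = R.coeff 9 := by
    have := sym hr 4 (by omega)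
    rwa [hs] at this
  have y5 : R.coeff 5 = R.coeff 8 := by
    have := sym hr 5 (by omega)
    rwa [hs] at this
  have y6 : R.coeff 6 = R.coeff 7 := by
    have := sym hr 6 (by omega)
    rwa [hs] at this
  have e2 := cf13_2 hR
  have e3 := cf13_3 hR
  have e4 := cf13_4 hR
  have e5 := cf13_5 hR
  have e6 := cf13_6 hR
  have e7 := cf13_7 hR
  have e8 := cf13_8 hR
  have e9 := cf13_9 hR
  rw [eval_one, hs] at hR1
  simp only [sum_range_succ, sum_range_zero] at hR1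
  have v2 := H.two
  have v3 := H.three
  have q2 := H.prime 2 (by norm_num) {2, 4, 6, 8} (by decide)
  rw [sum_insert (by decide), sum_insert (by decide), sum_insert (by decide), sum_singleton] at q2
  have q3 := H.prime 3 (by norm_num) {3, 6, 9} (by decide)
  rw [sum_insert (by decide), sum_insert (by decide), sum_singleton] at q3
  have q5 := H.prime 5 (by norm_num) {5} (by decide)
  rw [sum_singleton] at q5
  have q7 := H.prime 7 (by norm_num) {7} (by decide)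
  rw [sum_singleton] at q7
  exact t14_13 (h 2) (h 3) (h 4) (h 5) (h 6) (h 7) (h 8) (h 9) (R.coeff 2) (R.coeff 3) (R.coeff 4) (R.coeff 5) (R.coeff 6) (C 4) (C 5) (C 6) (C 7) (C 8) (C 9) (by linarith) (by linarith) (by linarith) (by linarith) (by linarith) (by linarith) (by linarith) (by linarith) (by linarith) (H.hnn 2) (H.hnn 3) (H.hnn 4) (H.hnn 5) (H.hnn 6) (H.hnn 7) (H.hnn 8) (H.hnn 9) (H.Cnn 4) (H.Cnn 5) (H.Cnn 6) (H.Cnn 7) (H.Cnn 8) (H.Cnn 9) (by linarith) (by linarith) (by linarith) (by linarith) H.g4 H.g5 H.g6 H.g7 H.g8 H.g9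

end Pool.Agent.Helper9.SC
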