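import Pool.Agent.Helper9.SC17
import Pool.Agent.Helper9.SysA
import Pool.Agent.Helper9.SysB
import Pool.Agent.Helper9.SysC
import Pool.Agent.Helper9.SysD
import Pool.Agent.Helper9.SysE
import Pool.Agent.Helper9.SysF
import Pool.Agent.Helper9.SysG

/-!
# Small codimension: the conclusion
-/

set_option autoImplicit false

namespace Pool.Agent.Helper9.SC

open Finset Polynomial Pool.Agent.Q86.GS

universe u

/-- The case of small dimension. -/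
theorem low_dim {k S : Type u} [Field k] [CommRing S] [IsDomain S]
    [Algebra k S] {𝒜 : ℕ → Submodule k S} [GradedAlgebra 𝒜]
    (h0 : Module.finrank k (𝒜 0) = 1) (h1 : 𝒜 1 = ⊥)
    (hL : ∀ 𝔭 : Ideal S, 𝔭.IsPrime → 𝔭.IsHomogeneous 𝒜 → (∃ n, 0 < n ∧ ∃ x ∈ 𝒜 n, x ∉ 𝔭) →
      ∃ n, (∃ x ∈ 𝒜 n, x ∉ 𝔭) ∧ ∃ y ∈ 𝒜 (n + 1), y ∉ 𝔭)
    {D : ℕ} {R : ℤ[X]}
    (hR1 : (PowerSeries.mk (fun n => (Module.finrank k (𝒜 n) : ℤ)) : PowerSeries ℤ) *
        (1 - PowerSeries.X) ^ (D + 1) = (R : PowerSeries ℤ))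
    (hR2 : R.reverse = R) (hR3 : 0 < R.eval 1) (hs : R.natDegree ≤ D) (hs7 : R.natDegree ≤ 7)
    {N : ℕ} {x : Fin N → S} {w : Fin N → ℕ} (hw : ∀ i, 0 < w i)
    (hx : ∀ i, x i ∈ 𝒜 (w i)) (hgen : Algebra.adjoin k (Set.range x) = ⊤) :
    D + 1 + 86 ≤ N := by
  by_contra hN
  have hH0 : (fun n => (Module.finrank k (𝒜 n) : ℤ)) 0 = 1 := by
    change ((Module.finrank k (𝒜 0) : ℕ) : ℤ) = 1
    rw [h0]
    rfl
  have hH1 : (fun n => (Module.finrank k (𝒜 n) : ℤ)) 1 = 0 := by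
    change ((Module.finrank k (𝒜 1) : ℕ) : ℤ) = 0
    rw [h1, finrank_bot]
    rfl
  obtain ⟨C, F, hd⟩ := exists_data h1 hL hR1 hR3 hw hx hgen (B := 85) (by omega)
  rw [show ((85 : ℕ) : ℤ) = 85 from rfl] at hd
  generalize hH : (fun n => (Module.finrank k (𝒜 n) : ℤ)) = H at hR1 hH0 hH1 hd
  by_cases hs3 : R.natDegree ≤ 3
  · have h2 := (bound H R hR1 hR2 hR3 hH0 hs3).1
    rw [hH1] at h2
    push_cast at h2
    omega
  · have h3 : H 3 ≤ 85 := by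
      have h4 := hd.three
      have h5 := hd.prime 3 (by norm_num) {3} (by decide)
      rw [sum_singleton] at h5
      linarith
    have h4 := deg_three hR1 hR2 hR3 hH0 hH1 (hd.hnn 2) (by omega) hs7
      (b := (D : ℤ) + 1 - R.natDegree) (by omega) (by ring)
    have h5 : (D : ℤ) + 1 - R.natDegree ≤ 5 := by
      by_contra h6
      have h7 : 6 ≤ (D : ℤ) + 1 - R.natDegree := by omega
      generalize (D : ℤ) + 1 - R.natDegree = b at h4 h7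
      have h8 : 110 ≤ (b + 4) * (b + 5) := by nlinarith
      have h9 : 6 * 110 ≤ b * ((b + 4) * (b + 5)) :=
        mul_le_mul h7 h8 (by norm_num) (by linarith)
      linarith
    obtain ⟨b, hb⟩ : ∃ b : ℕ, D + 1 = R.natDegree + b := ⟨D + 1 - R.natDegree, by omega⟩
    have hb1 : 1 ≤ b := by omega
    have hb5 : b ≤ 5 := by omega
    clear h3 h4 h5
    have hs4 : 4 ≤ R.natDegree := by omega
    generalize hρ : R.natDegree = ρ at hb hs4 hs7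
    interval_cases ρ <;> interval_cases b
    · obtain rfl : D = 4 := by omega
      exact L4_1 hd hH0 hH1 hR1 hR2 hR3 hρ
    · obtain rfl : D = 5 := by omega
      exact L4_2 hd hH0 hH1 hR1 hR2 hR3 hρ
    · obtain rfl : D = 6 := by omega
      exact L4_3 hd hH0 hH1 hR1 hR2 hR3 hρ
    · obtain rfl : D = 7 := by omega
      exact L4_4 hd hH0 hH1 hR1 hR2 hR3 hρ
    · obtain rfl : D = 8 := by omega
      exact L4_5 hd hH0 hH1 hR1 hR2 hR3 hρ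
    · obtain rfl : D = 5 := by omega
      exact L5_1 hd hH0 hH1 hR1 hR2 hR3 hρ
    · obtain rfl : D = 6 := by omega
      exact L5_2 hd hH0 hH1 hR1 hR2 hR3 hρ
    · obtain rfl : D = 7 := by omega
      exact L5_3 hd hH0 hH1 hR1 hR2 hR3 hρ
    · obtain rfl : D = 8 := by omega
      exact L5_4 hd hH0 hH1 hR1 hR2 hR3 hρ
    · obtain rfl : D = 9 := by omega
      exact L5_5 hd hH0 hH1 hR1 hR2 hR3 hρ
    · obtain rfl : D = 6 := by omega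
      exact L6_1 hd hH0 hH1 hR1 hR2 hR3 hρ
    · obtain rfl : D = 7 := by omega
      exact L6_2 hd hH0 hH1 hR1 hR2 hR3 hρ
    · obtain rfl : D = 8 := by omega
      exact L6_3 hd hH0 hH1 hR1 hR2 hR3 hρ
    · obtain rfl : D = 9 := by omega
      exact L6_4 hd hH0 hH1 hR1 hR2 hR3 hρ
    · obtain rfl : D = 10 := by omega
      exact L6_5 hd hH0 hH1 hR1 hR2 hR3 hρ
    · obtain rfl : D = 7 := by omega
      exact L7_1 hd hH0 hH1 hR1 hR2 hR3 hρ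
    · obtain rfl : D = 8 := by omega
      exact L7_2 hd hH0 hH1 hR1 hR2 hR3 hρ
    · obtain rfl : D = 9 := by omega
      exact L7_3 hd hH0 hH1 hR1 hR2 hR3 hρ
    · obtain rfl : D = 10 := by omega
      exact L7_4 hd hH0 hH1 hR1 hR2 hR3 hρ
    · obtain rfl : D = 11 := by omega
      exact L7_5 hd hH0 hH1 hR1 hR2 hR3 hρ

/-- The general case. -/
theorem small_codim {k S : Type u} [Field k] [CommRing S] [IsDomain S]
    [Algebra k S] {𝒜 : ℕ → Submodule k S} [GradedAlgebra 𝒜]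
    (h0 : Module.finrank k (𝒜 0) = 1) (h1 : 𝒜 1 = ⊥)
    (hL : ∀ 𝔭 : Ideal S, 𝔭.IsPrime → 𝔭.IsHomogeneous 𝒜 → (∃ n, 0 < n ∧ ∃ x ∈ 𝒜 n, x ∉ 𝔭) →
      ∃ n, (∃ x ∈ 𝒜 n, x ∉ 𝔭) ∧ ∃ y ∈ 𝒜 (n + 1), y ∉ 𝔭)
    {D : ℕ} {R : ℤ[X]}
    (hR1 : (PowerSeries.mk (fun n => (Module.finrank k (𝒜 n) : ℤ)) : PowerSeries ℤ) *
        (1 - PowerSeries.X) ^ (D + 1) = (R : PowerSeries ℤ))
    (hR2 : R.reverse = R) (hR3 : 0 < R.eval 1) (hs : R.natDegree ≤ D)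
    {N : ℕ} {x : Fin N → S} {w : Fin N → ℕ} (hw : ∀ i, 0 < w i)
    (hx : ∀ i, x i ∈ 𝒜 (w i)) (hgen : Algebra.adjoin k (Set.range x) = ⊤) :
    D + 1 + 11 ≤ N := by
  by_contra hN
  by_cases hs7 : R.natDegree ≤ 7
  · have := low_dim h0 h1 hL hR1 hR2 hR3 hs hs7 hw hx hgen
    omega
  have hlin := linear_bound h0 hL hR1 hR2 hR3 (by omega) hw hx hgen
  rw [h1, finrank_bot] at hlin
  have hH0 : (fun n => (Module.finrank k (𝒜 n) : ℤ)) 0 = 1 := by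
    change ((Module.finrank k (𝒜 0) : ℕ) : ℤ) = 1
    rw [h0]
    rfl
  have hH1 : (fun n => (Module.finrank k (𝒜 n) : ℤ)) 1 = 0 := by
    change ((Module.finrank k (𝒜 1) : ℕ) : ℤ) = 0
    rw [h1, finrank_bot]
    rfl
  obtain ⟨C, F, hd⟩ := exists_data h1 hL hR1 hR3 hw hx hgen (B := 11) (by omega)
  rw [show ((11 : ℕ) : ℤ) = 11 from rfl] at hd
  generalize hH : (fun n => (Module.finrank k (𝒜 n) : ℤ)) = H at hR1 hH0 hH1 hd
  have hD : D ≤ 13 := by omega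
  clear hlin hN
  generalize hρ : R.natDegree = ρ at hs hs7
  have hρ8 : 8 ≤ ρ := by omega
  have hD8 : 8 ≤ D := by omega
  interval_cases D
  · interval_cases ρ
    exact S9_8 hd hH0 hH1 hR1 hR2 hR3 hρ
  · interval_cases ρ
    · exact S10_8 hd hH0 hH1 hR1 hR2 hR3 hρ
    · exact S10_9 hd hH0 hH1 hR1 hR2 hR3 hρ
  · interval_cases ρ
    · exact S11_8 hd hH0 hH1 hR1 hR2 hR3 hρ
    · exact S11_9 hd hH0 hH1 hR1 hR2 hR3 hρ
    · exact S11_10 hd hH0 hH1 hR1 hR2 hR3 hρ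
  · interval_cases ρ
    · exact S12_8 hd hH0 hH1 hR1 hR2 hR3 hρ
    · exact S12_9 hd hH0 hH1 hR1 hR2 hR3 hρ
    · exact S12_10 hd hH0 hH1 hR1 hR2 hR3 hρ
    · exact S12_11 hd hH0 hH1 hR1 hR2 hR3 hρ
  · interval_cases ρ
    · exact S13_8 hd hH0 hH1 hR1 hR2 hR3 hρ
    · exact S13_9 hd hH0 hH1 hR1 hR2 hR3 hρ
    · exact S13_10 hd hH0 hH1 hR1 hR2 hR3 hρ
    · exact S13_11 hd hH0 hH1 hR1 hR2 hR3 hρ
    · exact S13_12 hd hH0 hH1 hR1 hR2 hR3 hρ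
  · interval_cases ρ
    · exact S14_8 hd hH0 hH1 hR1 hR2 hR3 hρ
    · exact S14_9 hd hH0 hH1 hR1 hR2 hR3 hρ
    · exact S14_10 hd hH0 hH1 hR1 hR2 hR3 hρ
    · exact S14_11 hd hH0 hH1 hR1 hR2 hR3 hρ
    · exact S14_12 hd hH0 hH1 hR1 hR2 hR3 hρ
    · exact S14_13 hd hH0 hH1 hR1 hR2 hR3 hρ

end Pool.Agent.Helper9.SC
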