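import Pool.Graph.R_pool_sql_team_seeded_2aa45f1a.Q86.GS
import Pool.Graph.R_pool_sql_team_seeded_2aa45f1a.Q86.Gap1

/-!
# Hilbert series as real functions, and the inequality of the Hilbert series of a quotient
-/

set_option autoImplicit false

namespace Pool.Agent.Helper9.SC

open Polynomial Finset Pool.Agent.Q86.GS

theorem shift_hasSum (i : ℕ) (a b : ℕ → ℝ) {t : ℝ} {s : ℝ} (hab : ∀ m, b (m + i) = a m)
    (hb : ∀ n, n < i → b n = 0) (h : HasSum (fun m => a m * t ^ m) s) :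
    HasSum (fun n => b n * t ^ n) (t ^ i * s) := by
  have h2 := h.mul_left (t ^ i)
  have e1 : (fun m => t ^ i * (a m * t ^ m)) = fun m => (fun n => b n * t ^ n) (m + i) := by
    funext m
    show t ^ i * (a m * t ^ m) = b (m + i) * t ^ (m + i)
    rw [hab, pow_add]
    ring
  rw [e1] at h2
  have h3 := (hasSum_nat_add_iff (f := fun n => b n * t ^ n) i).1 h2
  have h4 : ∑ j ∈ range i, b j * t ^ j = 0 :=
    Finset.sum_eq_zero fun j hj => by rw [hb j (mem_range.1 hj), zero_mul]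
  rw [h4, add_zero] at h3
  exact h3

/-- The value of the Hilbert series. -/
theorem hasSum_H {D : ℕ} {H : ℕ → ℤ} {R : ℤ[X]}
    (h : (PowerSeries.mk H : PowerSeries ℤ) * (1 - PowerSeries.X) ^ (D + 1) = (R : PowerSeries ℤ))
    {t : ℝ} (ht0 : 0 ≤ t) (ht : t < 1) :
    HasSum (fun n => (H n : ℝ) * t ^ n) (aeval t R / (1 - t) ^ (D + 1)) := by
  have hc : ∀ i : ℕ, HasSum (fun n => (if i ≤ n then ((n - i + D).choose D : ℝ) else 0) * t ^ n)
      (t ^ i * (1 / (1 - t) ^ (D + 1))) := by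
    intro i
    have h1 := hasSum_choose_mul_geometric_of_norm_lt_one D
      (show ‖t‖ < 1 by rw [Real.norm_eq_abs, abs_of_nonneg ht0]; exact ht)
    exact shift_hasSum i (fun m => ((m + D).choose D : ℝ)) (fun n => _) (fun m => by
      simp) (fun n hn => by simp [not_le.2 hn]) h1
  have h5 := hasSum_sum (f := fun i n => (R.coeff i : ℝ) *
    ((if i ≤ n then ((n - i + D).choose D : ℝ) else 0) * t ^ n)) (s := range (R.natDegree + 1))
    (fun i _ => (hc i).mul_left (R.coeff i : ℝ))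
  convert h5 using 1
  · ext n
    rw [Pool.Agent.Q86.Gap.coeff_eq D H R h n]
    push_cast
    rw [Finset.sum_mul]
    have e1 : ∑ i ∈ range (n + 1), (R.coeff i : ℝ) * ((n - i + D).choose D : ℝ) * t ^ n =
        ∑ i ∈ (range (n + 1)).filter (fun i => i ≤ R.natDegree),
          (R.coeff i : ℝ) * ((n - i + D).choose D : ℝ) * t ^ n := by
      rw [Finset.sum_filter]
      refine Finset.sum_congr rfl fun i _ => ?_
      split_ifs with hi
      · rfl
      · rw [coeff_eq_zero_of_natDegree_lt (not_le.1 hi)]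
        simp
    rw [e1]
    have e2 : ∑ i ∈ range (R.natDegree + 1), (R.coeff i : ℝ) *
        ((if i ≤ n then ((n - i + D).choose D : ℝ) else 0) * t ^ n) =
        ∑ i ∈ (range (R.natDegree + 1)).filter (fun i => i ≤ n),
          (R.coeff i : ℝ) * ((n - i + D).choose D : ℝ) * t ^ n := by
      rw [Finset.sum_filter]
      refine Finset.sum_congr rfl fun i _ => ?_
      split_ifs with hi
      · ring
      · ring
    rw [e2]
    refine Finset.sum_congr ?_ fun _ _ => rfl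
    ext i
    simp only [mem_filter, mem_range]
    omega
  · rw [aeval_eq_sum_range, Finset.sum_div]
    refine Finset.sum_congr rfl fun i _ => ?_
    rw [zsmul_eq_mul]
    ring

section ring

universe u

variable {k S : Type u} [Field k] [CommRing S] [IsDomain S] [Algebra k S] {𝒜 : ℕ → Submodule k S}
  [GradedAlgebra 𝒜]

omit [IsDomain S] in
omit [GradedAlgebra 𝒜] in
lemma hf_anti (hfin : ∀ n, Module.Finite k (𝒜 n)) {I J : Ideal S} (h : I ≤ J) (n : ℕ) :
    hf 𝒜 J n ≤ hf 𝒜 I n := by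
  have := hfin n
  have h1 : Module.Finite k (deg 𝒜 J n) :=
    Submodule.finiteDimensional_of_le (inf_le_left : deg 𝒜 J n ≤ 𝒜 n)
  have h2 : Module.finrank k (deg 𝒜 I n) ≤ Module.finrank k (deg 𝒜 J n) :=
    Submodule.finrank_mono (inf_le_inf_left _ h)
  unfold hf
  omega

theorem hf_step_le (hfin : ∀ n, Module.Finite k (𝒜 n)) {I : Ideal S} (hI : I.IsHomogeneous 𝒜)
    {e : ℕ} {θ : S} (hθ : θ ∈ 𝒜 e) (hθ0 : θ ≠ 0) (n : ℕ) :
    hf 𝒜 I n ≤ hf 𝒜 (I ⊔ Ideal.span {θ}) n + if e ≤ n then hf 𝒜 I (n - e) else 0 := by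
  rw [hf_colon hfin hI hθ hθ0 n]
  split_ifs with h
  · have : hf 𝒜 (cln I θ) (n - e) ≤ hf 𝒜 I (n - e) :=
      hf_anti hfin (fun z hz => I.mul_mem_left θ hz) _
    omega
  · rfl

/-- The Hilbert series of `S / I` as a function. -/
noncomputable def G (𝒜 : ℕ → Submodule k S) (I : Ideal S) (t : ℝ) : ℝ :=
  ∑' n, (hf 𝒜 I n : ℝ) * t ^ n

variable (𝒜) in
/-- Convergence of the Hilbert series. -/
def Conv : Prop := ∀ t : ℝ, 0 ≤ t → t < 1 → Summable fun n => (hf 𝒜 (⊥ : Ideal S) n : ℝ) * t ^ n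

omit [IsDomain S] in
omit [GradedAlgebra 𝒜] in
lemma Conv.summable (hfin : ∀ n, Module.Finite k (𝒜 n)) (h : Conv 𝒜) (I : Ideal S) {t : ℝ}
    (ht0 : 0 ≤ t) (ht : t < 1) : Summable fun n => (hf 𝒜 I n : ℝ) * t ^ n := by
  refine Summable.of_nonneg_of_le (fun n => ?_) (fun n => ?_) (h t ht0 ht)
  · have : (0 : ℝ) ≤ hf 𝒜 I n := by exact_mod_cast hf_nonneg hfin I n
    positivity
  · have : (hf 𝒜 I n : ℝ) ≤ hf 𝒜 (⊥ : Ideal S) n := by exact_mod_cast hf_anti hfin bot_le n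
    gcongr

theorem G_step (hfin : ∀ n, Module.Finite k (𝒜 n)) (h : Conv 𝒜) {I : Ideal S}
    (hI : I.IsHomogeneous 𝒜) {e : ℕ} {θ : S} (hθ : θ ∈ 𝒜 e) (hθ0 : θ ≠ 0) {t : ℝ}
    (ht0 : 0 ≤ t) (ht : t < 1) :
    G 𝒜 I t * (1 - t ^ e) ≤ G 𝒜 (I ⊔ Ideal.span {θ}) t := by
  have h1 := h.summable hfin I ht0 ht
  have h2 := h.summable hfin (I ⊔ Ideal.span {θ}) ht0 ht
  have h3 : HasSum (fun n => (if e ≤ n then (hf 𝒜 I (n - e) : ℝ) else 0) * t ^ n)
      (t ^ e * G 𝒜 I t) := by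
    exact shift_hasSum e (fun m => (hf 𝒜 I m : ℝ)) (fun n => _) (fun m => by
      simp) (fun n hn => by simp [not_le.2 hn]) h1.hasSum
  have h7 : G 𝒜 I t ≤ G 𝒜 (I ⊔ Ideal.span {θ}) t + t ^ e * G 𝒜 I t := by
    refine hasSum_le (fun n => ?_) h1.hasSum (h2.hasSum.add h3)
    have h8 : (hf 𝒜 I n : ℝ) ≤ hf 𝒜 (I ⊔ Ideal.span {θ}) n +
        (if e ≤ n then (hf 𝒜 I (n - e) : ℝ) else 0) := by
      have := hf_step_le hfin hI hθ hθ0 n
      have h9 : ((hf 𝒜 I n : ℤ) : ℝ) ≤ ((hf 𝒜 (I ⊔ Ideal.span {θ}) n +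
        if e ≤ n then hf 𝒜 I (n - e) else 0 : ℤ) : ℝ) := by exact_mod_cast this
      refine h9.trans (le_of_eq ?_)
      push_cast
      rfl
    calc _ ≤ (hf 𝒜 (I ⊔ Ideal.span {θ}) n +
        (if e ≤ n then (hf 𝒜 I (n - e) : ℝ) else 0)) * t ^ n := by gcongr
      _ = _ := by ring
  linarith

/-- The ideal generated by some of the homogeneous elements. -/
def idl {N : ℕ} (x : Fin N → S) (T : Finset (Fin N)) : Ideal S := Ideal.span (x '' (T : Set (Fin N)))

omit [IsDomain S] in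
lemma idl_homogeneous {N : ℕ} {x : Fin N → S} {w : Fin N → ℕ} (hx : ∀ i, x i ∈ 𝒜 (w i))
    (T : Finset (Fin N)) : (idl x T).IsHomogeneous 𝒜 := by
  apply Ideal.homogeneous_span
  rintro _ ⟨i, -, rfl⟩
  exact ⟨w i, hx i⟩

omit [IsDomain S] in
lemma idl_insert {N : ℕ} (x : Fin N → S) (T : Finset (Fin N)) (i : Fin N) :
    idl x (insert i T) = idl x T ⊔ Ideal.span {x i} := by
  unfold idl
  rw [coe_insert, Set.image_insert_eq, Ideal.span_insert, sup_comm]

theorem G_prod (hfin : ∀ n, Module.Finite k (𝒜 n)) (h : Conv 𝒜) {N : ℕ} {x : Fin N → S}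
    {w : Fin N → ℕ} (hx : ∀ i, x i ∈ 𝒜 (w i)) {t : ℝ} (ht0 : 0 ≤ t) (ht : t < 1)
    (T : Finset (Fin N)) (hT : ∀ i ∈ T, x i ≠ 0) :
    G 𝒜 (⊥ : Ideal S) t * ∏ i ∈ T, (1 - t ^ w i) ≤ G 𝒜 (idl x T) t := by
  classical
  induction T using Finset.induction_on with
  | empty =>
    have : idl x ∅ = ⊥ := by simp [idl]
    rw [this, prod_empty, mul_one]
  | insert i T hi ih =>
    rw [prod_insert hi, mul_comm (1 - t ^ w i), ← mul_assoc, idl_insert]
    have h1 := ih fun j hj => hT j (mem_insert_of_mem hj)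
    have h2 := G_step hfin h (idl_homogeneous hx T) (hx i) (hT i (mem_insert_self i T)) ht0 ht
    have h3 : (0 : ℝ) ≤ 1 - t ^ w i := sub_nonneg.2 (pow_le_one₀ ht0 ht.le)
    exact (mul_le_mul_of_nonneg_right h1 h3).trans h2

end ring

end Pool.Agent.Helper9.SC
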