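import Pool.Agent.Helper9.SC2

/-!
# Generators: monomials, the primes dividing the weights
-/

set_option autoImplicit false

namespace Pool.Agent.Helper9.SC

open Finset Pool.Agent.Q86.GS

universe u

variable {k S : Type u} [Field k] [CommRing S] [Algebra k S] {𝒜 : ℕ → Submodule k S}
  [GradedAlgebra 𝒜] {N : ℕ} {x : Fin N → S} {w : Fin N → ℕ}

/-- The monomials. -/
def mon (x : Fin N → S) (m : Fin N → ℕ) : S := ∏ i, x i ^ m i

/-- The weight. -/
def wt (w : Fin N → ℕ) (m : Fin N → ℕ) : ℕ := ∑ i, m i * w i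

lemma mon_mem (hx : ∀ i, x i ∈ 𝒜 (w i)) (m : Fin N → ℕ) : mon x m ∈ 𝒜 (wt w m) := by
  unfold mon wt
  exact SetLike.prod_mem_graded (A := 𝒜) (fun i => m i * w i) (fun i => x i ^ m i)
    (fun i _ => by
      have := SetLike.pow_mem_graded (m i) (hx i)
      rwa [smul_eq_mul] at this)

/-- The elements of degree `n` are combinations of the monomials of degree `n`. -/
theorem mem_span_mon (hx : ∀ i, x i ∈ 𝒜 (w i)) (hgen : Algebra.adjoin k (Set.range x) = ⊤) {n : ℕ}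
    {y : S} (hy : y ∈ 𝒜 n) : y ∈ Submodule.span k (mon x '' {m | wt w m = n}) := by
  have h1 : y ∈ Algebra.adjoin k (Set.range x) := by rw [hgen]; trivial
  rw [Algebra.adjoin_range_eq_range_aeval] at h1
  obtain ⟨p, rfl⟩ := h1
  have h2 : (MvPolynomial.aeval x) p = ∑ m ∈ p.support, p.coeff m • mon x m := by
    rw [MvPolynomial.aeval_def, MvPolynomial.eval₂_eq']
    refine Finset.sum_congr rfl fun m _ => ?_
    rw [Algebra.smul_def]
    rfl
  have h3 : GradedAlgebra.proj 𝒜 n ((MvPolynomial.aeval x) p) = (MvPolynomial.aeval x) p := by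
    rw [GradedAlgebra.proj_apply]
    exact DirectSum.decompose_of_mem_same 𝒜 hy
  change (MvPolynomial.aeval x) p ∈ _
  rw [← h3, h2, map_sum]
  refine Submodule.sum_mem _ fun m _ => ?_
  rw [map_smul]
  refine Submodule.smul_mem _ _ ?_
  rw [GradedAlgebra.proj_apply]
  by_cases hm : wt w m = n
  · rw [DirectSum.decompose_of_mem_same 𝒜 (hm ▸ mon_mem hx (m : Fin N → ℕ))]
    exact Submodule.subset_span ⟨m, hm, rfl⟩
  · rw [DirectSum.decompose_of_mem_ne 𝒜 (mon_mem hx (m : Fin N → ℕ)) hm]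
    exact Submodule.zero_mem _

lemma wt_finite (hw : ∀ i, 0 < w i) (n : ℕ) : {m : Fin N → ℕ | wt w m = n}.Finite := by
  refine (Set.finite_Iic (fun _ : Fin N => n)).subset fun m hm i => ?_
  have h1 : m i * w i ≤ wt w m :=
    Finset.single_le_sum (f := fun i => m i * w i) (fun _ _ => Nat.zero_le _) (mem_univ i)
  rw [show wt w m = n from hm] at h1
  exact (Nat.le_mul_of_pos_right _ (hw i)).trans h1

theorem finite_deg (hx : ∀ i, x i ∈ 𝒜 (w i)) (hw : ∀ i, 0 < w i)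
    (hgen : Algebra.adjoin k (Set.range x) = ⊤) (n : ℕ) : Module.Finite k (𝒜 n) := by
  have h1 : Module.Finite k (Submodule.span k (mon x '' {m | wt w m = n})) :=
    Module.Finite.span_of_finite k ((wt_finite hw n).image _)
  exact Submodule.finiteDimensional_of_le fun y hy => mem_span_mon hx hgen hy

omit [GradedAlgebra 𝒜] in
theorem noetherian (hgen : Algebra.adjoin k (Set.range x) = ⊤) : IsNoetherianRing S := by
  classical
  have : Algebra.FiniteType k S := ⟨⟨Finset.univ.image x, by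
    rw [Finset.coe_image, Finset.coe_univ, Set.image_univ, hgen]⟩⟩
  exact Algebra.FiniteType.isNoetherianRing k S

/-- An ideal which contains all monomials of the degree `n` contains `𝒜 n`. -/
lemma le_of_mon (hx : ∀ i, x i ∈ 𝒜 (w i)) (hgen : Algebra.adjoin k (Set.range x) = ⊤) {n : ℕ}
    {I : Ideal S} (h : ∀ m, wt w m = n → mon x m ∈ I) {y : S} (hy : y ∈ 𝒜 n) : y ∈ I := by
  have h1 : Submodule.span k (mon x '' {m | wt w m = n}) ≤ I.restrictScalars k := by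
    rw [Submodule.span_le]
    rintro _ ⟨m, hm, rfl⟩
    exact h m hm
  exact h1 (mem_span_mon hx hgen hy)

lemma mon_mem_ideal {I : Ideal S} {m : Fin N → ℕ} {i : Fin N} {r : ℕ} (hi : x i ^ r ∈ I)
    (hm : r ≤ m i) : mon x m ∈ I := by
  classical
  unfold mon
  rw [← Finset.mul_prod_erase univ _ (mem_univ i)]
  apply I.mul_mem_right
  obtain ⟨t, ht⟩ := Nat.exists_eq_add_of_le hm
  rw [ht, pow_add]
  exact I.mul_mem_right _ hi

theorem radical_le (hx : ∀ i, x i ∈ 𝒜 (w i))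
    (hgen : Algebra.adjoin k (Set.range x) = ⊤) {T : Finset (Fin N)}
    (h : ∀ 𝔭 : Ideal S, 𝔭.IsPrime → 𝔭.IsHomogeneous 𝒜 → idl x T ≤ 𝔭 → ∀ i, x i ∈ 𝔭) :
    ∃ n0, ∀ n, n0 ≤ n → ∀ y ∈ 𝒜 n, y ∈ idl x T := by
  have h1 : ∀ i, ∃ r, x i ^ r ∈ idl x T := by
    intro i
    have h2 : x i ∈ (idl x T).radical := by
      rw [(idl_homogeneous hx T).radical_eq]
      rw [Submodule.mem_sInf]
      rintro 𝔭 ⟨h3, h4, h5⟩
      exact h 𝔭 h5 h3 h4 i
    exact h2
  choose r hr using h1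
  refine ⟨(∑ i, r i * w i) + 1, fun n hn y hy => le_of_mon hx hgen (fun m hm => ?_) hy⟩
  by_contra h6
  have h7 : ∀ i, m i ≤ r i := by
    intro i
    by_contra h8
    exact h6 (mon_mem_ideal (hr i) (not_le.1 h8).le)
  have h8 : wt w m ≤ ∑ i, r i * w i := Finset.sum_le_sum fun i _ => Nat.mul_le_mul_right _ (h7 i)
  omega

/-- The generators whose weight is not divisible by `p` have no common zero. -/
theorem prime_ideal (hx : ∀ i, x i ∈ 𝒜 (w i)) (hw : ∀ i, 0 < w i)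
    (hgen : Algebra.adjoin k (Set.range x) = ⊤)
    (hL : ∀ 𝔭 : Ideal S, 𝔭.IsPrime → 𝔭.IsHomogeneous 𝒜 → (∃ n, 0 < n ∧ ∃ x ∈ 𝒜 n, x ∉ 𝔭) →
      ∃ n, (∃ x ∈ 𝒜 n, x ∉ 𝔭) ∧ ∃ y ∈ 𝒜 (n + 1), y ∉ 𝔭) {p : ℕ} (hp : 2 ≤ p)
    {T : Finset (Fin N)} (hT : ∀ i, ¬ p ∣ w i → x i ≠ 0 → i ∈ T) :
    ∃ n0, ∀ n, n0 ≤ n → ∀ y ∈ 𝒜 n, y ∈ idl x T := by
  refine radical_le hx hgen fun 𝔭 h𝔭 hh hle => ?_
  by_contra hcon
  push Not at hcon
  obtain ⟨i, hi⟩ := hcon
  obtain ⟨n, ⟨y, hy, hy'⟩, z, hz, hz'⟩ := hL 𝔭 h𝔭 hh ⟨w i, hw i, x i, hx i, hi⟩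
  have key : ∀ n, ¬ p ∣ n → ∀ y ∈ 𝒜 n, y ∈ 𝔭 := by
    intro n hn y hy
    refine le_of_mon hx hgen (fun m hm => ?_) hy
    have h1 : ∃ i, ¬ p ∣ m i * w i := by
      by_contra h
      push Not at h
      exact hn (hm ▸ Finset.dvd_sum fun i _ => h i)
    obtain ⟨i, hi⟩ := h1
    have h2 : ¬ p ∣ w i := fun h => hi (h.mul_left _)
    have h3 : m i ≠ 0 := by
      intro h
      rw [h, zero_mul] at hi
      exact hi (dvd_zero p)
    refine mon_mem_ideal (i := i) (r := 1) ?_ (Nat.one_le_iff_ne_zero.2 h3)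
    rw [pow_one]
    by_cases h4 : x i = 0
    · rw [h4]
      exact 𝔭.zero_mem
    · exact hle (Ideal.subset_span ⟨i, hT i h2 h4, rfl⟩)
  by_cases hpn : p ∣ n
  · refine hz' (key (n + 1) (fun h => ?_) z hz)
    have h5 := (Nat.dvd_add_right hpn).1 h
    have h6 := Nat.le_of_dvd one_pos h5
    omega
  · exact hy' (key n hpn y hy)

section bounds

variable [IsDomain S]

omit [GradedAlgebra 𝒜] [IsDomain S] in
/-- `H(t)` for the ring itself. -/
lemma conv_of {D : ℕ} {R : Polynomial ℤ}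
    (h : (PowerSeries.mk (fun n => (Module.finrank k (𝒜 n) : ℤ)) : PowerSeries ℤ) *
      (1 - PowerSeries.X) ^ (D + 1) = (R : PowerSeries ℤ)) : Conv 𝒜 := by
  intro t ht0 ht
  have h1 := hasSum_H h ht0 ht
  refine h1.summable.congr fun n => ?_
  rw [hf_bot]

omit [GradedAlgebra 𝒜] [IsDomain S] in
lemma G_bot {D : ℕ} {R : Polynomial ℤ}
    (h : (PowerSeries.mk (fun n => (Module.finrank k (𝒜 n) : ℤ)) : PowerSeries ℤ) *
      (1 - PowerSeries.X) ^ (D + 1) = (R : PowerSeries ℤ)) {t : ℝ} (ht0 : 0 ≤ t) (ht : t < 1) :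
    G 𝒜 (⊥ : Ideal S) t = Polynomial.aeval t R / (1 - t) ^ (D + 1) := by
  have h1 := hasSum_H h ht0 ht
  unfold G
  rw [← h1.tsum_eq]
  refine tsum_congr fun n => ?_
  rw [hf_bot]

/-- The generators whose weight is not divisible by `p` are at least `dim S` in number. -/
theorem card_ge (hfin : ∀ n, Module.Finite k (𝒜 n)) {D : ℕ} {R : Polynomial ℤ}
    (h : (PowerSeries.mk (fun n => (Module.finrank k (𝒜 n) : ℤ)) : PowerSeries ℤ) *
      (1 - PowerSeries.X) ^ (D + 1) = (R : PowerSeries ℤ)) (hR : 0 < R.eval 1)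
    (hx : ∀ i, x i ∈ 𝒜 (w i)) (hw : ∀ i, 0 < w i) {T : Finset (Fin N)} (hT : ∀ i ∈ T, x i ≠ 0)
    {n0 : ℕ} (hn0 : ∀ n, n0 ≤ n → ∀ y ∈ 𝒜 n, y ∈ idl x T) : D + 1 ≤ T.card := by
  by_contra hcon
  have hconv := conv_of h
  set C : ℝ := ∑ n ∈ range n0, (hf 𝒜 (idl x T) n : ℝ) with hC
  have h1 : ∀ t : ℝ, 0 ≤ t → t < 1 → G 𝒜 (idl x T) t ≤ C := by
    intro t ht0 ht
    unfold G
    have h3 : ∀ n ∉ range n0, (hf 𝒜 (idl x T) n : ℝ) * t ^ n = 0 := by
      intro n hn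
      rw [(hf_eq_zero hfin).2 (hn0 n (not_lt.1 fun h => hn (mem_range.2 h)))]
      simp
    rw [tsum_eq_sum h3]
    refine Finset.sum_le_sum fun n _ => ?_
    have h2 : (0 : ℝ) ≤ hf 𝒜 (idl x T) n := by exact_mod_cast hf_nonneg hfin _ n
    exact mul_le_of_le_one_right h2 (pow_le_one₀ ht0 ht.le)
  have h2 : ∀ t : ℝ, 0 ≤ t → t < 1 → Polynomial.aeval t R ≤ C * (1 - t) := by
    intro t ht0 ht
    have h1t : 0 < 1 - t := by linarith
    have h3 := (G_prod hfin hconv hx ht0 ht T hT).trans (h1 t ht0 ht)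
    rw [G_bot h ht0 ht] at h3
    have h4 : (1 - t) ^ D ≤ ∏ i ∈ T, (1 - t ^ w i) := by
      calc (1 - t) ^ D ≤ (1 - t) ^ T.card :=
            pow_le_pow_of_le_one h1t.le (by linarith) (by omega)
        _ = ∏ i ∈ T, (1 - t) := by rw [prod_const]
        _ ≤ _ := Finset.prod_le_prod (fun _ _ => h1t.le) fun i _ => by
          have : t ^ w i ≤ t := pow_le_of_le_one ht0 ht.le (hw i).ne'
          linarith
    have h5 : 0 ≤ Polynomial.aeval t R / (1 - t) ^ (D + 1) := by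
      rw [← G_bot h ht0 ht]
      unfold G
      refine tsum_nonneg fun n => ?_
      have : (0 : ℝ) ≤ hf 𝒜 (⊥ : Ideal S) n := by exact_mod_cast hf_nonneg hfin _ n
      positivity
    have h6 := (mul_le_mul_of_nonneg_left h4 h5).trans h3
    have h7 : Polynomial.aeval t R / (1 - t) ^ (D + 1) * (1 - t) ^ D =
        Polynomial.aeval t R / (1 - t) := by
      rw [pow_succ]
      field_simp
    rw [h7, div_le_iff₀ h1t] at h6
    exact h6
  have h3 : Polynomial.aeval (1 : ℝ) R ≤ C * (1 - 1) := by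
    have hc1 : ContinuousWithinAt (fun t : ℝ => Polynomial.aeval t R) (Set.Ico 0 1) 1 :=
      (Polynomial.continuous_aeval R).continuousWithinAt
    have hc2 : ContinuousWithinAt (fun t : ℝ => C * (1 - t)) (Set.Ico 0 1) 1 := by
      apply Continuous.continuousWithinAt
      fun_prop
    refine hc1.closure_le ?_ hc2 fun t ht => h2 t ht.1 ht.2
    rw [closure_Ico (by norm_num)]
    exact ⟨by norm_num, le_rfl⟩
  rw [sub_self, mul_zero] at h3
  have h4 : Polynomial.aeval (1 : ℝ) R = ((R.eval 1 : ℤ) : ℝ) := by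
    rw [Polynomial.aeval_def, Polynomial.eval₂_at_one]
    simp
  rw [h4] at h3
  have h5 : (0 : ℝ) < ((R.eval 1 : ℤ) : ℝ) := by exact_mod_cast hR
  linarith

/-- The Hilbert series is at most the one of the polynomial ring. -/
theorem G_le_prod (hfin : ∀ n, Module.Finite k (𝒜 n)) (hconv : Conv 𝒜)
    (h0 : Module.finrank k (𝒜 0) = 1)
    (hx : ∀ i, x i ∈ 𝒜 (w i)) (hgen : Algebra.adjoin k (Set.range x) = ⊤) {t : ℝ}
    (ht0 : 0 ≤ t) (ht : t < 1) {U : Finset (Fin N)} (hU : ∀ i, i ∈ U ↔ x i ≠ 0) :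
    G 𝒜 (⊥ : Ideal S) t * ∏ i ∈ U, (1 - t ^ w i) ≤ 1 := by
  refine (G_prod hfin hconv hx ht0 ht U fun i hi => (hU i).1 hi).trans ?_
  unfold G
  rw [tsum_eq_single 0]
  · have h1 : hf 𝒜 (idl x U) 0 ≤ 1 := by
      have := hf_anti hfin (bot_le : (⊥ : Ideal S) ≤ idl x U) 0
      rw [hf_bot, h0] at this
      exact_mod_cast this
    have h2 : (hf 𝒜 (idl x U) 0 : ℝ) ≤ 1 := by exact_mod_cast h1
    simpa using h2
  · intro n hn
    have h3 : hf 𝒜 (idl x U) n = 0 := by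
      rw [hf_eq_zero hfin]
      intro y hy
      refine le_of_mon hx hgen (fun m hm => ?_) hy
      have h4 : ∃ i, m i ≠ 0 := by
        by_contra h
        push Not at h
        apply hn
        rw [← hm]
        unfold wt
        simp [h]
      obtain ⟨i, hi⟩ := h4
      refine mon_mem_ideal (i := i) (r := 1) ?_ (Nat.one_le_iff_ne_zero.2 hi)
      rw [pow_one]
      by_cases h5 : x i = 0
      · rw [h5]
        exact Ideal.zero_mem _
      · exact Ideal.subset_span ⟨i, (hU i).2 h5, rfl⟩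
    rw [h3]
    simp

end bounds

end Pool.Agent.Helper9.SC
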