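import Pool.Agent.Helper9.SC3

/-!
# The growth of the Hilbert function, and the product over the primes
-/

set_option autoImplicit false

namespace Pool.Agent.Helper9.SC

open Finset Pool.Agent.Q86.GS

section growth

universe u

variable {k S : Type u} [Field k] [CommRing S] [Algebra k S] {𝒜 : ℕ → Submodule k S}
  [GradedAlgebra 𝒜] {N : ℕ} {x : Fin N → S} {w : Fin N → ℕ}

omit [GradedAlgebra 𝒜] in
lemma finrank_mul_le (A B : Submodule k S) [Module.Finite k A] [Module.Finite k B] :
    Module.finrank k (A * B : Submodule k S) ≤ Module.finrank k A * Module.finrank k B := by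
  rw [← Submodule.mulMap_range, ← Module.finrank_tensorProduct]
  exact LinearMap.finrank_range_le _

lemma finrank_sup_le {ι : Type} (s : Finset ι) (f : ι → Submodule k S)
    (hf : ∀ i, Module.Finite k (f i)) :
    Module.Finite k (s.sup f : Submodule k S) ∧
      Module.finrank k (s.sup f : Submodule k S) ≤ ∑ i ∈ s, Module.finrank k (f i) := by
  classical
  induction s using Finset.induction_on with
  | empty =>
    rw [Finset.sup_empty, Finset.sum_empty]
    exact ⟨inferInstance, by rw [finrank_bot]⟩
  | insert a s ha ih =>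
    rw [Finset.sup_insert, Finset.sum_insert ha]
    have := ih.1
    have := hf a
    refine ⟨inferInstance, ?_⟩
    exact (Submodule.finrank_add_le_finrank_add_finrank _ _).trans (by omega)

/-- **The growth inequality.** -/
theorem growth0 (h1 : 𝒜 1 = ⊥) (hx : ∀ i, x i ∈ 𝒜 (w i)) (hw : ∀ i, 0 < w i)
    (hgen : Algebra.adjoin k (Set.range x) = ⊤) {U : Finset (Fin N)} (hU : ∀ i, i ∈ U ↔ x i ≠ 0)
    {n : ℕ} (hn : 0 < n) :
    Module.finrank k (𝒜 n) ≤ (U.filter fun i => w i = n).card +
      ∑ i ∈ Icc 2 (n / 2), Module.finrank k (𝒜 i * 𝒜 (n - i) : Submodule k S) := by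
  classical
  have hfin := fun n => finite_deg hx hw hgen n
  set A : Submodule k S := Submodule.span k (x '' {i | i ∈ U ∧ w i = n}) with hA
  set B : Submodule k S := (Icc 2 (n / 2)).sup fun i => 𝒜 i * 𝒜 (n - i) with hB
  have hle : 𝒜 n ≤ A ⊔ B := by
    intro y hy
    refine (Submodule.span_le.2 ?_) (mem_span_mon hx hgen hy)
    rintro _ ⟨m, hm, rfl⟩
    change wt w m = n at hm
    change mon x m ∈ A ⊔ B
    have h2 : ∃ j, m j ≠ 0 := by
      by_contra h
      push Not at h
      have : wt w m = 0 := by
        unfold wt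
        simp [h]
      omega
    obtain ⟨j, hj⟩ := h2
    set m' : Fin N → ℕ := Function.update m j (m j - 1) with hm'
    have hmon : mon x m = x j * mon x m' := by
      unfold mon
      rw [← Finset.mul_prod_erase univ _ (mem_univ j),
        ← Finset.mul_prod_erase univ (fun i => x i ^ m' i) (mem_univ j), ← mul_assoc]
      have e1 : m' j = m j - 1 := Function.update_self _ _ _
      rw [e1, mul_pow_sub_one hj]
      congr 1
      refine Finset.prod_congr rfl fun i hi => ?_
      rw [hm', Function.update_of_ne (Finset.ne_of_mem_erase hi)]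
    have hwt : w j + wt w m' = n := by
      rw [← hm]
      unfold wt
      rw [← Finset.add_sum_erase univ (fun i => m i * w i) (mem_univ j),
        ← Finset.add_sum_erase univ (fun i => m' i * w i) (mem_univ j), ← add_assoc]
      have e1 : m' j = m j - 1 := Function.update_self _ _ _
      have e2 : w j + m' j * w j = m j * w j := by
        rw [e1]
        obtain ⟨r, hr⟩ := Nat.exists_eq_succ_of_ne_zero hj
        rw [hr, Nat.succ_eq_add_one, Nat.add_sub_cancel]
        ring
      rw [← e2]
      congr 1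
      refine Finset.sum_congr rfl fun i hi => ?_
      rw [hm', Function.update_of_ne (Finset.ne_of_mem_erase hi)]
    by_cases h3 : x j = 0
    · rw [hmon, h3, zero_mul]
      exact Submodule.zero_mem _
    have hwj : w j ≠ 1 := by
      intro h
      have := hx j
      rw [h, h1, Submodule.mem_bot] at this
      exact h3 this
    have hwj' := hw j
    by_cases h4 : wt w m' = 0
    · have h5 : ∀ i, m' i = 0 := by
        intro i
        have h6 : m' i * w i ≤ wt w m' :=
          Finset.single_le_sum (f := fun i => m' i * w i) (fun _ _ => Nat.zero_le _) (mem_univ i)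
        rw [h4, Nat.le_zero, mul_eq_zero] at h6
        exact h6.resolve_right (hw i).ne'
      have h6 : mon x m' = 1 := by
        unfold mon
        simp [h5]
      rw [hmon, h6, mul_one]
      apply Submodule.mem_sup_left
      refine Submodule.subset_span ⟨j, ⟨(hU j).2 h3, ?_⟩, rfl⟩
      omega
    by_cases h5 : wt w m' = 1
    · have h6 := mon_mem hx m'
      rw [h5, h1, Submodule.mem_bot] at h6
      rw [hmon, h6, mul_zero]
      exact Submodule.zero_mem _
    apply Submodule.mem_sup_right
    have hmin : min (w j) (wt w m') ∈ Icc 2 (n / 2) := by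
      rw [mem_Icc]
      omega
    have h6 : x j * mon x m' ∈ 𝒜 (min (w j) (wt w m')) * 𝒜 (n - min (w j) (wt w m')) := by
      rcases le_total (w j) (wt w m') with h7 | h7
      · rw [min_eq_left h7, show n - w j = wt w m' by omega]
        exact Submodule.mul_mem_mul (hx j) (mon_mem hx m')
      · rw [min_eq_right h7, show n - wt w m' = w j by omega, mul_comm (x j)]
        exact Submodule.mul_mem_mul (mon_mem hx m') (hx j)
    rw [hmon]
    exact (Finset.le_sup (f := fun i => 𝒜 i * 𝒜 (n - i)) hmin : _ ≤ B) h6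
  have hAf : Module.Finite k A := Module.Finite.span_of_finite k (Set.toFinite _)
  obtain ⟨hBf, hBr⟩ := finrank_sup_le (Icc 2 (n / 2)) (fun i => 𝒜 i * 𝒜 (n - i)) (fun i => by
    have := hfin i
    have := hfin (n - i)
    rw [← Submodule.mulMap_range]
    infer_instance)
  have hAr : Module.finrank k A ≤ (U.filter fun i => w i = n).card := by
    have e : x '' {i | i ∈ U ∧ w i = n} = (((U.filter fun i => w i = n).image x : Finset S) : Set S) := by
      rw [coe_image, coe_filter]
    have h7 := finrank_span_finset_le_card (R := k) ((U.filter fun i => w i = n).image x)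
    rw [hA, e]
    exact h7.trans card_image_le
  calc Module.finrank k (𝒜 n) ≤ Module.finrank k (A ⊔ B : Submodule k S) :=
        Submodule.finrank_mono hle
    _ ≤ Module.finrank k A + Module.finrank k B :=
        Submodule.finrank_add_le_finrank_add_finrank _ _
    _ ≤ _ := add_le_add hAr hBr

/-- The growth inequality. -/
theorem growth (h1 : 𝒜 1 = ⊥) (hx : ∀ i, x i ∈ 𝒜 (w i)) (hw : ∀ i, 0 < w i)
    (hgen : Algebra.adjoin k (Set.range x) = ⊤) {U : Finset (Fin N)} (hU : ∀ i, i ∈ U ↔ x i ≠ 0)
    {n : ℕ} (hn : 0 < n) :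
    Module.finrank k (𝒜 n) ≤ (U.filter fun i => w i = n).card +
      ∑ i ∈ Icc 2 (n / 2), Module.finrank k (𝒜 i) * Module.finrank k (𝒜 (n - i)) := by
  have hfin := fun n => finite_deg hx hw hgen n
  refine (growth0 h1 hx hw hgen hU hn).trans (add_le_add le_rfl (Finset.sum_le_sum fun i _ => ?_))
  have := hfin i
  have := hfin (n - i)
  exact finrank_mul_le _ _

omit [GradedAlgebra 𝒜] in
/-- The dimension of the square. -/
lemma finrank_sq_le (A : Submodule k S) [Module.Finite k A] :
    2 * Module.finrank k (A * A : Submodule k S) ≤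
      Module.finrank k A * (Module.finrank k A + 1) := by
  classical
  let b := Module.finBasis k A
  let f : Sym2 (Fin (Module.finrank k A)) → S :=
    Sym2.lift ⟨fun i j => (b i : S) * (b j : S), fun i j => mul_comm _ _⟩
  have hle : A * A ≤ Submodule.span k (Set.range f) := by
    rw [Submodule.mul_le]
    intro y hy z hz
    have key : ∀ v : A, (v : S) = ∑ i, b.repr v i • (b i : S) := by
      intro v
      conv_lhs => rw [← b.sum_repr v]
      rw [Submodule.coe_sum]
      rfl
    rw [show y = ((⟨y, hy⟩ : A) : S) from rfl, show z = ((⟨z, hz⟩ : A) : S) from rfl, key ⟨y, hy⟩,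
      key ⟨z, hz⟩, Finset.sum_mul_sum]
    refine Submodule.sum_mem _ fun i _ => Submodule.sum_mem _ fun j _ => ?_
    rw [smul_mul_smul_comm]
    exact Submodule.smul_mem _ _ (Submodule.subset_span ⟨s(i, j), rfl⟩)
  have h1 : Module.finrank k (A * A : Submodule k S) ≤ Fintype.card (Sym2 (Fin (Module.finrank k A))) := by
    have : Module.Finite k (Submodule.span k (Set.range f)) :=
      Module.Finite.span_of_finite k (Set.toFinite _)
    exact (Submodule.finrank_mono hle).trans (finrank_range_le_card f)
  rw [Sym2.card, Fintype.card_fin] at h1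
  have h2 := Nat.choose_two_right (Module.finrank k A + 1)
  rw [Nat.add_sub_cancel] at h2
  have h3 : 2 ∣ (Module.finrank k A + 1) * Module.finrank k A := by
    have := Nat.even_mul_succ_self (Module.finrank k A)
    rw [mul_comm]
    exact this.two_dvd
  obtain ⟨m, hm⟩ := h3
  rw [hm, Nat.mul_div_cancel_left _ (by norm_num)] at h2
  rw [mul_comm (Module.finrank k A), hm]
  omega

end growth

section prod

/-- The Weierstrass inequality. -/
lemma one_sub_sum_le {ι : Type} (s : Finset ι) (f : ι → ℝ) (h0 : ∀ i ∈ s, 0 ≤ f i)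
    (h1 : ∀ i ∈ s, f i ≤ 1) : 1 - ∑ i ∈ s, f i ≤ ∏ i ∈ s, (1 - f i) := by
  classical
  induction s using Finset.induction_on with
  | empty => simp
  | insert a s ha ih =>
    rw [sum_insert ha, prod_insert ha]
    have h2 := ih (fun i hi => h0 i (mem_insert_of_mem hi)) (fun i hi => h1 i (mem_insert_of_mem hi))
    have h3 := h0 a (mem_insert_self a s)
    have h4 := h1 a (mem_insert_self a s)
    have h5 : 0 ≤ ∑ i ∈ s, f i := sum_nonneg fun i hi => h0 i (mem_insert_of_mem hi)
    nlinarith [mul_le_mul_of_nonneg_left h2 (sub_nonneg.2 h4), mul_nonneg h3 h5]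

/-- The small primes. -/
def sp : Finset ℕ := {2, 3, 5, 7, 11, 13, 17, 19, 23}

/-- The lower bound for the product over all primes. -/
noncomputable def F (t : ℝ) : ℝ := (∏ p ∈ sp, (1 - t ^ p)) * (1 - t ^ 29 / (1 - t))

lemma tail {t : ℝ} (ht0 : 0 ≤ t) (ht : t < 1) (Q : Finset ℕ) (hQ : ∀ n ∈ Q, 29 ≤ n) :
    1 - t ^ 29 / (1 - t) ≤ ∏ n ∈ Q, (1 - t ^ n) := by
  refine le_trans ?_ (one_sub_sum_le Q (fun n => t ^ n) (fun n _ => by positivity)
    (fun n _ => pow_le_one₀ ht0 ht.le))
  have h1 : HasSum (fun n : ℕ => t ^ 29 * t ^ n) (t ^ 29 * (1 - t)⁻¹) :=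
    (hasSum_geometric_of_lt_one ht0 ht).mul_left _
  have h2 : ∑ n ∈ Q, t ^ n ≤ t ^ 29 * (1 - t)⁻¹ := by
    have h3 : ∑ n ∈ Q, t ^ n = ∑ n ∈ Q.image (fun n => n - 29), t ^ 29 * t ^ n := by
      rw [sum_image]
      · refine sum_congr rfl fun n hn => ?_
        rw [← pow_add, Nat.add_sub_cancel' (hQ n hn)]
      · intro a ha b hb hab
        have := hQ a ha
        have := hQ b hb
        simp only [] at hab
        omega
    rw [h3, ← h1.tsum_eq]
    exact h1.summable.sum_le_tsum _ fun n _ => by positivity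
  rw [div_eq_mul_inv]
  linarith

lemma F_le {t : ℝ} (ht0 : 0 ≤ t) (ht : t < 1) (M : ℕ) (hM : 29 ≤ M) :
    F t ≤ ∏ p ∈ (range M).filter Nat.Prime, (1 - t ^ p) := by
  have h1 : (range M).filter Nat.Prime = sp ∪ ((range M).filter fun p => p.Prime ∧ 29 ≤ p) := by
    ext p
    simp only [mem_union, mem_filter, mem_range]
    constructor
    · rintro ⟨h2, h3⟩
      by_cases h4 : 29 ≤ p
      · exact Or.inr ⟨h2, h3, h4⟩
      · left
        have h5 : p < 29 := not_le.1 h4
        clear h4 h2
        unfold sp
        interval_cases p <;> first | decide | (exfalso; revert h3; decide)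
    · rintro (h2 | h2)
      · unfold sp at h2
        simp only [mem_insert, mem_singleton] at h2
        rcases h2 with rfl | rfl | rfl | rfl | rfl | rfl | rfl | rfl | rfl <;>
          exact ⟨by omega, by decide⟩
      · exact ⟨h2.1, h2.2.1⟩
  have h2 : Disjoint sp ((range M).filter fun p => p.Prime ∧ 29 ≤ p) := by
    rw [disjoint_left]
    intro p h3 h4
    rw [mem_filter] at h4
    unfold sp at h3
    simp only [mem_insert, mem_singleton] at h3
    omega
  rw [h1, prod_union h2]
  unfold F
  have h3 : 0 ≤ ∏ p ∈ sp, (1 - t ^ p) :=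
    prod_nonneg fun p _ => sub_nonneg.2 (pow_le_one₀ ht0 ht.le)
  refine mul_le_mul_of_nonneg_left (tail ht0 ht _ fun n hn => ?_) h3
  exact (mem_filter.1 hn).2.2

/-- Grouping by the least prime factor. -/
theorem prod_ge {ι : Type} (U : Finset ι) (w : ι → ℕ) (hw : ∀ i ∈ U, 2 ≤ w i) (B : ℕ)
    (hB : ∀ p : ℕ, p.Prime → (U.filter fun i => p ∣ w i).card ≤ B) {t : ℝ} (ht0 : 0 ≤ t)
    (ht : t < 1) (hF : 0 ≤ 1 - t ^ 29 / (1 - t)) : F t ^ B ≤ ∏ i ∈ U, (1 - t ^ w i) := by
  classical
  set M : ℕ := 29 + ∑ i ∈ U, (w i + 1) with hM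
  set P := (range M).filter Nat.Prime with hP
  have h1 : ∀ i ∈ U, (w i).minFac ∈ P := by
    intro i hi
    rw [hP, mem_filter, mem_range]
    refine ⟨?_, Nat.minFac_prime (by have := hw i hi; omega)⟩
    have h2 : w i + 1 ≤ ∑ i ∈ U, (w i + 1) :=
      single_le_sum (f := fun i => w i + 1) (fun _ _ => Nat.zero_le _) hi
    have h3 := Nat.minFac_le (n := w i) (by have := hw i hi; omega)
    omega
  have h0 : ∀ n : ℕ, 0 ≤ 1 - t ^ n := fun n => sub_nonneg.2 (pow_le_one₀ ht0 ht.le)
  calc F t ^ B ≤ (∏ p ∈ P, (1 - t ^ p)) ^ B := by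
        refine pow_le_pow_left₀ ?_ (F_le ht0 ht M (by omega)) B
        exact mul_nonneg (prod_nonneg fun p _ => h0 p) hF
    _ = ∏ p ∈ P, (1 - t ^ p) ^ B := by rw [prod_pow]
    _ ≤ ∏ p ∈ P, (1 - t ^ p) ^ (U.filter fun i => (w i).minFac = p).card := by
        refine prod_le_prod (fun p _ => pow_nonneg (h0 p) _) fun p hp => ?_
        refine pow_le_pow_of_le_one (h0 p) (by have := pow_nonneg ht0 p; linarith) ?_
        refine le_trans (card_le_card ?_) (hB p (mem_filter.1 hp).2)
        intro i hi
        rw [mem_filter] at hi ⊢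
        exact ⟨hi.1, hi.2 ▸ Nat.minFac_dvd _⟩
    _ = ∏ i ∈ U, (1 - t ^ (w i).minFac) := by
        rw [← prod_fiberwise_of_maps_to h1]
        refine prod_congr rfl fun p _ => ?_
        rw [← prod_const]
        refine prod_congr rfl fun i hi => ?_
        rw [(mem_filter.1 hi).2]
    _ ≤ ∏ i ∈ U, (1 - t ^ w i) := by
        refine prod_le_prod (fun i _ => h0 _) fun i hi => ?_
        have := pow_le_pow_of_le_one ht0 ht.le
          (Nat.minFac_le (n := w i) (by have := hw i hi; omega))
        linarith

end prod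

end Pool.Agent.Helper9.SC
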