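import Pool.Agent.Helper9.SC4

/-!
# The theta bound: the maximum principle on an annulus
-/

set_option autoImplicit false

namespace Pool.Agent.Helper9.SC

open Finset Polynomial

/-- Shift of a power series. -/
theorem shift_hasSumC (i : ℕ) (a b : ℕ → ℂ) {t : ℂ} {s : ℂ} (hab : ∀ m, b (m + i) = a m)
    (hb : ∀ n, n < i → b n = 0) (h : HasSum (fun m => a m * t ^ m) s) :
    HasSum (fun n => b n * t ^ n) (t ^ i * s) := by
  have h2 := h.mul_left (t ^ i)
  have e1 : (fun m => t ^ i * (a m * t ^ m)) = fun m => (fun n => b n * t ^ n) (m + i) := by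
    funext m
    change t ^ i * (a m * t ^ m) = b (m + i) * t ^ (m + i)
    rw [hab, pow_add]
    ring
  rw [e1] at h2
  have h3 := (hasSum_nat_add_iff (f := fun n => b n * t ^ n) i).1 h2
  have h4 : ∑ j ∈ range i, b j * t ^ j = 0 :=
    Finset.sum_eq_zero fun j hj => by rw [hb j (mem_range.1 hj), zero_mul]
  rw [h4, add_zero] at h3
  exact h3

/-- The value of the Hilbert series at a complex point. -/
theorem hasSum_HC {D : ℕ} {H : ℕ → ℤ} {R : ℤ[X]}
    (h : (PowerSeries.mk H : PowerSeries ℤ) * (1 - PowerSeries.X) ^ (D + 1) = (R : PowerSeries ℤ))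
    {t : ℂ} (ht : ‖t‖ < 1) :
    HasSum (fun n => (H n : ℂ) * t ^ n) (aeval t R / (1 - t) ^ (D + 1)) := by
  have hc : ∀ i : ℕ, HasSum (fun n => (if i ≤ n then ((n - i + D).choose D : ℂ) else 0) * t ^ n)
      (t ^ i * (1 / (1 - t) ^ (D + 1))) := by
    intro i
    have h1 := hasSum_choose_mul_geometric_of_norm_lt_one D ht
    exact shift_hasSumC i (fun m => ((m + D).choose D : ℂ)) (fun n => _) (fun m => by
      simp) (fun n hn => by simp [not_le.2 hn]) h1
  have h5 := hasSum_sum (f := fun i n => (R.coeff i : ℂ) *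
    ((if i ≤ n then ((n - i + D).choose D : ℂ) else 0) * t ^ n)) (s := range (R.natDegree + 1))
    (fun i _ => (hc i).mul_left (R.coeff i : ℂ))
  convert h5 using 1
  · ext n
    have hq := Pool.Agent.Q86.Gap.coeff_eq D H R h n
    have hq' : (H n : ℂ) = ∑ i ∈ range (n + 1), (R.coeff i : ℂ) * ((n - i + D).choose D : ℂ) := by
      rw [hq]
      push_cast
      rfl
    rw [hq', Finset.sum_mul]
    have e1 : ∑ i ∈ range (n + 1), (R.coeff i : ℂ) * ((n - i + D).choose D : ℂ) * t ^ n =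
        ∑ i ∈ (range (n + 1)).filter (fun i => i ≤ R.natDegree),
          (R.coeff i : ℂ) * ((n - i + D).choose D : ℂ) * t ^ n := by
      rw [Finset.sum_filter]
      refine Finset.sum_congr rfl fun i _ => ?_
      split_ifs with hi
      · rfl
      · rw [coeff_eq_zero_of_natDegree_lt (not_le.1 hi)]
        simp
    rw [e1]
    have e2 : ∑ i ∈ range (R.natDegree + 1), (R.coeff i : ℂ) *
        ((if i ≤ n then ((n - i + D).choose D : ℂ) else 0) * t ^ n) =
        ∑ i ∈ (range (R.natDegree + 1)).filter (fun i => i ≤ n),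
          (R.coeff i : ℂ) * ((n - i + D).choose D : ℂ) * t ^ n := by
      rw [Finset.sum_filter]
      refine Finset.sum_congr rfl fun i _ => ?_
      split_ifs with hi
      · ring
      · ring
    rw [e2]
    refine Finset.sum_congr ?_ fun _ _ => rfl
    ext i
    simp only [mem_filter, mem_range]
    omega
  · rw [aeval_eq_sum_range, Finset.sum_div]
    refine Finset.sum_congr rfl fun i _ => ?_
    rw [zsmul_eq_mul]
    ring

/-- `|R(t)| ≤ H(|t|) |1 - t| ^ d`. -/
theorem norm_R_le {D : ℕ} {H : ℕ → ℤ} (hH : ∀ n, 0 ≤ H n) {R : ℤ[X]}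
    (h : (PowerSeries.mk H : PowerSeries ℤ) * (1 - PowerSeries.X) ^ (D + 1) = (R : PowerSeries ℤ))
    {r : ℝ} (hr : r < 1) {t : ℂ} (ht : ‖t‖ = r) :
    ‖aeval t R‖ ≤ aeval r R / (1 - r) ^ (D + 1) * ‖1 - t‖ ^ (D + 1) := by
  have hr0 : 0 ≤ r := ht ▸ norm_nonneg t
  have h1 := hasSum_HC h (ht.trans_lt hr)
  have h2 := hasSum_H h hr0 hr
  have h3 : ‖aeval t R / (1 - t) ^ (D + 1)‖ ≤ aeval r R / (1 - r) ^ (D + 1) := by
    rw [← h1.tsum_eq, ← h2.tsum_eq]
    have h4 : ∀ n, ‖(H n : ℂ) * t ^ n‖ = (H n : ℝ) * r ^ n := by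
      intro n
      rw [norm_mul, norm_pow, ht, Complex.norm_intCast, abs_of_nonneg (by exact_mod_cast hH n)]
    have h5 : Summable fun n => ‖(H n : ℂ) * t ^ n‖ := by
      simp_rw [h4]
      exact h2.summable
    refine (norm_tsum_le_tsum_norm h5).trans (le_of_eq ?_)
    simp_rw [h4]
  have h1t : (1 - t) ≠ 0 := by
    intro h0
    have : t = 1 := (sub_eq_zero.1 h0).symm
    rw [this, norm_one] at ht
    exact hr.ne' ht
  rw [norm_div, norm_pow, div_le_iff₀ (by positivity)] at h3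
  exact h3

end Pool.Agent.Helper9.SC
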