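import Pool.Agent.Helper9.SC6

/-!
# The theta bound: the maximum principle on an annulus
-/

set_option autoImplicit false

namespace Pool.Agent.Helper9.SC

open Finset Polynomial

/-- The theta quotient. -/
noncomputable def Mt (r : ℝ) (K : ℕ) (t : ℂ) : ℂ :=
  ∏ k ∈ range K, ((1 - (r : ℂ) ^ (4 * k + 4) * t) * (1 - (r : ℂ) ^ (4 * k + 4) * t⁻¹)) /
    ((1 - (r : ℂ) ^ (4 * k + 2) * t) * (1 - (r : ℂ) ^ (4 * k + 2) * t⁻¹))

lemma Mt_inv (r : ℝ) (K : ℕ) (t : ℂ) : Mt r K t⁻¹ = Mt r K t := by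
  unfold Mt
  refine prod_congr rfl fun k _ => ?_
  rw [inv_inv, mul_comm (1 - (r : ℂ) ^ (4 * k + 4) * t⁻¹), mul_comm (1 - (r : ℂ) ^ (4 * k + 2) * t⁻¹)]

/-- The value at one. -/
noncomputable def mK (r : ℝ) (K : ℕ) : ℝ :=
  ∏ k ∈ range K, ((1 - r ^ (4 * k + 4)) / (1 - r ^ (4 * k + 2))) ^ 2

lemma Mt_one (r : ℝ) (K : ℕ) : Mt r K 1 = (mK r K : ℂ) := by
  unfold Mt mK
  push_cast
  refine prod_congr rfl fun k _ => ?_
  rw [inv_one, mul_one, mul_one, div_pow, sq, sq]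

lemma ne_zero_of_norm_lt {z : ℂ} (h : ‖z‖ < 1) : 1 - z ≠ 0 := by
  intro h0
  have : z = 1 := (sub_eq_zero.1 h0).symm
  rw [this, norm_one] at h
  exact lt_irrefl _ h

lemma norm_refl {r : ℝ} (hr0 : 0 < r) {t : ℂ} (ht : ‖t‖ = r) (m : ℕ) :
    ‖1 - (r : ℂ) ^ (m + 2) * t⁻¹‖ = ‖1 - (r : ℂ) ^ m * t‖ := by
  have ht0 : t ≠ 0 := by
    rintro rfl
    rw [norm_zero] at ht
    exact hr0.ne ht
  have h1 : (r : ℂ) ^ 2 * t⁻¹ = (starRingEnd ℂ) t := by
    rw [Complex.inv_def, ← mul_assoc, mul_comm ((r : ℂ) ^ 2), mul_assoc, Complex.normSq_eq_norm_sq,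
      ht]
    push_cast
    rw [mul_inv_cancel₀, mul_one]
    exact pow_ne_zero _ (by exact_mod_cast hr0.ne')
  have h2 : 1 - (r : ℂ) ^ (m + 2) * t⁻¹ = (starRingEnd ℂ) (1 - (r : ℂ) ^ m * t) := by
    rw [pow_add, mul_assoc, h1, map_sub, map_one, map_mul, map_pow, Complex.conj_ofReal]
  rw [h2, Complex.norm_conj]

lemma norm_Mt {r : ℝ} (hr0 : 0 < r) (hr : r < 1) {t : ℂ} (ht : ‖t‖ = r) (K : ℕ) :
    ‖1 - t‖ * ‖Mt r K t‖ = ‖1 - (r : ℂ) ^ (4 * K) * t‖ := by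
  induction K with
  | zero => simp [Mt]
  | succ K ih =>
    unfold Mt at ih ⊢
    rw [prod_range_succ, norm_mul, ← mul_assoc, ih, norm_div, norm_mul, norm_mul]
    have e1 := norm_refl hr0 ht (4 * K + 2)
    have e2 := norm_refl hr0 ht (4 * K)
    rw [show 4 * K + 2 + 2 = 4 * K + 4 by ring] at e1
    rw [e1, e2]
    have hne : ∀ m : ℕ, ‖1 - (r : ℂ) ^ m * t‖ ≠ 0 := by
      intro m
      rw [norm_ne_zero_iff]
      apply ne_zero_of_norm_lt
      rw [norm_mul, norm_pow, Complex.norm_real, Real.norm_eq_abs, abs_of_pos hr0, ht]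
      calc r ^ m * r ≤ 1 * r := by
            apply mul_le_mul_of_nonneg_right (pow_le_one₀ hr0.le hr.le) hr0.le
        _ < 1 := by linarith
    have h1 := hne (4 * K)
    have h2 := hne (4 * K + 2)
    rw [show 4 * (K + 1) = 4 * K + 4 by ring]
    generalize ‖1 - (r : ℂ) ^ (4 * K) * t‖ = A at h1 ⊢
    generalize ‖1 - (r : ℂ) ^ (4 * K + 2) * t‖ = B at h2 ⊢
    generalize ‖1 - (r : ℂ) ^ (4 * K + 4) * t‖ = C
    field_simp

lemma aeval_inv {R : ℤ[X]} (hR : R.reverse = R) {t : ℂ} (ht : t ≠ 0) :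
    aeval t⁻¹ R * t ^ R.natDegree = aeval t R := by
  let _ := invertibleOfNonzero ht
  have h := eval₂_reverse_mul_pow (algebraMap ℤ ℂ) t R
  rw [hR, invOf_eq_inv] at h
  exact h

/-- The auxiliary function. -/
noncomputable def Fx (R : ℤ[X]) (r : ℝ) (K m : ℕ) (t : ℂ) : ℂ :=
  (aeval t R) ^ 2 * Mt r K t ^ m * (t⁻¹) ^ R.natDegree

lemma Fx_inv {R : ℤ[X]} (hR : R.reverse = R) (r : ℝ) (K m : ℕ) {t : ℂ} (ht : t ≠ 0) :
    Fx R r K m t⁻¹ = Fx R r K m t := by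
  unfold Fx
  rw [Mt_inv, inv_inv, ← aeval_inv hR ht, mul_pow, inv_pow]
  have : t ^ R.natDegree ≠ 0 := pow_ne_zero _ ht
  field_simp

lemma Fx_diff (R : ℤ[X]) {r : ℝ} (hr0 : 0 < r) (hr : r < 1) (K m : ℕ) {t : ℂ} (h1 : r ≤ ‖t‖)
    (h2 : ‖t‖ ≤ r⁻¹) : DifferentiableAt ℂ (Fx R r K m) t := by
  have ht0 : t ≠ 0 := by
    rintro rfl
    rw [norm_zero] at h1
    exact absurd h1 (not_le.2 hr0)
  have hinv : DifferentiableAt ℂ (fun t : ℂ => t⁻¹) t := differentiableAt_inv ht0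
  have hpos : 0 < ‖t‖ := norm_pos_iff.2 ht0
  have hsm : ∀ k : ℕ, r ^ (4 * k + 1) < 1 := fun k => pow_lt_one₀ hr0.le hr (by omega)
  have hd1 : ∀ k : ℕ, 1 - (r : ℂ) ^ (4 * k + 2) * t ≠ 0 := by
    intro k
    apply ne_zero_of_norm_lt
    rw [norm_mul, norm_pow, Complex.norm_real, Real.norm_eq_abs, abs_of_pos hr0]
    calc r ^ (4 * k + 2) * ‖t‖ ≤ r ^ (4 * k + 2) * r⁻¹ :=
          mul_le_mul_of_nonneg_left h2 (by positivity)
      _ = r ^ (4 * k + 1) := by rw [pow_succ r (4 * k + 1)]; field_simp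
      _ < 1 := hsm k
  have hd2 : ∀ k : ℕ, 1 - (r : ℂ) ^ (4 * k + 2) * t⁻¹ ≠ 0 := by
    intro k
    apply ne_zero_of_norm_lt
    rw [norm_mul, norm_pow, Complex.norm_real, Real.norm_eq_abs, abs_of_pos hr0, norm_inv]
    calc r ^ (4 * k + 2) * ‖t‖⁻¹ ≤ r ^ (4 * k + 2) * r⁻¹ :=
          mul_le_mul_of_nonneg_left (inv_anti₀ hr0 h1) (by positivity)
      _ = r ^ (4 * k + 1) := by rw [pow_succ r (4 * k + 1)]; field_simp
      _ < 1 := hsm k
  have hM : DifferentiableAt ℂ (Mt r K) t := by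
    unfold Mt
    apply DifferentiableAt.fun_finsetProd
    intro k _
    refine DifferentiableAt.div ?_ ?_ (mul_ne_zero (hd1 k) (hd2 k))
    · fun_prop (disch := exact ht0)
    · fun_prop (disch := exact ht0)
  have hR : DifferentiableAt ℂ (fun t : ℂ => aeval t R) t := (R.differentiable_aeval).differentiableAt
  exact ((hR.pow 2).mul (hM.pow m)).mul (hinv.pow _)

/-- **The theta bound.** -/
theorem theta_bound {D : ℕ} {H : ℕ → ℤ} (hH : ∀ n, 0 ≤ H n) {R : ℤ[X]}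
    (h : (PowerSeries.mk H : PowerSeries ℤ) * (1 - PowerSeries.X) ^ (D + 1) = (R : PowerSeries ℤ))
    (hR : R.reverse = R) {r : ℝ} (hr0 : 0 < r) (hr : r < 1) (K : ℕ) :
    ((R.eval 1 : ℤ) : ℝ) ^ 2 * mK r K ^ (2 * (D + 1)) * r ^ R.natDegree ≤
      (aeval r R / (1 - r) ^ (D + 1)) ^ 2 * (1 + r ^ (4 * K + 1)) ^ (2 * (D + 1)) := by
  set C : ℝ := (aeval r R / (1 - r) ^ (D + 1)) ^ 2 * (1 + r ^ (4 * K + 1)) ^ (2 * (D + 1)) *
    (r⁻¹) ^ R.natDegree with hC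
  have hr1 : 1 < r⁻¹ := (one_lt_inv₀ hr0).2 hr
  let U : Set ℂ := {t | r < ‖t‖ ∧ ‖t‖ < r⁻¹}
  have hUo : IsOpen U := by
    apply IsOpen.inter
    · exact isOpen_lt continuous_const continuous_norm
    · exact isOpen_lt continuous_norm continuous_const
  have hUb : Bornology.IsBounded U :=
    (Metric.isBounded_ball (x := (0 : ℂ)) (r := r⁻¹)).subset fun t ht => by
      rw [mem_ball_zero_iff]
      exact ht.2
  have hcl : closure U ⊆ {t | r ≤ ‖t‖ ∧ ‖t‖ ≤ r⁻¹} := by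
    apply closure_minimal
    · exact fun t ht => ⟨ht.1.le, ht.2.le⟩
    · apply IsClosed.inter
      · exact isClosed_le continuous_const continuous_norm
      · exact isClosed_le continuous_norm continuous_const
  have hdiff : DiffContOnCl ℂ (Fx R r K (2 * (D + 1))) U := by
    apply DifferentiableOn.diffContOnCl
    intro t ht
    exact (Fx_diff R hr0 hr K _ (hcl ht).1 (hcl ht).2).differentiableWithinAt
  have hin : ∀ t : ℂ, ‖t‖ = r → ‖Fx R r K (2 * (D + 1)) t‖ ≤ C := by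
    intro t ht
    have h1 := norm_R_le hH h hr ht
    have h2 := norm_Mt hr0 hr ht K
    have h3 : ‖1 - (r : ℂ) ^ (4 * K) * t‖ ≤ 1 + r ^ (4 * K + 1) := by
      refine (norm_sub_le _ _).trans (le_of_eq ?_)
      rw [norm_one, norm_mul, norm_pow, Complex.norm_real, Real.norm_eq_abs, abs_of_pos hr0, ht,
        pow_succ]
    rw [← h2] at h3
    unfold Fx
    rw [norm_mul, norm_mul, norm_pow, norm_pow, norm_pow, norm_inv, ht, hC]
    refine mul_le_mul_of_nonneg_right ?_ (by positivity)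
    have h4 : ‖aeval t R‖ ^ 2 ≤ (aeval r R / (1 - r) ^ (D + 1) * ‖1 - t‖ ^ (D + 1)) ^ 2 :=
      pow_le_pow_left₀ (norm_nonneg _) h1 2
    calc ‖aeval t R‖ ^ 2 * ‖Mt r K t‖ ^ (2 * (D + 1)) ≤
        (aeval r R / (1 - r) ^ (D + 1) * ‖1 - t‖ ^ (D + 1)) ^ 2 * ‖Mt r K t‖ ^ (2 * (D + 1)) :=
          mul_le_mul_of_nonneg_right h4 (by positivity)
      _ = (aeval r R / (1 - r) ^ (D + 1)) ^ 2 * (‖1 - t‖ * ‖Mt r K t‖) ^ (2 * (D + 1)) := by
          rw [mul_pow, mul_pow (‖1 - t‖), ← pow_mul, mul_comm (D + 1) 2]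
          ring
      _ ≤ _ := by
          refine mul_le_mul_of_nonneg_left ?_ (sq_nonneg _)
          exact pow_le_pow_left₀ (by positivity) h3 _
  have hfr : ∀ t ∈ frontier U, ‖Fx R r K (2 * (D + 1)) t‖ ≤ C := by
    intro t ht
    rw [hUo.frontier_eq] at ht
    obtain ⟨h1, h2⟩ := hcl ht.1
    have h3 : ‖t‖ = r ∨ ‖t‖ = r⁻¹ := by
      by_contra hcon
      push Not at hcon
      exact ht.2 ⟨lt_of_le_of_ne h1 hcon.1.symm, lt_of_le_of_ne h2 hcon.2⟩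
    rcases h3 with h3 | h3
    · exact hin t h3
    · have ht0 : t ≠ 0 := by
        rintro rfl
        rw [norm_zero] at h1
        exact absurd h1 (not_le.2 hr0)
      rw [← Fx_inv hR r K _ ht0]
      apply hin
      rw [norm_inv, h3, inv_inv]
  have h1U : (1 : ℂ) ∈ closure U := subset_closure ⟨by rw [norm_one]; exact hr, by
    rw [norm_one]; exact hr1⟩
  have hmain := Complex.norm_le_of_forall_mem_frontier_norm_le hUb hdiff hfr h1U
  have hval : Fx R r K (2 * (D + 1)) 1 = ((((R.eval 1 : ℤ) : ℝ) ^ 2 * mK r K ^ (2 * (D + 1)) : ℝ) : ℂ) := by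
    unfold Fx
    rw [Mt_one, inv_one, one_pow, mul_one, aeval_def, eval₂_at_one]
    push_cast
    simp
  rw [hval, Complex.norm_real, Real.norm_eq_abs] at hmain
  have h5 := (le_abs_self _).trans hmain
  have h6 : 0 < r ^ R.natDegree := by positivity
  have h7 := mul_le_mul_of_nonneg_right h5 h6.le
  refine h7.trans (le_of_eq ?_)
  rw [hC, mul_assoc, ← mul_pow, inv_mul_cancel₀ hr0.ne', one_pow, mul_one]

end Pool.Agent.Helper9.SC
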