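import Pool.Agent.Helper9.SC7

/-!
# The slope
-/

set_option autoImplicit false

namespace Pool.Agent.Helper9.SC

open Finset Polynomial

/-- The product over the generators, if every prime divides at most `B` of the degrees. -/
theorem prod_ge235 {ι : Type} (U : Finset ι) (w : ι → ℕ) (hw : ∀ i ∈ U, 2 ≤ w i) {B d : ℕ}
    (hBd : B ≤ d) (h2 : (U.filter fun i => 2 ∣ w i).card ≤ B)
    (h3 : (U.filter fun i => 3 ∣ w i).card ≤ B) (hU : U.card ≤ B + d) {t : ℝ} (ht0 : 0 ≤ t)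
    (ht : t < 1) :
    ((1 - t ^ 2) * (1 - t ^ 3)) ^ B * (1 - t ^ 5) ^ (d - B) ≤ ∏ i ∈ U, (1 - t ^ w i) := by
  classical
  have h0 : ∀ n : ℕ, 0 ≤ 1 - t ^ n := fun n => sub_nonneg.2 (pow_le_one₀ ht0 ht.le)
  have h1 : ∀ n : ℕ, 1 - t ^ n ≤ 1 := fun n => by
    have := pow_nonneg ht0 n
    linarith
  have hmono : ∀ m n : ℕ, m ≤ n → 1 - t ^ m ≤ 1 - t ^ n := by
    intro m n h
    have := pow_le_pow_of_le_one ht0 ht.le h
    linarith
  set U2 := U.filter fun i => 2 ∣ w i with hU2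
  set U3 := (U.filter fun i => ¬ 2 ∣ w i).filter fun i => 3 ∣ w i with hU3
  set U5 := (U.filter fun i => ¬ 2 ∣ w i).filter fun i => ¬ 3 ∣ w i with hU5
  have hcard : U2.card + (U3.card + U5.card) = U.card := by
    rw [hU3, hU5, card_filter_add_card_filter_not, hU2, card_filter_add_card_filter_not]
  have hprod : (∏ i ∈ U2, (1 - t ^ w i)) * ((∏ i ∈ U3, (1 - t ^ w i)) * ∏ i ∈ U5, (1 - t ^ w i)) =
      ∏ i ∈ U, (1 - t ^ w i) := by
    rw [hU3, hU5, prod_filter_mul_prod_filter_not, hU2, prod_filter_mul_prod_filter_not]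
  have hn3 : U3.card ≤ B := by
    refine le_trans (card_le_card ?_) h3
    intro i hi
    rw [hU3, mem_filter, mem_filter] at hi
    rw [mem_filter]
    exact ⟨hi.1.1, hi.2⟩
  have e2 : (1 - t ^ 2) ^ U2.card ≤ ∏ i ∈ U2, (1 - t ^ w i) := by
    rw [← prod_const]
    exact prod_le_prod (fun _ _ => h0 2) fun i hi => hmono _ _ (hw i (mem_filter.1 hi).1)
  have e3 : (1 - t ^ 3) ^ U3.card ≤ ∏ i ∈ U3, (1 - t ^ w i) := by
    rw [← prod_const]
    refine prod_le_prod (fun _ _ => h0 3) fun i hi => hmono _ _ ?_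
    rw [hU3, mem_filter, mem_filter] at hi
    exact Nat.le_of_dvd (by have := hw i hi.1.1; omega) hi.2
  have e5 : (1 - t ^ 5) ^ U5.card ≤ ∏ i ∈ U5, (1 - t ^ w i) := by
    rw [← prod_const]
    refine prod_le_prod (fun _ _ => h0 5) fun i hi => hmono _ _ ?_
    rw [hU5, mem_filter, mem_filter] at hi
    have h4 := hw i hi.1.1
    by_contra h5
    have h6 : w i = 2 ∨ w i = 3 ∨ w i = 4 := by omega
    rcases h6 with h6 | h6 | h6
    · exact hi.1.2 (by rw [h6])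
    · exact hi.2 (by rw [h6])
    · exact hi.1.2 (by rw [h6]; norm_num)
  rw [← hprod]
  have f2 : (1 - t ^ 2) ^ B ≤ (1 - t ^ 2) ^ U2.card * (1 - t ^ 5) ^ (B - U2.card) := by
    calc (1 - t ^ 2) ^ B = (1 - t ^ 2) ^ U2.card * (1 - t ^ 2) ^ (B - U2.card) := by
          rw [← pow_add]
          congr 1
          omega
      _ ≤ _ := mul_le_mul_of_nonneg_left
          (pow_le_pow_left₀ (h0 2) (hmono 2 5 (by norm_num)) _) (pow_nonneg (h0 2) _)
  have f3 : (1 - t ^ 3) ^ B ≤ (1 - t ^ 3) ^ U3.card * (1 - t ^ 5) ^ (B - U3.card) := by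
    calc (1 - t ^ 3) ^ B = (1 - t ^ 3) ^ U3.card * (1 - t ^ 3) ^ (B - U3.card) := by
          rw [← pow_add]
          congr 1
          omega
      _ ≤ _ := mul_le_mul_of_nonneg_left
          (pow_le_pow_left₀ (h0 3) (hmono 3 5 (by norm_num)) _) (pow_nonneg (h0 3) _)
  have f5 : (1 - t ^ 5) ^ (B - U2.card) * (1 - t ^ 5) ^ (B - U3.card) * (1 - t ^ 5) ^ (d - B) ≤
      (1 - t ^ 5) ^ U5.card := by
    rw [← pow_add, ← pow_add]
    exact pow_le_pow_of_le_one (h0 5) (h1 5) (by omega)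
  calc ((1 - t ^ 2) * (1 - t ^ 3)) ^ B * (1 - t ^ 5) ^ (d - B) =
      (1 - t ^ 2) ^ B * (1 - t ^ 3) ^ B * (1 - t ^ 5) ^ (d - B) := by rw [mul_pow]
    _ ≤ ((1 - t ^ 2) ^ U2.card * (1 - t ^ 5) ^ (B - U2.card)) *
        ((1 - t ^ 3) ^ U3.card * (1 - t ^ 5) ^ (B - U3.card)) * (1 - t ^ 5) ^ (d - B) := by
        refine mul_le_mul_of_nonneg_right ?_ (pow_nonneg (h0 5) _)
        exact mul_le_mul f2 f3 (pow_nonneg (h0 3) _)
          (mul_nonneg (pow_nonneg (h0 2) _) (pow_nonneg (h0 5) _))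
    _ = (1 - t ^ 2) ^ U2.card * ((1 - t ^ 3) ^ U3.card *
        ((1 - t ^ 5) ^ (B - U2.card) * (1 - t ^ 5) ^ (B - U3.card) * (1 - t ^ 5) ^ (d - B))) := by
        ring
    _ ≤ (1 - t ^ 2) ^ U2.card * ((1 - t ^ 3) ^ U3.card * (1 - t ^ 5) ^ U5.card) := by
        refine mul_le_mul_of_nonneg_left ?_ (pow_nonneg (h0 2) _)
        exact mul_le_mul_of_nonneg_left f5 (pow_nonneg (h0 3) _)
    _ ≤ _ := by
        refine mul_le_mul e2 (mul_le_mul e3 e5 (pow_nonneg (h0 5) _) ?_) ?_ ?_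
        · exact prod_nonneg fun i _ => h0 _
        · exact mul_nonneg (pow_nonneg (h0 3) _) (pow_nonneg (h0 5) _)
        · exact prod_nonneg fun i _ => h0 _

/-- The numerical check. -/
lemma mK_ge : (16858 / 10000 : ℝ) ^ 2 ≤ mK (289 / 400) 6 := by
  unfold mK
  rw [prod_pow]
  refine pow_le_pow_left₀ (by norm_num) ?_ 2
  simp only [prod_range_succ, prod_range_zero]
  norm_num

/-- **The slope.** -/
theorem slope {D B s : ℕ} (hs : s ≤ D + 1) (hB : 3 * B ≤ 2 * (D + 1)) {g e : ℝ} (hg : 0 ≤ g)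
    (he : 1 ≤ e)
    (h1 : e ^ 2 * mK (289 / 400) 6 ^ (2 * (D + 1)) * (289 / 400 : ℝ) ^ s ≤
      g ^ 2 * (1 + (289 / 400 : ℝ) ^ (4 * 6 + 1)) ^ (2 * (D + 1)))
    (h2 : g * (((1 - (289 / 400 : ℝ) ^ 2) * (1 - (289 / 400 : ℝ) ^ 3)) ^ B *
      (1 - (289 / 400 : ℝ) ^ 5) ^ (D + 1 - B)) ≤ 1) : False := by
  set r : ℝ := 289 / 400 with hr
  set P : ℝ := (1 - r ^ 2) * (1 - r ^ 3) with hP
  set Q : ℝ := 1 - r ^ 5 with hQ
  have hP0 : 29771 / 100000 ≤ P := by rw [hP, hr]; norm_num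
  have hQ0 : 80312 / 100000 ≤ Q := by rw [hQ, hr]; norm_num
  have hPQ : P ≤ Q := by rw [hP, hQ, hr]; norm_num
  have hE : 1 + r ^ (4 * 6 + 1) ≤ 10003 / 10000 := by rw [hr]; norm_num
  have hPp : 0 < P := lt_of_lt_of_le (by norm_num) hP0
  have hQp : 0 < Q := lt_of_lt_of_le (by norm_num) hQ0
  have hr0 : 0 < r := by rw [hr]; norm_num
  have hr1 : r ≤ 1 := by rw [hr]; norm_num
  clear_value P Q r
  have hm := mK_ge
  rw [← hr] at hm
  set d := D + 1 with hd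
  -- from the theta bound
  have h3 : ((16858 / 10000 : ℝ) ^ 4 * r) ^ d ≤ g ^ 2 * ((10003 / 10000 : ℝ) ^ 2) ^ d := by
    calc ((16858 / 10000 : ℝ) ^ 4 * r) ^ d = ((16858 / 10000 : ℝ) ^ 2) ^ (2 * d) * r ^ d := by
          rw [mul_pow, ← pow_mul, ← pow_mul]
          congr 2
          ring
      _ ≤ mK r 6 ^ (2 * d) * r ^ s := by
          refine mul_le_mul (pow_le_pow_left₀ (by positivity) hm _)
            (pow_le_pow_of_le_one hr0.le hr1 hs) (by positivity) ?_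
          exact pow_nonneg (le_trans (by positivity) hm) _
      _ ≤ e ^ 2 * mK r 6 ^ (2 * d) * r ^ s := by
          have h4 : 1 ≤ e ^ 2 := one_le_pow₀ he
          have h5 : 0 ≤ mK r 6 ^ (2 * d) * r ^ s :=
            mul_nonneg (pow_nonneg (le_trans (by positivity) hm) _) (by positivity)
          rw [mul_assoc]
          exact le_mul_of_one_le_left h5 h4
      _ ≤ g ^ 2 * (1 + r ^ (4 * 6 + 1)) ^ (2 * d) := h1
      _ ≤ _ := by
          rw [← pow_mul]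
          exact mul_le_mul_of_nonneg_left (pow_le_pow_left₀ (by positivity) hE _) (sq_nonneg _)
  have h4 : (((16858 / 10000 : ℝ) ^ 4 * r) ^ 3) ^ d ≤ g ^ 6 * (((10003 / 10000 : ℝ) ^ 2) ^ 3) ^ d := by
    have h5 := pow_le_pow_left₀ (by positivity) h3 3
    calc _ = (((16858 / 10000 : ℝ) ^ 4 * r) ^ d) ^ 3 := by rw [← pow_mul, ← pow_mul, mul_comm 3]
      _ ≤ _ := h5
      _ = _ := by
        rw [mul_pow, ← pow_mul g, ← pow_mul, ← pow_mul (_ ^ 2) 3 d, mul_comm d 3]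
  have h5 : (P ^ 4 * Q ^ 2) ^ d ≤ (P ^ B * Q ^ (d - B)) ^ 6 := by
    have h6 : (P ^ 4 * Q ^ 2) ^ d = P ^ (6 * B) * (P ^ (4 * d - 6 * B) * Q ^ (2 * d)) := by
      rw [← mul_assoc, ← pow_add, mul_pow, ← pow_mul, ← pow_mul]
      congr 2
      omega
    rw [h6, mul_pow, ← pow_mul, ← pow_mul, mul_comm B 6]
    refine mul_le_mul_of_nonneg_left ?_ (by positivity)
    calc P ^ (4 * d - 6 * B) * Q ^ (2 * d) ≤ Q ^ (4 * d - 6 * B) * Q ^ (2 * d) :=
          mul_le_mul_of_nonneg_right (pow_le_pow_left₀ hPp.le hPQ _) (by positivity)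
      _ = Q ^ ((d - B) * 6) := by
          rw [← pow_add]
          congr 1
          omega
  have h6 : g ^ 6 * (P ^ 4 * Q ^ 2) ^ d ≤ 1 := by
    calc g ^ 6 * (P ^ 4 * Q ^ 2) ^ d ≤ g ^ 6 * (P ^ B * Q ^ (d - B)) ^ 6 :=
          mul_le_mul_of_nonneg_left h5 (by positivity)
      _ = (g * (P ^ B * Q ^ (d - B))) ^ 6 := by rw [mul_pow g]
      _ ≤ 1 := pow_le_one₀ (by positivity) h2
  have h7 : (((16858 / 10000 : ℝ) ^ 4 * r) ^ 3 * (P ^ 4 * Q ^ 2)) ^ d ≤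
      (((10003 / 10000 : ℝ) ^ 2) ^ 3) ^ d := by
    rw [mul_pow]
    calc _ ≤ g ^ 6 * (((10003 / 10000 : ℝ) ^ 2) ^ 3) ^ d * (P ^ 4 * Q ^ 2) ^ d :=
          mul_le_mul_of_nonneg_right h4 (by positivity)
      _ = g ^ 6 * (P ^ 4 * Q ^ 2) ^ d * (((10003 / 10000 : ℝ) ^ 2) ^ 3) ^ d := by ring
      _ ≤ 1 * _ := mul_le_mul_of_nonneg_right h6 (by positivity)
      _ = _ := one_mul _
  have h8 : ((10003 / 10000 : ℝ) ^ 2) ^ 3 < ((16858 / 10000 : ℝ) ^ 4 * r) ^ 3 * (P ^ 4 * Q ^ 2) := by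
    calc ((10003 / 10000 : ℝ) ^ 2) ^ 3 <
        ((16858 / 10000 : ℝ) ^ 4 * r) ^ 3 * ((29771 / 100000) ^ 4 * (80312 / 100000) ^ 2) := by
          rw [hr]
          norm_num
      _ ≤ _ := by
          refine mul_le_mul_of_nonneg_left ?_ (by positivity)
          exact mul_le_mul (pow_le_pow_left₀ (by norm_num) hP0 4)
            (pow_le_pow_left₀ (by norm_num) hQ0 2) (by positivity) (by positivity)
  exact absurd h7 (not_le.2 (pow_lt_pow_left₀ h8 (by positivity) (by omega)))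

end Pool.Agent.Helper9.SC
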