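import Pool.Agent.Helper9.SC8

/-!
# Small codimension
-/

set_option autoImplicit false

namespace Pool.Agent.Helper9.SC

open Finset Polynomial

section low

variable {D : ℕ} {H : ℕ → ℤ} {R : ℤ[X]}

lemma two_choose (D : ℕ) : 2 * ((2 + D).choose D : ℤ) = (D + 1) * (D + 2) := by
  have h1 : (2 + D).choose D = (D + 2).choose 2 := by
    rw [add_comm 2 D, ← Nat.choose_symm_add]
  have h2 : (D + 2).choose 2 * 2 = (D + 1) * (D + 2) := by
    induction D with
    | zero => rfl
    | succ D ih =>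
      have e : (D + 1 + 2).choose 2 = (D + 2).choose 1 + (D + 2).choose 2 := rfl
      rw [e, Nat.choose_one_right]
      have h3 : (2 + D).choose D = (D + 2).choose 2 := by
        rw [add_comm 2 D, ← Nat.choose_symm_add]
      have := ih h3
      nlinarith
  rw [h1]
  have h3 : (((D + 2).choose 2 : ℕ) : ℤ) * 2 = ((D : ℤ) + 1) * (D + 2) := by exact_mod_cast h2
  linarith

lemma six_choose (D : ℕ) : 6 * ((3 + D).choose D : ℤ) = (D + 1) * (D + 2) * (D + 3) := by
  have h2 : ∀ D : ℕ, (D + 3).choose 3 * 6 = (D + 1) * (D + 2) * (D + 3) := by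
    intro D
    induction D with
    | zero => rfl
    | succ D ih =>
      have e : (D + 1 + 3).choose 3 = (D + 3).choose 2 + (D + 3).choose 3 := rfl
      have h4 := two_choose (D + 1)
      have h5 : (2 + (D + 1)).choose (D + 1) = (D + 3).choose 2 := by
        rw [show 2 + (D + 1) = (D + 1) + 2 by ring]
        exact (Nat.choose_symm_add (a := D + 1) (b := 2)).trans rfl
      rw [h5] at h4
      have h6 : 2 * (D + 3).choose 2 = (D + 1 + 1) * (D + 1 + 2) := by exact_mod_cast h4
      rw [e]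
      nlinarith
  have h1 : (3 + D).choose D = (D + 3).choose 3 := by
    rw [add_comm 3 D, ← Nat.choose_symm_add]
  rw [h1]
  have h3 : (((D + 3).choose 3 : ℕ) : ℤ) * 6 = ((D : ℤ) + 1) * (D + 2) * (D + 3) := by
    exact_mod_cast h2 D
  linarith

/-- The first coefficients. -/
lemma coeffs
    (h : (PowerSeries.mk H : PowerSeries ℤ) * (1 - PowerSeries.X) ^ (D + 1) = (R : PowerSeries ℤ))
    (h0 : H 0 = 1) (h1 : H 1 = 0) :
    R.coeff 0 = 1 ∧ R.coeff 1 = -(D + 1) ∧ 2 * R.coeff 2 = 2 * H 2 + D * (D + 1) ∧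
      6 * R.coeff 3 = 6 * H 3 - 6 * (D + 1) * H 2 - (D + 1) * D * (D - 1) := by
  have e0 := Pool.Agent.Q86.Gap.coeff_eq D H R h 0
  have e1 := Pool.Agent.Q86.Gap.coeff_eq D H R h 1
  have e2 := Pool.Agent.Q86.Gap.coeff_eq D H R h 2
  have e3 := Pool.Agent.Q86.Gap.coeff_eq D H R h 3
  have c1 : ((1 + D).choose D : ℤ) = D + 1 := by
    rw [add_comm 1 D, Nat.choose_succ_self_right]
    push_cast
    ring
  have c2 := two_choose D
  have c3 := six_choose D
  simp only [sum_range_succ, sum_range_zero, Nat.sub_zero, Nat.sub_self, zero_add,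
    Nat.choose_self, Nat.cast_one, mul_one, Nat.reduceSub] at e0 e1 e2 e3
  rw [c1] at e1 e2 e3
  generalize ((2 + D).choose D : ℤ) = C2 at e2 e3 c2
  generalize ((3 + D).choose D : ℤ) = C3 at e3 c3
  rw [h0] at e0
  rw [h1, ← e0, one_mul] at e1
  rw [← e0] at e2 e3
  have f1 : R.coeff 1 = -(D + 1) := by linarith
  rw [f1] at e2 e3
  have f2 : 2 * R.coeff 2 = 2 * H 2 + D * (D + 1) := by
    linear_combination (-2) * e2 - c2
  refine ⟨e0.symm, f1, f2, ?_⟩
  linear_combination (-6) * e3 - 3 * (D + 1) * f2 + 3 * (D + 1) * c2 - c3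

lemma eval_one (R : ℤ[X]) : R.eval 1 = ∑ i ∈ range (R.natDegree + 1), R.coeff i := by
  rw [eval_eq_sum_range]
  simp

lemma sym (hr : R.reverse = R) (i : ℕ) (hi : i ≤ R.natDegree) :
    R.coeff i = R.coeff (R.natDegree - i) := by
  conv_lhs => rw [← hr]
  rw [coeff_reverse, revAt_le hi]

/-- **The number of elements of degree three.** -/
theorem deg_three
    (h : (PowerSeries.mk H : PowerSeries ℤ) * (1 - PowerSeries.X) ^ (D + 1) = (R : PowerSeries ℤ))
    (hr : R.reverse = R) (hR1 : 0 < R.eval 1) (h0 : H 0 = 1) (h1 : H 1 = 0) (h2 : 0 ≤ H 2)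
    (hs4 : 4 ≤ R.natDegree) (hs7 : R.natDegree ≤ 7) {b : ℤ} (hb1 : 1 ≤ b)
    (hb : R.natDegree + b = D + 1) : b * (b + 4) * (b + 5) ≤ 6 * H 3 := by
  obtain ⟨r0, r1, r2, r3⟩ := coeffs h h0 h1
  have hs := sym hr
  rw [eval_one] at hR1
  have hD : (D : ℤ) = R.natDegree + b - 1 := by linarith
  rw [hD] at r1 r2 r3
  generalize hρ : R.natDegree = ρ at *
  generalize H 2 = x at *
  interval_cases ρ
  · have h4 := hs 1 (by omega)
    norm_num at h4
    rw [r1] at h4
    rw [← h4] at r3
    push_cast at r3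
    nlinarith
  · have h4 := hs 2 (by omega)
    norm_num at h4
    push_cast at r2 r3
    nlinarith
  · have h4 := hs 0 (by omega)
    have h5 := hs 1 (by omega)
    have h6 := hs 2 (by omega)
    norm_num at h4 h5 h6
    simp only [Finset.sum_range_succ, Finset.sum_range_zero] at hR1
    rw [← h4, ← h5, ← h6, r0, r1] at hR1
    push_cast at r2 r3 hR1
    nlinarith
  · have h4 := hs 0 (by omega)
    have h5 := hs 1 (by omega)
    have h6 := hs 2 (by omega)
    have h7 := hs 3 (by omega)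
    norm_num at h4 h5 h6 h7
    simp only [Finset.sum_range_succ, Finset.sum_range_zero] at hR1
    rw [← h4, ← h5, ← h6, ← h7, r0, r1] at hR1
    push_cast at r2 r3 hR1
    have h8 : 1 ≤ 1 + R.coeff 1 + R.coeff 2 + R.coeff 3 := by
      rw [r1]
      push_cast
      linarith
    rw [r1] at h8
    push_cast at h8
    nlinarith

end low

end Pool.Agent.Helper9.SC
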